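import Pool.Agent.H85.AK.Stmt2

/-!
# S_levels (helper225 for helper85): telescoping of logarithms over a finite set of levels
-/

set_option autoImplicit false

namespace Pool.Agent.H225.AKLevels

open Finset

theorem filt_le {α β : Type} [LinearOrder β] (S : Finset α) (w : α → β) {γ a : β} (h : γ < a) :
    (S.filter fun x => w x ≤ γ) = (S.filter fun x => w x < a).filter fun x => w x ≤ γ := by
  rw [Finset.filter_filter]
  refine Finset.filter_congr fun x _ => ?_
  exact ⟨fun h1 => ⟨h1.trans_lt h, h1⟩, fun h1 => h1.2⟩

theorem filt_lt {α β : Type} [LinearOrder β] (S : Finset α) (w : α → β) {γ a : β} (h : γ < a) :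
    (S.filter fun x => w x < γ) = (S.filter fun x => w x < a).filter fun x => w x < γ := by
  rw [Finset.filter_filter]
  refine Finset.filter_congr fun x _ => ?_
  exact ⟨fun h1 => ⟨h1.trans h, h1⟩, fun h1 => h1.2⟩

theorem s_levels : Pool.Agent.H85.AK.Stmt2.S_levels := by
  intro α β _ S w Φ
  induction Φ using Finset.induction_on_max generalizing S with
  | empty =>
    refine ⟨?_, fun h => ?_⟩
    · rw [Finset.sum_empty]
      apply Real.log_nonneg
      have : (0 : ℝ) ≤ (S.card : ℝ) := Nat.cast_nonneg _
      linarith
    · have hS : S = ∅ := by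
        rw [Finset.eq_empty_iff_forall_notMem]
        intro a ha
        exact absurd (h a ha) (Finset.notMem_empty _)
      rw [Finset.sum_empty, hS, Finset.card_empty]
      norm_num
  | insert a s hmax ih =>
    have ha : a ∉ s := fun h => lt_irrefl a (hmax a h)
    obtain ⟨S', hS'⟩ : ∃ S', S' = S.filter fun x => w x < a := ⟨_, rfl⟩
    obtain ⟨i1, i2⟩ := ih S'
    have hsum : ∑ γ ∈ s, (Real.log (1 + ((S.filter fun a => w a ≤ γ).card : ℝ)) -
        Real.log (1 + ((S.filter fun a => w a < γ).card : ℝ))) =
        ∑ γ ∈ s, (Real.log (1 + ((S'.filter fun a => w a ≤ γ).card : ℝ)) -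
        Real.log (1 + ((S'.filter fun a => w a < γ).card : ℝ))) := by
      refine Finset.sum_congr rfl fun γ hγ => ?_
      rw [filt_le S w (hmax γ hγ), filt_lt S w (hmax γ hγ), ← hS']
    rw [Finset.sum_insert ha, hsum, ← hS']
    refine ⟨?_, fun h => ?_⟩
    · have h1 : Real.log (1 + ((S.filter fun x => w x ≤ a).card : ℝ)) ≤
          Real.log (1 + (S.card : ℝ)) := by
        apply Real.log_le_log
        · positivity
        · have : ((S.filter fun x => w x ≤ a).card : ℝ) ≤ (S.card : ℝ) := by
            exact_mod_cast Finset.card_filter_le _ _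
          linarith
      linarith
    · have h1 : (S.filter fun x => w x ≤ a) = S := by
        rw [Finset.filter_eq_self]
        intro x hx
        rcases Finset.mem_insert.1 (h x hx) with h2 | h2
        · exact h2.le
        · exact (hmax _ h2).le
      have h2 : ∀ x ∈ S', w x ∈ s := by
        intro x hx
        rw [hS', Finset.mem_filter] at hx
        rcases Finset.mem_insert.1 (h x hx.1) with h3 | h3
        · exact absurd hx.2 (by rw [h3]; exact lt_irrefl a)
        · exact h3
      rw [i2 h2, h1]
      ring

end Pool.Agent.H225.AKLevels
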