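import Pool.Agent.H225.Frost

/-!
Compact subsets of analytic sets.
-/

set_option autoImplicit false

open MeasureTheory Metric Set Filter
open scoped ENNReal NNReal Topology

namespace Pool.Agent.H225.Frost
open Pool.Agent.W778.AG Pool.Agent.W342.AG

/-- analytic sets contain compact sets of large Hausdorff dimension -/
theorem cap_analytic {n : ℕ} (E : Set (En n)) (hE : AnalyticSet E) (s : ℝ) (hs : 0 ≤ s)
    (hdim : ENNReal.ofReal s < dimH E) :
    ∃ K : Set (En n), K ⊆ E ∧ IsCompact K ∧ ENNReal.ofReal s < dimH K := by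
  classical
  obtain ⟨s', hs1, hs2⟩ := ENNReal.lt_iff_exists_nnreal_btwn.1 hdim
  have hs' : s < (s' : ℝ) := by
    rwa [ENNReal.ofReal_lt_coe_iff hs] at hs1
  have hs'0 : 0 < (s' : ℝ) := lt_of_le_of_lt hs hs'
  have hH : μH[(s' : ℝ)] E = ∞ := hausdorffMeasure_of_lt_dimH hs2
  have hph : ph (wt (s' : ℝ)) E ≠ 0 := by
    intro h0
    rw [haus_zero _ hs'0 E h0] at hH
    exact ENNReal.zero_ne_top hH
  have hEne : E.Nonempty := by
    rw [nonempty_iff_ne_empty]
    intro h0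
    rw [h0, measure_empty] at hH
    exact ENNReal.zero_ne_top hH
  have hEa := hE
  rw [AnalyticSet] at hEa
  rcases hEa with hemp | ⟨f, hf, hfE⟩
  · exact absurd hemp hEne.ne_empty
  obtain ⟨c, hc0, hc1⟩ := exists_between (pos_iff_ne_zero.2 hph)
  -- choice of the bounds
  have hstep : ∀ (k : ℕ) (B : {B : Set (ℕ → ℕ) // c < ph (wt (n := n) (s' : ℝ)) (f '' B)}),
      ∃ m : ℕ, c < ph (wt (n := n) (s' : ℝ)) (f '' (B.1 ∩ {ν | ν k ≤ m})) := by
    intro k B
    have h1 : f '' B.1 = ⋃ m : ℕ, f '' (B.1 ∩ {ν | ν k ≤ m}) := by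
      rw [← image_iUnion, ← inter_iUnion]
      congr 1
      ext ν
      simp only [mem_inter_iff, mem_iUnion, mem_ofPred_eq]
      exact ⟨fun h => ⟨h, ν k, le_rfl⟩, fun h => h.1⟩
    have h2 := B.2
    rw [h1] at h2
    have h3 := lt_of_lt_of_le h2 (increasing (wt (n := n) (s' : ℝ))
      (fun m : ℕ => f '' (B.1 ∩ {ν | ν k ≤ m}))
      (fun m m' hmm => image_mono (inter_subset_inter_right _
        (fun ν (hν : ν k ≤ m) => le_trans hν hmm))))
    exact lt_iSup_iff.1 h3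
  choose m hm using hstep
  have h0 : c < ph (wt (n := n) (s' : ℝ)) (f '' univ) := by
    rw [image_univ, hfE]; exact hc1
  let Bs : ℕ → {B : Set (ℕ → ℕ) // c < ph (wt (n := n) (s' : ℝ)) (f '' B)} := fun k =>
    Nat.rec ⟨univ, h0⟩ (fun k B => ⟨B.1 ∩ {ν | ν k ≤ m k B}, hm k B⟩) k
  have hBs0 : (Bs 0).1 = univ := rfl
  have hBss : ∀ k, (Bs (k + 1)).1 = (Bs k).1 ∩ {ν | ν k ≤ m k (Bs k)} := fun k => rfl
  set N : ℕ → ℕ := fun k => m k (Bs k) with hN
  have hBs : ∀ k, (Bs k).1 = {ν | ∀ i < k, ν i ≤ N i} := by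
    intro k
    induction k with
    | zero => rw [hBs0]; ext ν; simp
    | succ k ih =>
      rw [hBss, ih]
      ext ν
      constructor
      · rintro ⟨h1, h2⟩ i hi
        rcases Nat.lt_succ_iff_lt_or_eq.1 hi with h | h
        · exact h1 i h
        · rw [h]; exact h2
      · intro h
        exact ⟨fun i hi => h i (by omega), h k (by omega)⟩
  set K : Set (En n) := f '' {ν | ∀ i, ν i ≤ N i} with hKd
  have hKc : IsCompact K := by
    refine IsCompact.image ?_ hf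
    have : {ν : ℕ → ℕ | ∀ i, ν i ≤ N i} = pi univ (fun i => Iic (N i)) := by
      ext ν; simp only [mem_ofPred_eq, Set.mem_pi, mem_univ, true_implies, mem_Iic]
    rw [this]
    exact isCompact_univ_pi fun i => (finite_Iic (N i)).isCompact
  refine ⟨K, ?_, hKc, ?_⟩
  · rw [← hfE]; exact image_subset_range _ _
  · refine lt_of_lt_of_le hs1 (le_dimH_of_hausdorffMeasure_ne_zero ?_)
    intro hK0
    -- choose a small ε
    set B0 : ℝ≥0∞ := 3 ^ n * 2 ^ (s' : ℝ) with hB0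
    have hB0t : B0 ≠ ∞ := ENNReal.mul_ne_top (ENNReal.pow_ne_top (by simp))
      (ENNReal.rpow_ne_top_of_nonneg hs'0.le (by simp))
    have hB00 : B0 ≠ 0 := mul_ne_zero (pow_ne_zero _ (by simp))
      (ENNReal.rpow_pos (by simp) (by simp)).ne'
    obtain ⟨x, r, hr0, hr1, hcov, hsum⟩ := ball_cover (s' : ℝ) hs'0 K hK0 (c / B0)
      (ENNReal.div_pos hc0.ne' hB0t).ne'
    obtain ⟨k, hk⟩ := tail_in f hf N (⋃ i, ball (x i) (r i)) (isOpen_iUnion fun i => isOpen_ball)
      hcov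
    choose S hSc hSw using fun i => ball_nodes (s' : ℝ) hs'0 (x i) (r i) (hr0 i) (hr1 i)
    have h1 : Cov (⋃ i, S i) (f '' (Bs k).1) := by
      rw [hBs k]
      intro y hy
      obtain ⟨i, hi⟩ := mem_iUnion.1 (hk hy)
      obtain ⟨p, hp, hyp⟩ := hSc i y hi
      exact ⟨p, mem_iUnion.2 ⟨i, hp⟩, hyp⟩
    have h2 : c < c := by
      calc c < ph (wt (n := n) (s' : ℝ)) (f '' (Bs k).1) := (Bs k).2
        _ ≤ cost (wt (s' : ℝ)) (⋃ i, S i) := ph_le _ h1
        _ ≤ ∑' i, cost (wt (s' : ℝ)) (S i) := cost_iUnion _ _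
        _ ≤ ∑' i, 3 ^ n * (2 ^ (s' : ℝ) * ENNReal.ofReal (r i) ^ (s' : ℝ)) :=
            ENNReal.tsum_le_tsum hSw
        _ = B0 * ∑' i, ENNReal.ofReal (r i) ^ (s' : ℝ) := by
            rw [← ENNReal.tsum_mul_left]
            refine tsum_congr fun i => ?_
            rw [hB0]; ring
        _ ≤ B0 * (c / B0) := by gcongr
        _ = c := ENNReal.mul_div_cancel hB00 hB0t
    exact lt_irrefl _ h2


end Pool.Agent.H225.Frost
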