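import Pool.Agent.H225.En5
import Pool.Agent.H225.CapA

set_option autoImplicit false

open MeasureTheory Metric Set Filter Module
open scoped ENNReal NNReal Topology RealInnerProductSpace

namespace Pool.Agent.H225.En

/-- finite energy gives a lower bound for the dimension -/
theorem dimH_of_energy {W : Type*} [NormedAddCommGroup W] [MeasurableSpace W] [BorelSpace W]
    [SecondCountableTopology W] (ν : Measure W) [IsFiniteMeasure ν] (A : Set W)
    (hA : ν Aᶜ = 0) (hν : ν ≠ 0) (s : ℝ) (hs : 0 < s)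
    (hfin : ∫⁻ x, ∫⁻ y, ‖x - y‖ₑ ^ (-s) ∂ν ∂ν < ∞) : ENNReal.ofReal s ≤ dimH A := by
  have hm2 : Measurable (fun p : W × W => ‖p.1 - p.2‖ₑ ^ (-s)) :=
    ((measurable_fst.sub measurable_snd).enorm).pow_const _
  have hm : Measurable (fun x : W => ∫⁻ y, ‖x - y‖ₑ ^ (-s) ∂ν) :=
    Measurable.lintegral_prod_right' (f := fun p : W × W => ‖p.1 - p.2‖ₑ ^ (-s)) hm2
  set En : ℕ → Set W := fun n => {x | ∫⁻ y, ‖x - y‖ₑ ^ (-s) ∂ν ≤ (n : ℝ≥0∞)} with hEn
  have hEm : ∀ n, MeasurableSet (En n) := fun n => measurableSet_le hm measurable_const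
  -- some level set has positive measure
  obtain ⟨n, hn⟩ : ∃ n, ν (En n) ≠ 0 := by
    by_contra hcon
    push Not at hcon
    have h1 : ∀ᵐ x ∂ν, ∫⁻ y, ‖x - y‖ₑ ^ (-s) ∂ν < ∞ := ae_lt_top hm hfin.ne
    have h2 : ν (⋃ n, En n) = 0 := measure_iUnion_null hcon
    have h3 : ∀ᵐ x ∂ν, x ∉ ⋃ n, En n := compl_mem_ae_iff.2 h2
    have h4 : ∀ᵐ x ∂ν, False := by
      filter_upwards [h1, h3] with x hx1 hx3
      obtain ⟨n, hn⟩ := ENNReal.exists_nat_gt hx1.ne
      exact hx3 (mem_iUnion.2 ⟨n, hn.le⟩)
    have h5 : ν univ = 0 := by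
      have := ae_iff.1 h4
      simpa using this
    exact hν (Measure.measure_univ_eq_zero.1 h5)
  have hnpos : (n : ℝ≥0∞) ≠ 0 := by
    rintro h0
    apply hn
    have h1 : En n ⊆ {x | ν univ = 0} := by
      intro x hx
      have hx' : ∫⁻ y, ‖x - y‖ₑ ^ (-s) ∂ν ≤ 0 := by
        have : x ∈ En n := hx
        rw [hEn] at this
        simpa [h0] using this
      have h2 := (lintegral_eq_zero_iff (by fun_prop)).1 (le_antisymm hx' zero_le)
      have h3 : ∀ᵐ y ∂ν, False := by
        filter_upwards [h2] with y hy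
        simp only [Pi.zero_apply] at hy
        rw [ENNReal.rpow_eq_zero_iff] at hy
        rcases hy with ⟨-, h⟩ | ⟨h, -⟩
        · linarith
        · exact absurd h enorm_ne_top
      have := ae_iff.1 h3
      simpa using this
    by_contra hcon
    have hne : (En n).Nonempty := nonempty_of_measure_ne_zero hcon
    obtain ⟨x, hx⟩ := hne
    exact hν (Measure.measure_univ_eq_zero.1 (h1 hx))
  -- mass distribution principle
  set lam := ν.restrict (En n) with hlam
  have hatom : ∀ x ∈ En n, ν {x} = 0 := by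
    intro x hx
    have hx' : ∫⁻ y, ‖x - y‖ₑ ^ (-s) ∂ν < ∞ := lt_of_le_of_lt hx (ENNReal.natCast_lt_top n)
    by_contra hcon
    have h1 : ∫⁻ y in {x}, ‖x - y‖ₑ ^ (-s) ∂ν ≤ ∫⁻ y, ‖x - y‖ₑ ^ (-s) ∂ν :=
      setLIntegral_le_lintegral _ _
    rw [lintegral_singleton, sub_self, enorm_zero, ENNReal.zero_rpow_of_neg (by linarith),
      ENNReal.top_mul hcon] at h1
    exact absurd (lt_of_le_of_lt h1 hx') (lt_irrefl _)
  have hle : ∀ t : Set W, ediam t ≤ 1 → ((n : ℝ≥0∞)⁻¹ • lam) t ≤ ediam t ^ s := by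
    intro t ht
    rw [Measure.smul_apply, smul_eq_mul, hlam, Measure.restrict_apply' (hEm n)]
    rcases (t ∩ En n).eq_empty_or_nonempty with hemp | ⟨z, hz1, hz2⟩
    · rw [hemp, measure_empty, mul_zero]; exact zero_le
    rcases eq_or_ne (ediam t) 0 with h0 | h0
    · have hsub : t ∩ En n ⊆ {z} := by
        rintro y ⟨hy1, -⟩
        have := edist_le_ediam_of_mem hy1 hz1
        rw [h0] at this
        exact edist_eq_zero.1 (le_antisymm this zero_le)
      rw [measure_mono_null hsub (hatom z hz2), mul_zero]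
      exact zero_le
    · have hdt : ediam t ≠ ∞ := ne_top_of_le_ne_top ENNReal.one_ne_top ht
      have h1 : ediam t ^ (-s) * ν (t ∩ En n) ≤ n := by
        calc ediam t ^ (-s) * ν (t ∩ En n) ≤ ediam t ^ (-s) * ν (closedEBall z (ediam t)) := by
              gcongr
              intro y hy
              exact edist_le_ediam_of_mem hy.1 hz1
          _ = ∫⁻ y in closedEBall z (ediam t), ediam t ^ (-s) ∂ν := by rw [setLIntegral_const]
          _ ≤ ∫⁻ y in closedEBall z (ediam t), ‖z - y‖ₑ ^ (-s) ∂ν := by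
              refine setLIntegral_mono' isClosed_closedEBall.measurableSet fun y hy => ?_
              rw [ENNReal.rpow_neg, ENNReal.rpow_neg]
              refine ENNReal.inv_le_inv.2 (ENNReal.rpow_le_rpow ?_ hs.le)
              rw [← edist_eq_enorm_sub, edist_comm]
              exact hy
          _ ≤ ∫⁻ y, ‖z - y‖ₑ ^ (-s) ∂ν := setLIntegral_le_lintegral _ _
          _ ≤ n := hz2
      calc (n : ℝ≥0∞)⁻¹ * ν (t ∩ En n)
          = (n : ℝ≥0∞)⁻¹ * (ediam t ^ s * (ediam t ^ (-s) * ν (t ∩ En n))) := by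
            rw [← mul_assoc (ediam t ^ s), ← ENNReal.rpow_add _ _ h0 hdt]
            simp
        _ ≤ (n : ℝ≥0∞)⁻¹ * (ediam t ^ s * n) := by gcongr
        _ = ediam t ^ s := by
            rw [mul_comm (ediam t ^ s), ← mul_assoc,
              ENNReal.inv_mul_cancel hnpos (ENNReal.natCast_ne_top n), one_mul]
  have hH := Measure.le_hausdorffMeasure s ((n : ℝ≥0∞)⁻¹ • lam) 1 (by norm_num) hle
  refine le_dimH_of_hausdorffMeasure_ne_zero (d := s.toNNReal) ?_
  rw [Real.coe_toNNReal s hs.le]
  intro hzero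
  have h1 : ((n : ℝ≥0∞)⁻¹ • lam) A ≤ μH[s] A := hH A
  rw [hzero, Measure.smul_apply, smul_eq_mul] at h1
  have h2 : lam A = 0 := by
    rcases mul_eq_zero.1 (le_antisymm h1 zero_le) with h | h
    · exact absurd h (ENNReal.inv_ne_zero.2 (ENNReal.natCast_ne_top n))
    · exact h
  have h3 : lam Aᶜ = 0 := le_antisymm ((Measure.restrict_le_self _).trans hA.le) zero_le
  have h4 : lam univ = 0 := by
    refine le_antisymm ?_ zero_le
    calc lam univ ≤ lam A + lam Aᶜ := by
          rw [← union_compl_self A]; exact measure_union_le _ _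
      _ = 0 := by rw [h2, h3, add_zero]
  rw [hlam, Measure.restrict_apply_univ] at h4
  exact hn h4

/-- Frostman measures have finite energy -/
theorem energy_fin {n : ℕ} (μ : Measure (V n)) [IsFiniteMeasure μ] (C s s' : ℝ) (hC : 0 < C)
    (hs : 0 < s) (hss : s < s')
    (hF : ∀ x, ∀ r : ℝ, 0 < r → μ (closedBall x r) ≤ ENNReal.ofReal (C * r ^ s')) :
    ∫⁻ x, ∫⁻ y, ‖x - y‖ₑ ^ (-s) ∂μ ∂μ < ∞ := by
  set ρ : ℝ := (1 / 2) ^ (s' - s) with hρ
  have hρ0 : 0 < ρ := by positivity
  have hρ1 : ρ < 1 := Real.rpow_lt_one (by norm_num) (by norm_num) (by linarith)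
  set K : ℝ := ∑' k : ℕ, 2 ^ s * C * ρ ^ k with hK
  have hsum : Summable fun k : ℕ => 2 ^ s * C * ρ ^ k :=
    (summable_geometric_of_lt_one hρ0.le hρ1).mul_left _
  have hatom : ∀ x, μ {x} = 0 := by
    intro x
    have hs0 : 0 < s' := hs.trans hss
    have h1 : Tendsto (fun j : ℕ => ENNReal.ofReal (C * (1 / ((j : ℝ) + 1)) ^ s')) atTop (𝓝 0) := by
      have h2 : Tendsto (fun j : ℕ => (1 / ((j : ℝ) + 1))) atTop (𝓝 0) :=
          tendsto_one_div_add_atTop_nhds_zero_nat
      have h3 := (Real.continuousAt_rpow_const 0 s' (Or.inr hs0.le)).tendsto.comp h2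
      rw [Real.zero_rpow hs0.ne'] at h3
      have h4 := h3.const_mul C
      rw [mul_zero] at h4
      have h5 := (ENNReal.continuous_ofReal.tendsto 0).comp h4
      rw [ENNReal.ofReal_zero] at h5
      exact h5
    refine le_antisymm (ge_of_tendsto h1 (Eventually.of_forall fun j => ?_)) zero_le
    refine (measure_mono ?_).trans (hF x (1 / ((j : ℝ) + 1)) (by positivity))
    intro y hy
    rw [mem_singleton_iff] at hy
    rw [hy]
    exact mem_closedBall_self (by positivity)
  have hinner : ∀ x, ∫⁻ y, ‖x - y‖ₑ ^ (-s) ∂μ ≤ μ univ + ENNReal.ofReal K := by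
    intro x
    have hne : ∀ᵐ y ∂μ, y ≠ x := compl_mem_ae_iff.2 (hatom x)
    calc ∫⁻ y, ‖x - y‖ₑ ^ (-s) ∂μ
        ≤ ∫⁻ y, (1 + ∑' k : ℕ, (closedBall x ((1 / 2) ^ k)).indicator
            (fun _ => ENNReal.ofReal (2 ^ (((k : ℝ) + 1) * s))) y) ∂μ := by
          refine lintegral_mono_ae ?_
          filter_upwards [hne] with y hy
          have hpos : 0 < ‖x - y‖ := norm_pos_iff.2 (sub_ne_zero.2 hy.symm)
          rw [← ofReal_norm, ENNReal.ofReal_rpow_of_pos hpos]
          rcases le_or_gt 1 ‖x - y‖ with h1 | h1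
          · refine le_trans ?_ le_self_add
            rw [ENNReal.ofReal_le_one]
            exact Real.rpow_le_one_of_one_le_of_nonpos h1 (by linarith)
          · obtain ⟨k, hk1, hk2⟩ := exists_nat_pow_near_of_lt_one (x := ‖x - y‖) (y := 1 / 2) hpos
              h1.le (by norm_num) (by norm_num)
            refine le_trans ?_ le_add_self
            refine le_trans ?_ (ENNReal.le_tsum k)
            rw [indicator_of_mem]
            · refine ENNReal.ofReal_le_ofReal ?_
              calc ‖x - y‖ ^ (-s) ≤ ((1 / 2 : ℝ) ^ (k + 1)) ^ (-s) :=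
                    Real.rpow_le_rpow_of_nonpos (by positivity) hk1.le (by linarith)
                _ = 2 ^ (((k : ℝ) + 1) * s) := by
                    rw [one_div, inv_pow, Real.inv_rpow (by positivity), Real.rpow_neg
                      (by positivity), inv_inv, ← Real.rpow_natCast, ← Real.rpow_mul (by norm_num)]
                    push_cast; rfl
            · rw [mem_closedBall, dist_comm, dist_eq_norm]; exact hk2
      _ = μ univ + ∑' k : ℕ, ENNReal.ofReal (2 ^ (((k : ℝ) + 1) * s)) *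
            μ (closedBall x ((1 / 2) ^ k)) := by
          rw [lintegral_add_left measurable_const, lintegral_const, one_mul,
            lintegral_tsum fun k => (measurable_const.indicator measurableSet_closedBall).aemeasurable]
          congr 1
          refine tsum_congr fun k => ?_
          rw [lintegral_indicator_const measurableSet_closedBall]
      _ ≤ μ univ + ∑' k : ℕ, ENNReal.ofReal (2 ^ s * C * ρ ^ k) := by
          gcongr with k
          refine (mul_le_mul_right (hF x _ (by positivity)) _).trans ?_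
          rw [← ENNReal.ofReal_mul (by positivity)]
          refine ENNReal.ofReal_le_ofReal (le_of_eq ?_)
          have e1 : ((1 / 2 : ℝ) ^ k) ^ s' = (2 : ℝ) ^ (-(k * s')) := by
            rw [one_div, inv_pow, Real.inv_rpow (by positivity), Real.rpow_neg (by norm_num),
              ← Real.rpow_natCast, ← Real.rpow_mul (by norm_num)]
          have e2 : ρ ^ k = (2 : ℝ) ^ (-(k * (s' - s))) := by
            rw [hρ, one_div, Real.inv_rpow (by norm_num), Real.rpow_neg (by norm_num), inv_pow,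
              ← Real.rpow_natCast, ← Real.rpow_mul (by norm_num)]
            congr 2; ring
          rw [e1, e2, mul_left_comm, ← Real.rpow_add (by norm_num), mul_comm (2 ^ s : ℝ) C, mul_assoc,
            ← Real.rpow_add (by norm_num)]
          congr 2
          ring
      _ = μ univ + ENNReal.ofReal K := by
          rw [hK, ENNReal.ofReal_tsum_of_nonneg (fun k => by positivity) hsum]
  calc ∫⁻ x, ∫⁻ y, ‖x - y‖ₑ ^ (-s) ∂μ ∂μ ≤ ∫⁻ x, (μ univ + ENNReal.ofReal K) ∂μ :=
        lintegral_mono hinner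
    _ = (μ univ + ENNReal.ofReal K) * μ univ := lintegral_const _
    _ < ∞ := ENNReal.mul_lt_top (ENNReal.add_lt_top.2 ⟨measure_lt_top _ _, ENNReal.ofReal_lt_top⟩)
        (measure_lt_top _ _)

end Pool.Agent.H225.En
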