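import Pool.Agent.H316.EM.Stm2

set_option autoImplicit false

namespace Pool.Agent.H225

open Pool.Agent.H316.EM

theorem em_fbk_le : FBK ≤ AA := by
  have h : FBK.map ((tA ^ 0 : Au KK) : KK →ₗ[ZMod 2] KK) ≤ AA :=
    le_iSup (fun n : ℕ => FBK.map ((tA ^ n : Au KK) : KK →ₗ[ZMod 2] KK)) 0
  intro x hx
  exact h ⟨x, hx, by rw [pow_zero]; rfl⟩

/-- **AINF.** `AA` is infinite: it contains the images of the elements `eb b`, `b : B`. -/
theorem em_ainf : S_AINF := by
  unfold S_AINF
  have hinf : Infinite B := inferInstanceAs (Infinite (ℤ × ℤ))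
  have hinj : Function.Injective fun b : B => algebraMap FB KK (eb b) :=
    (IsFractionRing.injective FB KK).comp eb_injective
  refine (Set.infinite_range_of_injective hinj).mono ?_
  rintro _ ⟨b, rfl⟩
  exact em_fbk_le ⟨eb b, rfl⟩

end Pool.Agent.H225
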