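import Mathlib

/-!
Gaussian kernels and the characteristic function.
-/

set_option autoImplicit false

open MeasureTheory Metric Set Filter
open scoped ENNReal NNReal Topology RealInnerProductSpace

namespace Pool.Agent.H225.En

abbrev V (n : ℕ) := EuclideanSpace ℝ (Fin n)

variable {n : ℕ}

/-- squared modulus of the characteristic function -/
noncomputable def Ph (μ : Measure (V n)) (ξ : V n) : ℝ≥0∞ := ‖charFun μ ξ‖ₑ ^ 2

lemma measurable_Ph (μ : Measure (V n)) [IsFiniteMeasure μ] : Measurable (Ph μ) := by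
  unfold Ph
  exact (continuous_charFun.measurable.enorm.pow_const 2)

/-- constant -/
noncomputable def gc (n : ℕ) : ℝ := (2 * Real.pi) ^ ((n : ℝ) / 2)

lemma gc_pos (n : ℕ) : 0 < gc n := by unfold gc; positivity

lemma gauss_ft (w : V n) :
    ∫ v : V n, Complex.exp (-(1 / 2 : ℂ) * ‖v‖ ^ 2 + Complex.I * ⟪w, v⟫) =
      ((gc n * Real.exp (-‖w‖ ^ 2 / 2) : ℝ) : ℂ) := by
  rw [GaussianFourier.integral_cexp_neg_mul_sq_norm_add (by norm_num) Complex.I w]
  unfold gc
  rw [finrank_euclideanSpace_fin]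
  rw [Complex.ofReal_mul]
  congr 1
  · rw [Complex.ofReal_cpow (by positivity)]
    push_cast
    field_simp
  · rw [Complex.I_sq]
    push_cast
    ring_nf

lemma charFun_sq (μ : Measure (V n)) [IsFiniteMeasure μ] (t : V n) :
    ∫ p : V n × V n, Complex.exp (Complex.I * ⟪p.1 - p.2, t⟫) ∂(μ.prod μ) =
      ((‖charFun μ t‖ ^ 2 : ℝ) : ℂ) := by
  have h1 : ∀ p : V n × V n, Complex.exp (Complex.I * ⟪p.1 - p.2, t⟫) =
      Complex.exp (⟪p.1, t⟫ * Complex.I) * Complex.exp (⟪p.2, -t⟫ * Complex.I) := by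
    intro p
    rw [← Complex.exp_add, inner_sub_left, inner_neg_right]
    congr 1
    push_cast
    ring
  simp_rw [h1]
  rw [integral_prod_mul (fun y : V n => Complex.exp (⟪y, t⟫ * Complex.I))
    (fun z : V n => Complex.exp (⟪z, -t⟫ * Complex.I))]
  rw [← charFun_apply, ← charFun_apply, charFun_neg, Complex.mul_conj, Complex.normSq_eq_norm_sq]

/-- **Gaussian pair identity.** -/
theorem gauss_pair_real (L : V n →L[ℝ] V n) (hL : ∀ u v, ⟪L u, v⟫ = ⟪u, L v⟫) (μ : Measure (V n))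
    [IsFiniteMeasure μ] :
    gc n * ∫ p : V n × V n, Real.exp (-‖L (p.1 - p.2)‖ ^ 2 / 2) ∂(μ.prod μ) =
      ∫ η : V n, Real.exp (-‖η‖ ^ 2 / 2) * ‖charFun μ (L η)‖ ^ 2 := by
  have hint : Integrable (fun v : V n => Real.exp (-‖v‖ ^ 2 / 2)) := by
    have := GaussianFourier.integrable_cexp_neg_mul_sq_norm_add (V := V n) (b := (1 / 2 : ℂ))
      (by norm_num) 0 0
    have h2 := this.norm
    refine h2.congr (Eventually.of_forall fun v => ?_)
    simp only [Complex.norm_exp]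
    congr 1
    simp only [zero_mul, add_zero]
    rw [show (-(1 / 2 : ℂ) * (‖v‖ : ℂ) ^ 2) = ((-(1 / 2) * ‖v‖ ^ 2 : ℝ) : ℂ) by push_cast; ring]
    rw [Complex.ofReal_re]
    ring
  have hprod : Integrable (fun q : (V n × V n) × V n => Complex.exp (-(1 / 2 : ℂ) * ‖q.2‖ ^ 2 +
      Complex.I * ⟪L (q.1.1 - q.1.2), q.2⟫)) ((μ.prod μ).prod volume) := by
    have h3 : Integrable (fun q : (V n × V n) × V n => Real.exp (-‖q.2‖ ^ 2 / 2))
        ((μ.prod μ).prod volume) := hint.comp_snd (μ.prod μ)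
    refine h3.mono ?_ ?_
    · refine Continuous.aestronglyMeasurable ?_
      fun_prop
    · refine Eventually.of_forall fun q => ?_
      rw [Complex.norm_exp, Real.norm_eq_abs, abs_of_pos (Real.exp_pos _)]
      refine le_of_eq (congrArg Real.exp ?_)
      rw [show (-(1 / 2 : ℂ) * (‖q.2‖ : ℂ) ^ 2 + Complex.I * ⟪L (q.1.1 - q.1.2), q.2⟫) =
        ((-(1 / 2) * ‖q.2‖ ^ 2 : ℝ) : ℂ) + (⟪L (q.1.1 - q.1.2), q.2⟫ : ℂ) * Complex.I by
          push_cast; ring]
      rw [Complex.add_re, Complex.ofReal_re, Complex.re_ofReal_mul, Complex.I_re]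
      ring
  have key : ∫ p : V n × V n, ∫ v : V n, Complex.exp (-(1 / 2 : ℂ) * ‖v‖ ^ 2 +
      Complex.I * ⟪L (p.1 - p.2), v⟫) ∂volume ∂(μ.prod μ) =
      ∫ v : V n, ∫ p : V n × V n, Complex.exp (-(1 / 2 : ℂ) * ‖v‖ ^ 2 +
      Complex.I * ⟪L (p.1 - p.2), v⟫) ∂(μ.prod μ) := integral_integral_swap hprod
  have hl : ∫ p : V n × V n, ∫ v : V n, Complex.exp (-(1 / 2 : ℂ) * ‖v‖ ^ 2 +
      Complex.I * ⟪L (p.1 - p.2), v⟫) ∂volume ∂(μ.prod μ) =
      ((gc n * ∫ p : V n × V n, Real.exp (-‖L (p.1 - p.2)‖ ^ 2 / 2) ∂(μ.prod μ) : ℝ) : ℂ) := by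
    simp_rw [gauss_ft]
    rw [integral_complex_ofReal, integral_const_mul]
  have hr : ∫ v : V n, ∫ p : V n × V n, Complex.exp (-(1 / 2 : ℂ) * ‖v‖ ^ 2 +
      Complex.I * ⟪L (p.1 - p.2), v⟫) ∂(μ.prod μ) =
      ((∫ η : V n, Real.exp (-‖η‖ ^ 2 / 2) * ‖charFun μ (L η)‖ ^ 2 : ℝ) : ℂ) := by
    rw [← integral_complex_ofReal]
    refine integral_congr_ae (Eventually.of_forall fun v => ?_)
    simp only
    have h4 : ∀ p : V n × V n, Complex.exp (-(1 / 2 : ℂ) * ‖v‖ ^ 2 +
      Complex.I * ⟪L (p.1 - p.2), v⟫) = ((Real.exp (-‖v‖ ^ 2 / 2) : ℝ) : ℂ) *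
        Complex.exp (Complex.I * ⟪p.1 - p.2, L v⟫) := by
      intro p
      rw [Complex.exp_add, hL]
      congr 1
      push_cast
      congr 1
      ring
    simp_rw [h4]
    rw [integral_const_mul, charFun_sq]
    push_cast
    rfl
  rw [hl, hr] at key
  exact_mod_cast key

/-- **Gaussian pair identity.** -/
theorem gauss_pair (L : V n →L[ℝ] V n) (hL : ∀ u v, ⟪L u, v⟫ = ⟪u, L v⟫) (μ : Measure (V n))
    [IsFiniteMeasure μ] :
    ENNReal.ofReal (gc n) * ∫⁻ y, ∫⁻ z, ENNReal.ofReal (Real.exp (-‖L (y - z)‖ ^ 2 / 2)) ∂μ ∂μ =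
      ∫⁻ η : V n, ENNReal.ofReal (Real.exp (-‖η‖ ^ 2 / 2)) * Ph μ (L η) := by
  have h := gauss_pair_real L hL μ
  have hint : Integrable (fun v : V n => Real.exp (-‖v‖ ^ 2 / 2)) := by
    have := GaussianFourier.integrable_cexp_neg_mul_sq_norm_add (V := V n) (b := (1 / 2 : ℂ))
      (by norm_num) 0 0
    have h2 := this.norm
    refine h2.congr (Eventually.of_forall fun v => ?_)
    simp only [Complex.norm_exp]
    congr 1
    simp only [zero_mul, add_zero]
    rw [show (-(1 / 2 : ℂ) * (‖v‖ : ℂ) ^ 2) = ((-(1 / 2) * ‖v‖ ^ 2 : ℝ) : ℂ) by push_cast; ring]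
    rw [Complex.ofReal_re]
    ring
  have i1 : Integrable (fun p : V n × V n => Real.exp (-‖L (p.1 - p.2)‖ ^ 2 / 2))
      (μ.prod μ) := by
    refine Integrable.mono' (integrable_const 1) ?_ ?_
    · exact (Continuous.aestronglyMeasurable (by fun_prop))
    · refine Eventually.of_forall fun p => ?_
      rw [Real.norm_eq_abs, abs_of_pos (Real.exp_pos _), Real.exp_le_one_iff]
      have : 0 ≤ ‖L (p.1 - p.2)‖ ^ 2 := by positivity
      linarith
  have i2 : Integrable (fun η : V n => Real.exp (-‖η‖ ^ 2 / 2) * ‖charFun μ (L η)‖ ^ 2) := by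
    refine (hint.mul_const ((μ.real univ) ^ 2)).mono ?_ ?_
    · refine Continuous.aestronglyMeasurable ?_
      have := continuous_charFun (μ := μ)
      fun_prop
    · refine Eventually.of_forall fun η => ?_
      rw [Real.norm_eq_abs, Real.norm_eq_abs, abs_of_nonneg (by positivity),
        abs_of_nonneg (by positivity)]
      gcongr
      exact norm_charFun_le _
  have h2 := congrArg ENNReal.ofReal h
  rw [ENNReal.ofReal_mul (gc_pos n).le, ofReal_integral_eq_lintegral_ofReal i1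
    (Eventually.of_forall fun p => (Real.exp_pos _).le), ofReal_integral_eq_lintegral_ofReal i2
    (Eventually.of_forall fun p => by positivity), lintegral_prod _ (by fun_prop)] at h2
  rw [h2]
  refine lintegral_congr fun η => ?_
  rw [ENNReal.ofReal_mul (Real.exp_pos _).le]
  congr 1
  unfold Ph
  rw [ENNReal.ofReal_pow (norm_nonneg _), ofReal_norm]

end Pool.Agent.H225.En
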