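import Pool.Agent.H225.En1

set_option autoImplicit false

open MeasureTheory Metric Set Filter
open scoped ENNReal NNReal Topology RealInnerProductSpace

namespace Pool.Agent.H225.En

variable {n : ℕ}

/-- the map with eigenvalue `a` on `x^⊥` and `b` on `x` -/
noncomputable def La (x : V n) (a b : ℝ) : V n →L[ℝ] V n :=
  a • ContinuousLinearMap.id ℝ (V n) + (b - a) • (innerSL ℝ x).smulRight x

lemma La_apply (x : V n) (a b : ℝ) (w : V n) : La x a b w = a • w + ((b - a) * ⟪x, w⟫) • x := by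
  simp [La, smul_smul]

lemma La_symm (x : V n) (a b : ℝ) (u v : V n) : ⟪La x a b u, v⟫ = ⟪u, La x a b v⟫ := by
  simp only [La_apply, inner_add_left, inner_add_right, inner_smul_left, inner_smul_right,
    RCLike.conj_to_real]
  rw [real_inner_comm x u]
  ring

lemma norm_La (x : V n) (hx : ‖x‖ = 1) (a b : ℝ) (w : V n) :
    ‖La x a b w‖ ^ 2 = a ^ 2 * (‖w‖ ^ 2 - ⟪x, w⟫ ^ 2) + b ^ 2 * ⟪x, w⟫ ^ 2 := by
  rw [La_apply, @norm_add_sq_real, norm_smul, norm_smul, inner_smul_left, inner_smul_right,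
    mul_pow, mul_pow, hx, RCLike.conj_to_real, real_inner_comm x w]
  simp only [Real.norm_eq_abs, sq_abs]
  ring

lemma det_La (x : V n) (hx : ‖x‖ = 1) (a b : ℝ) (ha : a ≠ 0) :
    LinearMap.det (La x a b : V n →ₗ[ℝ] V n) = a ^ n * (b / a) := by
  have h : (La x a b : V n →ₗ[ℝ] V n) =
      a • LinearMap.transvection (((b - a) / a) • (innerₛₗ ℝ x)) x := by
    ext w : 1
    simp only [ContinuousLinearMap.coe_coe, La_apply, LinearMap.smul_apply,
      LinearMap.transvection.apply, smul_add, smul_smul, innerₛₗ_apply_apply, smul_eq_mul]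
    congr 2
    field_simp
  rw [h, LinearMap.det_smul, LinearMap.transvection.det, finrank_euclideanSpace_fin]
  congr 1
  simp only [LinearMap.smul_apply, innerₛₗ_apply_apply, real_inner_self_eq_norm_sq, hx, smul_eq_mul]
  field_simp
  ring

/-- change of variables -/
lemma change (x : V n) (hx : ‖x‖ = 1) (a b : ℝ) (ha : 0 < a) (hb : 0 < b)
    (μ : Measure (V n)) [IsFiniteMeasure μ] :
    ∫⁻ η : V n, ENNReal.ofReal (Real.exp (-‖η‖ ^ 2 / 2)) * Ph μ (La x a b η) =
      ENNReal.ofReal ((a ^ n * (b / a))⁻¹) *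
        ∫⁻ ξ : V n, ENNReal.ofReal (Real.exp (-((‖ξ‖ ^ 2 - ⟪x, ξ⟫ ^ 2) / a ^ 2 +
          ⟪x, ξ⟫ ^ 2 / b ^ 2) / 2)) * Ph μ ξ := by
  have hd : LinearMap.det (La x a b : V n →ₗ[ℝ] V n) = a ^ n * (b / a) := det_La x hx a b ha.ne'
  have hd0 : LinearMap.det (La x a b : V n →ₗ[ℝ] V n) ≠ 0 := by rw [hd]; positivity
  have hmap := Measure.map_linearMap_addHaar_eq_smul_addHaar (μ := (volume : Measure (V n))) hd0
  have hinv : ∀ w : V n, La x a⁻¹ b⁻¹ (La x a b w) = w := by
    intro w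
    simp only [La_apply, inner_add_right, inner_smul_right, real_inner_self_eq_norm_sq, hx]
    rw [smul_add, smul_smul, smul_smul, inv_mul_cancel₀ ha.ne', one_smul, add_assoc, ← add_smul]
    convert add_zero w
    convert zero_smul ℝ x
    field_simp
    ring
  set g : V n → ℝ≥0∞ := fun ξ => ENNReal.ofReal (Real.exp (-((‖ξ‖ ^ 2 - ⟪x, ξ⟫ ^ 2) / a ^ 2 +
          ⟪x, ξ⟫ ^ 2 / b ^ 2) / 2)) * Ph μ ξ with hg
  have hgm : Measurable g := by
    have := measurable_Ph μ
    rw [hg]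
    refine Measurable.mul ?_ this
    fun_prop
  have h1 : ∫⁻ η : V n, ENNReal.ofReal (Real.exp (-‖η‖ ^ 2 / 2)) * Ph μ (La x a b η) =
      ∫⁻ η : V n, g (La x a b η) := by
    refine lintegral_congr fun η => ?_
    simp only [hg]
    congr 3
    have h2 := norm_La x hx a⁻¹ b⁻¹ (La x a b η)
    rw [hinv] at h2
    rw [h2]
    field_simp
  rw [h1]
  have h3 : ∫⁻ η : V n, g (La x a b η) =
      ∫⁻ ξ, g ξ ∂(Measure.map (La x a b : V n →ₗ[ℝ] V n) volume) := by
    exact (lintegral_map (μ := (volume : Measure (V n))) hgm (La x a b).continuous.measurable).symm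
  rw [h3, hmap, lintegral_smul_measure, hd, abs_of_pos (by positivity), smul_eq_mul]

end Pool.Agent.H225.En
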