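import Pool.Agent.H225.En2

set_option autoImplicit false

open MeasureTheory Metric Set Filter
open scoped ENNReal NNReal Topology RealInnerProductSpace

namespace Pool.Agent.H225.En

/-- Gamma integral -/
lemma VV (a q : ℝ) (ha : 0 < a) (hq : 0 < q) :
    ∫⁻ t in Ioi (0 : ℝ), ENNReal.ofReal (t ^ (a - 1) * Real.exp (-(q * t))) =
      ENNReal.ofReal ((1 / q) ^ a * Real.Gamma a) := by
  have h := Real.integral_rpow_mul_exp_neg_mul_Ioi ha hq
  rw [← h, ofReal_integral_eq_lintegral_ofReal]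
  · by_contra hcon
    have h2 := integral_undef hcon
    rw [h] at h2
    have : 0 < (1 / q) ^ a * Real.Gamma a := by
      have := Real.Gamma_pos_of_pos ha
      positivity
    linarith
  · filter_upwards [ae_restrict_mem measurableSet_Ioi] with t ht
    have : (0 : ℝ) < t := ht
    positivity

lemma VV0 (a : ℝ) (ha : 0 < a) :
    ∫⁻ t in Ioi (0 : ℝ), ENNReal.ofReal (t ^ (a - 1)) = ∞ := by
  rw [eq_top_iff]
  refine ENNReal.le_of_forall_nnreal_lt fun r _ => ?_
  have h1 : ∀ q : ℝ, 0 < q → ENNReal.ofReal ((1 / q) ^ a * Real.Gamma a) ≤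
      ∫⁻ t in Ioi (0 : ℝ), ENNReal.ofReal (t ^ (a - 1)) := by
    intro q hq
    rw [← VV a q ha hq]
    refine setLIntegral_mono' measurableSet_Ioi fun t ht => ENNReal.ofReal_le_ofReal ?_
    have ht' : (0 : ℝ) < t := ht
    have : Real.exp (-(q * t)) ≤ 1 := Real.exp_le_one_iff.2 (by nlinarith [mul_pos hq ht'])
    calc t ^ (a - 1) * Real.exp (-(q * t)) ≤ t ^ (a - 1) * 1 := by gcongr
      _ = _ := mul_one _
  have hG := Real.Gamma_pos_of_pos ha
  have hr : (0 : ℝ) < ((r : ℝ) + 1) / Real.Gamma a := by positivity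
  refine le_trans ?_ (h1 ((((r : ℝ) + 1) / Real.Gamma a) ^ (-(1 / a))) (by positivity))
  have h3 : (1 / (((r : ℝ) + 1) / Real.Gamma a) ^ (-(1 / a))) ^ a = ((r : ℝ) + 1) / Real.Gamma a := by
    rw [Real.rpow_neg hr.le, one_div, inv_inv, ← Real.rpow_mul hr.le, one_div,
      inv_mul_cancel₀ ha.ne', Real.rpow_one]
  rw [h3, div_mul_cancel₀ _ hG.ne']
  rw [show ((r : ℝ≥0) : ℝ≥0∞) = ENNReal.ofReal (r : ℝ) by simp]
  exact ENNReal.ofReal_le_ofReal (by linarith)

/-- inverted Gamma integral -/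
lemma WW (a q : ℝ) (ha : 0 < a) (hq : 0 < q) :
    ∫⁻ t in Ioi (0 : ℝ), ENNReal.ofReal (t ^ (-a - 1) * Real.exp (-(q / t))) =
      ENNReal.ofReal ((1 / q) ^ a * Real.Gamma a) := by
  rw [← VV a q ha hq]
  have himg : (fun t : ℝ => t⁻¹) '' (Ioi 0) = Ioi (0 : ℝ) := by
    ext x
    constructor
    · rintro ⟨y, hy, rfl⟩
      exact inv_pos.2 (show (0 : ℝ) < y from hy)
    · intro hx
      exact ⟨x⁻¹, inv_pos.2 (show (0 : ℝ) < x from hx), inv_inv x⟩
  conv_rhs => rw [← himg]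
  rw [lintegral_image_eq_lintegral_abs_deriv_mul measurableSet_Ioi
    (f' := fun t => -(t ^ 2)⁻¹)
    (fun t ht => (hasDerivAt_inv (show t ≠ 0 from (show (0 : ℝ) < t from ht).ne')).hasDerivWithinAt)
    (fun x _ y _ h => inv_injective h)]
  refine setLIntegral_congr_fun measurableSet_Ioi fun t ht => ?_
  have ht' : (0 : ℝ) < t := ht
  rw [← ENNReal.ofReal_mul (by positivity)]
  congr 1
  rw [abs_neg, abs_of_pos (by positivity)]
  rw [Real.inv_rpow ht'.le, ← Real.rpow_neg ht'.le, ← mul_assoc]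
  rw [show ((t ^ 2)⁻¹ : ℝ) = t ^ (-2 : ℝ) by
    rw [Real.rpow_neg ht'.le]; norm_cast]
  rw [← Real.rpow_add ht']
  congr 2
  ring

/-- the Riesz kernel as a superposition of Gaussians -/
lemma riesz {W : Type*} [NormedAddCommGroup W] (s : ℝ) (hs : 0 < s) (w : W) :
    ∫⁻ t in Ioi (0 : ℝ), ENNReal.ofReal (t ^ (s / 2 - 1) * Real.exp (-(t * ‖w‖ ^ 2) / 2)) =
      ENNReal.ofReal (2 ^ (s / 2) * Real.Gamma (s / 2)) * ‖w‖ₑ ^ (-s) := by
  have hG := Real.Gamma_pos_of_pos (half_pos hs)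
  rcases eq_or_ne w 0 with rfl | hw
  · simp only [norm_zero, ne_eq, OfNat.ofNat_ne_zero, not_false_eq_true, zero_pow, mul_zero,
      neg_zero, zero_div, Real.exp_zero, mul_one, enorm_zero]
    rw [VV0 _ (half_pos hs), ENNReal.zero_rpow_of_neg (by linarith), ENNReal.mul_top]
    exact (ENNReal.ofReal_pos.2 (by positivity)).ne'
  · have hw' : 0 < ‖w‖ := norm_pos_iff.2 hw
    have h1 := VV (s / 2) (‖w‖ ^ 2 / 2) (half_pos hs) (by positivity)
    rw [← ofReal_norm, ENNReal.ofReal_rpow_of_pos hw', ← ENNReal.ofReal_mul (by positivity)]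
    convert h1 using 2
    · funext t
      ring_nf
    · rw [show (1 / (‖w‖ ^ 2 / 2)) = 2 * (‖w‖ ^ 2)⁻¹ by field_simp]
      rw [Real.mul_rpow (by norm_num) (by positivity), Real.inv_rpow (by positivity),
        ← Real.rpow_natCast, ← Real.rpow_mul hw'.le, Real.rpow_neg hw'.le]
      push_cast
      rw [show (2 : ℝ) * (s / 2) = s by ring]
      ring

end Pool.Agent.H225.En
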