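import Pool.Agent.H225.En3

set_option autoImplicit false

open MeasureTheory Metric Set Filter
open scoped ENNReal NNReal Topology RealInnerProductSpace

namespace Pool.Agent.H225.En

variable {n : ℕ} {Ω : Type*} [MeasurableSpace Ω]

/-- absolute constant -/
noncomputable def AA : ℝ := ∑' k : ℕ, ((k : ℝ) + 1) * Real.exp (1 - k)

lemma AA_summable : Summable fun k : ℕ => ((k : ℝ) + 1) * Real.exp (1 - k) := by
  have h1 : Summable fun k : ℕ => ((k : ℝ) ^ 1 * Real.exp (-1) ^ k) :=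
    summable_pow_mul_geometric_of_norm_lt_one 1 (by
      rw [Real.norm_eq_abs, abs_of_pos (Real.exp_pos _)]
      exact Real.exp_lt_one_iff.2 (by norm_num))
  have h2 : Summable fun k : ℕ => (Real.exp (-1) ^ k) :=
    summable_geometric_of_lt_one (Real.exp_pos _).le (Real.exp_lt_one_iff.2 (by norm_num))
  refine ((h1.add h2).mul_left (Real.exp 1)).congr fun k => ?_
  rw [← Real.exp_nat_mul, pow_one, show (1 : ℝ) - k = 1 + (k : ℝ) * (-1) by ring, Real.exp_add]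
  ring

/-- the transversality condition -/
def Key (σ : Measure Ω) (X : Ω → V n) (C : ℝ) : Prop :=
  ∀ e : V n, ‖e‖ = 1 → ∀ δ : ℝ, 0 < δ → σ {ω | |⟪X ω, e⟫| < δ} ≤ ENNReal.ofReal (C * δ)

lemma tail_bound (σ : Measure Ω) (X : Ω → V n) (hX : Measurable X) (C : ℝ) (hC : 0 ≤ C)
    (hkey : Key σ X C) (e : V n) (he : ‖e‖ = 1) (c : ℝ) (hc : 0 < c) :
    ∫⁻ ω, ENNReal.ofReal (Real.exp (-(c * ⟪X ω, e⟫) ^ 2 / 4)) ∂σ ≤
      ENNReal.ofReal (AA * C / c) := by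
  have hm : ∀ δ : ℝ, MeasurableSet {ω | |⟪X ω, e⟫| < δ} := by
    intro δ
    exact measurableSet_lt (by fun_prop) measurable_const
  calc ∫⁻ ω, ENNReal.ofReal (Real.exp (-(c * ⟪X ω, e⟫) ^ 2 / 4)) ∂σ
      ≤ ∫⁻ ω, ∑' k : ℕ, ({ω | |⟪X ω, e⟫| < ((k : ℝ) + 1) / c}.indicator
          (fun _ => ENNReal.ofReal (Real.exp (1 - k))) ω) ∂σ := by
        refine lintegral_mono fun ω => ?_
        set u := |⟪X ω, e⟫| with hu
        have hu0 : 0 ≤ u := abs_nonneg _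
        set k := ⌊c * u⌋₊ with hk
        have hk1 : c * u < k + 1 := Nat.lt_floor_add_one _
        have hk2 : (k : ℝ) ≤ c * u := Nat.floor_le (by positivity)
        refine le_trans ?_ (ENNReal.le_tsum k)
        rw [indicator_of_mem]
        · refine ENNReal.ofReal_le_ofReal (Real.exp_le_exp.2 ?_)
          have h1 : (c * ⟪X ω, e⟫) ^ 2 = (c * u) ^ 2 := by
            rw [mul_pow, mul_pow, hu, sq_abs]
          rw [h1]
          nlinarith [sq_nonneg (c * u / 2 - 1)]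
        · show u < _
          rw [lt_div_iff₀ hc]
          linarith
    _ = ∑' k : ℕ, ENNReal.ofReal (Real.exp (1 - k)) * σ {ω | |⟪X ω, e⟫| < ((k : ℝ) + 1) / c} := by
        rw [lintegral_tsum fun k => (measurable_const.indicator (hm _)).aemeasurable]
        refine tsum_congr fun k => ?_
        rw [lintegral_indicator_const (hm _)]
    _ ≤ ∑' k : ℕ, ENNReal.ofReal ((C / c) * (((k : ℝ) + 1) * Real.exp (1 - k))) := by
        refine ENNReal.tsum_le_tsum fun k => ?_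
        refine (mul_le_mul_right (hkey e he _ (by positivity)) _).trans ?_
        rw [← ENNReal.ofReal_mul (by positivity)]
        refine ENNReal.ofReal_le_ofReal (le_of_eq ?_)
        field_simp
    _ = _ := by
        rw [← ENNReal.ofReal_tsum_of_nonneg (fun k => by positivity)
          (AA_summable.mul_left _), tsum_mul_left]
        congr 1
        unfold AA
        field_simp

/-- the basic inequality at scale `t` -/
lemma slice_le [Nontrivial (V n)] (σ : Measure Ω) [SFinite σ] (X : Ω → V n) (hX : Measurable X)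
    (hX1 : ∀ ω, ‖X ω‖ = 1) (C : ℝ) (hC : 0 ≤ C)
    (hkey : Key σ X C) (μ : Measure (V n)) [IsFiniteMeasure μ] (R : ℝ) (hR : 0 < R)
    (hμ : ∀ᵐ y ∂μ, ∀ᵐ z ∂μ, ‖y - z‖ ≤ R) (t : ℝ) (ht : 0 < t) :
    ENNReal.ofReal (gc n) * ∫⁻ ω, ∫⁻ y, ∫⁻ z, ENNReal.ofReal
        (Real.exp (-(t * (‖y - z‖ ^ 2 - ⟪X ω, y - z⟫ ^ 2)) / 2)) ∂μ ∂μ ∂σ ≤
      ENNReal.ofReal (Real.exp (1 / 2) * (AA * C) * t ^ ((1 - (n : ℝ)) / 2)) *
        ∫⁻ ξ : V n, ENNReal.ofReal (‖ξ‖⁻¹ * Real.exp (-(‖ξ‖ ^ 2 / (2 * t)))) * Ph μ ξ := by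
  -- choose `ε`
  obtain ⟨ε, hε, hε1, hε2⟩ : ∃ ε : ℝ, 0 < ε ∧ 2 * ε ^ 2 ≤ t ∧ ε * R ≤ 1 := by
    refine ⟨min (Real.sqrt (t / 2)) (1 / R), lt_min (by positivity) (by positivity), ?_, ?_⟩
    · have h1 : min (Real.sqrt (t / 2)) (1 / R) ≤ Real.sqrt (t / 2) := min_le_left _ _
      have h0 : 0 ≤ min (Real.sqrt (t / 2)) (1 / R) := (lt_min (by positivity) (by positivity)).le
      have h2 : min (Real.sqrt (t / 2)) (1 / R) ^ 2 ≤ t / 2 := by
        calc _ ≤ (Real.sqrt (t / 2)) ^ 2 := by gcongr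
          _ = _ := Real.sq_sqrt (by positivity)
      linarith
    · calc _ ≤ 1 / R * R := by gcongr; exact min_le_right _ _
        _ = 1 := by field_simp
  set a := Real.sqrt t with ha
  have ha0 : 0 < a := Real.sqrt_pos.2 ht
  have ha2 : a ^ 2 = t := Real.sq_sqrt ht.le
  -- step 1: insert the factor
  have step1 : ∀ ω, ENNReal.ofReal (gc n) * ∫⁻ y, ∫⁻ z, ENNReal.ofReal
        (Real.exp (-(t * (‖y - z‖ ^ 2 - ⟪X ω, y - z⟫ ^ 2)) / 2)) ∂μ ∂μ ≤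
      ENNReal.ofReal (Real.exp (1 / 2) * (a ^ n * (ε / a))⁻¹) *
        ∫⁻ ξ : V n, ENNReal.ofReal (Real.exp (-(‖ξ‖ ^ 2 / (2 * t)))) *
          ENNReal.ofReal (Real.exp (-(ε⁻¹ * ⟪X ω, ξ⟫) ^ 2 / 4)) * Ph μ ξ := by
    intro ω
    have h1 : ∫⁻ y, ∫⁻ z, ENNReal.ofReal
        (Real.exp (-(t * (‖y - z‖ ^ 2 - ⟪X ω, y - z⟫ ^ 2)) / 2)) ∂μ ∂μ ≤
        ENNReal.ofReal (Real.exp (1 / 2)) * ∫⁻ y, ∫⁻ z, ENNReal.ofReal
          (Real.exp (-‖La (X ω) a ε (y - z)‖ ^ 2 / 2)) ∂μ ∂μ := by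
      rw [← lintegral_const_mul _ (by
        refine Measurable.lintegral_prod_right' (f := fun p : V n × V n => ENNReal.ofReal
          (Real.exp (-‖La (X ω) a ε (p.1 - p.2)‖ ^ 2 / 2))) ?_
        fun_prop)]
      refine lintegral_mono_ae ?_
      filter_upwards [hμ] with y hy
      rw [← lintegral_const_mul _ (by fun_prop)]
      refine lintegral_mono_ae ?_
      filter_upwards [hy] with z hz
      rw [← ENNReal.ofReal_mul (Real.exp_pos _).le, ← Real.exp_add, norm_La _ (hX1 ω), ha2]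
      refine ENNReal.ofReal_le_ofReal (Real.exp_le_exp.2 ?_)
      have h2 : ε ^ 2 * ⟪X ω, y - z⟫ ^ 2 ≤ 1 := by
        have h3 : |⟪X ω, y - z⟫| ≤ R := by
          refine (abs_real_inner_le_norm _ _).trans ?_
          rw [hX1 ω, one_mul]; exact hz
        have h4 : ⟪X ω, y - z⟫ ^ 2 ≤ R ^ 2 := by
          rw [← sq_abs]; gcongr
        calc ε ^ 2 * ⟪X ω, y - z⟫ ^ 2 ≤ ε ^ 2 * R ^ 2 := by gcongr
          _ = (ε * R) ^ 2 := by ring
          _ ≤ 1 ^ 2 := by gcongr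
          _ = 1 := one_pow 2
      linarith
    calc _ ≤ ENNReal.ofReal (gc n) * (ENNReal.ofReal (Real.exp (1 / 2)) *
          ∫⁻ y, ∫⁻ z, ENNReal.ofReal (Real.exp (-‖La (X ω) a ε (y - z)‖ ^ 2 / 2)) ∂μ ∂μ) := by
          gcongr
      _ = ENNReal.ofReal (Real.exp (1 / 2)) * (ENNReal.ofReal (gc n) *
          ∫⁻ y, ∫⁻ z, ENNReal.ofReal (Real.exp (-‖La (X ω) a ε (y - z)‖ ^ 2 / 2)) ∂μ ∂μ) := by
          ring
      _ = ENNReal.ofReal (Real.exp (1 / 2)) * (ENNReal.ofReal ((a ^ n * (ε / a))⁻¹) *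
        ∫⁻ ξ : V n, ENNReal.ofReal (Real.exp (-((‖ξ‖ ^ 2 - ⟪X ω, ξ⟫ ^ 2) / a ^ 2 +
          ⟪X ω, ξ⟫ ^ 2 / ε ^ 2) / 2)) * Ph μ ξ) := by
          rw [gauss_pair _ (La_symm _ _ _), change _ (hX1 ω) _ _ ha0 hε]
      _ ≤ _ := by
          rw [← mul_assoc, ← ENNReal.ofReal_mul (Real.exp_pos _).le]
          gcongr with ξ
          rw [← ENNReal.ofReal_mul (Real.exp_pos _).le, ← Real.exp_add, ha2]
          refine ENNReal.ofReal_le_ofReal (Real.exp_le_exp.2 ?_)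
          have h5 : ⟪X ω, ξ⟫ ^ 2 / t ≤ ⟪X ω, ξ⟫ ^ 2 / (2 * ε ^ 2) := by gcongr
          have h6 : (‖ξ‖ ^ 2 - ⟪X ω, ξ⟫ ^ 2) / t = ‖ξ‖ ^ 2 / t - ⟪X ω, ξ⟫ ^ 2 / t := sub_div _ _ _
          have h7 : ‖ξ‖ ^ 2 / (2 * t) = ‖ξ‖ ^ 2 / t / 2 := by field_simp
          have h8 : (ε⁻¹ * ⟪X ω, ξ⟫) ^ 2 = ⟪X ω, ξ⟫ ^ 2 / ε ^ 2 := by
            rw [mul_pow]; field_simp
          have h9 : ⟪X ω, ξ⟫ ^ 2 / (2 * ε ^ 2) = ⟪X ω, ξ⟫ ^ 2 / ε ^ 2 / 2 := by field_simp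
          rw [h6, h7, h8]
          rw [h9] at h5
          linarith
  -- step 2: integrate
  have hmeas : Measurable (fun p : Ω × V n => ENNReal.ofReal (Real.exp (-(‖p.2‖ ^ 2 / (2 * t)))) *
          ENNReal.ofReal (Real.exp (-(ε⁻¹ * ⟪X p.1, p.2⟫) ^ 2 / 4)) * Ph μ p.2) := by
    have := measurable_Ph μ
    fun_prop
  have hmeasL : Measurable (fun ω => ∫⁻ y, ∫⁻ z, ENNReal.ofReal
        (Real.exp (-(t * (‖y - z‖ ^ 2 - ⟪X ω, y - z⟫ ^ 2)) / 2)) ∂μ ∂μ) := by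
    have h1 : Measurable (fun q : Ω × V n => ∫⁻ z, ENNReal.ofReal
        (Real.exp (-(t * (‖q.2 - z‖ ^ 2 - ⟪X q.1, q.2 - z⟫ ^ 2)) / 2)) ∂μ) := by
      refine Measurable.lintegral_prod_right' (f := fun p : (Ω × V n) × V n => ENNReal.ofReal
        (Real.exp (-(t * (‖p.1.2 - p.2‖ ^ 2 - ⟪X p.1.1, p.1.2 - p.2⟫ ^ 2)) / 2))) ?_
      fun_prop
    exact h1.lintegral_prod_right'
  rw [← lintegral_const_mul _ hmeasL]
  calc ∫⁻ ω, ENNReal.ofReal (gc n) * ∫⁻ y, ∫⁻ z, ENNReal.ofReal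
        (Real.exp (-(t * (‖y - z‖ ^ 2 - ⟪X ω, y - z⟫ ^ 2)) / 2)) ∂μ ∂μ ∂σ
      ≤ ∫⁻ ω, ENNReal.ofReal (Real.exp (1 / 2) * (a ^ n * (ε / a))⁻¹) *
        ∫⁻ ξ : V n, ENNReal.ofReal (Real.exp (-(‖ξ‖ ^ 2 / (2 * t)))) *
          ENNReal.ofReal (Real.exp (-(ε⁻¹ * ⟪X ω, ξ⟫) ^ 2 / 4)) * Ph μ ξ ∂volume ∂σ :=
        lintegral_mono step1
    _ = ENNReal.ofReal (Real.exp (1 / 2) * (a ^ n * (ε / a))⁻¹) *
        ∫⁻ ω, ∫⁻ ξ : V n, ENNReal.ofReal (Real.exp (-(‖ξ‖ ^ 2 / (2 * t)))) *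
          ENNReal.ofReal (Real.exp (-(ε⁻¹ * ⟪X ω, ξ⟫) ^ 2 / 4)) * Ph μ ξ ∂volume ∂σ := by
        rw [lintegral_const_mul _ hmeas.lintegral_prod_right']
    _ = ENNReal.ofReal (Real.exp (1 / 2) * (a ^ n * (ε / a))⁻¹) *
        ∫⁻ ξ : V n, ∫⁻ ω, ENNReal.ofReal (Real.exp (-(‖ξ‖ ^ 2 / (2 * t)))) *
          ENNReal.ofReal (Real.exp (-(ε⁻¹ * ⟪X ω, ξ⟫) ^ 2 / 4)) * Ph μ ξ ∂σ ∂volume := by
        rw [lintegral_lintegral_swap hmeas.aemeasurable]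
    _ ≤ ENNReal.ofReal (Real.exp (1 / 2) * (a ^ n * (ε / a))⁻¹) *
        ∫⁻ ξ : V n, ENNReal.ofReal (AA * C * ε) *
          (ENNReal.ofReal (‖ξ‖⁻¹ * Real.exp (-(‖ξ‖ ^ 2 / (2 * t)))) * Ph μ ξ) := by
        refine mul_le_mul_right (lintegral_mono_ae ?_) _
        have h0 : ∀ᵐ ξ : V n, ξ ≠ 0 := by
          have := (measure_singleton (0 : V n) : (volume : Measure (V n)) {0} = 0)
          exact compl_mem_ae_iff.2 this
        filter_upwards [h0] with ξ hξ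
        have hξ' : 0 < ‖ξ‖ := norm_pos_iff.2 hξ
        have h1 : ∀ ω, (-(ε⁻¹ * ⟪X ω, ξ⟫) ^ 2 / 4) =
            (-((ε⁻¹ * ‖ξ‖) * ⟪X ω, ‖ξ‖⁻¹ • ξ⟫) ^ 2 / 4) := by
          intro ω
          rw [inner_smul_right]
          field_simp
        have h2 := tail_bound σ X hX C hC hkey (‖ξ‖⁻¹ • ξ) (by
          rw [norm_smul, norm_inv, norm_norm, inv_mul_cancel₀ hξ'.ne']) (ε⁻¹ * ‖ξ‖) (by positivity)
        rw [lintegral_mul_const _ (by fun_prop), lintegral_const_mul _ (by fun_prop)]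
        simp_rw [h1]
        calc _ ≤ ENNReal.ofReal (Real.exp (-(‖ξ‖ ^ 2 / (2 * t)))) *
              ENNReal.ofReal (AA * C / (ε⁻¹ * ‖ξ‖)) * Ph μ ξ := by gcongr
          _ = _ := by
              rw [← mul_assoc, ← ENNReal.ofReal_mul (Real.exp_pos _).le,
                ← ENNReal.ofReal_mul (by
                  have : 0 ≤ AA := tsum_nonneg fun k => by positivity
                  positivity)]
              congr 2
              field_simp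
    _ = _ := by
        have hA : 0 ≤ AA := tsum_nonneg fun k => by positivity
        rw [lintegral_const_mul _ (by have := measurable_Ph μ; fun_prop), ← mul_assoc,
          ← ENNReal.ofReal_mul (by positivity)]
        congr 2
        have e1 : t ^ ((1 - (n : ℝ)) / 2) = a / a ^ n := by
          rw [show (1 - (n : ℝ)) / 2 = (1 / 2 : ℝ) - (1 / 2) * n by ring, Real.rpow_sub ht,
            Real.rpow_mul ht.le, Real.rpow_natCast, ← Real.sqrt_eq_rpow, ← ha]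
        rw [e1]
        field_simp

end Pool.Agent.H225.En
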