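import Pool.Agent.H225.En4

set_option autoImplicit false

open MeasureTheory Metric Set Filter
open scoped ENNReal NNReal Topology RealInnerProductSpace

namespace Pool.Agent.H225.En

variable {n : ℕ} {Ω : Type*} [MeasurableSpace Ω]

/-- projection along `x` -/
noncomputable def Pr (x w : V n) : V n := w - ⟪x, w⟫ • x

lemma norm_Pr (x : V n) (hx : ‖x‖ = 1) (w : V n) : ‖Pr x w‖ ^ 2 = ‖w‖ ^ 2 - ⟪x, w⟫ ^ 2 := by
  unfold Pr
  rw [@norm_sub_sq_real, norm_smul, inner_smul_right, hx, real_inner_comm x w]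
  simp only [Real.norm_eq_abs, mul_one, sq_abs]
  ring

lemma AA_nonneg : 0 ≤ AA := tsum_nonneg fun k => by positivity

/-- triple integrals -/
lemma triple (σ : Measure Ω) [SFinite σ] (μ : Measure (V n)) [SFinite μ]
    (g : Ω × V n × V n → ℝ≥0∞) (hg : Measurable g) :
    ∫⁻ ω, ∫⁻ y, ∫⁻ z, g (ω, y, z) ∂μ ∂μ ∂σ = ∫⁻ p, g p ∂(σ.prod (μ.prod μ)) := by
  rw [lintegral_prod _ hg.aemeasurable]
  refine lintegral_congr fun ω => ?_
  rw [lintegral_prod _ (by fun_prop)]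

lemma swap4 (σ : Measure Ω) [SFinite σ] (μ : Measure (V n)) [SFinite μ]
    (g : Ω × V n × V n → ℝ → ℝ≥0∞) (hg : Measurable (Function.uncurry g)) :
    ∫⁻ t in Ioi (0 : ℝ), ∫⁻ ω, ∫⁻ y, ∫⁻ z, g (ω, y, z) t ∂μ ∂μ ∂σ =
      ∫⁻ ω, ∫⁻ y, ∫⁻ z, (∫⁻ t in Ioi (0 : ℝ), g (ω, y, z) t) ∂μ ∂μ ∂σ := by
  rw [triple σ μ (fun p => ∫⁻ t in Ioi (0 : ℝ), g p t) hg.lintegral_prod_right',
    lintegral_lintegral_swap hg.aemeasurable]
  refine lintegral_congr fun t => ?_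
  rw [triple σ μ (fun p => g p t) (by fun_prop)]

/-- the weighted integral of the squared characteristic function -/
noncomputable def TT (μ : Measure (V n)) (s : ℝ) : ℝ≥0∞ :=
  ∫⁻ ξ : V n, ENNReal.ofReal (‖ξ‖ ^ (s - n)) * Ph μ ξ

lemma isotropic [Nontrivial (V n)] (μ : Measure (V n)) [IsFiniteMeasure μ] (t : ℝ) (ht : 0 < t) :
    ENNReal.ofReal (gc n) * ∫⁻ y, ∫⁻ z, ENNReal.ofReal
        (Real.exp (-(t * ‖y - z‖ ^ 2) / 2)) ∂μ ∂μ =
      ENNReal.ofReal (t ^ (-(n : ℝ) / 2)) *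
        ∫⁻ ξ : V n, ENNReal.ofReal (Real.exp (-(‖ξ‖ ^ 2 / (2 * t)))) * Ph μ ξ := by
  obtain ⟨x, hx⟩ := exists_norm_eq (V n) (zero_le_one' ℝ)
  set a := Real.sqrt t with ha
  have ha0 : 0 < a := Real.sqrt_pos.2 ht
  have ha2 : a ^ 2 = t := Real.sq_sqrt ht.le
  have h1 := gauss_pair _ (La_symm x a a) μ
  rw [change x hx a a ha0 ha0] at h1
  have h2 : ∀ w : V n, ‖La x a a w‖ ^ 2 = t * ‖w‖ ^ 2 := by
    intro w; rw [norm_La x hx, ha2]; ring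
  simp_rw [h2] at h1
  rw [h1]
  congr 2
  · rw [div_self ha0.ne', mul_one, show -(n : ℝ) / 2 = -((1 / 2) * n) by ring,
      Real.rpow_neg ht.le, Real.rpow_mul ht.le, Real.rpow_natCast, ← Real.sqrt_eq_rpow]
  · funext ξ
    congr 3
    rw [ha2]
    field_simp
    ring

/-- Fourier representation of the energy -/
lemma energy_eq [Nontrivial (V n)] (μ : Measure (V n)) [IsFiniteMeasure μ] (s : ℝ) (hs : 0 < s)
    (hsn : s < n) :
    ENNReal.ofReal (2 ^ (((n : ℝ) - s) / 2) * Real.Gamma (((n : ℝ) - s) / 2)) * TT μ s =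
      ENNReal.ofReal (gc n) * (ENNReal.ofReal (2 ^ (s / 2) * Real.Gamma (s / 2)) *
        ∫⁻ y, ∫⁻ z, ‖y - z‖ₑ ^ (-s) ∂μ ∂μ) := by
  set a := ((n : ℝ) - s) / 2 with ha
  have ha0 : 0 < a := by rw [ha]; linarith
  have hmP := measurable_Ph μ
  have e1 : ENNReal.ofReal (2 ^ (s / 2) * Real.Gamma (s / 2)) *
        ∫⁻ y, ∫⁻ z, ‖y - z‖ₑ ^ (-s) ∂μ ∂μ =
      ∫⁻ t in Ioi (0 : ℝ), ∫⁻ y, ∫⁻ z, ENNReal.ofReal (t ^ (s / 2 - 1) *
        Real.exp (-(t * ‖y - z‖ ^ 2) / 2)) ∂μ ∂μ := by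
    have h1 := swap4 (Measure.dirac (0 : ℝ)) μ (fun p t => ENNReal.ofReal (t ^ (s / 2 - 1) *
        Real.exp (-(t * ‖p.2.1 - p.2.2‖ ^ 2) / 2))) (by
          unfold Function.uncurry
          fun_prop)
    simp only [lintegral_dirac] at h1
    rw [h1]
    simp_rw [riesz s hs]
    rw [← lintegral_const_mul _ (by
      refine Measurable.lintegral_prod_right' (f := fun p : V n × V n => ‖p.1 - p.2‖ₑ ^ (-s)) ?_
      fun_prop)]
    refine lintegral_congr fun y => ?_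
    rw [← lintegral_const_mul _ (by fun_prop)]
  rw [e1, ← lintegral_const_mul _ (by
    refine Measurable.lintegral_prod_right' (f := fun q : ℝ × V n => ∫⁻ z,
      ENNReal.ofReal (q.1 ^ (s / 2 - 1) * Real.exp (-(q.1 * ‖q.2 - z‖ ^ 2) / 2)) ∂μ) ?_
    refine Measurable.lintegral_prod_right' (f := fun q : (ℝ × V n) × V n =>
      ENNReal.ofReal (q.1.1 ^ (s / 2 - 1) * Real.exp (-(q.1.1 * ‖q.1.2 - q.2‖ ^ 2) / 2))) ?_
    fun_prop)]
  have e2 : ∀ t ∈ Ioi (0 : ℝ), ENNReal.ofReal (gc n) * ∫⁻ y, ∫⁻ z, ENNReal.ofReal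
      (t ^ (s / 2 - 1) * Real.exp (-(t * ‖y - z‖ ^ 2) / 2)) ∂μ ∂μ =
      ∫⁻ ξ : V n, ENNReal.ofReal (t ^ (-a - 1) * Real.exp (-(‖ξ‖ ^ 2 / 2 / t))) * Ph μ ξ := by
    intro t ht
    have ht' : (0 : ℝ) < t := ht
    have h2 : ∫⁻ y, ∫⁻ z, ENNReal.ofReal
      (t ^ (s / 2 - 1) * Real.exp (-(t * ‖y - z‖ ^ 2) / 2)) ∂μ ∂μ =
        ENNReal.ofReal (t ^ (s / 2 - 1)) * ∫⁻ y, ∫⁻ z, ENNReal.ofReal
        (Real.exp (-(t * ‖y - z‖ ^ 2) / 2)) ∂μ ∂μ := by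
      rw [← lintegral_const_mul _ (by
        refine Measurable.lintegral_prod_right' (f := fun p : V n × V n => ENNReal.ofReal
          (Real.exp (-(t * ‖p.1 - p.2‖ ^ 2) / 2))) ?_
        fun_prop)]
      refine lintegral_congr fun y => ?_
      rw [← lintegral_const_mul _ (by fun_prop)]
      refine lintegral_congr fun z => ?_
      rw [ENNReal.ofReal_mul (by positivity)]
    rw [h2]
    rw [mul_left_comm, isotropic μ t ht', ← mul_assoc, ← ENNReal.ofReal_mul (by positivity),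
      ← Real.rpow_add ht', ← lintegral_const_mul _ (by fun_prop)]
    refine lintegral_congr fun ξ => ?_
    rw [← mul_assoc, ← ENNReal.ofReal_mul (by positivity)]
    congr 3
    · congr 1
      rw [ha]; ring
    · congr 1
      field_simp
  have hm3 : Measurable (Function.uncurry fun (t : ℝ) (ξ : V n) => ENNReal.ofReal (t ^ (-a - 1) *
      Real.exp (-(‖ξ‖ ^ 2 / 2 / t))) * Ph μ ξ) := by
    unfold Function.uncurry
    fun_prop
  rw [setLIntegral_congr_fun measurableSet_Ioi e2, lintegral_lintegral_swap hm3.aemeasurable]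
  unfold TT
  rw [← lintegral_const_mul _ (by fun_prop)]
  have h0 : ∀ᵐ ξ : V n, ξ ≠ 0 := by
    have := (measure_singleton (0 : V n) : (volume : Measure (V n)) {0} = 0)
    exact compl_mem_ae_iff.2 this
  refine lintegral_congr_ae ?_
  filter_upwards [h0] with ξ hξ
  have hξ' : 0 < ‖ξ‖ := norm_pos_iff.2 hξ
  rw [lintegral_mul_const _ (by fun_prop), WW a _ ha0 (by positivity), ← mul_assoc,
    ← ENNReal.ofReal_mul (by have := Real.Gamma_pos_of_pos ha0; positivity)]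
  congr 2
  rw [show (1 / (‖ξ‖ ^ 2 / 2)) = 2 * (‖ξ‖ ^ 2)⁻¹ by field_simp]
  rw [Real.mul_rpow (by norm_num) (by positivity), Real.inv_rpow (by positivity),
    ← Real.rpow_natCast, ← Real.rpow_mul hξ'.le, ← Real.rpow_neg hξ'.le]
  rw [show -(((2 : ℕ) : ℝ) * a) = s - n by rw [ha]; push_cast; ring]
  ring

/-- **The energy inequality.** -/
theorem energy_ineq [Nontrivial (V n)] (σ : Measure Ω) [SFinite σ] (X : Ω → V n)
    (hX : Measurable X) (hX1 : ∀ ω, ‖X ω‖ = 1) (C : ℝ) (hC : 0 ≤ C)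
    (hkey : Key σ X C) (μ : Measure (V n)) [IsFiniteMeasure μ] (R : ℝ) (hR : 0 < R)
    (hμ : ∀ᵐ y ∂μ, ∀ᵐ z ∂μ, ‖y - z‖ ≤ R) (s : ℝ) (hs : 0 < s) (hsn : s < n - 1) :
    ∃ M : ℝ≥0∞, M ≠ ∞ ∧ ∫⁻ ω, ∫⁻ y, ∫⁻ z, ‖Pr (X ω) (y - z)‖ₑ ^ (-s) ∂μ ∂μ ∂σ ≤
      M * ∫⁻ y, ∫⁻ z, ‖y - z‖ₑ ^ (-s) ∂μ ∂μ := by
  have hAA := AA_nonneg
  have hmP := measurable_Ph μ
  set a := ((n : ℝ) - 1 - s) / 2 with ha
  have ha0 : 0 < a := by rw [ha]; linarith
  set a' := ((n : ℝ) - s) / 2 with ha'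
  have ha'0 : 0 < a' := by rw [ha']; linarith
  have hG := Real.Gamma_pos_of_pos ha0
  have hG' := Real.Gamma_pos_of_pos ha'0
  have hGs := Real.Gamma_pos_of_pos (half_pos hs)
  set cs : ℝ := 2 ^ (s / 2) * Real.Gamma (s / 2) with hcs
  have hcs0 : 0 < cs := by positivity
  set ca : ℝ := 2 ^ a' * Real.Gamma a' with hca
  have hca0 : 0 < ca := by positivity
  have hXm : Measurable (fun p : Ω × V n × V n => Pr (X p.1) (p.2.1 - p.2.2)) := by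
    unfold Pr
    fun_prop
  have hmain : ENNReal.ofReal (gc n * cs) *
      ∫⁻ ω, ∫⁻ y, ∫⁻ z, ‖Pr (X ω) (y - z)‖ₑ ^ (-s) ∂μ ∂μ ∂σ ≤
      ENNReal.ofReal (Real.exp (1 / 2) * (AA * C) * (2 ^ a * Real.Gamma a)) * TT μ s := by
    have e1 : ENNReal.ofReal cs *
        ∫⁻ ω, ∫⁻ y, ∫⁻ z, ‖Pr (X ω) (y - z)‖ₑ ^ (-s) ∂μ ∂μ ∂σ =
        ∫⁻ t in Ioi (0 : ℝ), ∫⁻ ω, ∫⁻ y, ∫⁻ z, ENNReal.ofReal (t ^ (s / 2 - 1) *
          Real.exp (-(t * ‖Pr (X ω) (y - z)‖ ^ 2) / 2)) ∂μ ∂μ ∂σ := by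
      have h1 := swap4 σ μ (fun p t => ENNReal.ofReal (t ^ (s / 2 - 1) *
          Real.exp (-(t * ‖Pr (X p.1) (p.2.1 - p.2.2)‖ ^ 2) / 2))) (by
            have h5 : Measurable (fun q : (Ω × V n × V n) × ℝ =>
              Pr (X q.1.1) (q.1.2.1 - q.1.2.2)) := hXm.comp measurable_fst
            unfold Function.uncurry
            fun_prop)
      simp only at h1
      rw [h1]
      simp_rw [riesz s hs]
      rw [triple σ μ (fun p => ‖Pr (X p.1) (p.2.1 - p.2.2)‖ₑ ^ (-s)) (by fun_prop),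
        triple σ μ (fun p => ENNReal.ofReal (2 ^ (s / 2) * Real.Gamma (s / 2)) *
          ‖Pr (X p.1) (p.2.1 - p.2.2)‖ₑ ^ (-s)) (by fun_prop),
        lintegral_const_mul _ (by fun_prop)]
    rw [ENNReal.ofReal_mul (gc_pos n).le, mul_assoc, e1]
    have hm4 : Measurable (fun q : ℝ × Ω × V n × V n => ENNReal.ofReal (q.1 ^ (s / 2 - 1) *
          Real.exp (-(q.1 * ‖Pr (X q.2.1) (q.2.2.1 - q.2.2.2)‖ ^ 2) / 2))) := by
      have h5 : Measurable (fun q : ℝ × Ω × V n × V n => Pr (X q.2.1) (q.2.2.1 - q.2.2.2)) :=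
        hXm.comp measurable_snd
      fun_prop
    have hm5 : Measurable (fun t : ℝ => ∫⁻ ω, ∫⁻ y, ∫⁻ z, ENNReal.ofReal (t ^ (s / 2 - 1) *
          Real.exp (-(t * ‖Pr (X ω) (y - z)‖ ^ 2) / 2)) ∂μ ∂μ ∂σ) := by
      have h6 : ∀ t : ℝ, ∫⁻ ω, ∫⁻ y, ∫⁻ z, ENNReal.ofReal (t ^ (s / 2 - 1) *
          Real.exp (-(t * ‖Pr (X ω) (y - z)‖ ^ 2) / 2)) ∂μ ∂μ ∂σ = ∫⁻ p, ENNReal.ofReal
            (t ^ (s / 2 - 1) * Real.exp (-(t * ‖Pr (X p.1) (p.2.1 - p.2.2)‖ ^ 2) / 2))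
            ∂(σ.prod (μ.prod μ)) := fun t => triple σ μ (fun p => ENNReal.ofReal
            (t ^ (s / 2 - 1) * Real.exp (-(t * ‖Pr (X p.1) (p.2.1 - p.2.2)‖ ^ 2) / 2)))
              (by fun_prop)
      simp_rw [h6]
      exact hm4.lintegral_prod_right'
    rw [← lintegral_const_mul _ hm5]
    -- the bound at each scale
    have e2 : ∀ t ∈ Ioi (0 : ℝ), ENNReal.ofReal (gc n) * ∫⁻ ω, ∫⁻ y, ∫⁻ z, ENNReal.ofReal
        (t ^ (s / 2 - 1) * Real.exp (-(t * ‖Pr (X ω) (y - z)‖ ^ 2) / 2)) ∂μ ∂μ ∂σ ≤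
        ∫⁻ ξ : V n, ENNReal.ofReal (Real.exp (1 / 2) * (AA * C)) *
          (ENNReal.ofReal (t ^ (-a - 1) * Real.exp (-(‖ξ‖ ^ 2 / 2 / t))) *
            (ENNReal.ofReal (‖ξ‖⁻¹) * Ph μ ξ)) := by
      intro t ht
      have ht' : (0 : ℝ) < t := ht
      have h2 : ∫⁻ ω, ∫⁻ y, ∫⁻ z, ENNReal.ofReal
        (t ^ (s / 2 - 1) * Real.exp (-(t * ‖Pr (X ω) (y - z)‖ ^ 2) / 2)) ∂μ ∂μ ∂σ =
          ENNReal.ofReal (t ^ (s / 2 - 1)) * ∫⁻ ω, ∫⁻ y, ∫⁻ z, ENNReal.ofReal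
          (Real.exp (-(t * (‖y - z‖ ^ 2 - ⟪X ω, y - z⟫ ^ 2)) / 2)) ∂μ ∂μ ∂σ := by
        rw [triple σ μ (fun p => ENNReal.ofReal (t ^ (s / 2 - 1) *
          Real.exp (-(t * ‖Pr (X p.1) (p.2.1 - p.2.2)‖ ^ 2) / 2))) (by fun_prop),
          triple σ μ (fun p => ENNReal.ofReal (Real.exp (-(t * (‖p.2.1 - p.2.2‖ ^ 2 -
            ⟪X p.1, p.2.1 - p.2.2⟫ ^ 2)) / 2))) (by fun_prop),
          ← lintegral_const_mul _ (by fun_prop)]
        refine lintegral_congr fun p => ?_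
        rw [ENNReal.ofReal_mul (by positivity), norm_Pr _ (hX1 _)]
      rw [h2, mul_left_comm]
      refine (mul_le_mul_right (slice_le σ X hX hX1 C hC hkey μ R hR hμ t ht') _).trans ?_
      rw [← mul_assoc, ← ENNReal.ofReal_mul (by positivity), ← lintegral_const_mul _ (by fun_prop)]
      refine le_of_eq (lintegral_congr fun ξ => ?_)
      have h3 : t ^ (s / 2 - 1) * (Real.exp (1 / 2) * (AA * C) * t ^ ((1 - (n : ℝ)) / 2)) =
          Real.exp (1 / 2) * (AA * C) * t ^ (-a - 1) := by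
        have : t ^ (-a - 1) = t ^ (s / 2 - 1) * t ^ ((1 - (n : ℝ)) / 2) := by
          rw [← Real.rpow_add ht']
          congr 1
          rw [ha]; ring
        rw [this]; ring
      have h4 : ‖ξ‖ ^ 2 / (2 * t) = ‖ξ‖ ^ 2 / 2 / t := by field_simp
      rw [h3, h4, ENNReal.ofReal_mul (p := Real.exp (1 / 2) * (AA * C)) (by positivity),
        ENNReal.ofReal_mul (p := ‖ξ‖⁻¹) (by positivity),
        ENNReal.ofReal_mul (p := t ^ (-a - 1)) (by positivity)]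
      ring
    refine (setLIntegral_mono' measurableSet_Ioi e2).trans ?_
    have hm3 : Measurable (Function.uncurry fun (t : ℝ) (ξ : V n) =>
        ENNReal.ofReal (Real.exp (1 / 2) * (AA * C)) *
          (ENNReal.ofReal (t ^ (-a - 1) * Real.exp (-(‖ξ‖ ^ 2 / 2 / t))) *
            (ENNReal.ofReal (‖ξ‖⁻¹) * Ph μ ξ))) := by
      unfold Function.uncurry
      fun_prop
    rw [lintegral_lintegral_swap hm3.aemeasurable]
    unfold TT
    rw [← lintegral_const_mul _ (by fun_prop)]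
    have h0 : ∀ᵐ ξ : V n, ξ ≠ 0 := by
      have := (measure_singleton (0 : V n) : (volume : Measure (V n)) {0} = 0)
      exact compl_mem_ae_iff.2 this
    refine le_of_eq (lintegral_congr_ae ?_)
    filter_upwards [h0] with ξ hξ
    have hξ' : 0 < ‖ξ‖ := norm_pos_iff.2 hξ
    rw [lintegral_const_mul _ (by fun_prop), lintegral_mul_const _ (by fun_prop),
      WW a _ ha0 (by positivity)]
    have h9 : ∀ b1 b2 b3 b4 b5 : ℝ, 0 ≤ b1 → 0 ≤ b2 → 0 ≤ b3 → 0 ≤ b4 →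
        b1 * b2 * b3 = b4 * b5 → ∀ P : ℝ≥0∞, ENNReal.ofReal b1 * (ENNReal.ofReal b2 *
          (ENNReal.ofReal b3 * P)) = ENNReal.ofReal b4 * (ENNReal.ofReal b5 * P) := by
      intro b1 b2 b3 b4 b5 h1 h2 h3 h4 h5 P
      calc _ = ENNReal.ofReal (b1 * b2 * b3) * P := by
            rw [ENNReal.ofReal_mul (by positivity), ENNReal.ofReal_mul h1]; ring
        _ = _ := by rw [h5, ENNReal.ofReal_mul h4]; ring
    refine h9 _ _ _ _ _ (by positivity) (by positivity) (by positivity) (by positivity) ?_ _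
    rw [show (1 / (‖ξ‖ ^ 2 / 2)) = 2 * (‖ξ‖ ^ 2)⁻¹ by field_simp]
    rw [Real.mul_rpow (by norm_num) (by positivity), Real.inv_rpow (by positivity),
      ← Real.rpow_natCast, ← Real.rpow_mul hξ'.le, ← Real.rpow_neg hξ'.le,
      ← Real.rpow_neg_one ‖ξ‖]
    have h7 : ‖ξ‖ ^ (s - n) = ‖ξ‖ ^ (-(((2 : ℕ) : ℝ) * a)) * ‖ξ‖ ^ (-1 : ℝ) := by
      rw [← Real.rpow_add hξ']
      congr 1
      rw [ha]; push_cast; ring
    rw [h7]
    ring
  have hen := energy_eq μ s hs (by linarith)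
  rw [← ha', ← hca, ← hcs] at hen
  -- combine
  set I := ∫⁻ y, ∫⁻ z, ‖y - z‖ₑ ^ (-s) ∂μ ∂μ with hI
  set J := ∫⁻ ω, ∫⁻ y, ∫⁻ z, ‖Pr (X ω) (y - z)‖ₑ ^ (-s) ∂μ ∂μ ∂σ with hJ
  set B : ℝ := Real.exp (1 / 2) * (AA * C) * (2 ^ a * Real.Gamma a) with hB
  have hB0 : 0 ≤ B := by positivity
  refine ⟨ENNReal.ofReal (B / ca), ENNReal.ofReal_ne_top, ?_⟩
  have hgcs : ENNReal.ofReal (gc n * cs) ≠ 0 :=
    (ENNReal.ofReal_pos.2 (mul_pos (gc_pos n) hcs0)).ne'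
  have hT : TT μ s = ENNReal.ofReal (ca⁻¹ * (gc n * cs)) * I := by
    rw [ENNReal.ofReal_mul (by positivity), ENNReal.ofReal_mul (gc_pos n).le, mul_assoc, mul_assoc,
      ← hen, ← mul_assoc, ← ENNReal.ofReal_mul (by positivity), inv_mul_cancel₀ hca0.ne',
      ENNReal.ofReal_one, one_mul]
  rw [hT] at hmain
  have h8 : ENNReal.ofReal B * (ENNReal.ofReal (ca⁻¹ * (gc n * cs)) * I) =
      ENNReal.ofReal (gc n * cs) * (ENNReal.ofReal (B / ca) * I) := by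
    have hgc := gc_pos n
    have h10 : ENNReal.ofReal B * ENNReal.ofReal (ca⁻¹ * (gc n * cs)) =
        ENNReal.ofReal (gc n * cs) * ENNReal.ofReal (B / ca) := by
      rw [← ENNReal.ofReal_mul hB0, ← ENNReal.ofReal_mul (by positivity)]
      congr 1
      field_simp
    calc _ = (ENNReal.ofReal B * ENNReal.ofReal (ca⁻¹ * (gc n * cs))) * I := by ring
      _ = _ := by rw [h10]; ring
  rw [h8] at hmain
  exact (ENNReal.mul_le_mul_iff_right hgcs ENNReal.ofReal_ne_top).1 hmain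

end Pool.Agent.H225.En
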