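import Pool.Agent.H867.FT.Gen3
import Pool.Agent.H707.FT867PSG

set_option autoImplicit false

/-! The non-Cohen–Macaulay case: assembly. -/

namespace Pool.Agent.H225.FT867NCM

open Pool.Agent.H867.FT

/-- powers of the maximal ideal of `R` -/
theorem pow_le {P R : Type} [CommRing P] [IsLocalRing P] [CommRing R] [IsLocalRing R]
    [Algebra P R] {r : ℕ} (hr : IsLocalRing.maximalIdeal R ^ (r + 1) =
      (IsLocalRing.maximalIdeal P).map (algebraMap P R) * IsLocalRing.maximalIdeal R ^ r)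
    (j : ℕ) : IsLocalRing.maximalIdeal R ^ (r + j) ≤
      (IsLocalRing.maximalIdeal P ^ j).map (algebraMap P R) := by
  have key : IsLocalRing.maximalIdeal R ^ (r + j) =
      (IsLocalRing.maximalIdeal P).map (algebraMap P R) ^ j * IsLocalRing.maximalIdeal R ^ r := by
    induction j with
    | zero => simp
    | succ j ih =>
      have h1 : r + (j + 1) = (r + j) + 1 := by ring
      rw [h1, pow_succ, ih, mul_assoc, ← pow_succ, hr, ← mul_assoc, ← pow_succ]
  rw [key, Ideal.map_pow]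
  exact Ideal.mul_le_left

/-- the maximal ideal of `P` is mapped into that of `R` -/
theorem map_mem {P R : Type} [CommRing P] [IsLocalRing P] [CommRing R] [IsLocalRing R]
    [Algebra P R] [Module.Finite P R] {x : P} (hx : x ∈ IsLocalRing.maximalIdeal P) :
    algebraMap P R x ∈ IsLocalRing.maximalIdeal R := by
  have hI : Algebra.IsIntegral P R := inferInstance
  have h1 : ((IsLocalRing.maximalIdeal R).comap (algebraMap P R)).IsMaximal :=
    Ideal.isMaximal_comap_of_isIntegral_of_isMaximal (R := P) (IsLocalRing.maximalIdeal R)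
  have h2 : (IsLocalRing.maximalIdeal R).comap (algebraMap P R) = IsLocalRing.maximalIdeal P :=
    IsLocalRing.eq_maximalIdeal h1
  have h3 : x ∈ (IsLocalRing.maximalIdeal R).comap (algebraMap P R) := by
    rw [h2]
    exact hx
  exact h3

/-- there is a prime of height one -/
theorem exists_height_one {P : Type} [CommRing P] [IsDomain P] [IsNoetherianRing P] (x : P)
    (hx : x ≠ 0) (hx' : ¬ IsUnit x) : ∃ 𝔮 : Ideal P, 𝔮.IsPrime ∧ 𝔮.height = 1 := by
  have hne : Ideal.span {x} ≠ ⊤ := by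
    rwa [Ne, Ideal.span_singleton_eq_top]
  obtain ⟨𝔮, h𝔮⟩ := Ideal.nonempty_minimalPrimes hne
  have hp : 𝔮.IsPrime := h𝔮.1.1
  have hxq : x ∈ 𝔮 := h𝔮.1.2 (Ideal.mem_span_singleton_self x)
  refine ⟨𝔮, hp, le_antisymm ?_ ?_⟩
  · exact Ideal.height_le_one_of_isPrincipal_of_mem_minimalPrimes (Ideal.span {x}) 𝔮 h𝔮
  · rw [Order.one_le_iff_pos, pos_iff_ne_zero]
    intro h0
    rw [Ideal.height_eq_zero_iff_eq_bot] at h0
    rw [h0] at hxq
    exact hx ((Submodule.mem_bot P).1 hxq)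

theorem ncm (h1 : S_FRE) (h2 : S_UNM) (h3 : S_LFR) (h4 : S_XRG) (h5 : S_AVD) (h6 : S_RDC)
    (h7 : S_PSN) (h8 : S_RES) : S_NCM := by
  intro p _ k _ _ _ d R _ _ _ _ _ _ _ hfree ⟨r, hr⟩
  obtain ⟨hnoeth, -, -, -⟩ := h8 k (d + 2)
  have hint : IsIntegrallyClosed (MvPowerSeries (Fin (d + 2)) k) := h7 k (d + 2)
  have hdom : IsDomain (MvPowerSeries (Fin (d + 2)) k) := NoZeroDivisors.to_isDomain _
  have hmax := (Pool.Agent.H707.FT867.psg k (d + 2)).1
  have hXmem : ∀ i : Fin (d + 2), (MvPowerSeries.X i : MvPowerSeries (Fin (d + 2)) k) ∈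
      IsLocalRing.maximalIdeal (MvPowerSeries (Fin (d + 2)) k) := by
    intro i
    rw [hmax]
    exact Ideal.subset_span ⟨i, rfl⟩
  let x : Fin (d + 2) → R := fun i =>
    algebraMap (MvPowerSeries (Fin (d + 2)) k) R (MvPowerSeries.X i)
  have hxmem : ∀ i, x i ∈ IsLocalRing.maximalIdeal R := fun i => map_mem (hXmem i)
  -- `unm x` is a proper ideal
  have hI : unm x ≠ ⊤ := by
    intro htop
    apply hfree
    refine h1 (d + 2) (MvPowerSeries (Fin (d + 2)) k) R
      (fun i => (MvPowerSeries.X i : MvPowerSeries (Fin (d + 2)) k)) hmax ?_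
    intro i m hm
    have himg : (algebraMap (MvPowerSeries (Fin (d + 2)) k) R) ''
        {y | ∃ j, j < i ∧ y = (MvPowerSeries.X j : MvPowerSeries (Fin (d + 2)) k)} =
        {y | ∃ j, j < i ∧ y = x j ^ 1} := by
      ext z
      constructor
      · rintro ⟨_, ⟨j, hj, rfl⟩, rfl⟩
        exact ⟨j, hj, (pow_one _).symm⟩
      · rintro ⟨j, hj, rfl⟩
        exact ⟨_, ⟨j, hj, rfl⟩, (pow_one _).symm⟩
    have hsm : ∀ z : R, z ∈ Ideal.span {y | ∃ j, j < i ∧
          y = (MvPowerSeries.X j : MvPowerSeries (Fin (d + 2)) k)} •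
          (⊤ : Submodule (MvPowerSeries (Fin (d + 2)) k) R) ↔
        z ∈ Ideal.span {y | ∃ j, j < i ∧ y = x j ^ 1} := by
      intro z
      rw [Ideal.smul_top_eq_map, Submodule.restrictScalars_mem, Ideal.map_span, himg]
    rw [hsm] at hm ⊢
    have h9 : (1 : R) ∈ unm x := by
      rw [htop]
      exact Submodule.mem_top
    have h10 := h9 1 i m le_rfl (by
      rw [pow_one]
      rw [Algebra.smul_def] at hm
      exact hm)
    rwa [one_mul] at h10
  -- the ideal `J`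
  let J : Ideal (MvPowerSeries (Fin (d + 2)) k) :=
    (unm x).comap (algebraMap (MvPowerSeries (Fin (d + 2)) k) R)
  have hJ1 : ∀ 𝔮 : Ideal (MvPowerSeries (Fin (d + 2)) k), 𝔮.IsPrime → 𝔮.height = 1 →
      ∃ c, c ∈ J ∧ c ∉ 𝔮 := by
    intro 𝔮 hq hh
    obtain ⟨c, hc, hc'⟩ := h3 (MvPowerSeries (Fin (d + 2)) k) R (d + 2)
      (fun i => (MvPowerSeries.X i : MvPowerSeries (Fin (d + 2)) k)) (h4 k (d + 2)) 𝔮 hq hh
    exact ⟨c, hc', hc⟩
  have hX0 : (MvPowerSeries.X 0 : MvPowerSeries (Fin (d + 2)) k) ≠ 0 :=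
    by
      intro h0
      have h00 := congrArg (MvPowerSeries.coeff (Finsupp.single 0 1)) h0
      rw [MvPowerSeries.coeff_index_single_self_X, map_zero] at h00
      exact one_ne_zero h00
  have hXu : ¬ IsUnit (MvPowerSeries.X 0 : MvPowerSeries (Fin (d + 2)) k) := hXmem 0
  have hJ0 : J ≠ ⊥ := by
    obtain ⟨𝔮, hq, hh⟩ := exists_height_one _ hX0 hXu
    obtain ⟨c, hc, hcq⟩ := hJ1 𝔮 hq hh
    intro hbot
    rw [hbot, Submodule.mem_bot] at hc
    exact hcq (hc ▸ 𝔮.zero_mem)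
  obtain ⟨c₁, c₂, hc₁, hc₂, hc₁0, hreg⟩ := h5 (MvPowerSeries (Fin (d + 2)) k) J hJ0 hJ1
  obtain ⟨r', hr'⟩ := h6 p k d c₁ c₂ hc₁0 hreg
  refine ⟨r + r', fun e N f hf hsp => ?_⟩
  by_contra hlt
  have hle : r + (r' + d * (p ^ e - 1)) ≤ N := by omega
  obtain ⟨φ, hφ, hφf⟩ := hsp
  refine h2 p e R (d + 2) x φ f hφ hφf hxmem hI ?_
  have h11 := pow_le hr (r' + d * (p ^ e - 1)) (Ideal.pow_le_pow_right hle hf)
  have h12 := Ideal.map_mono (f := algebraMap (MvPowerSeries (Fin (d + 2)) k) R) (hr' e) h11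
  rw [Ideal.map_sup, Ideal.map_span, Ideal.map_span] at h12
  have hA : Ideal.span ((algebraMap (MvPowerSeries (Fin (d + 2)) k) R) '' {c₁, c₂}) ≤ unm x := by
    rw [Ideal.span_le]
    rintro _ ⟨c, hc, rfl⟩
    rcases hc with rfl | hc
    · exact hc₁
    · rw [Set.mem_singleton_iff] at hc
      rw [hc]
      exact hc₂
  have hB : Ideal.span ((algebraMap (MvPowerSeries (Fin (d + 2)) k) R) ''
      (Set.range fun i : Fin (d + 2) =>
        (MvPowerSeries.X i : MvPowerSeries (Fin (d + 2)) k) ^ (p ^ e))) ≤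
      Ideal.span (Set.range fun i => x i ^ (p ^ e)) := by
    rw [Ideal.span_le]
    rintro _ ⟨_, ⟨i, rfl⟩, rfl⟩
    refine Ideal.subset_span ⟨i, ?_⟩
    simp only [map_pow]
    rfl
  exact (sup_le_sup hA hB) h12

end Pool.Agent.H225.FT867NCM
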