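import Pool.Agent.H867.FT.Gen10

/-!
# Project FT (helper867), task TEN (helper225): `S ⊗_R C ≅ C S` for a flat extension
-/

namespace Pool.Agent.H225.FT867TEN

open TensorProduct

theorem ten : Pool.Agent.H867.FT.S_TEN := by
  intro R S K K' _ _ _ _ _ _ _ _ _ _ _ _ j hj C
  let _ : Module R K' := Module.compHom K' (algebraMap R S)
  have _ : IsScalarTower R S K' := ⟨fun r s k => by
    show (r • s) • k = (algebraMap R S r) • (s • k)
    rw [Algebra.smul_def r s, mul_smul]⟩
  have hsm : ∀ (r : R) (k : K'), r • k = algebraMap S K' (algebraMap R S r) * k := fun r k => by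
    show (algebraMap R S r) • k = _
    rw [Algebra.smul_def]
  obtain ⟨lK, hlK⟩ : ∃ lK : K →ₗ[R] K', ∀ k, lK k = j k :=
    ⟨{ toFun := j, map_add' := map_add j, map_smul' := fun r k => by
        rw [RingHom.id_apply, hsm, Algebra.smul_def, map_mul, hj] }, fun _ => rfl⟩
  have hK : ∀ x : S ⊗[R] K, lK.liftBaseChange S x = 0 → x = 0 := by
    intro x hx
    have key : ∀ x : S ⊗[R] K, ∃ b : R, b ≠ 0 ∧ ∃ s : S, b • x = s ⊗ₜ[R] (1 : K) := by
      intro x
      induction x using TensorProduct.induction_on with
      | zero => exact ⟨1, one_ne_zero, 0, by rw [smul_zero, zero_tmul]⟩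
      | tmul s k =>
        obtain ⟨a, b, hb, rfl⟩ := IsFractionRing.div_surjective (A := R) k
        have hb0 : b ≠ 0 := nonZeroDivisors.ne_zero hb
        have hb1 : algebraMap R K b ≠ 0 := by
          rw [Ne, FaithfulSMul.algebraMap_eq_zero_iff]
          exact hb0
        refine ⟨b, hb0, a • s, ?_⟩
        rw [← tmul_smul, Algebra.smul_def, mul_div_cancel₀ _ hb1, smul_tmul, Algebra.smul_def,
          mul_one]
      | add x y hx hy =>
        obtain ⟨b, hb, s, hs⟩ := hx
        obtain ⟨c, hc, t, ht⟩ := hy
        refine ⟨b * c, mul_ne_zero hb hc, c • s + b • t, ?_⟩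
        rw [add_tmul, ← smul_tmul', ← smul_tmul', ← hs, ← ht, smul_add, smul_smul, smul_smul,
          mul_comm c b]
    obtain ⟨b, hb, s, hs⟩ := key x
    have h1 : lK.liftBaseChange S (b • x) = 0 := by
      rw [← algebraMap_smul S b x, map_smul, hx, smul_zero]
    rw [hs, LinearMap.liftBaseChange_tmul, hlK, map_one, Algebra.smul_def, mul_one,
      FaithfulSMul.algebraMap_eq_zero_iff] at h1
    rw [h1, zero_tmul] at hs
    have hb1 : algebraMap R K b ≠ 0 := by
      rw [Ne, FaithfulSMul.algebraMap_eq_zero_iff]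
      exact hb
    have h2 : LinearMap.lTensor S (LinearMap.mulLeft R ((algebraMap R K b)⁻¹)) (b • x) = x := by
      rw [map_smul, ← LinearMap.smul_apply, ← LinearMap.lTensor_smul]
      have h3 : b • LinearMap.mulLeft R ((algebraMap R K b)⁻¹) = LinearMap.id := by
        ext k
        rw [LinearMap.smul_apply, LinearMap.mulLeft_apply, Algebra.smul_def, ← mul_assoc,
          mul_inv_cancel₀ hb1, one_mul, LinearMap.id_apply]
      rw [h3, LinearMap.lTensor_id, LinearMap.id_apply]
    rw [← h2, hs, map_zero]
  obtain ⟨l, hl⟩ : ∃ l : C →ₗ[R] K', ∀ c : C, l c = j c :=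
    ⟨lK.comp C.subtype, fun c => hlK c⟩
  have hinj : Function.Injective (l.liftBaseChange S) := by
    rw [injective_iff_map_eq_zero]
    have h1 : ∀ x : S ⊗[R] C,
        lK.liftBaseChange S (LinearMap.lTensor S C.subtype x) = l.liftBaseChange S x := by
      intro x
      induction x using TensorProduct.induction_on with
      | zero => rw [map_zero, map_zero, map_zero]
      | tmul s c =>
        rw [LinearMap.lTensor_tmul, LinearMap.liftBaseChange_tmul, LinearMap.liftBaseChange_tmul,
          hlK, hl]
        rfl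
      | add x y hx' hy' => rw [map_add, map_add, map_add, hx', hy']
    intro x hx
    have h2 := hK _ ((h1 x).trans hx)
    have h3 := Module.Flat.lTensor_preserves_injective_linearMap (M := S) C.subtype
      (Submodule.subtype_injective C)
    exact h3 (h2.trans (map_zero _).symm)
  have hr : LinearMap.range (l.liftBaseChange S) = Submodule.span S (j '' (C : Set K)) := by
    rw [LinearMap.range_liftBaseChange]
    congr 1
    ext k
    constructor
    · rintro ⟨c, rfl⟩
      exact ⟨c, c.2, (hl c).symm⟩
    · rintro ⟨c, hc, rfl⟩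
      exact ⟨⟨c, hc⟩, hl _⟩
  exact ⟨(LinearEquiv.ofInjective _ hinj).trans (LinearEquiv.ofEq _ _ hr)⟩

end Pool.Agent.H225.FT867TEN
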