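import Pool.Agent.H225.Key3
import Pool.Agent.H225.Dim

set_option autoImplicit false

open MeasureTheory Metric Set Filter Module
open scoped ENNReal NNReal Topology RealInnerProductSpace

namespace Pool.Agent.H225.En

variable {m n : ℕ}

/-- the orthogonal projection onto `x^⊥` -/
noncomputable abbrev pj (x : V n) : V n →L[ℝ] (ℝ ∙ x)ᗮ := (ℝ ∙ x)ᗮ.orthogonalProjectionOnto

lemma pj_norm (x : V n) (hx : ‖x‖ = 1) (w : V n) : ‖pj x w‖ₑ = ‖Pr x w‖ₑ := by
  have h1 : ((pj x w : (ℝ ∙ x)ᗮ) : V n) = Pr x w := by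
    have h2 : (ℝ ∙ x)ᗮ.starProjection w = w - (ℝ ∙ x).starProjection w := by
      rw [Submodule.starProjection_orthogonal]; rfl
    rw [Submodule.starProjection_unit_singleton ℝ hx] at h2
    exact h2
  rw [← h1]
  rfl

/-- a null set of parameters -/
theorem param_null (Z : Set (V n)) (hZ : AnalyticSet Z) (s : ℝ) (hs : 0 < s)
    (hsn : s < n - 1) (hsZ : ENNReal.ofReal s < dimH Z) (φ : V m → V n) (u₀ : V m) (δ : ℝ)
    (hφ : ContinuousOn φ (closedBall u₀ δ)) (h1 : ∀ u ∈ closedBall u₀ δ, ‖φ u‖ = 1)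
    (C : ℝ) (hC : 0 ≤ C)
    (hkey : ∀ e ∈ sphere (0 : V n) 1, ∀ ε : ℝ, 0 < ε →
      volume {u ∈ closedBall u₀ δ | |⟪φ u, e⟫| < ε} ≤ ENNReal.ofReal (C * ε)) :
    volume {u ∈ closedBall u₀ δ | ¬ ENNReal.ofReal s ≤ dimH (pj (φ u) '' Z)} = 0 := by
  classical
  -- dimension
  have hn1 : (0 : ℝ) < n - 1 := hs.trans hsn
  have hn : 0 < finrank ℝ (V n) := by
    rw [finrank_euclideanSpace_fin]
    have : (0 : ℝ) < n := by linarith
    exact_mod_cast this
  have hnt : Nontrivial (V n) := Module.nontrivial_of_finrank_pos hn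
  obtain ⟨e₁, he₁⟩ := exists_norm_eq (V n) (zero_le_one' ℝ)
  -- Frostman measure
  obtain ⟨s', hs's, hs'Z⟩ := ENNReal.lt_iff_exists_real_btwn.1 hsZ
  have hss' : s < s' := by
    have := hs'Z.1
    rwa [ENNReal.ofReal_lt_ofReal_iff_of_nonneg hs.le] at this
  have hs'0 : 0 < s' := hs.trans hss'
  obtain ⟨K, hKZ, hKc, hKd⟩ := Frost.cap_analytic Z hZ s' hs'0.le hs'Z.2
  obtain ⟨μ, hμp, hμK, C', hC', hμF⟩ := Frost.frostman K hKc s' hs'0 hKd
  have hen := energy_fin μ C' s s' hC' hs hss' hμF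
  obtain ⟨R₀, hR₀⟩ := hKc.isBounded.exists_norm_le
  set R := 2 * max R₀ 1 with hR
  have hR0 : 0 < R := by
    have : (0 : ℝ) < max R₀ 1 := lt_of_lt_of_le one_pos (le_max_right _ _)
    positivity
  have hae : ∀ᵐ y ∂μ, y ∈ K := by
    rw [ae_iff]; exact hμK
  have hμR : ∀ᵐ y ∂μ, ∀ᵐ z ∂μ, ‖y - z‖ ≤ R := by
    filter_upwards [hae] with y hy
    filter_upwards [hae] with z hz
    calc ‖y - z‖ ≤ ‖y‖ + ‖z‖ := norm_sub_le _ _
      _ ≤ R₀ + R₀ := add_le_add (hR₀ y hy) (hR₀ z hz)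
      _ ≤ R := by rw [hR]; linarith [le_max_left R₀ 1]
  -- the family
  set B := closedBall u₀ δ with hB
  have hBm : MeasurableSet B := measurableSet_closedBall
  set X : V m → V n := B.piecewise φ (fun _ => e₁) with hX
  have hXm : Measurable X := hφ.measurable_piecewise continuousOn_const hBm
  have hX1 : ∀ u, ‖X u‖ = 1 := by
    intro u
    by_cases hu : u ∈ B
    · rw [hX, piecewise_eq_of_mem _ _ _ hu]; exact h1 u hu
    · rw [hX, piecewise_eq_of_notMem _ _ _ hu]; exact he₁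
  set σ := (volume : Measure (V m)).restrict B with hσ
  have hKey : Key σ X C := by
    intro e he ε hε
    rw [hσ, Measure.restrict_apply' hBm]
    refine (measure_mono ?_).trans (hkey e (by simpa using he) ε hε)
    rintro u ⟨hu1, hu2⟩
    refine ⟨hu2, ?_⟩
    have : X u = φ u := piecewise_eq_of_mem _ _ _ hu2
    rw [← this]; exact hu1
  obtain ⟨M, hM, hint⟩ := energy_ineq σ X hXm hX1 C hC hKey μ R hR0 hμR s hs hsn
  have hlt : ∫⁻ ω, ∫⁻ y, ∫⁻ z, ‖Pr (X ω) (y - z)‖ₑ ^ (-s) ∂μ ∂μ ∂σ ≠ ∞ :=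
    ne_top_of_le_ne_top (ENNReal.mul_ne_top hM hen.ne) hint
  have hmeas : Measurable (fun ω => ∫⁻ y, ∫⁻ z, ‖Pr (X ω) (y - z)‖ₑ ^ (-s) ∂μ ∂μ) := by
    have h2 : Measurable (fun q : (V m × V n) × V n => ‖Pr (X q.1.1) (q.1.2 - q.2)‖ₑ ^ (-s)) := by
      unfold Pr
      fun_prop
    exact (h2.lintegral_prod_right').lintegral_prod_right'
  have hfin := ae_lt_top hmeas hlt
  -- conclusion for almost every parameter
  have hgood : ∀ᵐ u ∂σ, ENNReal.ofReal s ≤ dimH (pj (X u) '' Z) := by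
    filter_upwards [hfin] with u hu
    set π := pj (X u) with hπ
    have hπm : Measurable π := π.continuous.measurable
    have hen2 : ∫⁻ x, ∫⁻ y, ‖x - y‖ₑ ^ (-s) ∂(μ.map π) ∂(μ.map π) < ∞ := by
      rw [lintegral_map (by
        refine Measurable.lintegral_prod_right' (f := fun p : (ℝ ∙ X u)ᗮ × (ℝ ∙ X u)ᗮ =>
          ‖p.1 - p.2‖ₑ ^ (-s)) ?_
        fun_prop) hπm]
      refine lt_of_le_of_lt (le_of_eq (lintegral_congr fun y => ?_)) hu
      rw [lintegral_map (by fun_prop) hπm]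
      refine lintegral_congr fun z => ?_
      rw [← map_sub, pj_norm _ (hX1 u)]
    have hprob : IsProbabilityMeasure (μ.map π) :=
      Measure.isProbabilityMeasure_map hπm.aemeasurable
    have h3 := dimH_of_energy (μ.map π) (π '' K) (by
      rw [Measure.map_apply hπm (hKc.image π.continuous).measurableSet.compl]
      refine measure_mono_null ?_ hμK
      intro x hx hxK
      exact hx ⟨x, hxK, rfl⟩) (IsProbabilityMeasure.ne_zero _) s hs hen2
    exact h3.trans (dimH_mono (image_mono hKZ))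
  rw [ae_restrict_iff' hBm] at hgood
  refine measure_mono_null ?_ hgood
  rintro u ⟨hu1, hu2⟩ hcon
  apply hu2
  have h4 := hcon hu1
  have h5 : X u = φ u := piecewise_eq_of_mem _ _ _ hu1
  rwa [h5] at h4

end Pool.Agent.H225.En
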