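import Pool.Graph.R_seed8.W342.AG.Cap2

/-!
Frostman's lemma for compact sets of `ℝⁿ`, and compact subsets of analytic sets.
-/

set_option autoImplicit false

open MeasureTheory Metric Set Filter
open scoped ENNReal NNReal Topology

namespace Pool.Agent.H225.Frost
open Pool.Agent.W778.AG Pool.Agent.W342.AG

variable {n : ℕ}

/-- mass of the dyadic cube of level `l` with index `a` -/
noncomputable def mass (F : Finset (En n)) (ν : En n → ℝ) (l : ℕ) (a : Fin n → ℤ) : ℝ :=
  ∑ y ∈ F with dcell l y = a, ν y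

lemma greedy (k : ℕ) (cap : ℕ → ℝ) (hcap : ∀ l, 0 ≤ cap l) (F : Finset (En n)) :
    ∃ ν : En n → ℝ, (∀ y, 0 ≤ ν y) ∧ (∀ l ≤ k, ∀ a, mass F ν l a ≤ cap l) ∧
      ∀ y ∈ F, ∃ l ≤ k, mass F ν l (dcell l y) = cap l := by
  classical
  induction F using Finset.induction_on with
  | empty => exact ⟨fun _ => 0, fun _ => le_rfl, fun l _ a => by simpa [mass] using hcap l, by simp⟩
  | insert x F hx ih =>
    obtain ⟨ν, h0, h1, h2⟩ := ih
    obtain ⟨l0, hl0, hmin⟩ := Finset.exists_min_image (Finset.range (k + 1))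
      (fun l => cap l - mass F ν l (dcell l x)) ⟨0, by simp⟩
    set δ : ℝ := cap l0 - mass F ν l0 (dcell l0 x) with hδ
    have hl0' : l0 ≤ k := Nat.lt_succ_iff.1 (Finset.mem_range.1 hl0)
    have hδ0 : 0 ≤ δ := sub_nonneg.2 (h1 l0 hl0' _)
    set ν' : En n → ℝ := fun y => if y = x then δ else ν y with hν'
    have hold : ∀ l a, ∑ y ∈ F with dcell l y = a, ν' y = mass F ν l a := by
      intro l a
      unfold mass
      refine Finset.sum_congr rfl fun y hy => ?_
      have : y ≠ x := fun h => hx (h ▸ (Finset.mem_filter.1 hy).1)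
      simp [hν', this]
    have hmass : ∀ l a, mass (insert x F) ν' l a =
        mass F ν l a + if dcell l x = a then δ else 0 := by
      intro l a
      unfold mass
      rw [Finset.filter_insert]
      split_ifs with h
      · rw [Finset.sum_insert (by simp [hx]), hold]
        simp only [hν', if_true]
        unfold mass
        ring
      · rw [hold, add_zero]
        rfl
    refine ⟨ν', fun y => ?_, fun l hl a => ?_, fun y hy => ?_⟩
    · simp only [hν']
      split_ifs
      · exact hδ0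
      · exact h0 y
    · rw [hmass]
      split_ifs with h
      · subst h
        have := hmin l (Finset.mem_range.2 (Nat.lt_succ_iff.2 hl))
        linarith
      · rw [add_zero]; exact h1 l hl a
    · rcases Finset.mem_insert.1 hy with rfl | hy
      · refine ⟨l0, hl0', ?_⟩
        rw [hmass, if_pos rfl]
        linarith
      · obtain ⟨l, hl, ht⟩ := h2 y hy
        refine ⟨l, hl, ?_⟩
        rw [hmass]
        split_ifs with h
        · have := hmin l (Finset.mem_range.2 (Nat.lt_succ_iff.2 hl))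
          rw [h, ht] at this
          have h3 : δ = 0 := by linarith
          rw [ht, h3, add_zero]
        · rw [ht, add_zero]

/-- discrete Frostman lemma -/
lemma discrete (k : ℕ) (cap : ℕ → ℝ) (hcap : ∀ l, 0 ≤ cap l) (F : Finset (En n)) :
    ∃ ν : En n → ℝ, (∀ y, 0 ≤ ν y) ∧ (∀ l ≤ k, ∀ a, mass F ν l a ≤ cap l) ∧
      ∃ C : Finset (Nd n), (∀ c ∈ C, c.1 ≤ k) ∧ (∀ y ∈ F, ∃ c ∈ C, y ∈ cube c) ∧
        ∑ c ∈ C, cap c.1 ≤ ∑ y ∈ F, ν y := by
  classical
  obtain ⟨ν, h0, h1, h2⟩ := greedy k cap hcap F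
  have hmin : ∀ y ∈ F, ∃ l ≤ k, mass F ν l (dcell l y) = cap l ∧
      ∀ l' ≤ k, mass F ν l' (dcell l' y) = cap l' → l ≤ l' := by
    intro y hy
    have hne : ((Finset.range (k + 1)).filter
        fun l => mass F ν l (dcell l y) = cap l).Nonempty := by
      obtain ⟨l, hl, ht⟩ := h2 y hy
      exact ⟨l, Finset.mem_filter.2 ⟨Finset.mem_range.2 (Nat.lt_succ_iff.2 hl), ht⟩⟩
    obtain ⟨l, hl, hm⟩ := Finset.exists_min_image _ id hne
    obtain ⟨hl1, hl2⟩ := Finset.mem_filter.1 hl
    refine ⟨l, Nat.lt_succ_iff.1 (Finset.mem_range.1 hl1), hl2, fun l' hl' ht => ?_⟩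
    exact hm l' (Finset.mem_filter.2 ⟨Finset.mem_range.2 (Nat.lt_succ_iff.2 hl'), ht⟩)
  choose! lev hlev1 hlev2 hlev3 using hmin
  set τ : En n → Nd n := fun y => (lev y, dcell (lev y) y) with hτ
  have hfib : ∀ y' ∈ F, ∀ y ∈ F, dcell (lev y') y = dcell (lev y') y' → τ y = τ y' := by
    intro y' hy' y hy h
    have hle : lev y ≤ lev y' := by
      refine hlev3 y hy _ (hlev1 y' hy') ?_
      rw [h]; exact hlev2 y' hy'
    have h3 : dcell (lev y) y = dcell (lev y) y' := dcell_nest hle h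
    have hge : lev y' ≤ lev y := by
      refine hlev3 y' hy' _ (hlev1 y hy) ?_
      rw [← h3]; exact hlev2 y hy
    have heq : lev y = lev y' := le_antisymm hle hge
    simp only [hτ, heq, h]
  refine ⟨ν, h0, h1, F.image τ, ?_, ?_, ?_⟩
  · intro c hc
    obtain ⟨y, hy, rfl⟩ := Finset.mem_image.1 hc
    exact hlev1 y hy
  · intro y hy
    exact ⟨τ y, Finset.mem_image_of_mem _ hy, rfl⟩
  · rw [← Finset.sum_fiberwise_of_maps_to (g := τ) (t := F.image τ)
      (fun y hy => Finset.mem_image_of_mem _ hy)]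
    refine le_of_eq (Finset.sum_congr rfl fun c hc => ?_)
    obtain ⟨y', hy', rfl⟩ := Finset.mem_image.1 hc
    have h6 := hlev2 y' hy'
    simp only [hτ]
    rw [← h6]
    unfold mass
    refine Finset.sum_congr ?_ fun _ _ => rfl
    ext y
    simp only [Finset.mem_filter]
    constructor
    · rintro ⟨hy, h⟩
      exact ⟨hy, hfib y' hy' y hy h⟩
    · rintro ⟨hy, h⟩
      refine ⟨hy, ?_⟩
      have h7 : lev y = lev y' := congrArg Prod.fst h
      have h8 : dcell (lev y) y = dcell (lev y') y' := congrArg Prod.snd h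
      rw [← h8, h7]

/-- bounded sets meet finitely many cubes of a level -/
lemma finite_cells (K : Set (En n)) (hK : Bornology.IsBounded K) (k : ℕ) :
    (dcell k '' K).Finite := by
  obtain ⟨R, hR⟩ := hK.exists_norm_le
  refine Set.Finite.subset (s := Set.pi univ fun _ : Fin n =>
    Set.Icc (-⌈(2 : ℝ) ^ k * R⌉ - 1) (⌈(2 : ℝ) ^ k * R⌉ + 1)) ?_ ?_
  · exact Set.Finite.pi (fun _ : Fin n => Set.finite_Icc (-⌈(2 : ℝ) ^ k * R⌉ - 1)
      (⌈(2 : ℝ) ^ k * R⌉ + 1))
  · rintro _ ⟨x, hx, rfl⟩ i _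
    have h1 : |x i| ≤ R := by
      have := PiLp.norm_apply_le x i
      simpa using this.trans (hR x hx)
    rw [abs_le] at h1
    have h2 : (0 : ℝ) < 2 ^ k := by positivity
    unfold dcell
    constructor
    · rw [Int.le_floor]
      push_cast
      have h3 : (2 : ℝ) ^ k * R ≤ ⌈(2 : ℝ) ^ k * R⌉ := Int.le_ceil _
      have h4 : (2 : ℝ) ^ k * (-R) ≤ 2 ^ k * x i := by
        exact mul_le_mul_of_nonneg_left h1.1 h2.le
      linarith
    · have h3 : (2 : ℝ) ^ k * R ≤ ⌈(2 : ℝ) ^ k * R⌉ := Int.le_ceil _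
      have h4 : (2 : ℝ) ^ k * x i ≤ 2 ^ k * R := mul_le_mul_of_nonneg_left h1.2 h2.le
      have h5 : (⌊(2 : ℝ) ^ k * x i⌋ : ℝ) ≤ 2 ^ k * x i := Int.floor_le _
      have h6 : (⌊(2 : ℝ) ^ k * x i⌋ : ℝ) ≤ (⌈(2 : ℝ) ^ k * R⌉ : ℝ) := by linarith
      have h7 : ⌊(2 : ℝ) ^ k * x i⌋ ≤ ⌈(2 : ℝ) ^ k * R⌉ := by exact_mod_cast h6
      omega

/-- discretised Frostman measures -/
lemma disc_meas (K : Set (En n)) (hK : IsCompact K) (s : ℝ) (hs : 0 < s) (k : ℕ) :
    ∃ (F : Finset (En n)) (ν : En n → ℝ), (∀ y ∈ F, y ∈ K) ∧ (∀ y, 0 ≤ ν y) ∧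
      (∀ l ≤ k, ∀ a, mass F ν l a ≤ ((1 / 2 : ℝ) ^ l) ^ s) ∧
      ph (wt s) K ≤ ENNReal.ofReal (∑ y ∈ F, ν y) := by
  classical
  have hfin := finite_cells K hK.isBounded k
  have hrep : ∀ a ∈ dcell k '' K, ∃ x ∈ K, dcell k x = a := fun a ⟨x, hx, h⟩ => ⟨x, hx, h⟩
  choose! g hg1 hg2 using hrep
  set F : Finset (En n) := hfin.toFinset.image g with hF
  obtain ⟨ν, h0, h1, C, hC1, hC2, hC3⟩ := discrete k (fun l => ((1 / 2 : ℝ) ^ l) ^ s)
    (fun l => by positivity) F
  refine ⟨F, ν, ?_, h0, h1, ?_⟩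
  · intro y hy
    obtain ⟨a, ha, rfl⟩ := Finset.mem_image.1 hy
    exact hg1 a (hfin.mem_toFinset.1 ha)
  · have hcov : Cov (C : Set (Nd n)) K := by
      intro x hx
      have ha : dcell k x ∈ dcell k '' K := ⟨x, hx, rfl⟩
      have hy : g (dcell k x) ∈ F := Finset.mem_image_of_mem _ (hfin.mem_toFinset.2 ha)
      obtain ⟨c, hc, hyc⟩ := hC2 _ hy
      refine ⟨c, hc, ?_⟩
      have h2 : dcell k x = dcell k (g (dcell k x)) := (hg2 _ ha).symm
      have h3 := dcell_nest (hC1 c hc) h2
      exact h3.trans hyc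
    calc ph (wt s) K ≤ cost (wt s) (C : Set (Nd n)) := ph_le _ hcov
      _ = ∑ p ∈ C, wt s p := by
          unfold cost
          rw [← tsum_subtype]
          exact Finset.tsum_subtype C (wt s)
      _ = ∑ p ∈ C, ENNReal.ofReal (((1 / 2 : ℝ) ^ p.1) ^ s) := by
          refine Finset.sum_congr rfl fun p _ => ?_
          unfold wt
          rw [two_inv_pow, ENNReal.ofReal_rpow_of_nonneg (by positivity) hs.le]
      _ = ENNReal.ofReal (∑ p ∈ C, ((1 / 2 : ℝ) ^ p.1) ^ s) := by
          rw [ENNReal.ofReal_sum_of_nonneg]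
          intro p _; positivity
      _ ≤ _ := ENNReal.ofReal_le_ofReal hC3

/-- **Frostman's lemma.** -/
theorem frostman_content (K : Set (En n)) (hK : IsCompact K) (s : ℝ) (hs : 0 < s)
    (hpos : 0 < ph (wt s) K) :
    ∃ μ : Measure (En n), IsProbabilityMeasure μ ∧ μ Kᶜ = 0 ∧
      ∃ C : ℝ, 0 < C ∧ ∀ x, ∀ r : ℝ, 0 < r → μ (closedBall x r) ≤ ENNReal.ofReal (C * r ^ s) := by
  classical
  have hcK : CompactSpace K := isCompact_iff_compactSpace.1 hK
  choose F ν hF hν hcap htot using fun k => disc_meas K hK s hs k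
  obtain ⟨c, hc0, hc1⟩ := ENNReal.lt_iff_exists_real_btwn.1 hpos
  have hc2 : 0 < c := ENNReal.ofReal_pos.1 (lt_of_le_of_lt zero_le hc1.1)
  set tot : ℕ → ℝ := fun k => ∑ y ∈ F k, ν k y with htotd
  have htotc : ∀ k, c < tot k := by
    intro k
    have h1 := lt_of_lt_of_le hc1.2 (htot k)
    exact (ENNReal.ofReal_lt_ofReal_iff_of_nonneg hc2.le).1 h1
  have htot0 : ∀ k, 0 < tot k := fun k => hc2.trans (htotc k)
  -- the measures
  let m : ℕ → Measure (En n) := fun k =>
    ∑ y ∈ F k, ENNReal.ofReal (ν k y / tot k) • Measure.dirac y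
  have hm_apply : ∀ k (A : Set (En n)), MeasurableSet A →
      m k A = ENNReal.ofReal ((∑ y ∈ F k with y ∈ A, ν k y) / tot k) := by
    intro k A hA
    simp only [m, Measure.coe_finsetSum, Finset.sum_apply, Measure.smul_apply, smul_eq_mul,
      Measure.dirac_apply' _ hA]
    rw [Finset.sum_div, ENNReal.ofReal_sum_of_nonneg
      (fun y _ => div_nonneg (hν k y) (htot0 k).le), Finset.sum_filter]
    refine Finset.sum_congr rfl fun y _ => ?_
    by_cases hy : y ∈ A <;> simp [hy]
  have hm_univ : ∀ k, m k univ = 1 := by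
    intro k
    rw [hm_apply k univ MeasurableSet.univ]
    simp only [mem_univ, Finset.filter_true]
    rw [div_self (htot0 k).ne', ENNReal.ofReal_one]
  have hm_K : ∀ k, m k Kᶜ = 0 := by
    intro k
    simp only [m, Measure.coe_finsetSum, Finset.sum_apply, Measure.smul_apply, smul_eq_mul,
      Measure.dirac_apply' _ hK.measurableSet.compl]
    refine Finset.sum_eq_zero fun y hy => ?_
    simp [hF k y hy]
  -- restricted to the compact space
  have hKm : MeasurableSet K := hK.measurableSet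
  let P : ℕ → ProbabilityMeasure K := fun k => ⟨(m k).comap Subtype.val, ⟨by
    rw [(MeasurableEmbedding.subtype_coe hKm).comap_apply, image_univ, Subtype.range_coe]
    have h1 := measure_add_measure_compl (μ := m k) hKm
    rw [hm_K k, add_zero, hm_univ k] at h1
    exact h1⟩⟩
  have hPval : ∀ k (A : Set (En n)), MeasurableSet A →
      (P k : Measure K) (Subtype.val ⁻¹' A) ≤ m k A := by
    intro k A hA
    show ((m k).comap Subtype.val) _ ≤ _
    rw [(MeasurableEmbedding.subtype_coe hKm).comap_apply]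
    exact measure_mono (image_preimage_subset _ _)
  obtain ⟨Q, -, hQ⟩ := (isCompact_univ (X := ProbabilityMeasure K)).ultrafilter_le_nhds
    ((hyperfilter ℕ).map P) (by simp)
  have hQt : Tendsto P (hyperfilter ℕ : Filter ℕ) (𝓝 Q) := hQ
  -- total bound
  have hball : ∀ (x : En n) (r : ℝ), 0 < r → r ≤ 1 → ∃ k₀ : ℕ, ∀ k ≥ k₀,
      m k (ball x r) ≤ ENNReal.ofReal (3 ^ n * 2 ^ s / c * r ^ s) := by
    intro x r hr hr1
    obtain ⟨j, hj1, hj2⟩ := exists_nat_pow_near_of_lt_one (x := r) (y := 1 / 2) hr hr1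
      (by norm_num) (by norm_num)
    refine ⟨j, fun k hk => ?_⟩
    rw [hm_apply k _ measurableSet_ball]
    refine ENNReal.ofReal_le_ofReal ?_
    set G : Finset (Fin n → ℤ) := Fintype.piFinset (fun i => Finset.Icc (⌊(2 : ℝ) ^ j * x i⌋ - 1)
      (⌊(2 : ℝ) ^ j * x i⌋ + 1)) with hG
    have hcover : ∀ y ∈ ball x r, dcell j y ∈ G := by
      intro y hy
      rw [hG, Fintype.mem_piFinset]
      intro i
      rw [Finset.mem_Icc]
      have h1 : |y i - x i| < r := by
        have h2 : ‖(y - x) i‖ ≤ ‖y - x‖ := PiLp.norm_apply_le (y - x) i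
        rw [mem_ball, dist_eq_norm] at hy
        have h3 := lt_of_le_of_lt h2 hy
        simpa using h3
      have h4 : |(2 : ℝ) ^ j * y i - 2 ^ j * x i| < 1 := by
        rw [← mul_sub, abs_mul, abs_of_pos (by positivity : (0 : ℝ) < 2 ^ j)]
        calc (2 : ℝ) ^ j * |y i - x i| < 2 ^ j * r := by gcongr
          _ ≤ 2 ^ j * (1 / 2) ^ j := by gcongr
          _ = 1 := by rw [← mul_pow]; norm_num
      rw [abs_lt] at h4
      unfold dcell
      constructor
      · have : (⌊(2 : ℝ) ^ j * x i⌋ : ℝ) ≤ 2 ^ j * x i := Int.floor_le _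
        rw [Int.le_floor]; push_cast; linarith [h4.1]
      · have : 2 ^ j * x i < (⌊(2 : ℝ) ^ j * x i⌋ : ℝ) + 1 := Int.lt_floor_add_one _
        rw [← Int.lt_add_one_iff, Int.floor_lt]; push_cast; linarith [h4.2]
    have hcard : (G.card : ℝ) ≤ 3 ^ n := by
      have h1 : G.card ≤ 3 ^ n := by
        rw [hG, Fintype.card_piFinset]
        have : ∀ i : Fin n, (Finset.Icc (⌊(2 : ℝ) ^ j * x i⌋ - 1)
            (⌊(2 : ℝ) ^ j * x i⌋ + 1)).card = 3 := by
          intro i
          rw [Int.card_Icc]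
          omega
        simp only [this, Finset.prod_const, Finset.card_univ, Fintype.card_fin, le_refl]
      exact_mod_cast h1
    have hsum : ∑ y ∈ F k with y ∈ ball x r, ν k y ≤ 3 ^ n * ((1 / 2 : ℝ) ^ j) ^ s := by
      calc ∑ y ∈ F k with y ∈ ball x r, ν k y
          ≤ ∑ y ∈ F k with dcell j y ∈ G, ν k y := by
            refine Finset.sum_le_sum_of_subset_of_nonneg ?_ (fun y _ _ => hν k y)
            intro y hy
            rw [Finset.mem_filter] at hy ⊢
            exact ⟨hy.1, hcover y hy.2⟩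
        _ = ∑ a ∈ G, mass (F k) (ν k) j a := by
            rw [← Finset.sum_fiberwise_of_maps_to (g := dcell j) (t := G)
              (fun y hy => (Finset.mem_filter.1 hy).2)]
            refine Finset.sum_congr rfl fun a ha => ?_
            unfold mass
            refine Finset.sum_congr ?_ fun _ _ => rfl
            ext y
            simp only [Finset.mem_filter]
            constructor
            · rintro ⟨⟨h1, h2⟩, h3⟩; exact ⟨h1, h3⟩
            · rintro ⟨h1, h3⟩; exact ⟨⟨h1, h3 ▸ ha⟩, h3⟩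
        _ ≤ ∑ a ∈ G, ((1 / 2 : ℝ) ^ j) ^ s := Finset.sum_le_sum fun a _ => hcap k j hk a
        _ = G.card * ((1 / 2 : ℝ) ^ j) ^ s := by rw [Finset.sum_const, nsmul_eq_mul]
        _ ≤ _ := by gcongr
    have h5 : ((1 / 2 : ℝ) ^ j) ^ s ≤ 2 ^ s * r ^ s := by
      rw [← Real.mul_rpow (by norm_num) hr.le]
      refine Real.rpow_le_rpow (by positivity) ?_ hs.le
      rw [pow_succ] at hj1
      linarith
    calc (∑ y ∈ F k with y ∈ ball x r, ν k y) / tot k
        ≤ (3 ^ n * ((1 / 2 : ℝ) ^ j) ^ s) / c := by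
          refine div_le_div₀ (by positivity) hsum hc2 (htotc k).le
      _ ≤ (3 ^ n * (2 ^ s * r ^ s)) / c := by gcongr
      _ = _ := by ring
  refine ⟨(Q : Measure K).map Subtype.val, ?_, ?_, max (3 ^ n * 2 ^ s / c * 2 ^ s) (2 ^ s), ?_, ?_⟩
  · exact Measure.isProbabilityMeasure_map measurable_subtype_coe.aemeasurable
  · rw [Measure.map_apply measurable_subtype_coe hKm.compl]
    convert measure_empty (μ := (Q : Measure K))
    ext x; simp
  · positivity
  · intro x r hr
    rcases le_or_gt (2 * r) 1 with h2r | h2r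
    · calc ((Q : Measure K).map Subtype.val) (closedBall x r)
          ≤ ((Q : Measure K).map Subtype.val) (ball x (2 * r)) :=
            measure_mono (closedBall_subset_ball (by linarith))
        _ = (Q : Measure K) (Subtype.val ⁻¹' ball x (2 * r)) :=
            Measure.map_apply measurable_subtype_coe measurableSet_ball
        _ ≤ (hyperfilter ℕ : Filter ℕ).liminf
              fun k => (P k : Measure K) (Subtype.val ⁻¹' ball x (2 * r)) :=
            ProbabilityMeasure.le_liminf_measure_open_of_tendsto hQt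
              (isOpen_ball.preimage continuous_subtype_val)
        _ ≤ ENNReal.ofReal (3 ^ n * 2 ^ s / c * (2 * r) ^ s) := by
            obtain ⟨k₀, hk₀⟩ := hball x (2 * r) (by linarith) h2r
            refine liminf_le_of_frequently_le' ?_
            refine Eventually.frequently ?_
            have h6 : ∀ᶠ k in atTop, (P k : Measure K) (Subtype.val ⁻¹' ball x (2 * r)) ≤
                ENNReal.ofReal (3 ^ n * 2 ^ s / c * (2 * r) ^ s) := by
              filter_upwards [eventually_ge_atTop k₀] with k hk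
              exact (hPval k _ measurableSet_ball).trans (hk₀ k hk)
            exact h6.filter_mono (by
              rw [← Nat.cofinite_eq_atTop]; exact hyperfilter_le_cofinite)
        _ ≤ _ := by
            refine ENNReal.ofReal_le_ofReal ?_
            rw [Real.mul_rpow (by norm_num) hr.le, ← mul_assoc]
            gcongr
            exact le_max_left _ _
    · have h7 : ((Q : Measure K).map Subtype.val) (closedBall x r) ≤ 1 := by
        have : IsProbabilityMeasure ((Q : Measure K).map Subtype.val) :=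
          Measure.isProbabilityMeasure_map measurable_subtype_coe.aemeasurable
        exact prob_le_one
      refine h7.trans ?_
      rw [ENNReal.one_le_ofReal]
      calc (1 : ℝ) = 1 ^ s := (Real.one_rpow s).symm
        _ ≤ (2 * r) ^ s := Real.rpow_le_rpow (by norm_num) h2r.le hs.le
        _ = 2 ^ s * r ^ s := Real.mul_rpow (by norm_num) hr.le
        _ ≤ _ := by gcongr; exact le_max_right _ _

/-- **Frostman's lemma.** -/
theorem frostman (K : Set (En n)) (hK : IsCompact K) (s : ℝ) (hs : 0 < s)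
    (hdim : ENNReal.ofReal s < dimH K) :
    ∃ μ : Measure (En n), IsProbabilityMeasure μ ∧ μ Kᶜ = 0 ∧
      ∃ C : ℝ, 0 < C ∧ ∀ x, ∀ r : ℝ, 0 < r → μ (closedBall x r) ≤ ENNReal.ofReal (C * r ^ s) := by
  refine frostman_content K hK s hs (pos_iff_ne_zero.2 fun h0 => ?_)
  have h1 := haus_zero s hs K h0
  have h2 := hausdorffMeasure_of_lt_dimH (d := s.toNNReal) hdim
  rw [Real.coe_toNNReal s hs.le, h1] at h2
  exact ENNReal.zero_ne_top h2

end Pool.Agent.H225.Frost
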