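import Pool.Agent.H225.En5

set_option autoImplicit false

open MeasureTheory Metric Set Filter Module
open scoped ENNReal NNReal Topology RealInnerProductSpace

namespace Pool.Agent.H225.En

lemma ioi_bound (k : ℕ) (T : Set (Ioi (0 : ℝ))) (hT : MeasurableSet T) (R δ : ℝ) (hR : 0 ≤ R)
    (hδ : 0 ≤ δ) (hTR : ∀ r ∈ T, (r : ℝ) ≤ R)
    (h : ∀ r₁ ∈ T, ∀ r₂ ∈ T, (r₁ : ℝ) ≤ r₂ → (r₂ : ℝ) ^ 2 - (r₁ : ℝ) ^ 2 ≤ δ) :
    Measure.volumeIoiPow (k + 1) T ≤ ENNReal.ofReal (R ^ k * (δ / 2)) := by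
  rcases T.eq_empty_or_nonempty with rfl | ⟨r₀, hr₀⟩
  · simp
  set T' : Set ℝ := Subtype.val '' T with hT'
  have hT'ne : T'.Nonempty := ⟨r₀, r₀, hr₀, rfl⟩
  have hb : BddAbove T' := ⟨R, by rintro _ ⟨r, hr, rfl⟩; exact hTR r hr⟩
  have ha : BddBelow T' := ⟨0, by rintro _ ⟨r, hr, rfl⟩; exact (show (0 : ℝ) < r from r.2).le⟩
  set a := sInf T' with had
  set b := sSup T' with hbd
  have ha0 : 0 ≤ a := le_csInf hT'ne (by
    rintro _ ⟨r, hr, rfl⟩; exact (show (0 : ℝ) < r from r.2).le)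
  have hbR : b ≤ R := csSup_le hT'ne (by rintro _ ⟨r, hr, rfl⟩; exact hTR r hr)
  have hsub : T' ⊆ Icc a b := fun x hx => ⟨csInf_le ha hx, le_csSup hb hx⟩
  have hab : a ≤ b := by
    obtain ⟨x, hx⟩ := hT'ne
    exact (hsub hx).1.trans (hsub hx).2
  have h2 : ∀ r₁ ∈ T, ∀ r₂ ∈ T, (r₂ : ℝ) ^ 2 ≤ δ + (r₁ : ℝ) ^ 2 := by
    intro r₁ h1 r₂ h2
    have p1 : (0 : ℝ) < r₁ := r₁.2
    have p2 : (0 : ℝ) < r₂ := r₂.2
    rcases le_total (r₁ : ℝ) r₂ with hle | hle
    · linarith [h r₁ h1 r₂ h2 hle]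
    · nlinarith
  have hba : b ^ 2 ≤ δ + a ^ 2 := by
    have h3 : ∀ r₁ ∈ T, b ^ 2 ≤ δ + (r₁ : ℝ) ^ 2 := by
      intro r₁ h1
      have h4 : b ≤ Real.sqrt (δ + (r₁ : ℝ) ^ 2) := by
        refine csSup_le hT'ne ?_
        rintro _ ⟨r, hr, rfl⟩
        exact Real.le_sqrt_of_sq_le (h2 r₁ h1 r hr)
      calc b ^ 2 ≤ (Real.sqrt (δ + (r₁ : ℝ) ^ 2)) ^ 2 := by
            have : 0 ≤ b := ha0.trans hab
            gcongr
        _ = _ := Real.sq_sqrt (by positivity)
    rcases le_or_gt (b ^ 2 - δ) 0 with h5 | h5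
    · nlinarith [sq_nonneg a]
    · have h6 : Real.sqrt (b ^ 2 - δ) ≤ a := by
        refine le_csInf hT'ne ?_
        rintro _ ⟨r, hr, rfl⟩
        rw [Real.sqrt_le_left (show (0 : ℝ) < r from r.2).le]
        linarith [h3 r hr]
      have h7 : b ^ 2 - δ ≤ a ^ 2 := by
        calc b ^ 2 - δ = (Real.sqrt (b ^ 2 - δ)) ^ 2 := (Real.sq_sqrt h5.le).symm
          _ ≤ a ^ 2 := by gcongr
      linarith
  have hT'm : MeasurableSet T' := (MeasurableEmbedding.subtype_coe measurableSet_Ioi).measurableSet_image.2 hT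
  rw [Measure.volumeIoiPow, withDensity_apply _ hT,
    setLIntegral_subtype measurableSet_Ioi _ fun a : ℝ ↦ ENNReal.ofReal (a ^ (k + 1))]
  calc ∫⁻ x in T', ENNReal.ofReal (x ^ (k + 1))
      ≤ ∫⁻ x in T', ENNReal.ofReal (R ^ k * x) := by
        refine setLIntegral_mono' hT'm ?_
        rintro _ ⟨r, hr, rfl⟩
        refine ENNReal.ofReal_le_ofReal ?_
        have p1 : (0 : ℝ) < r := r.2
        rw [pow_succ]
        gcongr
        exact hTR r hr
    _ ≤ ∫⁻ x in Icc a b, ENNReal.ofReal (R ^ k * x) := lintegral_mono_set hsub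
    _ = ENNReal.ofReal (∫ x in a..b, R ^ k * x) := by
        rw [intervalIntegral.integral_of_le hab, ← integral_Icc_eq_integral_Ioc,
          ofReal_integral_eq_lintegral_ofReal]
        · exact (continuous_const.mul continuous_id).integrableOn_Icc
        · filter_upwards [ae_restrict_mem measurableSet_Icc] with x hx
          have : 0 ≤ x := ha0.trans hx.1
          positivity
    _ ≤ _ := by
        refine ENNReal.ofReal_le_ofReal ?_
        rw [intervalIntegral.integral_const_mul, integral_id]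
        gcongr
        linarith

variable {E : Type*} [NormedAddCommGroup E] [NormedSpace ℝ E] [MeasurableSpace E] [BorelSpace E]
  [FiniteDimensional ℝ E]

/-- measure of sets which are thin along the rays from a point -/
lemma radial (μ : Measure E) [μ.IsAddHaarMeasure] (hd : 2 ≤ finrank ℝ E) (A : Set E)
    (hA : MeasurableSet A) (p : E) (R δ : ℝ) (hR : 0 ≤ R) (hδ : 0 ≤ δ)
    (hAR : ∀ x ∈ A, ‖x - p‖ ≤ R)
    (h : ∀ w : E, ‖w‖ = 1 → ∀ r₁ r₂ : ℝ, 0 < r₁ → r₁ ≤ r₂ → p + r₁ • w ∈ A → p + r₂ • w ∈ A →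
      r₂ ^ 2 - r₁ ^ 2 ≤ δ) :
    μ A ≤ μ.toSphere univ * ENNReal.ofReal (R ^ (finrank ℝ E - 2) * (δ / 2)) := by
  have hnt : Nontrivial E := Module.nontrivial_of_finrank_pos (R := ℝ) (by omega)
  set A' : Set E := (fun x => p + x) ⁻¹' A with hA'
  have hA'm : MeasurableSet A' := (measurable_const_add p) hA
  have h1 : μ A = μ A' := by rw [hA', measure_preimage_add]
  have h2 : μ A' = μ (A' \ {0}) := by
    rw [measure_sdiff_null (measure_singleton 0)]
  set S : Set ({0}ᶜ : Set E) := Subtype.val ⁻¹' A' with hS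
  have hSm : MeasurableSet S := measurable_subtype_coe hA'm
  have h3 : μ (A' \ {0}) = (μ.comap Subtype.val : Measure ({0}ᶜ : Set E)) S := by
    rw [comap_subtype_coe_apply (measurableSet_singleton _).compl, hS,
      Subtype.image_preimage_coe, inter_comm]
    rfl
  have hmp := μ.measurePreserving_homeomorphUnitSphereProd
  set e := homeomorphUnitSphereProd E with he
  have h4 : (μ.comap Subtype.val : Measure ({0}ᶜ : Set E)) S =
      (μ.toSphere.prod (Measure.volumeIoiPow (finrank ℝ E - 1))) (e.symm ⁻¹' S) := by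
    rw [← hmp.measure_preimage (e.symm.continuous.measurable hSm).nullMeasurableSet]
    congr 1
    ext x
    simp
  rw [h1, h2, h3, h4, Measure.prod_apply (e.symm.continuous.measurable hSm)]
  calc ∫⁻ w, Measure.volumeIoiPow (finrank ℝ E - 1) (Prod.mk w ⁻¹' (e.symm ⁻¹' S)) ∂μ.toSphere
      ≤ ∫⁻ w, ENNReal.ofReal (R ^ (finrank ℝ E - 2) * (δ / 2)) ∂μ.toSphere := by
        refine lintegral_mono fun w => ?_
        have h5 : finrank ℝ E - 1 = (finrank ℝ E - 2) + 1 := by omega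
        rw [h5]
        have hmem : ∀ r : Ioi (0 : ℝ), r ∈ Prod.mk w ⁻¹' (e.symm ⁻¹' S) ↔
            p + (r : ℝ) • (w : E) ∈ A := by
          intro r
          simp only [mem_preimage, hS, hA', he, homeomorphUnitSphereProd_symm_apply_coe]
        have hw : ‖(w : E)‖ = 1 := by simp
        refine ioi_bound _ _ (measurable_prodMk_left (e.symm.continuous.measurable hSm)) R δ hR hδ
          ?_ ?_
        · intro r hr
          have := hAR _ ((hmem r).1 hr)
          rw [add_sub_cancel_left, norm_smul, hw, mul_one, Real.norm_eq_abs,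
            abs_of_pos (show (0 : ℝ) < r from r.2)] at this
          exact this
        · intro r₁ h1 r₂ h2 hle
          exact h w hw r₁ r₂ r₁.2 hle ((hmem r₁).1 h1) ((hmem r₂).1 h2)
    _ = _ := by rw [lintegral_const, mul_comm]

end Pool.Agent.H225.En
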