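import Pool.Agent.H225.Key1

set_option autoImplicit false

open MeasureTheory Metric Set Filter Module
open scoped ENNReal NNReal Topology RealInnerProductSpace

namespace Pool.Agent.H225.En

variable {m n : ℕ}

/-- derivative criterion -/
lemma growth_of_deriv (B : Set (V m)) (hB : Convex ℝ B) (f : V m → ℝ) (f' : V m → V m →L[ℝ] ℝ)
    (hf : ∀ u ∈ B, HasFDerivAt f (f' u) u) (p : V m) (c : ℝ)
    (h : ∀ u ∈ B, c * ‖u - p‖ ^ 2 ≤ f' u (u - p)) (w : V m) (hw : ‖w‖ = 1) (r₁ r₂ : ℝ)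
    (h0 : 0 < r₁) (h12 : r₁ ≤ r₂) (h1 : p + r₁ • w ∈ B) (h2 : p + r₂ • w ∈ B) :
    c / 2 * (r₂ ^ 2 - r₁ ^ 2) ≤ f (p + r₂ • w) - f (p + r₁ • w) := by
  have hmem : ∀ r ∈ Icc r₁ r₂, p + r • w ∈ B := by
    intro r hr
    rcases eq_or_lt_of_le h12 with heq | hlt
    · have : r = r₁ := le_antisymm (heq ▸ hr.2) hr.1
      rw [this]; exact h1
    · have hpos : 0 < r₂ - r₁ := by linarith
      have h3 := hB h1 h2 (a := (r₂ - r) / (r₂ - r₁)) (b := (r - r₁) / (r₂ - r₁))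
        (div_nonneg (by linarith [hr.2]) hpos.le) (div_nonneg (by linarith [hr.1]) hpos.le)
        (by field_simp; ring)
      convert h3 using 1
      rw [smul_add, smul_add, smul_smul, smul_smul]
      have e1 : p + r • w = ((r₂ - r) / (r₂ - r₁) + (r - r₁) / (r₂ - r₁)) • p +
          ((r₂ - r) / (r₂ - r₁) * r₁ + (r - r₁) / (r₂ - r₁) * r₂) • w := by
        have e2 : (r₂ - r) / (r₂ - r₁) + (r - r₁) / (r₂ - r₁) = 1 := by field_simp; ring
        have e3 : (r₂ - r) / (r₂ - r₁) * r₁ + (r - r₁) / (r₂ - r₁) * r₂ = r := by field_simp; ring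
        rw [e2, e3, one_smul]
      rw [e1, add_smul, add_smul]
      abel
  set g : ℝ → ℝ := fun r => f (p + r • w) - c / 2 * r ^ 2 with hg
  have hder : ∀ r ∈ Icc r₁ r₂, HasDerivAt g (f' (p + r • w) w - c * r) r := by
    intro r hr
    have hd1 : HasDerivAt (fun r : ℝ => p + r • w) w r := by
      simpa using ((hasDerivAt_id r).smul_const w).const_add p
    have hd2 := (hf _ (hmem r hr)).comp_hasDerivAt r hd1
    have hd3 : HasDerivAt (fun r : ℝ => c / 2 * r ^ 2) (c * r) r := by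
      have := (hasDerivAt_pow 2 r).const_mul (c / 2)
      refine this.congr_deriv ?_
      simp; ring
    exact hd2.sub hd3
  have hmono : MonotoneOn g (Icc r₁ r₂) := by
    refine monotoneOn_of_deriv_nonneg (convex_Icc _ _)
      (fun r hr => (hder r hr).continuousAt.continuousWithinAt)
      (fun r hr => (hder r (interior_subset hr)).differentiableAt.differentiableWithinAt) ?_
    intro r hr
    have hr' := interior_subset hr
    rw [(hder r hr').deriv]
    have hr0 : 0 < r := lt_of_lt_of_le h0 hr'.1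
    have h4 := h _ (hmem r hr')
    rw [add_sub_cancel_left, norm_smul, hw, map_smul, smul_eq_mul, Real.norm_eq_abs,
      abs_of_pos hr0, mul_one] at h4
    have h5 : r * (c * r) ≤ r * f' (p + r • w) w := by nlinarith
    have h6 := le_of_mul_le_mul_left h5 hr0
    linarith
  have h7 := hmono (left_mem_Icc.2 h12) (right_mem_Icc.2 h12) h12
  simp only [hg] at h7
  nlinarith

/-- measure of sublevel sets from radial growth -/
lemma meas_of_growth (hm : 2 ≤ m) (B : Set (V m)) (hB : Convex ℝ B) (hBm : MeasurableSet B)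
    (f : V m → ℝ) (f' : V m → V m →L[ℝ] ℝ)
    (hf : ∀ u ∈ B, HasFDerivAt f (f' u) u) (p : V m) (c : ℝ) (hc : 0 < c) (R : ℝ) (hR : 0 ≤ R)
    (hBR : ∀ u ∈ B, ‖u - p‖ ≤ R)
    (h : ∀ u ∈ B, c * ‖u - p‖ ^ 2 ≤ f' u (u - p)) (ε : ℝ) (hε : 0 < ε) :
    volume {u ∈ B | |f u| < ε} ≤
      ENNReal.ofReal (((volume : Measure (V m)).toSphere univ).toReal * R ^ (m - 2) * 2 / c * ε) := by
  have hcont : ContinuousOn f B := fun u hu => (hf u hu).continuousAt.continuousWithinAt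
  have hmeas : MeasurableSet {u ∈ B | |f u| < ε} := by
    obtain ⟨O, hO, hOB⟩ := (_root_.continuousOn_iff'.1 hcont) (Ioo (-ε) ε) isOpen_Ioo
    have : {u ∈ B | |f u| < ε} = O ∩ B := by
      rw [← hOB]
      ext u
      simp only [mem_ofPred_eq, mem_inter_iff, mem_preimage, mem_Ioo, abs_lt]
      tauto
    rw [this]
    exact hO.measurableSet.inter hBm
  have h1 := radial (volume : Measure (V m)) (by simpa using hm) {u ∈ B | |f u| < ε} hmeas p R
    (4 * ε / c) hR (by positivity) (fun x hx => hBR x hx.1) ?_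
  · refine h1.trans (le_of_eq ?_)
    have hfin : (volume : Measure (V m)).toSphere univ ≠ ∞ := measure_ne_top _ _
    conv_lhs => rw [← ENNReal.ofReal_toReal hfin]
    rw [← ENNReal.ofReal_mul ENNReal.toReal_nonneg, finrank_euclideanSpace_fin]
    congr 1
    field_simp
    ring
  · intro w hw r₁ r₂ h0 h12 hr1 hr2
    have h3 := growth_of_deriv B hB f f' hf p c h w hw r₁ r₂ h0 h12 hr1.1 hr2.1
    have h4 := abs_lt.1 hr1.2
    have h5 := abs_lt.1 hr2.2
    rw [le_div_iff₀ hc]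
    nlinarith

/-- the local condition on a set of directions -/
def Loc (φ : V m → V n) (u₀ : V m) (s : Set (V n)) : Prop :=
  ∃ δ : ℝ, 0 < δ ∧ ∃ C : ℝ, 0 ≤ C ∧ ∀ e ∈ s, ∀ ε : ℝ, 0 < ε →
    volume {u ∈ closedBall u₀ δ | |⟪φ u, e⟫| < ε} ≤ ENNReal.ofReal (C * ε)

lemma Loc.mono {φ : V m → V n} {u₀ : V m} {s t : Set (V n)} (h : Loc φ u₀ t) (hst : s ⊆ t) :
    Loc φ u₀ s := by
  obtain ⟨δ, hδ, C, hC, h⟩ := h
  exact ⟨δ, hδ, C, hC, fun e he => h e (hst he)⟩

lemma Loc.union {φ : V m → V n} {u₀ : V m} {s t : Set (V n)} (h1 : Loc φ u₀ s)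
    (h2 : Loc φ u₀ t) : Loc φ u₀ (s ∪ t) := by
  obtain ⟨δ1, hδ1, C1, hC1, h1⟩ := h1
  obtain ⟨δ2, hδ2, C2, hC2, h2⟩ := h2
  refine ⟨min δ1 δ2, lt_min hδ1 hδ2, max C1 C2, le_max_of_le_left hC1, ?_⟩
  rintro e (he | he) ε hε
  · refine (measure_mono ?_).trans ((h1 e he ε hε).trans ?_)
    · rintro u ⟨hu, hu2⟩
      exact ⟨closedBall_subset_closedBall (min_le_left _ _) hu, hu2⟩
    · refine ENNReal.ofReal_le_ofReal ?_
      gcongr
      exact le_max_left _ _
  · refine (measure_mono ?_).trans ((h2 e he ε hε).trans ?_)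
    · rintro u ⟨hu, hu2⟩
      exact ⟨closedBall_subset_closedBall (min_le_right _ _) hu, hu2⟩
    · refine ENNReal.ofReal_le_ofReal ?_
      gcongr
      exact le_max_right _ _

lemma Loc.neg {φ : V m → V n} {u₀ : V m} {s : Set (V n)} (h1 : Loc φ u₀ s) :
    Loc φ u₀ ((fun e => -e) ⁻¹' s) := by
  obtain ⟨δ, hδ, C, hC, h⟩ := h1
  refine ⟨δ, hδ, C, hC, fun e he ε hε => ?_⟩
  have := h (-e) he ε hε
  simpa only [inner_neg_right, abs_neg] using this

/-- case (i) -/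
lemma loc_one (U : Set (V m)) (hU : IsOpen U) (φ : V m → V n) (hφ : ContinuousOn φ U)
    (u₀ : V m) (hu₀ : u₀ ∈ U) (e₀ : V n) (h : ⟪φ u₀, e₀⟫ ≠ 0) :
    ∃ t ∈ 𝓝 e₀, Loc φ u₀ t := by
  set c := |⟪φ u₀, e₀⟫| / 2 with hc
  have hc0 : 0 < c := by have := abs_pos.2 h; positivity
  have hcont : ContinuousAt (fun q : V m × V n => |⟪φ q.1, q.2⟫|) (u₀, e₀) := by
    have h1 : ContinuousAt (fun q : V m × V n => φ q.1) (u₀, e₀) :=
      ContinuousAt.comp (f := Prod.fst) (g := φ) (hφ.continuousAt (hU.mem_nhds hu₀)) continuousAt_fst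
    exact (h1.inner continuousAt_snd).abs
  have hev : ∀ᶠ q : V m × V n in 𝓝 (u₀, e₀), c < |⟪φ q.1, q.2⟫| :=
    hcont.eventually_const_lt (by simp only [hc]; linarith [abs_pos.2 h])
  rw [nhds_prod_eq] at hev
  obtain ⟨pa, ha, pb, hb, hab⟩ := eventually_prod_iff.1 hev
  obtain ⟨δ, hδ, hball⟩ := Metric.nhds_basis_closedBall.mem_iff.1 ha
  refine ⟨{e | pb e}, hb, δ, hδ, (volume (closedBall u₀ δ)).toReal / c, by positivity, ?_⟩
  intro e he ε hε
  have hfin : volume (closedBall u₀ δ) ≠ ∞ := measure_closedBall_lt_top.ne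
  rcases le_or_gt ε c with hle | hlt
  · have : {u ∈ closedBall u₀ δ | |⟪φ u, e⟫| < ε} = ∅ := by
      ext u
      simp only [mem_ofPred_eq, mem_empty_iff_false, iff_false, not_and, not_lt]
      intro hu
      have := hab (hball hu) he
      simp only at this
      linarith
    rw [this, measure_empty]
    exact zero_le
  · calc volume {u ∈ closedBall u₀ δ | |⟪φ u, e⟫| < ε} ≤ volume (closedBall u₀ δ) :=
          measure_mono fun u hu => hu.1
      _ = ENNReal.ofReal (volume (closedBall u₀ δ)).toReal := (ENNReal.ofReal_toReal hfin).symm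
      _ ≤ _ := by
          refine ENNReal.ofReal_le_ofReal ?_
          rw [div_mul_eq_mul_div, le_div_iff₀ hc0]
          gcongr

/-- derivative of the height function -/
lemma height_deriv {φ : V m → V n} {u : V m} (h : DifferentiableAt ℝ φ u) (e : V n) :
    HasFDerivAt (fun u => ⟪φ u, e⟫) ((innerSL ℝ e).comp (fderiv ℝ φ u)) u := by
  have h1 := ((innerSL ℝ e).hasFDerivAt (x := φ u)).comp u h.hasFDerivAt
  refine h1.congr_of_eventuallyEq (Eventually.of_forall fun v => ?_)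
  simp only [Function.comp, innerSL_apply_apply]
  exact real_inner_comm _ _

/-- general criterion -/
lemma loc_of_growth (hm : 2 ≤ m) (U : Set (V m)) (φ : V m → V n)
    (hφ : ∀ u ∈ U, DifferentiableAt ℝ φ u) (u₀ : V m) (δ : ℝ) (hδ : 0 < δ)
    (hU : closedBall u₀ δ ⊆ U) (c R : ℝ) (hc : 0 < c) (hR : 0 ≤ R) (t : Set (V n))
    (h : ∀ e ∈ t, ∃ p : V m, (∀ u ∈ closedBall u₀ δ, ‖u - p‖ ≤ R) ∧
      ∀ u ∈ closedBall u₀ δ, c * ‖u - p‖ ^ 2 ≤ ⟪fderiv ℝ φ u (u - p), e⟫) :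
    Loc φ u₀ t := by
  refine ⟨δ, hδ, ((volume : Measure (V m)).toSphere univ).toReal * R ^ (m - 2) * 2 / c,
    by positivity, fun e he ε hε => ?_⟩
  obtain ⟨p, hp1, hp2⟩ := h e he
  refine meas_of_growth hm (closedBall u₀ δ) (convex_closedBall _ _) measurableSet_closedBall
    (fun u => ⟪φ u, e⟫) (fun u => (innerSL ℝ e).comp (fderiv ℝ φ u))
    (fun u hu => height_deriv (hφ u (hU hu)) e) p c hc R hR hp1 (fun u hu => ?_) ε hε
  refine (hp2 u hu).trans (le_of_eq ?_)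
  simp only [ContinuousLinearMap.comp_apply, innerSL_apply_apply]
  exact real_inner_comm _ _

/-- case (ii) -/
lemma loc_two (hm : 2 ≤ m) (U : Set (V m)) (hU : IsOpen U) (φ : V m → V n)
    (hφ : ContDiffOn ℝ 2 φ U) (u₀ : V m) (hu₀ : u₀ ∈ U) (e₀ : V n) (v : V m)
    (h : 0 < ⟪fderiv ℝ φ u₀ v, e₀⟫) :
    ∃ t ∈ 𝓝 e₀, Loc φ u₀ t := by
  have hd : ∀ u ∈ U, DifferentiableAt ℝ φ u := fun u hu =>
    (hφ.differentiableOn (by norm_num)).differentiableAt (hU.mem_nhds hu)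
  have hfd : ContinuousAt (fderiv ℝ φ) u₀ :=
    (hφ.continuousOn_fderiv_of_isOpen hU (by norm_num)).continuousAt (hU.mem_nhds hu₀)
  set c := ⟪fderiv ℝ φ u₀ v, e₀⟫ / 2 with hc
  have hc0 : 0 < c := by positivity
  have hcont : ContinuousAt (fun q : V m × V n => ⟪fderiv ℝ φ q.1 (q.1 - (u₀ - v)), q.2⟫)
      (u₀, e₀) := by
    have h1 : ContinuousAt (fun q : V m × V n => fderiv ℝ φ q.1) (u₀, e₀) :=
      ContinuousAt.comp (f := Prod.fst) (g := fderiv ℝ φ) hfd continuousAt_fst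
    exact (h1.clm_apply (continuousAt_fst.sub continuousAt_const)).inner continuousAt_snd
  have hev : ∀ᶠ q : V m × V n in 𝓝 (u₀, e₀), c < ⟪fderiv ℝ φ q.1 (q.1 - (u₀ - v)), q.2⟫ := by
    refine hcont.eventually_const_lt ?_
    simp only [sub_sub_cancel, hc]
    linarith
  rw [nhds_prod_eq] at hev
  obtain ⟨pa, ha, pb, hb, hab⟩ := eventually_prod_iff.1 hev
  obtain ⟨δ, hδ, hball⟩ := Metric.nhds_basis_closedBall.mem_iff.1
    (inter_mem ha (hU.mem_nhds hu₀))
  set R := δ + ‖v‖ with hR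
  have hR0 : 0 < R := by positivity
  refine ⟨{e | pb e}, hb, loc_of_growth hm U φ hd u₀ δ hδ (fun u hu => (hball hu).2) (c / R ^ 2) R
    (by positivity) hR0.le _ fun e he => ⟨u₀ - v, ?_, ?_⟩⟩
  · intro u hu
    calc ‖u - (u₀ - v)‖ = ‖(u - u₀) + v‖ := by congr 1; abel
      _ ≤ ‖u - u₀‖ + ‖v‖ := norm_add_le _ _
      _ ≤ R := by
          rw [hR]
          gcongr
          rw [← dist_eq_norm]; exact hu
  · intro u hu
    have h2 : ‖u - (u₀ - v)‖ ≤ R := by
      calc ‖u - (u₀ - v)‖ = ‖(u - u₀) + v‖ := by congr 1; abel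
      _ ≤ ‖u - u₀‖ + ‖v‖ := norm_add_le _ _
      _ ≤ R := by
          rw [hR]
          gcongr
          rw [← dist_eq_norm]; exact hu
    calc c / R ^ 2 * ‖u - (u₀ - v)‖ ^ 2 ≤ c / R ^ 2 * R ^ 2 := by gcongr
      _ = c := by field_simp
      _ ≤ _ := (hab (hball hu).1 he).le

lemma near_aux {A F G : Type*} [TopologicalSpace A] [NormedAddCommGroup F] [NormedAddCommGroup G]
    (g : A → F) (u₀ : A) (hg : ContinuousAt g u₀) (e₀ : G) (c : ℝ) (hc : 0 < c) :
    ∀ᶠ q : A × G in 𝓝 (u₀, e₀), ‖g q.1 - g u₀‖ * ‖q.2‖ + ‖g u₀‖ * ‖q.2 - e₀‖ < c := by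
  have h1 : ContinuousAt (fun q : A × G => g q.1) (u₀, e₀) :=
    ContinuousAt.comp (f := Prod.fst) (g := g) hg continuousAt_fst
  have hcont : ContinuousAt (fun q : A × G => ‖g q.1 - g u₀‖ * ‖q.2‖ + ‖g u₀‖ * ‖q.2 - e₀‖)
      (u₀, e₀) :=
    ((h1.sub continuousAt_const).norm.mul continuousAt_snd.norm).add
      (continuousAt_const.mul (continuousAt_snd.sub continuousAt_const).norm)
  refine hcont.eventually_lt_const ?_
  simpa using hc

/-- case (iii) -/
lemma loc_three (hm : 2 ≤ m) (U : Set (V m)) (hU : IsOpen U) (φ : V m → V n)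
    (hφ : ContDiffOn ℝ 2 φ U) (u₀ : V m) (hu₀ : u₀ ∈ U) (e₀ : V n)
    (h : ∀ v : V m, v ≠ 0 → 0 < ⟪fderiv ℝ (fderiv ℝ φ) u₀ v v, e₀⟫) :
    ∃ t ∈ 𝓝 e₀, Loc φ u₀ t := by
  have hd : ∀ u ∈ U, DifferentiableAt ℝ φ u := fun u hu =>
    (hφ.differentiableOn (by norm_num)).differentiableAt (hU.mem_nhds hu)
  have hfd1 : ContDiffOn ℝ 1 (fderiv ℝ φ) U := hφ.fderiv_of_isOpen hU (by norm_num)
  have hdd : ∀ u ∈ U, DifferentiableAt ℝ (fderiv ℝ φ) u := fun u hu =>
    (hfd1.differentiableOn (by norm_num)).differentiableAt (hU.mem_nhds hu)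
  have hfd : ContinuousAt (fderiv ℝ (fderiv ℝ φ)) u₀ :=
    (hfd1.continuousOn_fderiv_of_isOpen hU (by norm_num)).continuousAt (hU.mem_nhds hu₀)
  -- the minimum over the unit sphere
  obtain ⟨c, hc0, hc⟩ : ∃ c : ℝ, 0 < c ∧ ∀ v : V m, 2 * c * ‖v‖ ^ 2 ≤
      ⟪fderiv ℝ (fderiv ℝ φ) u₀ v v, e₀⟫ := by
    have hne : (sphere (0 : V m) 1).Nonempty := by
      have : Nontrivial (V m) := Module.nontrivial_of_finrank_pos (R := ℝ) (by simp; omega)
      exact NormedSpace.sphere_nonempty.2 zero_le_one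
    have hcont : Continuous fun v : V m => ⟪fderiv ℝ (fderiv ℝ φ) u₀ v v, e₀⟫ := by fun_prop
    obtain ⟨v₀, hv₀, hmin⟩ := (isCompact_sphere (0 : V m) 1).exists_isMinOn hne hcont.continuousOn
    have hv₀' : ‖v₀‖ = 1 := by simpa using hv₀
    have hv0 : v₀ ≠ 0 := by intro h0; rw [h0, norm_zero] at hv₀'; norm_num at hv₀'
    refine ⟨⟪fderiv ℝ (fderiv ℝ φ) u₀ v₀ v₀, e₀⟫ / 2, by have := h v₀ hv0; positivity, fun v => ?_⟩
    rcases eq_or_ne v 0 with rfl | hv
    · simp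
    · have hvn : 0 < ‖v‖ := norm_pos_iff.2 hv
      have h1 : ‖v‖⁻¹ • v ∈ sphere (0 : V m) 1 := by
        rw [mem_sphere_zero_iff_norm, norm_smul, norm_inv, norm_norm, inv_mul_cancel₀ hvn.ne']
      have h2 := hmin h1
      simp only [mem_ofPred_eq, map_smul, smul_apply, inner_smul_left,
        RCLike.conj_to_real] at h2
      have h3 : ⟪fderiv ℝ (fderiv ℝ φ) u₀ v v, e₀⟫ =
          ‖v‖ ^ 2 * (‖v‖⁻¹ * (‖v‖⁻¹ * ⟪fderiv ℝ (fderiv ℝ φ) u₀ v v, e₀⟫)) := by
        field_simp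
      rw [h3]
      nlinarith [mul_le_mul_of_nonneg_left h2 (sq_nonneg ‖v‖)]
  -- nearby points
  have hev := near_aux (fderiv ℝ (fderiv ℝ φ)) u₀ hfd e₀ c hc0
  rw [nhds_prod_eq] at hev
  obtain ⟨pa, ha, pb, hb, hab⟩ := eventually_prod_iff.1 hev
  obtain ⟨δ, hδ, hball⟩ := Metric.nhds_basis_closedBall.mem_iff.1
    (inter_mem ha (hU.mem_nhds hu₀))
  have hsub : closedBall u₀ δ ⊆ U := fun u hu => (hball hu).2
  -- convexity
  have hconv : ∀ e, pb e → ∀ u ∈ closedBall u₀ δ, ∀ v : V m,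
      c * ‖v‖ ^ 2 ≤ ⟪fderiv ℝ (fderiv ℝ φ) u v v, e⟫ := by
    intro e he u hu v
    have h1 := hab (hball hu).1 he
    simp only at h1
    have h2 : ⟪fderiv ℝ (fderiv ℝ φ) u v v, e⟫ = ⟪fderiv ℝ (fderiv ℝ φ) u₀ v v, e₀⟫ +
        ⟪(fderiv ℝ (fderiv ℝ φ) u - fderiv ℝ (fderiv ℝ φ) u₀) v v, e⟫ +
        ⟪fderiv ℝ (fderiv ℝ φ) u₀ v v, e - e₀⟫ := by
      simp only [sub_apply, inner_sub_left, inner_sub_right]
      ring
    have h3 : |⟪(fderiv ℝ (fderiv ℝ φ) u - fderiv ℝ (fderiv ℝ φ) u₀) v v, e⟫| ≤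
        ‖fderiv ℝ (fderiv ℝ φ) u - fderiv ℝ (fderiv ℝ φ) u₀‖ * ‖v‖ * ‖v‖ * ‖e‖ := by
      refine (abs_real_inner_le_norm _ _).trans ?_
      gcongr
      exact ContinuousLinearMap.le_opNorm₂ _ _ _
    have h4 : |⟪fderiv ℝ (fderiv ℝ φ) u₀ v v, e - e₀⟫| ≤
        ‖fderiv ℝ (fderiv ℝ φ) u₀‖ * ‖v‖ * ‖v‖ * ‖e - e₀‖ := by
      refine (abs_real_inner_le_norm _ _).trans ?_
      gcongr
      exact ContinuousLinearMap.le_opNorm₂ _ _ _
    have h5 := (abs_le.1 h3).1
    have h6 := (abs_le.1 h4).1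
    have h7 := hc v
    have h8 : (‖fderiv ℝ (fderiv ℝ φ) u - fderiv ℝ (fderiv ℝ φ) u₀‖ * ‖e‖ +
      ‖fderiv ℝ (fderiv ℝ φ) u₀‖ * ‖e - e₀‖) * ‖v‖ ^ 2 ≤ c * ‖v‖ ^ 2 := by gcongr
    rw [h2]
    nlinarith
  refine ⟨{e | pb e}, hb, loc_of_growth hm U φ hd u₀ δ hδ hsub c (2 * δ) hc0 (by positivity) _
    fun e he => ?_⟩
  have hfcont : ContinuousOn (fun u => ⟪φ u, e⟫) (closedBall u₀ δ) := fun u hu =>
    (height_deriv (hd u (hsub hu)) e).continuousAt.continuousWithinAt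
  obtain ⟨p, hp, hmin⟩ := (isCompact_closedBall u₀ δ).exists_isMinOn
    ⟨u₀, mem_closedBall_self hδ.le⟩ hfcont
  refine ⟨p, fun u hu => ?_, fun u hu => ?_⟩
  · rw [← dist_eq_norm]
    calc dist u p ≤ dist u u₀ + dist u₀ p := dist_triangle _ _ _
      _ ≤ δ + δ := add_le_add hu (by rw [dist_comm]; exact hp)
      _ = 2 * δ := by ring
  · -- first order condition
    have hfo : 0 ≤ ⟪fderiv ℝ φ p (u - p), e⟫ := by
      have h1 : u - p ∈ posTangentConeAt (closedBall u₀ δ) p :=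
        sub_mem_posTangentConeAt_of_segment_subset ((convex_closedBall u₀ δ).segment_subset hp hu)
      have h2 := hmin.localize.hasFDerivWithinAt_nonneg
        (height_deriv (hd p (hsub hp)) e).hasFDerivWithinAt h1
      simp only [ContinuousLinearMap.comp_apply, innerSL_apply_apply] at h2
      rwa [real_inner_comm] at h2
    -- along the segment
    have hseg : ∀ t ∈ Icc (0 : ℝ) 1, p + t • (u - p) ∈ closedBall u₀ δ := by
      intro t ht
      have h3 := (convex_closedBall u₀ δ) hp hu (a := 1 - t) (b := t) (by linarith [ht.2]) ht.1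
        (by ring)
      convert h3 using 1
      rw [sub_smul, one_smul, smul_sub]; abel
    set k : ℝ → ℝ := fun t => ⟪fderiv ℝ φ (p + t • (u - p)) (u - p), e⟫ - c * t * ‖u - p‖ ^ 2
      with hk
    have hder : ∀ t ∈ Icc (0 : ℝ) 1, HasDerivAt k
        (⟪fderiv ℝ (fderiv ℝ φ) (p + t • (u - p)) (u - p) (u - p), e⟫ - c * ‖u - p‖ ^ 2) t := by
      intro t ht
      have hd1 : HasDerivAt (fun t : ℝ => p + t • (u - p)) (u - p) t := by
        simpa using ((hasDerivAt_id t).smul_const (u - p)).const_add p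
      have hd2 := ((hdd _ (hsub (hseg t ht))).hasFDerivAt).comp_hasDerivAt t hd1
      have hd3 : HasDerivAt (fun t : ℝ => fderiv ℝ φ (p + t • (u - p)) (u - p))
          (fderiv ℝ (fderiv ℝ φ) (p + t • (u - p)) (u - p) (u - p)) t := by
        have := hd2.clm_apply (hasDerivAt_const t (u - p))
        simpa using this
      have hd4 : HasDerivAt (fun t : ℝ => ⟪fderiv ℝ φ (p + t • (u - p)) (u - p), e⟫)
          ⟪fderiv ℝ (fderiv ℝ φ) (p + t • (u - p)) (u - p) (u - p), e⟫ t := by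
        have := hd3.inner ℝ (hasDerivAt_const t e)
        simpa using this
      have hd5 : HasDerivAt (fun t : ℝ => c * t * ‖u - p‖ ^ 2) (c * ‖u - p‖ ^ 2) t := by
        have := ((hasDerivAt_id t).const_mul c).mul_const (‖u - p‖ ^ 2)
        simpa using this
      exact hd4.sub hd5
    have hmono : MonotoneOn k (Icc 0 1) := by
      refine monotoneOn_of_deriv_nonneg (convex_Icc _ _)
        (fun r hr => (hder r hr).continuousAt.continuousWithinAt)
        (fun r hr => (hder r (interior_subset hr)).differentiableAt.differentiableWithinAt) ?_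
      intro r hr
      have hr' := interior_subset hr
      rw [(hder r hr').deriv]
      linarith [hconv e he _ (hseg r hr') (u - p)]
    have h7 := hmono (left_mem_Icc.2 zero_le_one) (right_mem_Icc.2 zero_le_one) zero_le_one
    simp only [hk, zero_smul, add_zero, mul_zero, zero_mul, sub_zero, one_smul, mul_one,
      add_sub_cancel] at h7
    linarith

end Pool.Agent.H225.En
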