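import Pool.Agent.H225.Key2

set_option autoImplicit false

open MeasureTheory Metric Set Filter Module
open scoped ENNReal NNReal Topology RealInnerProductSpace

namespace Pool.Agent.H225.En

variable {m n : ℕ}

/-- local transversality -/
theorem local_key (hm : 2 ≤ m) (U : Set (V m)) (hU : IsOpen U) (φ : V m → V n)
    (hφ : ContDiffOn ℝ 2 φ U) (u₀ : V m) (hu₀ : u₀ ∈ U)
    (h : ∀ e : V n, ‖e‖ = 1 → ⟪φ u₀, e⟫ = 0 → (∀ v, ⟪fderiv ℝ φ u₀ v, e⟫ = 0) →
      (∀ v : V m, v ≠ 0 → 0 < ⟪fderiv ℝ (fderiv ℝ φ) u₀ v v, e⟫) ∨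
      (∀ v : V m, v ≠ 0 → ⟪fderiv ℝ (fderiv ℝ φ) u₀ v v, e⟫ < 0)) :
    Loc φ u₀ (sphere 0 1) := by
  refine (isCompact_sphere (0 : V n) 1).induction_on (p := Loc φ u₀) ?_ ?_ ?_ ?_
  · exact ⟨1, one_pos, 0, le_rfl, fun e he => absurd he (notMem_empty e)⟩
  · exact fun s t hst ht => ht.mono hst
  · exact fun s t hs ht => hs.union ht
  · intro e he
    have he1 : ‖e‖ = 1 := by simpa using he
    have key : ∃ t ∈ 𝓝 e, Loc φ u₀ t := by
      by_cases h1 : ⟪φ u₀, e⟫ = 0
      · by_cases h2 : ∀ v, ⟪fderiv ℝ φ u₀ v, e⟫ = 0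
        · rcases h e he1 h1 h2 with h3 | h3
          · exact loc_three hm U hU φ hφ u₀ hu₀ e h3
          · obtain ⟨t, ht, hL⟩ := loc_three hm U hU φ hφ u₀ hu₀ (-e) (fun v hv => by
              rw [inner_neg_right]; linarith [h3 v hv])
            refine ⟨(fun e => -e) ⁻¹' t, ?_, hL.neg⟩
            exact continuous_neg.continuousAt.preimage_mem_nhds ht
        · push Not at h2
          obtain ⟨v, hv⟩ := h2
          rcases lt_or_gt_of_ne hv with h3 | h3
          · refine loc_two hm U hU φ hφ u₀ hu₀ e (-v) ?_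
            rw [map_neg, inner_neg_left]; linarith
          · exact loc_two hm U hU φ hφ u₀ hu₀ e v h3
      · exact loc_one U hU φ hφ.continuousOn u₀ hu₀ e h1
    obtain ⟨t, ht, hL⟩ := key
    exact ⟨t, mem_nhdsWithin_of_mem_nhds ht, hL⟩

/-- differentiating `‖φ‖ = 1` once -/
lemma sphere_first (U : Set (V m)) (hU : IsOpen U) (φ : V m → V n) (hφ : ContDiffOn ℝ 2 φ U)
    (hs : ∀ u ∈ U, ‖φ u‖ = 1) (u : V m) (hu : u ∈ U) (v : V m) :
    ⟪fderiv ℝ φ u v, φ u⟫ = 0 := by
  have hd : DifferentiableAt ℝ φ u :=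
    (hφ.differentiableOn (by norm_num)).differentiableAt (hU.mem_nhds hu)
  have h1 : HasFDerivAt (fun u => ⟪φ u, φ u⟫) _ u := hd.hasFDerivAt.inner ℝ hd.hasFDerivAt
  have h2 : (fun u => ⟪φ u, φ u⟫) =ᶠ[𝓝 u] fun _ => (1 : ℝ) := by
    filter_upwards [hU.mem_nhds hu] with w hw
    rw [real_inner_self_eq_norm_sq, hs w hw, one_pow]
  have h3 := (hasFDerivAt_const (𝕜 := ℝ) (1 : ℝ) u).congr_of_eventuallyEq h2
  have h4 := h1.unique h3
  have h5 := congrArg (fun L : V m →L[ℝ] ℝ => L v) h4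
  simp only [fderivInnerCLM_apply, ContinuousLinearMap.comp_apply,
    ContinuousLinearMap.prod_apply, zero_apply] at h5
  rw [real_inner_comm (fderiv ℝ φ u v) (φ u)] at h5
  linarith

/-- differentiating `‖φ‖ = 1` twice -/
lemma sphere_second (U : Set (V m)) (hU : IsOpen U) (φ : V m → V n) (hφ : ContDiffOn ℝ 2 φ U)
    (hs : ∀ u ∈ U, ‖φ u‖ = 1) (u : V m) (hu : u ∈ U) (v w : V m) :
    ⟪fderiv ℝ (fderiv ℝ φ) u v w, φ u⟫ = - ⟪fderiv ℝ φ u w, fderiv ℝ φ u v⟫ := by
  have hd : DifferentiableAt ℝ φ u :=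
    (hφ.differentiableOn (by norm_num)).differentiableAt (hU.mem_nhds hu)
  have hfd1 : ContDiffOn ℝ 1 (fderiv ℝ φ) U := hφ.fderiv_of_isOpen hU (by norm_num)
  have hdd : DifferentiableAt ℝ (fderiv ℝ φ) u :=
    (hfd1.differentiableOn (by norm_num)).differentiableAt (hU.mem_nhds hu)
  have h0 : HasFDerivAt (fun u => fderiv ℝ φ u w) ((fderiv ℝ (fderiv ℝ φ) u).flip w) u := by
    have := hdd.hasFDerivAt.clm_apply (hasFDerivAt_const w u)
    refine this.congr_fderiv ?_
    ext x : 1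
    simp
  have h1 := h0.inner ℝ hd.hasFDerivAt
  have h2 : (fun u => ⟪fderiv ℝ φ u w, φ u⟫) =ᶠ[𝓝 u] fun _ => (0 : ℝ) := by
    filter_upwards [hU.mem_nhds hu] with x hx
    exact sphere_first U hU φ hφ hs x hx w
  have h3 := (hasFDerivAt_const (𝕜 := ℝ) (0 : ℝ) u).congr_of_eventuallyEq h2
  have h4 := h1.unique h3
  have h5 := congrArg (fun L : V m →L[ℝ] ℝ => L v) h4
  simp only [fderivInnerCLM_apply, ContinuousLinearMap.comp_apply,
    ContinuousLinearMap.prod_apply, zero_apply,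
    ContinuousLinearMap.flip_apply] at h5
  linarith

/-- the normal projection when the normal space is spanned by two orthonormal vectors -/
lemma normal_proj (T : Submodule ℝ (V n)) (hT : finrank ℝ Tᗮ = 2) (a b : V n) (ha : a ∈ Tᗮ)
    (hb : b ∈ Tᗮ) (ha1 : ‖a‖ = 1) (hb1 : ‖b‖ = 1) (hab : ⟪a, b⟫ = 0) (x : V n) :
    Tᗮ.starProjection x = ⟪a, x⟫ • a + ⟪b, x⟫ • b := by
  have hba : ⟪b, a⟫ = 0 := by rw [real_inner_comm]; exact hab
  have haa : ⟪a, a⟫ = (1 : ℝ) := by rw [real_inner_self_eq_norm_sq, ha1, one_pow]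
  have hbb : ⟪b, b⟫ = (1 : ℝ) := by rw [real_inner_self_eq_norm_sq, hb1, one_pow]
  have hon : Orthonormal ℝ ![a, b] := by
    rw [orthonormal_iff_ite]
    intro i j
    fin_cases i <;> fin_cases j <;> simp [hab, hba, ha1, hb1]
  have hspan : Submodule.span ℝ (Set.range ![a, b]) = Tᗮ := by
    refine Submodule.eq_of_le_of_finrank_eq ?_ ?_
    · rw [Submodule.span_le]
      rintro _ ⟨i, rfl⟩
      fin_cases i
      · exact ha
      · exact hb
    · rw [finrank_span_eq_card hon.linearIndependent, hT]; rfl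
  refine Submodule.eq_starProjection_of_mem_of_inner_eq_zero ?_ ?_
  · exact Tᗮ.add_mem (Tᗮ.smul_mem _ ha) (Tᗮ.smul_mem _ hb)
  · intro w hw
    rw [← hspan] at hw
    induction hw using Submodule.span_induction with
    | mem y hy =>
      obtain ⟨i, rfl⟩ := hy
      fin_cases i
      · simp only [Fin.zero_eta, Matrix.cons_val_zero, inner_sub_left, inner_add_left,
          inner_smul_left, RCLike.conj_to_real, haa, hba]
        rw [real_inner_comm]; ring
      · simp only [Fin.mk_one, Matrix.cons_val_one, Matrix.cons_val_fin_one, inner_sub_left,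
          inner_add_left, inner_smul_left, RCLike.conj_to_real, hbb, hab]
        rw [real_inner_comm]; ring
    | zero => exact inner_zero_right _
    | add y z _ _ hy hz => rw [inner_add_right, hy, hz, add_zero]
    | smul c y _ hy => rw [inner_smul_right, hy, mul_zero]

/-- a symmetric form with positive two-dimensional determinants is definite -/
lemma definite_of_det (hm : 2 ≤ m) (b : V m → V m → ℝ) (hsm : ∀ (c : ℝ) v, b (c • v) (c • v) =
      c ^ 2 * b v v)
    (h : ∀ v w : V m, LinearIndependent ℝ ![v, w] → 0 < b v v * b w w - b v w ^ 2) :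
    (∀ v : V m, v ≠ 0 → 0 < b v v) ∨ (∀ v : V m, v ≠ 0 → b v v < 0) := by
  have hnt : Nontrivial (V m) := Module.nontrivial_of_finrank_pos (R := ℝ) (by simp; omega)
  obtain ⟨v₀, hv₀⟩ := exists_ne (0 : V m)
  have hex : ∃ w : V m, LinearIndependent ℝ ![v₀, w] := by
    have h1 := fun w : V m => (LinearIndependent.pair_iff' (K := ℝ) (y := w) hv₀)
    by_contra hcon
    push Not at hcon
    have h2 : ∀ w : V m, w ∈ Submodule.span ℝ {v₀} := by
      intro w
      have h3 := hcon w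
      rw [h1] at h3
      push Not at h3
      obtain ⟨a, ha⟩ := h3
      exact Submodule.mem_span_singleton.2 ⟨a, ha⟩
    have h4 : finrank ℝ (⊤ : Submodule ℝ (V m)) ≤ 1 := by
      have h5 : (⊤ : Submodule ℝ (V m)) = Submodule.span ℝ {v₀} := by
        refine le_antisymm (fun w _ => h2 w) le_top
      rw [h5]
      exact (finrank_span_le_card _).trans (by simp)
    rw [finrank_top, finrank_euclideanSpace_fin] at h4
    omega
  obtain ⟨w₀, hw₀⟩ := hex
  have hne : b v₀ v₀ ≠ 0 := by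
    intro h0
    have := h v₀ w₀ hw₀
    rw [h0, zero_mul] at this
    nlinarith [sq_nonneg (b v₀ w₀)]
  have hpos : ∀ v : V m, v ≠ 0 → 0 < b v₀ v₀ * b v v := by
    intro v hv
    by_cases hli : LinearIndependent ℝ ![v₀, v]
    · have := h v₀ v hli
      nlinarith [sq_nonneg (b v₀ v)]
    · rw [LinearIndependent.pair_iff' (K := ℝ) hv₀] at hli
      push Not at hli
      obtain ⟨a, rfl⟩ := hli
      have ha : a ≠ 0 := by rintro rfl; exact hv (zero_smul _ _)
      rw [hsm]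
      have h3 : 0 < b v₀ v₀ ^ 2 := by positivity
      have h4 : 0 < a ^ 2 := by positivity
      nlinarith [mul_pos h3 h4]
  rcases lt_or_gt_of_ne hne with hlt | hgt
  · right
    intro v hv
    have := hpos v hv
    by_contra hcon
    push Not at hcon
    nlinarith [mul_nonpos_of_nonpos_of_nonneg hlt.le hcon]
  · left
    intro v hv
    exact (pos_iff_pos_of_mul_pos (hpos v hv)).1 hgt

/-- **Sectional curvature above one implies the transversality condition.** -/
theorem curvature_key (hm : 2 ≤ m) (hmn : m + 2 = n) (U : Set (V m)) (hU : IsOpen U)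
    (φ : V m → V n) (hφ : ContDiffOn ℝ 2 φ U) (hs : ∀ u ∈ U, ‖φ u‖ = 1) (u : V m) (hu : u ∈ U)
    (hinj : Function.Injective (fderiv ℝ φ u))
    (hK : ∀ v w : V m, LinearIndependent ℝ ![v, w] →
      1 < (⟪(LinearMap.range (fderiv ℝ φ u : V m →ₗ[ℝ] V n))ᗮ.starProjection
              (fderiv ℝ (fderiv ℝ φ) u v v),
            (LinearMap.range (fderiv ℝ φ u : V m →ₗ[ℝ] V n))ᗮ.starProjection
              (fderiv ℝ (fderiv ℝ φ) u w w)⟫ -
          ‖(LinearMap.range (fderiv ℝ φ u : V m →ₗ[ℝ] V n))ᗮ.starProjection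
              (fderiv ℝ (fderiv ℝ φ) u v w)‖ ^ 2) /
        (‖fderiv ℝ φ u v‖ ^ 2 * ‖fderiv ℝ φ u w‖ ^ 2 - ⟪fderiv ℝ φ u v, fderiv ℝ φ u w⟫ ^ 2)) :
    ∀ e : V n, ‖e‖ = 1 → ⟪φ u, e⟫ = 0 → (∀ v, ⟪fderiv ℝ φ u v, e⟫ = 0) →
      (∀ v : V m, v ≠ 0 → 0 < ⟪fderiv ℝ (fderiv ℝ φ) u v v, e⟫) ∨
      (∀ v : V m, v ≠ 0 → ⟪fderiv ℝ (fderiv ℝ φ) u v v, e⟫ < 0) := by
  intro e he h0 h1
  set T := LinearMap.range (fderiv ℝ φ u : V m →ₗ[ℝ] V n) with hT
  have hTr : finrank ℝ T = m := by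
    rw [hT, LinearMap.finrank_range_of_inj hinj, finrank_euclideanSpace_fin]
  have hTo : finrank ℝ Tᗮ = 2 := by
    have := Submodule.finrank_add_finrank_orthogonal T
    rw [hTr, finrank_euclideanSpace_fin] at this
    omega
  have hφN : φ u ∈ Tᗮ := by
    rw [Submodule.mem_orthogonal]
    rintro _ ⟨v, rfl⟩
    exact sphere_first U hU φ hφ hs u hu v
  have heN : e ∈ Tᗮ := by
    rw [Submodule.mem_orthogonal]
    rintro _ ⟨v, rfl⟩
    exact h1 v
  have hproj := fun x => normal_proj T hTo (φ u) e hφN heN (hs u hu) he h0 x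
  have hee : ⟪e, e⟫ = (1 : ℝ) := by rw [real_inner_self_eq_norm_sq, he, one_pow]
  have hpp : ⟪φ u, φ u⟫ = (1 : ℝ) := by rw [real_inner_self_eq_norm_sq, hs u hu, one_pow]
  have hep : ⟪e, φ u⟫ = 0 := by rw [real_inner_comm]; exact h0
  have hinner : ∀ x y : V n, ⟪Tᗮ.starProjection x, Tᗮ.starProjection y⟫ =
      ⟪x, φ u⟫ * ⟪y, φ u⟫ + ⟪x, e⟫ * ⟪y, e⟫ := by
    intro x y
    rw [hproj, hproj]
    simp only [inner_add_left, inner_add_right, inner_smul_left, inner_smul_right,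
      RCLike.conj_to_real, hee, hpp, h0, hep]
    rw [real_inner_comm x (φ u), real_inner_comm y (φ u), real_inner_comm x e,
      real_inner_comm y e]
    ring
  refine definite_of_det hm (fun v w => ⟪fderiv ℝ (fderiv ℝ φ) u v w, e⟫) ?_ ?_
  · intro c v
    simp only [map_smul, smul_apply, inner_smul_left, RCLike.conj_to_real]
    ring
  · intro v w hvw
    have hk := hK v w hvw
    have hli : LinearIndependent ℝ ![fderiv ℝ φ u v, fderiv ℝ φ u w] := by
      have := hvw.map' (fderiv ℝ φ u : V m →ₗ[ℝ] V n) (LinearMap.ker_eq_bot.2 hinj)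
      have h9 : (fderiv ℝ φ u : V m →ₗ[ℝ] V n) ∘ ![v, w] = ![fderiv ℝ φ u v, fderiv ℝ φ u w] := by
        ext i : 1
        fin_cases i <;> rfl
      rw [h9] at this
      exact this
    set x := fderiv ℝ φ u v with hx
    set y := fderiv ℝ φ u w with hy
    have hgram : 0 < ‖x‖ ^ 2 * ‖y‖ ^ 2 - ⟪x, y⟫ ^ 2 := by
      have hx0 : x ≠ 0 := hli.ne_zero 0
      have hy0 : y ≠ 0 := hli.ne_zero 1
      have h5 : |⟪x, y⟫| < ‖x‖ * ‖y‖ := by
        refine lt_of_le_of_ne (abs_real_inner_le_norm x y) ?_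
        intro heq
        have h6 := (abs_real_inner_div_norm_mul_norm_eq_one_iff x y).1 (by
          rw [abs_div, heq, abs_of_nonneg (by positivity), div_self (by positivity)])
        obtain ⟨_, r, _, hr⟩ := h6
        rw [LinearIndependent.pair_iff' (K := ℝ) hx0] at hli
        exact hli r hr.symm
      have h6 : ⟪x, y⟫ ^ 2 < (‖x‖ * ‖y‖) ^ 2 := by
        rw [← sq_abs]; gcongr
      nlinarith
    rw [lt_div_iff₀ hgram, one_mul, hinner, ← real_inner_self_eq_norm_sq (Tᗮ.starProjection _),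
      hinner, sphere_second U hU φ hφ hs u hu v v, sphere_second U hU φ hφ hs u hu w w,
      sphere_second U hU φ hφ hs u hu v w, ← hx, ← hy, real_inner_self_eq_norm_sq,
      real_inner_self_eq_norm_sq, real_inner_comm x y] at hk
    nlinarith

end Pool.Agent.H225.En
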