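import Pool.Agent.H387.QR.DefsA

/-!
# A1. Content spaces; inverting triangular operators over `R`; the q-boson inverse
-/

namespace Pool.Agent.H387.QR

variable {I : Type} [Fintype I] [DecidableEq I] {C : Cartan I} {K : Type*} [Field K] [HasQ K]

namespace A1

theorem Lw_eq_zero (i : I) (u : List I) (a : List I → K)
    (h : ∀ v, (i :: v).Perm u → a v = 0) : Lw C i u a = 0 := by
  induction u generalizing a with
  | nil => rfl
  | cons j u ih =>
    rw [Lw, ih (fun x => a (j :: x)) (fun v hv => h _ ?_)]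
    · rw [mul_zero, add_zero]
      by_cases hj : j = i
      · rw [if_pos hj]
        subst hj
        exact h u (List.Perm.refl _)
      · rw [if_neg hj]
    · exact (List.Perm.swap j i v).trans (hv.cons j)

theorem ph_memR (w : List I) : ph C w ∈ fR C K (w : Multiset I) :=
  Submodule.subset_span ⟨w, rfl, rfl⟩

theorem ph_mem (w : List I) : ph C w ∈ fc C K (w : Multiset I) :=
  Submodule.subset_span ⟨w, rfl, rfl⟩

omit [Fintype I] [DecidableEq I] in
theorem smulR {L : Submodule (RR K) (Fn I K)} {r : K} (hr : r ∈ RR K) {a : Fn I K} (ha : a ∈ L) :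
    r • a ∈ L := L.smul_mem (⟨r, hr⟩ : RR K) ha

theorem fR_le' (η : Multiset I) {a : Fn I K} (ha : a ∈ fR C K η) : a ∈ fc C K η := by
  induction ha using Submodule.span_induction with
  | mem x hx => exact Submodule.subset_span hx
  | zero => exact Submodule.zero_mem _
  | add x y _ _ hx hy => exact Submodule.add_mem _ hx hy
  | smul r x _ hx => exact (fc C K η).smul_mem (r : K) hx

theorem mapR (T : Fn I K →ₗ[K] Fn I K) {η η' : Multiset I}
    (h : ∀ w : List I, (w : Multiset I) = η → T (ph C w) ∈ fR C K η') {a : Fn I K}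
    (ha : a ∈ fR C K η) : T a ∈ fR C K η' := by
  induction ha using Submodule.span_induction with
  | mem x hx =>
    obtain ⟨w, hw, rfl⟩ := hx
    exact h w hw
  | zero => rw [map_zero]; exact Submodule.zero_mem _
  | add x y _ _ hx hy => rw [map_add]; exact Submodule.add_mem _ hx hy
  | smul r x _ hx =>
    have : T (r • x) = r • T x := T.map_smul (r : K) x
    rw [this]
    exact Submodule.smul_mem _ r hx

theorem mapc (T : Fn I K →ₗ[K] Fn I K) {η η' : Multiset I}
    (h : ∀ w : List I, (w : Multiset I) = η → T (ph C w) ∈ fR C K η') {a : Fn I K}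
    (ha : a ∈ fc C K η) : T a ∈ fc C K η' := by
  induction ha using Submodule.span_induction with
  | mem x hx =>
    obtain ⟨w, hw, rfl⟩ := hx
    exact fR_le' _ (h w hw)
  | zero => rw [map_zero]; exact Submodule.zero_mem _
  | add x y _ _ hx hy => rw [map_add]; exact Submodule.add_mem _ hx hy
  | smul r x _ hx =>
    rw [map_smul]
    exact Submodule.smul_mem _ r hx

/-- an identity of linear maps on the words extends to the span -/
theorem eqc (T T' : Fn I K →ₗ[K] Fn I K) {η : Multiset I}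
    (h : ∀ w : List I, (w : Multiset I) = η → T (ph C w) = T' (ph C w)) {a : Fn I K}
    (ha : a ∈ fc C K η) : T a = T' a := by
  induction ha using Submodule.span_induction with
  | mem x hx =>
    obtain ⟨w, hw, rfl⟩ := hx
    exact h w hw
  | zero => rw [map_zero, map_zero]
  | add x y _ _ hx hy => rw [map_add, map_add, hx, hy]
  | smul r x _ hx => rw [map_smul, map_smul, hx]

theorem L_ph (i : I) (w : List I) : Lop C i (ph C w) ∈ fR C K (i ::ₘ (w : Multiset I)) :=
  ph_memR (i :: w)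

theorem L_R' (i : I) {η : Multiset I} {a : Fn I K} (ha : a ∈ fR C K η) :
    Lop C i a ∈ fR C K (i ::ₘ η) :=
  mapR (Lop C i) (fun w hw => by rw [← hw]; exact L_ph i w) ha

theorem R_ph' (i : I) (w : List I) : Rop C i (ph C w) ∈ fR C K (i ::ₘ (w : Multiset I)) := by
  rw [R_ph]
  have : (i ::ₘ (w : Multiset I)) = ((w ++ [i] : List I) : Multiset I) :=
    Multiset.coe_eq_coe.2 (List.perm_append_singleton i w).symm
  rw [this]
  exact ph_memR _

theorem L_fac (i : I) {u : Multiset I} {x : Fn I K} (hx : x ∈ fR C K (u.erase i))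
    (h0 : i ∉ u → x = 0) : Lop C i x ∈ fR C K u := by
  by_cases hi : i ∈ u
  · have := L_R' i hx
    rwa [Multiset.cons_erase hi] at this
  · rw [h0 hi, map_zero]
    exact Submodule.zero_mem _

theorem D_ph_zero (i : I) (w : List I) (hi : i ∉ w) : Dop i (ph C (K := K) w) = 0 := by
  induction w with
  | nil => exact D_ph_nil C i
  | cons j u ih =>
    rw [List.mem_cons, not_or] at hi
    rw [ph_cons, D_L, if_neg hi.1, ih hi.2, map_zero, smul_zero, add_zero]

theorem Q_ph (i : I) (w : List I) :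
    Qop C i (ph C (K := K) w) = qq K ^ (pr C i w) • ph C w := by
  induction w with
  | nil =>
    funext v
    rw [Qop_apply, pr_nil, zpow_zero, one_smul]
    cases v <;> simp [ph]
  | cons j u ih =>
    have h := L_Q C (K := K) i j (ph C u)
    rw [ih, map_smul] at h
    have h2 : Qop C i (Lop C j (ph C (K := K) u)) =
        qq K ^ (C.br i j) • (qq K ^ (pr C i u) • Lop C j (ph C u)) := by
      rw [h, smul_smul, ← qadd, add_neg_cancel, zpow_zero, one_smul]
    rw [ph_cons, h2, smul_smul, ← qadd, pr_cons]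

theorem Qinv_ph (i : I) (w : List I) :
    Qinv C i (ph C (K := K) w) = qq K ^ (-pr C i w) • ph C w := by
  have h := Qinv_Q C (K := K) i (ph C w)
  rw [Q_ph, map_smul] at h
  conv_rhs => rw [← h]
  rw [smul_smul, ← qadd, neg_add_cancel, zpow_zero, one_smul]

theorem r_ph_nil (i : I) : rop i (ph C (K := K) []) = 0 := by
  funext w; simp [rop_apply, ph]

theorem r_ph_zero (i : I) (w : List I) (hi : i ∉ w) : rop i (ph C (K := K) w) = 0 := by
  induction w with
  | nil => exact r_ph_nil i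
  | cons j u ih =>
    rw [List.mem_cons, not_or] at hi
    rw [ph_cons, r_L, if_neg hi.1, ih hi.2, map_zero, add_zero]

theorem D_ph (i : I) (w : List I) :
    Dop i (ph C w) ∈ fR C K ((w : Multiset I).erase i) := by
  induction w with
  | nil => rw [D_ph_nil]; exact Submodule.zero_mem _
  | cons j u ih =>
    rw [ph_cons, D_L]
    by_cases h : i = j
    · subst h
      rw [if_pos rfl, ← Multiset.cons_coe, Multiset.erase_cons_head]
      exact Submodule.add_mem _ (ph_memR u) (smulR (qz_mem _) (L_fac i ih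
        (fun hi => D_ph_zero (C := C) (K := K) i u (by simpa using hi))))
    · rw [if_neg h, zero_add, ← Multiset.cons_coe, Multiset.erase_cons_tail _ (Ne.symm h)]
      exact smulR (qz_mem _) (L_R' j ih)

theorem r_ph (i : I) (w : List I) :
    rop i (ph C w) ∈ fR C K ((w : Multiset I).erase i) := by
  induction w with
  | nil => rw [r_ph_nil]; exact Submodule.zero_mem _
  | cons j u ih =>
    rw [ph_cons, r_L]
    by_cases h : i = j
    · subst h
      rw [if_pos rfl, ← Multiset.cons_coe, Multiset.erase_cons_head, Q_ph]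
      exact Submodule.add_mem _ (L_fac i ih
        (fun hi => r_ph_zero i u (by simpa using hi))) (smulR (qz_mem _) (ph_memR u))
    · rw [if_neg h, add_zero, ← Multiset.cons_coe, Multiset.erase_cons_tail _ (Ne.symm h)]
      exact L_R' j ih

theorem pr_cor (i : I) (w : List I) : pr C i w = (C.d i : ℤ) * cor C (w : Multiset I) i := by
  unfold pr cor
  rw [Multiset.map_coe, Multiset.sum_coe]
  induction w with
  | nil => simp
  | cons j u ih =>
    rw [List.map_cons, List.sum_cons, List.map_cons, List.sum_cons, ih, mul_add]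
    rfl

theorem d_ne (C : Cartan I) (i : I) : (C.d i : ℤ) ≠ 0 := by
  have := C.d_pos i
  omega

theorem br_self (C : Cartan I) (i : I) : C.br i i = 2 * (C.d i : ℤ) := by
  rw [Cartan.br, C.diag, mul_comm]

theorem rD_ph (i : I) (w : List I) (n : ℤ) :
    (hq K (C.d i))⁻¹ • (rop i (ph C w) - qq K ^ (pr C i w + 2 * (C.d i : ℤ) * n) • Dop i (ph C w)) ∈
      fR C K ((w : Multiset I).erase i) := by
  induction w generalizing n with
  | nil =>
    rw [r_ph_nil, D_ph_nil, smul_zero, sub_zero, smul_zero]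
    exact Submodule.zero_mem _
  | cons j u ih =>
    have ih' := ih (C.a i j + n)
    have e0 : pr C i (j :: u) + 2 * (C.d i : ℤ) * n + C.br j i =
        pr C i u + 2 * (C.d i : ℤ) * (C.a i j + n) := by
      rw [pr_cons, br_symm C j i, Cartan.br]
      ring
    rw [ph_cons, D_L, r_L]
    by_cases h : i = j
    · subst h
      rw [if_pos rfl, if_pos rfl, ← Multiset.cons_coe, Multiset.erase_cons_head, Q_ph]
      have e1 : (hq K (C.d i))⁻¹ • (Lop C i (rop i (ph C (K := K) u)) + qq K ^ (pr C i u) • ph C u -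
          qq K ^ (pr C i (i :: u) + 2 * (C.d i : ℤ) * n) • (ph C u +
            qq K ^ (C.br i i) • Lop C i (Dop i (ph C u)))) =
          Lop C i ((hq K (C.d i))⁻¹ • (rop i (ph C u) -
            qq K ^ (pr C i u + 2 * (C.d i : ℤ) * (C.a i i + n)) • Dop i (ph C u))) +
          (-((qq K ^ (pr C i u + 2 * (C.d i : ℤ) * (1 + n)) - qq K ^ (pr C i u)) *
            (hq K (C.d i))⁻¹)) • ph C u := by
        rw [← e0, qadd K (pr C i (i :: u) + 2 * (C.d i : ℤ) * n) (C.br i i)]
        have e2 : pr C i u + 2 * (C.d i : ℤ) * (1 + n) = pr C i (i :: u) + 2 * (C.d i : ℤ) * n := by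
          rw [pr_cons, br_self]
          ring
        rw [e2]
        simp only [map_smul, map_sub]
        module
      rw [e1]
      refine Submodule.add_mem _ (L_fac i ih' (fun hi => ?_)) (smulR (Subring.neg_mem _ ?_) (ph_memR u))
      · have hi' : i ∉ u := by simpa using hi
        rw [D_ph_zero (C := C) (K := K) i u hi', r_ph_zero (C := C) (K := K) i u hi']
        simp
      · exact sub_div_mem (d_ne C i) _ _
    · rw [if_neg h, if_neg h, ← Multiset.cons_coe, Multiset.erase_cons_tail _ (Ne.symm h), add_zero,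
        zero_add, smul_smul, ← qadd, e0, ← map_smul, ← map_sub, ← map_smul]
      exact L_R' j ih'

theorem D_pow_L (i : I) (k : ℕ) (a : Fn I K) :
    (Dop i ^ (k + 1)) (Lop C i a) = tn K (C.d i) (k + 1) • (Dop i ^ k) a +
      (qq K ^ (2 * (C.d i : ℤ))) ^ (k + 1) • Lop C i ((Dop i ^ (k + 1)) a) := by
  induction k generalizing a with
  | zero =>
    rw [zero_add, pow_one, pow_zero, pow_one, D_L, if_pos rfl, br_self]
    simp [tn]
  | succ k ih =>
    have h1 : (Dop i ^ (k + 1 + 1)) (Lop C i a) = (Dop i ^ (k + 1)) (Dop i (Lop C i a)) := by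
      rw [pow_succ]; rfl
    have h2 : (Dop i ^ (k + 1 + 1)) a = (Dop i ^ (k + 1)) (Dop i a) := by
      rw [pow_succ]; rfl
    have h3 : (Dop i ^ (k + 1)) a = (Dop i ^ k) (Dop i a) := by
      rw [pow_succ]; rfl
    have h4 : tn K (C.d i) (k + 1 + 1) = 1 + qq K ^ (2 * (C.d i : ℤ)) * tn K (C.d i) (k + 1) := rfl
    rw [h1, D_L, if_pos rfl, br_self, map_add, map_smul, ih (Dop i a), h2, h4, ← h3]
    module

end A1

open A1

theorem ph_eq_zero {w u : List I} (h : ¬ w.Perm u) : ph C (K := K) w u = 0 := by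
  induction w generalizing u with
  | nil =>
    show (if u = [] then (1 : K) else 0) = 0
    rw [if_neg]
    intro hu
    exact h (by rw [hu])
  | cons i w ih =>
    refine Lw_eq_zero i u _ fun v hv => ih fun hwv => h ?_
    exact (hwv.cons i).trans hv

theorem L_mem (i : I) {η : Multiset I} {a : Fn I K} (ha : a ∈ fc C K η) :
    Lop C i a ∈ fc C K (i ::ₘ η) :=
  mapc (Lop C i) (fun w hw => by rw [← hw]; exact L_ph i w) ha

theorem L_memR (i : I) {η : Multiset I} {a : Fn I K} (ha : a ∈ fR C K η) :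
    Lop C i a ∈ fR C K (i ::ₘ η) :=
  L_R' i ha

theorem R_mem (i : I) {η : Multiset I} {a : Fn I K} (ha : a ∈ fc C K η) :
    Rop C i a ∈ fc C K (i ::ₘ η) :=
  mapc (Rop C i) (fun w hw => by rw [← hw]; exact R_ph' i w) ha

theorem R_memR (i : I) {η : Multiset I} {a : Fn I K} (ha : a ∈ fR C K η) :
    Rop C i a ∈ fR C K (i ::ₘ η) :=
  mapR (Rop C i) (fun w hw => by rw [← hw]; exact R_ph' i w) ha

theorem D_mem (i : I) {η : Multiset I} {a : Fn I K} (ha : a ∈ fc C K η) :
    Dop i a ∈ fc C K (η.erase i) :=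
  mapc (Dop i) (fun w hw => by rw [← hw]; exact D_ph i w) ha

theorem D_memR (i : I) {η : Multiset I} {a : Fn I K} (ha : a ∈ fR C K η) :
    Dop i a ∈ fR C K (η.erase i) :=
  mapR (Dop i) (fun w hw => by rw [← hw]; exact D_ph i w) ha

theorem r_mem (i : I) {η : Multiset I} {a : Fn I K} (ha : a ∈ fc C K η) :
    rop i a ∈ fc C K (η.erase i) :=
  mapc (rop i) (fun w hw => by rw [← hw]; exact r_ph i w) ha

theorem r_memR (i : I) {η : Multiset I} {a : Fn I K} (ha : a ∈ fR C K η) :
    rop i a ∈ fR C K (η.erase i) :=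
  mapR (rop i) (fun w hw => by rw [← hw]; exact r_ph i w) ha

theorem D_zero (i : I) {η : Multiset I} (hi : i ∉ η) {a : Fn I K} (ha : a ∈ fc C K η) :
    Dop i a = 0 :=
  eqc (Dop i) 0 (fun w hw => by
    rw [← hw] at hi
    exact D_ph_zero i w (by simpa using hi)) ha

theorem r_zero (i : I) {η : Multiset I} (hi : i ∉ η) {a : Fn I K} (ha : a ∈ fc C K η) :
    rop i a = 0 :=
  eqc (rop i) 0 (fun w hw => by
    rw [← hw] at hi
    exact r_ph_zero i w (by simpa using hi)) ha

theorem Q_fc (i : I) {η : Multiset I} {a : Fn I K} (ha : a ∈ fc C K η) :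
    Qop C i a = qq K ^ ((C.d i : ℤ) * cor C η i) • a :=
  eqc (Qop C i) (qq K ^ ((C.d i : ℤ) * cor C η i) • LinearMap.id) (fun w hw => by
    rw [← hw, ← pr_cor]
    exact Q_ph i w) ha

theorem Qinv_fc (i : I) {η : Multiset I} {a : Fn I K} (ha : a ∈ fc C K η) :
    Qinv C i a = qq K ^ (-((C.d i : ℤ) * cor C η i)) • a :=
  eqc (Qinv C i) (qq K ^ (-((C.d i : ℤ) * cor C η i)) • LinearMap.id) (fun w hw => by
    rw [← hw, ← pr_cor]
    exact Qinv_ph i w) ha

theorem fR_le (η : Multiset I) {a : Fn I K} (ha : a ∈ fR C K η) : a ∈ fc C K η :=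
  fR_le' η ha

theorem rD_mem (i : I) {η : Multiset I} {a : Fn I K} (ha : a ∈ fR C K η) :
    (hq K (C.d i))⁻¹ • (rop i a - qq K ^ ((C.d i : ℤ) * cor C η i) • Dop i a) ∈
      fR C K (η.erase i) := by
  refine mapR ((hq K (C.d i))⁻¹ • (rop i - qq K ^ ((C.d i : ℤ) * cor C η i) • Dop i))
    (fun w hw => ?_) ha
  have := rD_ph (K := K) (C := C) i w 0
  rw [mul_zero, add_zero, pr_cor, hw] at this
  exact this

theorem poly_inv {V : Type*} [AddCommGroup V] [Module K V] (X : V →ₗ[K] V)
    (B : ℕ → Submodule K V) (x : ℕ → K) (h0 : B 0 = ⊥) (hx : ∀ k, x k ≠ 0)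
    (hR : ∀ k, x k ∈ RR K) (hR' : ∀ k, (x k)⁻¹ ∈ RR K)
    (hB : ∀ k, ∀ b ∈ B (k + 1), X b - x k • b ∈ B k) (N : ℕ) :
    ∃ G : V →ₗ[K] V, (∀ b ∈ B N, X (G b) = b ∧ G (X b) = b) ∧
      (∀ L : Submodule (RR K) V, (∀ a ∈ L, X a ∈ L) → ∀ a ∈ L, G a ∈ L) ∧
      (∀ L : Submodule K V, (∀ a ∈ L, X a ∈ L) → ∀ a ∈ L, G a ∈ L) := by
  induction N with
  | zero =>
    refine ⟨0, fun b hb => ?_, fun L _ a _ => ?_, fun L _ a _ => ?_⟩
    · rw [h0, Submodule.mem_bot] at hb
      subst hb
      simp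
    · exact L.zero_mem
    · exact L.zero_mem
  | succ N ih =>
    obtain ⟨G, h1, h2, h3⟩ := ih
    have hG : ∀ a, ((x N)⁻¹ • (LinearMap.id - G ∘ₗ (X - x N • LinearMap.id)) : V →ₗ[K] V) a =
        (x N)⁻¹ • (a - G (X a - x N • a)) := fun a => rfl
    refine ⟨(x N)⁻¹ • (LinearMap.id - G ∘ₗ (X - x N • LinearMap.id)), fun b hb => ?_,
      fun L hL a ha => ?_, fun L hL a ha => ?_⟩
    · have hc := hB N b hb
      obtain ⟨g1, g2⟩ := h1 _ hc
      constructor
      · rw [hG, map_smul, map_sub, g1, sub_sub_cancel, smul_smul, inv_mul_cancel₀ (hx N), one_smul]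
      · have e : X (X b) - x N • X b = X (X b - x N • b) := by rw [map_sub, map_smul]
        rw [hG, e, g2, sub_sub_cancel, smul_smul, inv_mul_cancel₀ (hx N), one_smul]
    · rw [hG]
      have s1 : ∀ (r : K), r ∈ RR K → ∀ y ∈ L, r • y ∈ L := fun r hr y hy =>
        L.smul_mem (⟨r, hr⟩ : RR K) hy
      exact s1 _ (hR' N) _ (L.sub_mem ha (h2 L hL _ (L.sub_mem (hL a ha) (s1 _ (hR N) _ ha))))
    · rw [hG]
      exact L.smul_mem _ (L.sub_mem ha (h3 L hL _ (L.sub_mem (hL a ha) (L.smul_mem _ ha))))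

namespace A1

theorem D_pow_zero (i : I) (n : ℕ) : ∀ η : Multiset I, Multiset.card η = n → ∀ a ∈ fc C K η,
    (Dop i ^ (n + 1)) a = 0 := by
  induction n with
  | zero =>
    intro η hη a ha
    rw [Multiset.card_eq_zero] at hη
    rw [zero_add, pow_one]
    exact D_zero i (by rw [hη]; exact Multiset.notMem_zero i) ha
  | succ n ih =>
    intro η hη a ha
    have h1 : (Dop i ^ (n + 1 + 1)) a = (Dop i ^ (n + 1)) (Dop i a) := by
      rw [pow_succ]; rfl
    rw [h1]
    by_cases hi : i ∈ η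
    · apply ih (η.erase i) _ _ (D_mem i ha)
      rw [Multiset.card_erase_of_mem hi, hη]
      rfl
    · rw [D_zero i hi ha, map_zero]

end A1

theorem boson_inv (i : I) (η : Multiset I) : ∃ G : Fn I K →ₗ[K] Fn I K,
    (∀ a ∈ fc C K η, Dop i (Lop C i (G a)) = a) ∧ (∀ a ∈ fc C K η, G a ∈ fc C K η) ∧
    (∀ a ∈ fR C K η, G a ∈ fR C K η) := by
  have hZ : ∀ a ∈ fc C K η, (Dop i ∘ₗ Lop C i) a ∈ fc C K η := fun a ha => by
    have := D_mem i (L_mem i ha)
    rwa [Multiset.erase_cons_head] at this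
  have hZR : ∀ a ∈ fR C K η, (Dop i ∘ₗ Lop C i) a ∈ fR C K η := fun a ha => by
    have := D_memR i (L_memR i ha)
    rwa [Multiset.erase_cons_head] at this
  obtain ⟨G, h1, h2, h3⟩ := poly_inv (K := K) (Dop i ∘ₗ Lop C i)
    (fun k => fc C K η ⊓ LinearMap.ker ((Dop i : Fn I K →ₗ[K] Fn I K) ^ k))
    (fun k => tn K (C.d i) (k + 1)) (by
      rw [pow_zero]
      rw [eq_bot_iff]
      rintro x ⟨-, hx⟩
      exact hx)
    (fun k => tn_ne (d_ne C i) k.succ_pos) (fun k => tn_mem _)
    (fun k => tn_inv_mem (d_ne C i) k.succ_pos) (fun k b hb => by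
      obtain ⟨hb1, hb2⟩ := hb
      refine ⟨Submodule.sub_mem _ (hZ b hb1) (Submodule.smul_mem _ _ hb1), ?_⟩
      have hb3 : (Dop i ^ (k + 1)) b = 0 := hb2
      show (Dop i ^ k) ((Dop i ∘ₗ Lop C i) b - tn K (C.d i) (k + 1) • b) = 0
      have h := D_pow_L (C := C) i k b
      have e : (Dop i ^ (k + 1)) (Lop C i b) = (Dop i ^ k) ((Dop i ∘ₗ Lop C i) b) := by
        rw [pow_succ]; rfl
      rw [hb3, map_zero, smul_zero, add_zero, e] at h
      rw [map_sub, h, map_smul, sub_self]) (Multiset.card η + 1)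
  refine ⟨G, fun a ha => ?_, h3 _ hZ, h2 _ hZR⟩
  exact (h1 a ⟨ha, D_pow_zero i _ η rfl a ha⟩).1

end Pool.Agent.H387.QR
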