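import Mathlib

/-!
The rotation invariant probability measure on the unit sphere and its moments.
-/

set_option autoImplicit false
set_option linter.unusedSectionVars false

open MeasureTheory Metric Set Filter Module
open scoped ENNReal NNReal Topology RealInnerProductSpace

namespace Pool.Agent.H225.Sp

section gen

variable {H : Type*} [NormedAddCommGroup H] [InnerProductSpace ℝ H] [FiniteDimensional ℝ H]
  [MeasurableSpace H] [BorelSpace H]

/-- direction -/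
noncomputable def dr (z : H) : H := ‖z‖⁻¹ • z

lemma norm_dr {z : H} (hz : z ≠ 0) : ‖dr z‖ = 1 := by
  unfold dr
  rw [norm_smul, norm_inv, norm_norm, inv_mul_cancel₀ (norm_ne_zero_iff.2 hz)]

lemma measurable_dr : Measurable (dr : H → H) := by
  unfold dr
  fun_prop

lemma dr_map (L : H ≃ₗᵢ[ℝ] H) (z : H) : dr (L z) = L (dr z) := by
  unfold dr
  rw [L.norm_map, map_smul]

variable (H) in
/-- uniform probability measure on the unit ball -/
noncomputable def UB : Measure H := (volume (ball (0 : H) 1))⁻¹ • (volume.restrict (ball (0 : H) 1))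

variable (H) in
/-- uniform probability measure on the unit sphere -/
noncomputable def SM : Measure H := (UB H).map dr

instance : IsProbabilityMeasure (UB H) := by
  constructor
  unfold UB
  rw [Measure.smul_apply, Measure.restrict_apply_univ, smul_eq_mul]
  exact ENNReal.inv_mul_cancel (measure_ball_pos _ _ one_pos).ne' measure_ball_lt_top.ne

instance : IsProbabilityMeasure (SM H) := by
  unfold SM
  exact Measure.isProbabilityMeasure_map measurable_dr.aemeasurable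

lemma UB_ac : UB H ≪ volume := by
  unfold UB
  exact (Measure.smul_absolutelyContinuous).trans Measure.restrict_le_self.absolutelyContinuous

lemma UB_map (L : H ≃ₗᵢ[ℝ] H) : (UB H).map L = UB H := by
  unfold UB
  rw [Measure.map_smul]
  congr 1
  have h1 : L ⁻¹' (ball (0 : H) 1) = ball (0 : H) 1 := by
    ext z; simp
  have h2 := L.measurePreserving.restrict_preimage (s := ball (0 : H) 1) measurableSet_ball
  rw [h1] at h2
  exact h2.map_eq

lemma SM_map (L : H ≃ₗᵢ[ℝ] H) : (SM H).map L = SM H := by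
  have hL : Measurable L := L.continuous.measurable
  unfold SM
  rw [Measure.map_map hL measurable_dr]
  have h1 : (L ∘ dr : H → H) = dr ∘ L := by
    funext z; exact (dr_map L z).symm
  rw [h1, ← Measure.map_map measurable_dr hL, UB_map]

lemma SM_sphere [Nontrivial H] : SM H (sphere (0 : H) 1)ᶜ = 0 := by
  unfold SM
  rw [Measure.map_apply measurable_dr isClosed_sphere.measurableSet.compl]
  refine measure_mono_null (t := {0}) ?_ (UB_ac (measure_singleton (0 : H)))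
  intro z hz
  by_contra hz0
  apply hz
  rw [mem_sphere_zero_iff_norm]
  exact norm_dr hz0

lemma SM_ae [Nontrivial H] : ∀ᵐ z ∂(SM H), ‖z‖ = 1 := by
  rw [ae_iff]
  convert SM_sphere (H := H)
  ext z; simp

lemma integrable_of_ae_norm {F : Type*} [NormedAddCommGroup F] (τ : Measure H) [IsFiniteMeasure τ]
    (hτ : ∀ᵐ z ∂τ, ‖z‖ = 1) (f : H → F) (hf : Continuous f)
    : Integrable f τ := by
  obtain ⟨C, hC⟩ := (isCompact_sphere (0 : H) 1).exists_bound_of_continuousOn hf.continuousOn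
  refine Integrable.of_bound hf.aestronglyMeasurable C ?_
  filter_upwards [hτ] with z hz
  exact hC z (by simpa using hz)

/-- isometries act transitively on spheres -/
lemma exists_isom (x y : H) (h : ‖x‖ = ‖y‖) : ∃ L : H ≃ₗᵢ[ℝ] H, L x = y :=
  ⟨(ℝ ∙ (x - y))ᗮ.reflection, Submodule.reflection_sub h⟩

lemma integral_SM_map {F : Type*} [NormedAddCommGroup F] [NormedSpace ℝ F] (f : H → F)
    (L : H ≃ₗᵢ[ℝ] H) : ∫ z, f (L z) ∂(SM H) = ∫ z, f z ∂(SM H) := by
  have h := integral_map_equiv (L.toHomeomorph.toMeasurableEquiv) f (μ := SM H)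
  have h2 : Measure.map (L.toHomeomorph.toMeasurableEquiv) (SM H) = SM H := SM_map L
  rw [h2] at h
  exact h.symm

/-- moments -/
noncomputable def mom (k : ℕ) (x : H) : ℝ := ∫ z, ⟪z, x⟫ ^ k ∂(SM H)

lemma mom_isom (k : ℕ) (x y : H) (h : ‖x‖ = ‖y‖) : mom k x = mom k y := by
  obtain ⟨L, hL⟩ := exists_isom x y h
  unfold mom
  rw [← integral_SM_map (fun z => ⟪z, y⟫ ^ k) L]
  refine integral_congr_ae (Eventually.of_forall fun z => ?_)
  simp only
  rw [← hL, L.inner_map_map]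

lemma mom_smul (k : ℕ) (c : ℝ) (x : H) : mom k (c • x) = c ^ k * mom k x := by
  unfold mom
  rw [← integral_const_mul]
  refine integral_congr_ae (Eventually.of_forall fun z => ?_)
  simp only
  rw [inner_smul_right, mul_pow]

lemma mom_eq (k : ℕ) (e x : H) (he : ‖e‖ = 1) : mom k x = mom k e * ‖x‖ ^ k := by
  rw [mom_isom k x (‖x‖ • e) (by rw [norm_smul, norm_norm, he, mul_one]), mom_smul, mul_comm]

lemma mom_odd (k : ℕ) (hk : Odd k) (x : H) : mom k x = 0 := by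
  have h1 : mom k x = mom k ((-1 : ℝ) • x) := mom_isom k x _ (by simp)
  rw [mom_smul, hk.neg_one_pow] at h1
  linarith

/-- polynomial identities extend from the reals to the complex numbers -/
lemma poly_ext (N j : ℕ) (a : ℕ → ℝ) (c p q r : ℝ)
    (h : ∀ t : ℝ, ∑ i ∈ Finset.range (N + 1), a i * t ^ i = c * (p + q * t + r * t ^ 2) ^ j) :
    ((∑ i ∈ Finset.range (N + 1), Polynomial.C (a i) * Polynomial.X ^ i : Polynomial ℝ) =
      Polynomial.C c * (Polynomial.C p + Polynomial.C q * Polynomial.X +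
        Polynomial.C r * Polynomial.X ^ 2) ^ j) := by
  refine Polynomial.funext fun t => ?_
  rw [Polynomial.eval_finsetSum]
  simp only [Polynomial.eval_mul, Polynomial.eval_C, Polynomial.eval_pow, Polynomial.eval_X,
    Polynomial.eval_add]
  exact h t

lemma poly_complex (N j : ℕ) (a : ℕ → ℝ) (c p q r : ℝ)
    (h : ∀ t : ℝ, ∑ i ∈ Finset.range (N + 1), a i * t ^ i = c * (p + q * t + r * t ^ 2) ^ j)
    (t : ℂ) : ∑ i ∈ Finset.range (N + 1), (a i : ℂ) * t ^ i =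
      (c : ℂ) * ((p : ℂ) + (q : ℂ) * t + (r : ℂ) * t ^ 2) ^ j := by
  have h1 := congrArg (Polynomial.aeval t) (poly_ext N j a c p q r h)
  simpa [Polynomial.aeval_def, Polynomial.eval₂_finsetSum] using h1

lemma poly_coeff (N j : ℕ) (hN : 2 ≤ N) (a : ℕ → ℝ) (c : ℝ)
    (h : ∀ t : ℝ, ∑ i ∈ Finset.range (N + 1), a i * t ^ i = c * (1 + t ^ 2) ^ j) :
    a 2 = c * j := by
  have h1 := congrArg (fun P => Polynomial.coeff P 2) (poly_ext N j a c 1 0 1 (by
    intro t; rw [h t]; ring))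
  simp only [Polynomial.finsetSum_coeff, Polynomial.coeff_C_mul, Polynomial.coeff_X_pow,
    map_one, map_zero, zero_mul, add_zero, one_mul] at h1
  rw [Finset.sum_eq_single 2 (by
    intro b _ hb
    rw [if_neg (fun h => hb h.symm), mul_zero]) (by
    intro h2; exact absurd (Finset.mem_range.2 (by omega)) h2)] at h1
  rw [if_pos rfl, mul_one] at h1
  rw [h1]
  congr 1
  rw [add_comm, add_pow]
  simp only [one_pow, mul_one, ← pow_mul, Polynomial.finsetSum_coeff]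
  rcases Nat.eq_zero_or_pos j with rfl | hj
  · simp
  rw [Finset.sum_eq_single 1]
  · rw [show ((Nat.choose j 1 : ℕ) : Polynomial ℝ) = Polynomial.C (j : ℝ) by simp]
    rw [Polynomial.coeff_mul_C, Polynomial.coeff_X_pow]
    simp
  · intro b _ hb
    rw [show ((Nat.choose j b : ℕ) : Polynomial ℝ) = Polynomial.C (Nat.choose j b : ℝ) by simp]
    rw [Polynomial.coeff_mul_C, Polynomial.coeff_X_pow, if_neg (by omega), zero_mul]
  · intro h2
    exact absurd (Finset.mem_range.2 (by omega)) h2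

/-- expansion of the moments of a combination -/
lemma mom_add [Nontrivial H] (k : ℕ) (x y : H) (t : ℝ) :
    mom k (x + t • y) = ∑ i ∈ Finset.range (k + 1),
      ((k.choose i : ℝ) * ∫ z, ⟪z, y⟫ ^ i * ⟪z, x⟫ ^ (k - i) ∂(SM H)) * t ^ i := by
  unfold mom
  have h1 : ∀ z : H, ⟪z, x + t • y⟫ ^ k = ∑ i ∈ Finset.range (k + 1),
      ((k.choose i : ℝ) * t ^ i) * (⟪z, y⟫ ^ i * ⟪z, x⟫ ^ (k - i)) := by
    intro z
    rw [inner_add_right, inner_smul_right, add_comm, add_pow]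
    refine Finset.sum_congr rfl fun i _ => ?_
    rw [mul_pow]; ring
  simp_rw [h1]
  rw [integral_finsetSum _ fun i _ => (integrable_of_ae_norm (SM H) SM_ae _ (by fun_prop))]
  refine Finset.sum_congr rfl fun i _ => ?_
  rw [integral_const_mul]
  ring

lemma norm_comb (x y : H) (t : ℝ) (j : ℕ) :
    ‖x + t • y‖ ^ (2 * j) = (‖x‖ ^ 2 + (2 * ⟪x, y⟫) * t + ‖y‖ ^ 2 * t ^ 2) ^ j := by
  rw [pow_mul, @norm_add_sq_real, inner_smul_right, norm_smul, mul_pow, Real.norm_eq_abs, sq_abs]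
  ring

lemma mom_poly [Nontrivial H] (j : ℕ) (e x y : H) (he : ‖e‖ = 1) (t : ℝ) :
    ∑ i ∈ Finset.range (2 * j + 1),
      (((2 * j).choose i : ℝ) * ∫ z, ⟪z, y⟫ ^ i * ⟪z, x⟫ ^ (2 * j - i) ∂(SM H)) * t ^ i =
      mom (2 * j) e * (‖x‖ ^ 2 + (2 * ⟪x, y⟫) * t + ‖y‖ ^ 2 * t ^ 2) ^ j := by
  rw [← mom_add, mom_eq _ e _ he, norm_comb]

/-- the numbers `∫ cos ^ k` for the sphere of dimension `N - 1` -/
noncomputable def cm (N : ℕ) : ℕ → ℝ
  | 0 => 1
  | 1 => 0
  | k + 2 => ((k : ℝ) + 1) / ((k : ℝ) + N) * cm N k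

lemma mom_rec [Nontrivial H] (j : ℕ) (e : H) (he : ‖e‖ = 1) :
    mom (2 * j + 2) e = ((2 * j : ℝ) + 1) / ((2 * j : ℝ) + finrank ℝ H) * mom (2 * j) e := by
  set b := stdOrthonormalBasis ℝ H with hb
  have hpos : 0 < finrank ℝ H := finrank_pos
  have : Nonempty (Fin (finrank ℝ H)) := ⟨⟨0, hpos⟩⟩
  obtain ⟨i₀⟩ := this
  have hb1 : ∀ i, ‖b i‖ = 1 := fun i => b.orthonormal.1 i
  have hbe : ∀ k, mom k (b i₀) = mom k e := fun k => mom_isom k _ _ (by rw [hb1, he])
  rw [← hbe, ← hbe]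
  -- off-diagonal terms
  have hoff : ∀ i, i ≠ i₀ → (2 * j + 1 : ℝ) * ∫ z, ⟪z, b i⟫ ^ 2 * ⟪z, b i₀⟫ ^ (2 * j) ∂(SM H) =
      mom (2 * j + 2) (b i₀) := by
    intro i hi
    have h1 := poly_coeff (2 * (j + 1)) (j + 1) (by omega)
      (fun l => (((2 * (j + 1)).choose l : ℝ) *
        ∫ z, ⟪z, b i⟫ ^ l * ⟪z, b i₀⟫ ^ (2 * (j + 1) - l) ∂(SM H)))
      (mom (2 * (j + 1)) (b i₀)) (fun t => by
        rw [mom_poly (j + 1) (b i₀) (b i₀) (b i) (hb1 i₀) t, hb1, hb1,
          b.orthonormal.2 (Ne.symm hi)]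
        ring)
    rw [show 2 * (j + 1) - 2 = 2 * j by omega] at h1
    have hch : (((2 * (j + 1)).choose 2 : ℕ) : ℝ) = (2 * j + 1) * (j + 1) := by
      rw [Nat.cast_choose_two]
      push_cast
      ring
    rw [hch, show 2 * (j + 1) = 2 * j + 2 by ring] at h1
    have hj : (0 : ℝ) < j + 1 := by positivity
    push_cast at h1
    have h2 : ((2 * (j : ℝ) + 1) * ∫ z, ⟪z, b i⟫ ^ 2 * ⟪z, b i₀⟫ ^ (2 * j) ∂(SM H)) * (j + 1) =
        mom (2 * j + 2) (b i₀) * (j + 1) := by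
      linarith
    exact mul_right_cancel₀ hj.ne' h2
  have hsum : ∑ i, ∫ z, ⟪z, b i⟫ ^ 2 * ⟪z, b i₀⟫ ^ (2 * j) ∂(SM H) = mom (2 * j) (b i₀) := by
    rw [← integral_finsetSum _ fun i _ => (integrable_of_ae_norm (SM H) SM_ae _ (by fun_prop))]
    unfold mom
    refine integral_congr_ae ?_
    filter_upwards [SM_ae (H := H)] with z hz
    rw [← Finset.sum_mul]
    have h3 : ∑ i, ⟪z, b i⟫ ^ 2 = 1 := by
      have h4 := b.sum_sq_norm_inner_left z
      simp only [Real.norm_eq_abs, sq_abs] at h4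
      rw [h4, hz, one_pow]
    rw [h3, one_mul]
  have hdiag : ∫ z, ⟪z, b i₀⟫ ^ 2 * ⟪z, b i₀⟫ ^ (2 * j) ∂(SM H) = mom (2 * j + 2) (b i₀) := by
    unfold mom
    refine integral_congr_ae (Eventually.of_forall fun z => ?_)
    ring
  have hj1 : (0 : ℝ) < 2 * j + 1 := by positivity
  have h5 : ∑ i, ∫ z, ⟪z, b i⟫ ^ 2 * ⟪z, b i₀⟫ ^ (2 * j) ∂(SM H) =
      mom (2 * j + 2) (b i₀) + ((finrank ℝ H : ℝ) - 1) * (mom (2 * j + 2) (b i₀) / (2 * j + 1)) := by
    rw [← Finset.add_sum_erase Finset.univ _ (Finset.mem_univ i₀), hdiag]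
    congr 1
    rw [Finset.sum_congr rfl (g := fun _ => mom (2 * j + 2) (b i₀) / (2 * j + 1))]
    · rw [Finset.sum_const, Finset.card_erase_of_mem (Finset.mem_univ _), Finset.card_univ,
        Fintype.card_fin, nsmul_eq_mul, Nat.cast_sub (by omega)]
      push_cast; ring
    · intro i hi
      rw [eq_div_iff hj1.ne', ← hoff i (Finset.ne_of_mem_erase hi)]
      ring
  rw [hsum] at h5
  rw [h5]
  have hN : (0 : ℝ) < finrank ℝ H := by exact_mod_cast hpos
  field_simp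
  ring

/-- the moments -/
theorem mom_cm [Nontrivial H] (k : ℕ) (x : H) : mom k x = cm (finrank ℝ H) k * ‖x‖ ^ k := by
  obtain ⟨e, he⟩ := exists_norm_eq H (zero_le_one' ℝ)
  rw [mom_eq k e x he]
  congr 1
  rcases Nat.even_or_odd' k with ⟨j, rfl | rfl⟩
  · induction j with
    | zero => simp [mom, cm]
    | succ j ih =>
      rw [show 2 * (j + 1) = 2 * j + 2 by ring, mom_rec j e he, ih]
      show _ = (((2 * j : ℕ) : ℝ) + 1) / (((2 * j : ℕ) : ℝ) + _) * cm _ (2 * j)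
      push_cast
      rfl
  · rw [mom_odd _ ⟨j, rfl⟩]
    induction j with
    | zero => simp [cm]
    | succ j ih =>
      show 0 = (((2 * j + 1 : ℕ) : ℝ) + 1) / (((2 * j + 1 : ℕ) : ℝ) + _) * cm _ (2 * j + 1)
      rw [← ih, mul_zero]

lemma cm_odd (N j : ℕ) : cm N (2 * j + 1) = 0 := by
  induction j with
  | zero => rfl
  | succ j ih =>
    show (((2 * j + 1 : ℕ) : ℝ) + 1) / (((2 * j + 1 : ℕ) : ℝ) + _) * cm _ (2 * j + 1) = 0
    rw [ih, mul_zero]

/-- complex moments -/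
theorem mom_complex [Nontrivial H] (k : ℕ) (x y : H) (s : ℂ)
    (hs : s ^ 2 = -((‖x‖ ^ 2 : ℝ) + (2 * ⟪x, y⟫ : ℝ) * Complex.I + (‖y‖ ^ 2 : ℝ) * Complex.I ^ 2)) :
    ∫ z, ((⟪z, x⟫ : ℂ) + Complex.I * (⟪z, y⟫ : ℂ)) ^ k ∂(SM H) =
      (cm (finrank ℝ H) k : ℂ) * (Complex.I * s) ^ k := by
  obtain ⟨e, he⟩ := exists_norm_eq H (zero_le_one' ℝ)
  have h1 : ∀ z : H, ((⟪z, x⟫ : ℂ) + Complex.I * (⟪z, y⟫ : ℂ)) ^ k =
      ∑ i ∈ Finset.range (k + 1), ((k.choose i : ℂ) * Complex.I ^ i) *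
        ((⟪z, y⟫ ^ i * ⟪z, x⟫ ^ (k - i) : ℝ) : ℂ) := by
    intro z
    rw [add_comm, add_pow]
    refine Finset.sum_congr rfl fun i _ => ?_
    rw [mul_pow]; push_cast; ring
  simp_rw [h1]
  rw [integral_finsetSum _ fun i _ => (integrable_of_ae_norm (SM H) SM_ae _ (by fun_prop))]
  have h2 : ∀ i, ∫ z, ((k.choose i : ℂ) * Complex.I ^ i) *
        ((⟪z, y⟫ ^ i * ⟪z, x⟫ ^ (k - i) : ℝ) : ℂ) ∂(SM H) =
      ((((k.choose i : ℝ) * ∫ z, ⟪z, y⟫ ^ i * ⟪z, x⟫ ^ (k - i) ∂(SM H)) : ℝ) : ℂ) *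
        Complex.I ^ i := by
    intro i
    rw [integral_const_mul, integral_complex_ofReal]
    push_cast; ring
  simp_rw [h2]
  rcases Nat.even_or_odd' k with ⟨j, rfl | rfl⟩
  · have h3 := poly_complex (2 * j) j (fun i => (((2 * j).choose i : ℝ) *
      ∫ z, ⟪z, y⟫ ^ i * ⟪z, x⟫ ^ (2 * j - i) ∂(SM H))) (mom (2 * j) e) (‖x‖ ^ 2) (2 * ⟪x, y⟫)
      (‖y‖ ^ 2) (fun t => mom_poly j e x y he t) Complex.I
    rw [h3, mom_cm, he, one_pow, mul_one]
    congr 1
    rw [pow_mul, mul_pow, hs, Complex.I_sq]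
    ring
  · rw [cm_odd]
    simp only [Complex.ofReal_zero, zero_mul]
    -- every odd moment vanishes
    refine Finset.sum_eq_zero fun i hi => ?_
    have h4 : ∫ z, ⟪z, y⟫ ^ i * ⟪z, x⟫ ^ (2 * j + 1 - i) ∂(SM H) = 0 := by
      have h5 := integral_SM_map (H := H) (fun z => ⟪z, y⟫ ^ i * ⟪z, x⟫ ^ (2 * j + 1 - i))
        (LinearIsometryEquiv.neg ℝ)
      have h6 : ∀ z : H, ⟪(LinearIsometryEquiv.neg ℝ : H ≃ₗᵢ[ℝ] H) z, y⟫ ^ i *
          ⟪(LinearIsometryEquiv.neg ℝ : H ≃ₗᵢ[ℝ] H) z, x⟫ ^ (2 * j + 1 - i) =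
          - (⟪z, y⟫ ^ i * ⟪z, x⟫ ^ (2 * j + 1 - i)) := by
        intro z
        have hi' := Finset.mem_range.1 hi
        simp only [LinearIsometryEquiv.coe_neg, inner_neg_left]
        rw [neg_pow, neg_pow ⟪z, x⟫]
        have h7 : (-1 : ℝ) ^ i * (-1) ^ (2 * j + 1 - i) = -1 := by
          rw [← pow_add, show i + (2 * j + 1 - i) = 2 * j + 1 by omega]
          exact Odd.neg_one_pow ⟨j, rfl⟩
        linear_combination (⟪z, y⟫ ^ i * ⟪z, x⟫ ^ (2 * j + 1 - i)) * h7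
      simp_rw [h6] at h5
      rw [integral_neg] at h5
      linarith
    rw [h4]
    simp

end gen

end Pool.Agent.H225.Sp
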