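import Pool.Agent.H225.Sp6
import Pool.Graph.R_seed8.W646.AG.Scale
import Pool.Graph.R_seed8.W646.AG.StepB
import Pool.Graph.R_seed8.W342.AG.Pair

/-!
The chain of stages.
-/

set_option autoImplicit false
set_option linter.unusedSectionVars false

open MeasureTheory Metric Set Filter Module
open scoped ENNReal NNReal Topology RealInnerProductSpace

namespace Pool.Agent.H225.Sp
open Pool.Agent.W778.AG

variable {n : ℕ}

theorem stepBB : S_BB := Pool.Agent.W646.AG.scale (Pool.Agent.W646.AG.stepB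
  Pool.Agent.W342.AG.pair mean)

/-- the kernel of the odd part -/
noncomputable def GG (n q : ℕ) (α t : ℝ) : ℝ :=
  ∑ k ∈ (Finset.range (2 * q)).filter (fun k => Odd k),
    dk n k * Pg n k (Real.cos α) * Pg n k t

lemma GG_cont (q : ℕ) (α : ℝ) : Continuous (GG n q α) := by
  unfold GG
  have : ∀ k, Continuous (Pg n k) := continuous_Pg n
  fun_prop

lemma GG_odd (q : ℕ) (α t : ℝ) : GG n q α (-t) = -GG n q α t := by
  unfold GG
  rw [← Finset.sum_neg_distrib]
  refine Finset.sum_congr rfl fun k hk => ?_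
  rw [par n k t, (Finset.mem_filter.1 hk).2.neg_one_pow]
  ring

/-- potentials -/
noncomputable def psi1 (n q : ℕ) (α : ℝ) (μ : Measure (En n)) (u : En n) : ℝ :=
  ∫ v, GG n q α ⟪u, v⟫ ∂μ

lemma psi1_odd (q : ℕ) (α : ℝ) (μ : Measure (En n)) (u : En n) :
    psi1 n q α μ (-u) = -psi1 n q α μ u := by
  unfold psi1
  rw [← integral_neg]
  refine integral_congr_ae (Eventually.of_forall fun v => ?_)
  simp only [inner_neg_left]
  exact GG_odd q α _

lemma psi1_int (q : ℕ) (α : ℝ) {μ : Measure (En n)} (h : Sph μ) (u : En n) :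
    Integrable (fun v => GG n q α ⟪u, v⟫) μ := by
  have := h.1
  have hG := GG_cont (n := n) q α
  exact integrable_of_ae_norm μ (Sph_ae h) _ (by fun_prop)

lemma psi1_cont (q : ℕ) (α : ℝ) {μ : Measure (En n)} (h : Sph μ) :
    Continuous (psi1 n q α μ) := by
  have := h.1
  have hG := GG_cont (n := n) q α
  rw [continuous_iff_continuousAt]
  intro u₀
  obtain ⟨C, hC⟩ := (isCompact_Icc (a := -(‖u₀‖ + 1)) (b := ‖u₀‖ + 1)).exists_bound_of_continuousOn
    hG.continuousOn
  unfold psi1
  refine continuousAt_of_dominated (bound := fun _ => C) ?_ ?_ (integrable_const _) ?_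
  · exact Eventually.of_forall fun u => (psi1_int q α h u).aestronglyMeasurable
  · filter_upwards [ball_mem_nhds u₀ one_pos] with u hu
    filter_upwards [Sph_ae h] with v hv
    apply hC
    have h2 := abs_real_inner_le_norm u v
    rw [hv, mul_one] at h2
    have h3 : ‖u‖ ≤ ‖u₀‖ + 1 := by
      have h4 : ‖u - u₀‖ < 1 := by rwa [mem_ball, dist_eq_norm] at hu
      have h5 := norm_sub_norm_le u u₀
      linarith
    exact abs_le.1 (h2.trans h3)
  · refine Eventually.of_forall fun v => ?_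
    exact (by fun_prop : Continuous fun x : En n => GG n q α ⟪x, v⟫).continuousAt

lemma Of_eq (hn : 3 ≤ n) (q : ℕ) (α : ℝ) {μ μ' : Measure (En n)} (h : Sph μ) (h' : Sph μ') :
    Of n q α μ μ' = ∫ u, psi1 n q α μ' u ∂μ := by
  have := h.1
  have := h'.1
  have hP := continuous_Pg n
  have h1 : ∀ u, psi1 n q α μ' u = ∑ k ∈ (Finset.range (2 * q)).filter (fun k => Odd k),
      dk n k * Pg n k (Real.cos α) * ∫ v, Pg n k ⟪u, v⟫ ∂μ' := by
    intro u
    unfold psi1 GG
    rw [integral_finsetSum]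
    · refine Finset.sum_congr rfl fun k _ => ?_
      rw [integral_const_mul]
    · intro k _
      refine Integrable.const_mul ?_ _
      have := hP k
      exact integrable_of_ae_norm μ' (Sph_ae h') _ (by fun_prop)
  simp_rw [h1]
  rw [integral_finsetSum]
  · unfold Of
    refine Finset.sum_congr rfl fun k _ => ?_
    rw [integral_const_mul]
    rfl
  · intro k _
    refine Integrable.const_mul ?_ _
    refine Integrable.of_bound (C := 1) ?_ ?_
    · have h3 : StronglyMeasurable (Function.uncurry fun (u v : En n) => Pg n k ⟪u, v⟫) := by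
        have := hP k
        refine Continuous.stronglyMeasurable ?_
        unfold Function.uncurry
        fun_prop
      exact (h3.integral_prod_right (ν := μ')).aestronglyMeasurable
    · filter_upwards [Sph_ae h] with u hu
      have h2 : ∀ᵐ v ∂μ', ‖Pg n k ⟪u, v⟫‖ ≤ 1 := by
        filter_upwards [Sph_ae h'] with v hv
        exact Pg_abs hn k (abs_inner_le_one hu hv)
      have := norm_integral_le_of_norm_le_const h2
      rw [probReal_univ, mul_one] at this
      exact this

lemma Of_symm (hn : 3 ≤ n) (q : ℕ) (α : ℝ) {μ μ' : Measure (En n)} (h : Sph μ) (h' : Sph μ') :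
    Of n q α μ μ' = Of n q α μ' μ := by
  unfold Of
  refine Finset.sum_congr rfl fun k _ => ?_
  rw [fm_symm hn k h h']

/-- the image under the direction map -/
noncomputable def dm (y : En n) (ω : Measure (En n)) : Measure (En n) :=
  ω.map (fun x => dir (x - y))

lemma meas_dirsub (y : En n) : Measurable fun x : En n => dir (x - y) :=
  Pool.Agent.W646.AG.measurable_dir.comp (measurable_id.sub_const y)

lemma Sph_dm {y : En n} {ω : Measure (En n)} {a : ℝ} (h : IsProbabilityMeasure ω) (ha : 0 < a)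
    (hω : ω (ball y a) = 0) : Sph (dm y ω) := by
  refine ⟨Measure.isProbabilityMeasure_map (meas_dirsub y).aemeasurable, ?_⟩
  unfold dm
  rw [Measure.map_apply (meas_dirsub y) isClosed_sphere.measurableSet.compl]
  refine measure_mono_null ?_ hω
  intro x hx
  by_contra hxb
  apply hx
  rw [mem_sphere_zero_iff_norm]
  apply Pool.Agent.W646.AG.norm_dir
  intro h0
  apply hxb
  rw [sub_eq_zero.1 h0]
  exact mem_ball_self ha

lemma psi1_close (q : ℕ) (α η : ℝ) (hη : 0 < η) : ∃ ρ : ℝ, 0 < ρ ∧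
    ∀ μ : Measure (En n), Sph μ → ∀ u u' : En n, ‖u‖ = 1 → ‖u'‖ = 1 → ‖u - u'‖ < ρ →
      |psi1 n q α μ u - psi1 n q α μ u'| ≤ η := by
  have huc := (isCompact_Icc (a := (-1 : ℝ)) (b := 1)).uniformContinuousOn_of_continuous
    (GG_cont (n := n) q α).continuousOn
  rw [Metric.uniformContinuousOn_iff] at huc
  obtain ⟨ρ, hρ, H⟩ := huc η hη
  refine ⟨ρ, hρ, fun μ h u u' hu hu' hd => ?_⟩
  have := h.1
  unfold psi1
  rw [← integral_sub (psi1_int q α h u) (psi1_int q α h u')]
  have h2 : ∀ᵐ v ∂μ, ‖GG n q α ⟪u, v⟫ - GG n q α ⟪u', v⟫‖ ≤ η := by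
    filter_upwards [Sph_ae h] with v hv
    rw [← dist_eq_norm]
    refine (H _ (abs_le.1 (abs_inner_le_one hu hv)) _ (abs_le.1 (abs_inner_le_one hu' hv)) ?_).le
    rw [Real.dist_eq, ← inner_sub_left]
    refine (abs_real_inner_le_norm _ _).trans_lt ?_
    rwa [hv, mul_one]
  have := norm_integral_le_of_norm_le_const h2
  rw [probReal_univ, mul_one] at this
  exact this

lemma Of_close (hn : 3 ≤ n) (q : ℕ) (α η : ℝ) (hη : 0 < η) {y₀ : En n} {ω : Measure (En n)}
    {a : ℝ} (h : IsProbabilityMeasure ω) (ha : 0 < a) (hω : ω (ball y₀ a) = 0) :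
    ∀ᶠ ε in 𝓝[>] (0 : ℝ), ε ≤ a / 4 ∧ ∀ y, dist y y₀ < ε → ∀ μ' : Measure (En n), Sph μ' →
      |Of n q α (dm y ω) μ' - Of n q α (dm y₀ ω) μ'| ≤ η := by
  obtain ⟨ρ, hρ, H⟩ := psi1_close (n := n) q α η hη
  have hm : 0 < min (a / 4) (ρ * a / 2) := by positivity
  filter_upwards [Ioo_mem_nhdsGT hm] with ε hε
  have h1 : ε ≤ a / 4 := hε.2.le.trans (min_le_left _ _)
  have h2 : ε < ρ * a / 2 := hε.2.trans_le (min_le_right _ _)
  refine ⟨h1, fun y hy μ' h' => ?_⟩
  have hyb : ω (ball y (a / 2)) = 0 := by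
    refine measure_mono_null (ball_subset_ball' ?_) hω
    linarith
  have hS := Sph_dm h ha hω
  have hS' := Sph_dm h (by linarith : 0 < a / 2) hyb
  have := hS.1
  have := hS'.1
  have hc := psi1_cont q α h'
  rw [Of_eq hn q α hS' h', Of_eq hn q α hS h']
  unfold dm
  rw [integral_map (meas_dirsub y).aemeasurable hc.aestronglyMeasurable,
    integral_map (meas_dirsub y₀).aemeasurable hc.aestronglyMeasurable]
  have hi : ∀ z : En n, Sph (dm z ω) → Integrable (fun x => psi1 n q α μ' (dir (x - z))) ω := by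
    intro z hz
    have := hz.1
    have h3 := integrable_of_ae_norm (dm z ω) (Sph_ae hz) _ hc
    exact (integrable_map_measure hc.aestronglyMeasurable (meas_dirsub z).aemeasurable).1 h3
  rw [← integral_sub (hi y hS') (hi y₀ hS)]
  have h4 : ∀ᵐ x ∂ω, ‖psi1 n q α μ' (dir (x - y)) - psi1 n q α μ' (dir (x - y₀))‖ ≤ η := by
    have h5 : ∀ᵐ x ∂ω, x ∉ ball y₀ a := by
      rw [ae_iff]
      simp only [not_not]
      exact hω
    filter_upwards [h5] with x hx
    rw [mem_ball, not_lt, dist_eq_norm] at hx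
    have hx0 : x - y₀ ≠ 0 := by
      intro h0; rw [h0, norm_zero] at hx; linarith
    have hxy : a / 2 ≤ ‖x - y‖ := by
      have h6 : ‖x - y₀‖ ≤ ‖x - y‖ + ‖y - y₀‖ := norm_sub_le_norm_sub_add_norm_sub x y y₀
      rw [dist_eq_norm] at hy
      linarith
    have hx1 : x - y ≠ 0 := by
      intro h0; rw [h0, norm_zero] at hxy; linarith
    refine H μ' h' _ _ (Pool.Agent.W646.AG.norm_dir hx1) (Pool.Agent.W646.AG.norm_dir hx0) ?_
    rw [norm_sub_rev]
    refine (Pool.Agent.W646.AG.dir_sub_dir_le hx0 hx1).trans_lt ?_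
    rw [div_lt_iff₀ (norm_pos_iff.2 hx0)]
    have h7 : x - y₀ - (x - y) = y - y₀ := by abel
    rw [h7]
    rw [dist_eq_norm] at hy
    nlinarith
  have := norm_integral_le_of_norm_le_const h4
  rw [probReal_univ, mul_one] at this
  exact this

lemma pairs_succ {J : ℕ} (f : Fin (J + 1) → Fin (J + 1) → ℝ) :
    ∑ i, ∑ j ∈ Finset.univ.filter (fun j => i < j), f i j =
      ∑ i : Fin J, ∑ j ∈ Finset.univ.filter (fun j => i < j), f i.castSucc j.castSucc +
        ∑ i : Fin J, f i.castSucc (Fin.last J) := by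
  simp only [Finset.sum_filter, Fin.sum_univ_castSucc, Fin.castSucc_lt_castSucc_iff,
    Fin.castSucc_lt_last, if_true, lt_irrefl, if_false, add_zero]
  rw [Finset.sum_add_distrib]
  have : ∀ i : Fin J, ¬ (Fin.last J < i.castSucc) := fun i => not_lt.2 (Fin.le_last _)
  simp [this]

/-- the chain of stages -/
theorem chain : S_CHAIN := by
  intro n q α κ R β τ C δ ν K hn hκ0 hκ1 hR0 hR1 hβ0 hβ1 hτ hC hδ hRκ hν hK hνK hgr J
  induction J with
  | zero =>
    have hne : ∃ y : En n, ∀ ε : ℝ, 0 < ε → 0 < ν (ball y ε) := by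
      by_contra hno
      push Not at hno
      have h1 : ν univ = 0 := by
        refine measure_null_of_locally_null univ fun y _ => ?_
        obtain ⟨ε, hε, h2⟩ := hno y
        exact ⟨ball y ε, mem_nhdsWithin_of_mem_nhds (ball_mem_nhds y hε), le_antisymm h2 bot_le⟩
      rw [measure_univ] at h1
      exact one_ne_zero h1
    obtain ⟨y, hy⟩ := hne
    refine ⟨y, Fin.elim0, Fin.elim0, Fin.elim0, ?_, hy, fun i => i.elim0, by simp⟩
    by_contra hyK
    obtain ⟨ε, hε, h2⟩ := Metric.isOpen_iff.1 hK.isClosed.isOpen_compl y hyK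
    exact (hy ε hε).ne' (measure_mono_null h2 hνK)
  | succ J ih =>
    obtain ⟨y₀, ω, a, D, hy₀K, hpos, hW, hsum⟩ := ih
    have hprob : ∀ i, IsProbabilityMeasure (ω i) := fun i => (hW i).1
    have ha : ∀ i, 0 < a i := fun i => (hW i).2.2.1
    have hωb : ∀ i, ω i (ball y₀ (a i)) = 0 := fun i => (hW i).2.2.2.1
    have hS0 : ∀ i, Sph (dm y₀ (ω i)) := fun i => Sph_dm (hprob i) (ha i) (hωb i)
    set η' : ℝ := δ / ((J : ℝ) ^ 2 + J + 1) with hη'
    have hη'0 : 0 < η' := by positivity
    have hev : ∀ᶠ ε in 𝓝[>] (0 : ℝ), ∀ i, ε ≤ a i / 4 ∧ ∀ y, dist y y₀ < ε →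
        ∀ μ' : Measure (En n), Sph μ' →
        |Of n q α (dm y (ω i)) μ' - Of n q α (dm y₀ (ω i)) μ'| ≤ η' :=
      eventually_all.2 fun i => Of_close hn q α η' hη'0 (hprob i) (ha i) (hωb i)
    obtain ⟨ε, hε, hε0⟩ := (hev.and self_mem_nhdsWithin).exists
    have hε0' : 0 < ε := hε0
    set ψ : En n → ℝ := fun u => ∑ i, psi1 n q α (dm y₀ (ω i)) u with hψ
    obtain ⟨y, ω', a', D', hdist, hypos, hW', hineq⟩ := stepBB n κ R β τ C ε ν ψ y₀ hn hκ0 hκ1 hR0
      hR1 hβ0 hβ1 hτ hC hε0' hRκ inferInstance hgr hpos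
      (continuous_finsetSum _ fun i _ => psi1_cont q α (hS0 i))
      (fun u => by
        rw [hψ]
        simp only [psi1_odd, Finset.sum_neg_distrib])
    have hyK : y ∈ K := by
      by_contra hyK
      obtain ⟨ε, hε, h2⟩ := Metric.isOpen_iff.1 hK.isClosed.isOpen_compl y hyK
      exact (hypos ε hε).ne' (measure_mono_null h2 hνK)
    have hWold : ∀ i, Wit n κ R β ν y (ω i) (a i / 2) (D i) := by
      intro i
      obtain ⟨w1, w2, w3, w4, w5, w6⟩ := hW i
      have hεa := (hε i).1
      refine ⟨w1, w2, by linarith, ?_, w5, ?_⟩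
      · refine measure_mono_null (ball_subset_ball' ?_) w4
        linarith
      · intro y' hy' r hr v hv
        refine w6 y' ?_ r hr v hv
        have := dist_triangle y' y y₀
        linarith
    refine ⟨y, Fin.snoc (α := fun _ => Measure (En n)) ω ω',
      Fin.snoc (α := fun _ => ℝ) (fun i => a i / 2) a', Fin.snoc (α := fun _ => ℝ) D D',
      hyK, hypos, ?_, ?_⟩
    · intro i
      refine Fin.lastCases ?_ (fun i => ?_) i
      · simp only [Fin.snoc_last]
        exact hW'
      · simp only [Fin.snoc_castSucc]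
        exact hWold i
    · rw [pairs_succ, Fin.sum_univ_castSucc]
      simp only [Fin.snoc_castSucc, Fin.snoc_last]
      change τ * (∑ i, D i + D') - (∑ i, ∑ j ∈ Finset.univ.filter (fun j => i < j),
        Of n q α (dm y (ω i)) (dm y (ω j)) + ∑ i, Of n q α (dm y (ω i)) (dm y ω')) ≤ _
      change τ * ∑ i, D i - ∑ i, ∑ j ∈ Finset.univ.filter (fun j => i < j),
        Of n q α (dm y₀ (ω i)) (dm y₀ (ω j)) ≤ _ at hsum
      have hS1 : ∀ i, Sph (dm y (ω i)) := fun i =>
        Sph_dm (hprob i) (hWold i).2.2.1 (hWold i).2.2.2.1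
      have hS' : Sph (dm y ω') := Sph_dm hW'.1 hW'.2.2.1 hW'.2.2.2.1
      -- old pairs
      have e1 : ∀ i j, Of n q α (dm y₀ (ω i)) (dm y₀ (ω j)) - 2 * η' ≤
          Of n q α (dm y (ω i)) (dm y (ω j)) := by
        intro i j
        have f1 := (abs_le.1 ((hε i).2 y hdist _ (hS1 j))).1
        have f2 := (abs_le.1 ((hε j).2 y hdist _ (hS0 i))).1
        rw [Of_symm hn q α (hS1 j) (hS0 i), Of_symm hn q α (hS0 j) (hS0 i)] at f2
        linarith
      have e2 : ∑ i, ∑ j ∈ Finset.univ.filter (fun j => i < j),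
          Of n q α (dm y₀ (ω i)) (dm y₀ (ω j)) - (J : ℝ) * (J - 1) / 2 * (2 * η') ≤
          ∑ i, ∑ j ∈ Finset.univ.filter (fun j => i < j),
          Of n q α (dm y (ω i)) (dm y (ω j)) := by
        rw [← card_pairs J, Finset.sum_mul, ← Finset.sum_sub_distrib]
        refine Finset.sum_le_sum fun i _ => ?_
        rw [Finset.sum_mul, ← Finset.sum_sub_distrib]
        refine Finset.sum_le_sum fun j _ => ?_
        rw [one_mul]
        exact e1 i j
      -- new pairs
      have e3 : ∫ x, ψ (dir (x - y)) ∂ω' = ∑ i, Of n q α (dm y₀ (ω i)) (dm y ω') := by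
        have := hS'.1
        have f3 : ∫ x, ψ (dir (x - y)) ∂ω' = ∫ v, ψ v ∂(dm y ω') := by
          unfold dm
          rw [integral_map (meas_dirsub y).aemeasurable]
          exact (continuous_finsetSum _ fun i _ =>
            psi1_cont q α (hS0 i)).aestronglyMeasurable
        rw [f3, hψ, integral_finsetSum]
        · refine Finset.sum_congr rfl fun i _ => ?_
          rw [← Of_eq hn q α hS' (hS0 i), Of_symm hn q α hS' (hS0 i)]
        · intro i _
          exact integrable_of_ae_norm _ (Sph_ae hS') _ (psi1_cont q α (hS0 i))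
      have e4 : ∑ i, Of n q α (dm y₀ (ω i)) (dm y ω') - J * η' ≤
          ∑ i, Of n q α (dm y (ω i)) (dm y ω') := by
        have f4 : (J : ℝ) * η' = ∑ _i : Fin J, η' := by
          rw [Finset.sum_const, Finset.card_univ, Fintype.card_fin, nsmul_eq_mul]
        rw [f4, ← Finset.sum_sub_distrib]
        refine Finset.sum_le_sum fun i _ => ?_
        have f1 := (abs_le.1 ((hε i).2 y hdist _ hS')).1
        linarith
      rw [e3] at hineq
      have e5 : (J : ℝ) * (J - 1) / 2 * (2 * η') + J * η' ≤ δ := by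
        have f5 : ((J : ℝ) ^ 2 + J + 1) * η' = δ := by
          rw [hη']; field_simp
        have f6 : (0 : ℝ) ≤ J := Nat.cast_nonneg J
        nlinarith
      push_cast
      nlinarith

end Pool.Agent.H225.Sp
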