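import Pool.Agent.H225.Sp8
import Pool.Agent.H225.Sp9
import Pool.Agent.H225.Frost

/-!
Angles in compact sets of large dimension.
-/

set_option autoImplicit false
set_option linter.unusedSectionVars false

open MeasureTheory Metric Set Filter Module
open scoped ENNReal NNReal Topology RealInnerProductSpace

namespace Pool.Agent.H225.Sp
open Pool.Agent.W778.AG

variable {n : ℕ}

lemma angle_of_dir {x y z : En n} {α : ℝ} (hα0 : 0 < α) (hα1 : α < Real.pi) (hx : x ≠ y)
    (hz : z ≠ y) (h : ⟪dir (x - y), dir (z - y)⟫ = Real.cos α) :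
    x ≠ y ∧ y ≠ z ∧ x ≠ z ∧ EuclideanGeometry.angle x y z = α := by
  have hx0 : x - y ≠ 0 := sub_ne_zero.2 hx
  have hz0 : z - y ≠ 0 := sub_ne_zero.2 hz
  refine ⟨hx, hz.symm, ?_, ?_⟩
  · intro hxz
    rw [hxz, real_inner_self_eq_norm_sq, Pool.Agent.W646.AG.norm_dir hz0] at h
    have h3 : Real.cos α < Real.cos 0 :=
      Real.cos_lt_cos_of_nonneg_of_le_pi le_rfl hα1.le hα0
    rw [Real.cos_zero, ← h] at h3
    norm_num at h3
  · unfold EuclideanGeometry.angle InnerProductGeometry.angle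
    rw [vsub_eq_sub, vsub_eq_sub]
    have h2 : ⟪x - y, z - y⟫ / (‖x - y‖ * ‖z - y‖) = Real.cos α := by
      rw [← h]
      unfold dir
      rw [inner_smul_left, inner_smul_right]
      simp only [conj_trivial]
      field_simp
    rw [h2]
    exact Real.arccos_cos hα0.le hα1.le

/-- directions of far points -/
def FS (K : Set (En n)) (y : En n) (a : ℝ) : Set (En n) :=
  (fun x => dir (x - y)) '' (K \ ball y a)

lemma FS_compact {K : Set (En n)} (hK : IsCompact K) (y : En n) {a : ℝ} (ha : 0 < a) :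
    IsCompact (FS K y a) := by
  unfold FS
  refine (hK.diff isOpen_ball).image_of_continuousOn ?_
  unfold dir
  have h1 : ContinuousOn (fun x : En n => ‖x - y‖) (K \ ball y a) :=
    (continuous_id.sub continuous_const).norm.continuousOn
  have h2 : ContinuousOn (fun x : En n => x - y) (K \ ball y a) :=
    (continuous_id.sub continuous_const).continuousOn
  refine ContinuousOn.smul (ContinuousOn.inv₀ h1 ?_) h2
  intro x hx h0
  apply hx.2
  rw [mem_ball, dist_eq_norm, h0]
  exact ha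

lemma mem_FS {K : Set (En n)} {y : En n} {a : ℝ} (ha : 0 < a) {u : En n} (hu : u ∈ FS K y a) :
    ∃ x ∈ K, x ≠ y ∧ u = dir (x - y) := by
  obtain ⟨x, hx, rfl⟩ := hu
  refine ⟨x, hx.1, ?_, rfl⟩
  intro h0
  apply hx.2
  rw [h0]
  exact mem_ball_self ha

/-- large dimension -/
theorem large : S_LARGE := by
  intro α hα0 hα1 hcos
  obtain ⟨κ, R, β, hκ0, hκ1, hR0, hR1, hβ0, hβ1, n₀, H⟩ :=
    Pool.Agent.W646.AG.const α hα0 hα1 hcos
  refine ⟨κ, hκ0, hκ1, n₀, fun n hn K hK hdim => ?_⟩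
  obtain ⟨hn3, hRκ, hint1, q, hq, hint2, hLE⟩ := H n hn
  have hn0 : (0 : ℝ) < n := by exact_mod_cast (by omega : 0 < n)
  have hs : 0 < (1 - κ) * n := mul_pos (by linarith) hn0
  obtain ⟨ν, hν, hνK, C, hC, hgr⟩ := Frost.frostman K hK ((1 - κ) * n) hs hdim
  set η : ℝ := max (LE n (fun φ => wf α φ ^ q * Gam n κ R β (Real.sqrt (wf α φ)))) 0 with hη
  set η' : ℝ := max (LE n (fun φ => Gam n κ R β (wf α φ))) 0 + 1 with hη'
  have hη0 : 0 ≤ η := le_max_right _ _
  have hη'0 : 0 < η' := by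
    have : 0 ≤ max (LE n (fun φ => Gam n κ R β (wf α φ))) 0 := le_max_right _ _
    linarith
  set B : ℝ := 4 * (1 + R) ^ n with hB
  have hB0 : 0 < B := by positivity
  have hηB : η * B ≤ 1 / 2 := by
    rw [hη, max_mul_of_nonneg _ _ hB0.le]
    apply max_le hLE
    norm_num
  obtain ⟨J, hJ⟩ := exists_nat_gt (4 * (η' * B / 2 + 2))
  have hJ0 : (0 : ℝ) < J := lt_trans (by positivity) hJ
  set τ : ℝ := (η' + J * η) / 2 with hτ
  have hτ0 : 0 < τ := by positivity
  obtain ⟨y, ω, a, D, hyK, _, hW, hsum⟩ := chain n q α κ R β τ C 1 ν K hn3 hκ0 hκ1 hR0 hR1 hβ0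
    hβ1 hτ0 hC one_pos hRκ hν hK hνK hgr J
  have ha : ∀ i, 0 < a i := fun i => (hW i).2.2.1
  have hprob : ∀ i, IsProbabilityMeasure (ω i) := fun i => (hW i).1
  have hωb : ∀ i, ω i (ball y (a i)) = 0 := fun i => (hW i).2.2.2.1
  have hS : ∀ i, Sph (dm y (ω i)) := fun i => Sph_dm (hprob i) (ha i) (hωb i)
  have hmem : ∀ i u, u ∈ FS K y (a i) → ∃ x ∈ K, x ≠ y ∧ u = dir (x - y) := fun i u hu =>
    mem_FS (ha i) hu
  obtain ⟨i, j, _, u, hu, v, hv, huv⟩ := sphere_lemma n q J α (Gam n κ R β) η' η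
    (fun i => dm y (ω i)) D (fun i => FS K y (a i)) hn3 hα0 hα1 hcos
    (by
      intro k hk hev
      have hk' : (k : ℝ) ≤ ((n : ℝ) - 2) * Real.cos α ^ 2 / 4 := by
        have : (k : ℝ) ≤ 2 * q := by exact_mod_cast hk.le
        linarith
      rcases lt_or_gt_of_ne hcos with hneg | hpos
      · have h2 := pos n k hn3 (-Real.cos α) (by linarith) (by
          have := Real.neg_one_le_cos α; linarith) (by rw [neg_sq]; exact hk')
        rw [par n k, hev.neg_one_pow, one_mul] at h2
        exact h2.le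
      · exact (pos n k hn3 (Real.cos α) hpos (Real.cos_le_one α) hk').le)
    (fun r hr => Pool.Agent.W646.AG.gam_nonneg hR0 hβ0 hr.2.le)
    hint1 hint2
    (by
      have : LE n (fun φ => Gam n κ R β (wf α φ)) ≤
        max (LE n (fun φ => Gam n κ R β (wf α φ))) 0 := le_max_left _ _
      linarith)
    (le_max_left _ _) hS (fun i => (hW i).2.2.2.2.1)
    (by
      intro i r hr v hv
      have h2 := (hW i).2.2.2.2.2 y (by rw [dist_self]; linarith [ha i]) r hr v hv
      unfold dm
      rw [integral_map (meas_dirsub y).aemeasurable]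
      · exact h2
      · exact ((Pool.Agent.W646.AG.measurable_pk n r).comp
          (Measurable.inner measurable_const measurable_id)).aestronglyMeasurable)
    (fun i => FS_compact hK y (ha i))
    (by
      intro i u hu
      obtain ⟨x, _, hxy, rfl⟩ := hmem i u hu
      rw [mem_sphere_zero_iff_norm]
      exact Pool.Agent.W646.AG.norm_dir (sub_ne_zero.2 hxy))
    (by
      intro i
      unfold dm
      rw [Measure.map_apply (meas_dirsub y) (FS_compact hK y (ha i)).measurableSet.compl]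
      have h2 : ω i Kᶜ = 0 := (hW i).2.1 hνK
      refine measure_mono_null ?_ (measure_union_null h2 (hωb i))
      intro x hx
      by_contra hno
      rw [mem_union, not_or, mem_compl_iff, not_not] at hno
      exact hx ⟨x, ⟨hno.1, hno.2⟩, rfl⟩)
    (by
      refine lt_of_le_of_lt hsum ?_
      have h3 : τ * B + 1 < ((J : ℝ) - 1) / 2 := by
        have h4 : τ * B = η' * B / 2 + J * (η * B) / 2 := by rw [hτ]; ring
        have h5 : J * (η * B) ≤ J * (1 / 2) := mul_le_mul_of_nonneg_left hηB hJ0.le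
        rw [h4]
        linarith
      have h6 : (J : ℝ) * (τ * B + 1) < J * (((J : ℝ) - 1) / 2) :=
        mul_lt_mul_of_pos_left h3 hJ0
      calc (J : ℝ) * (τ * (4 * (1 + R) ^ n) + 1) < J * (((J : ℝ) - 1) / 2) := h6
        _ = _ := by ring)
  obtain ⟨x, hxK, hxy, rfl⟩ := hmem i u hu
  obtain ⟨z, hzK, hzy, rfl⟩ := hmem j v hv
  exact ⟨x, hxK, y, hyK, z, hzK, angle_of_dir hα0 hα1 hxy hzy huv⟩

end Pool.Agent.H225.Sp
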