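import Pool.Agent.H225.Sp5
import Pool.Graph.R_seed8.W342.AG.Slice

/-!
Random isometries and slicing.
-/

set_option autoImplicit false
set_option linter.unusedSectionVars false
set_option linter.unusedVariables false

open MeasureTheory Metric Set Filter Module
open scoped ENNReal NNReal Topology RealInnerProductSpace

namespace Pool.Agent.H225.Sp
open Pool.Agent.W778.AG

variable {n : ℕ}

instance instCS (n : ℕ) : ContinuousStar (En n →L[ℝ] En n) :=
  ⟨(ContinuousLinearMap.adjoint (𝕜 := ℝ) (E := En n) (F := En n)).continuous⟩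

/-- the orthogonal group -/
noncomputable abbrev GO (n : ℕ) := unitary (En n →L[ℝ] En n)

instance instSC (n : ℕ) : SecondCountableTopology (GO n) := by
  have : ProperSpace (En n →L[ℝ] En n) := FiniteDimensional.proper ℝ _
  infer_instance

instance instCO (n : ℕ) : CompactSpace (GO n) := by
  have : ProperSpace (En n →L[ℝ] En n) := FiniteDimensional.proper ℝ _
  apply isCompact_iff_compactSpace.1
  apply Metric.isCompact_of_isClosed_isBounded
  · exact isClosed_unitary
  · rw [isBounded_iff_forall_norm_le]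
    refine ⟨1, fun U hU => ?_⟩
    refine ContinuousLinearMap.opNorm_le_bound _ zero_le_one fun x => ?_
    rw [one_mul]
    exact (ContinuousLinearMap.norm_map_of_mem_unitary hU x).le

/-- Haar measure -/
noncomputable def hm (n : ℕ) : Measure (GO n) := Measure.haar

instance (n : ℕ) : (hm n).IsMulLeftInvariant := by unfold hm; infer_instance
instance (n : ℕ) : IsFiniteMeasure (hm n) := by unfold hm; infer_instance
instance (n : ℕ) : NeZero (hm n) := by
  unfold hm
  have h : 0 < (Measure.haar : Measure (GO n)) univ := isOpen_univ.measure_pos _ ⟨1, mem_univ _⟩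
  refine ⟨fun h0 => ?_⟩
  rw [h0] at h
  exact lt_irrefl _ h

/-- the inverse of `o` -/
noncomputable def iv (o : GO n) : En n →L[ℝ] En n := ((o⁻¹ : GO n) : En n →L[ℝ] En n)

lemma iv_cont : Continuous (iv : GO n → En n →L[ℝ] En n) := by
  unfold iv
  exact continuous_subtype_val.comp continuous_inv

lemma iv_cont2 : Continuous fun z : GO n × En n => iv z.1 z.2 := by
  have := iv_cont (n := n)
  fun_prop

lemma iv_isom (o : GO n) : ∃ L : En n ≃ₗᵢ[ℝ] En n, ∀ w, L w = iv o w :=
  ⟨Unitary.linearIsometryEquiv o⁻¹, fun w => rfl⟩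

lemma iv_norm (o : GO n) (w : En n) : ‖iv o w‖ = ‖w‖ := by
  obtain ⟨L, hL⟩ := iv_isom o
  rw [← hL, L.norm_map]

lemma iv_inner (o : GO n) (w w' : En n) : ⟪iv o w, iv o w'⟫ = ⟪w, w'⟫ := by
  obtain ⟨L, hL⟩ := iv_isom o
  rw [← hL, ← hL, L.inner_map_map]

/-- the measure of the event -/
noncomputable def fev {m : ℕ} (p : En n →L[ℝ] En m) (δ : ℝ) (w : En n) : ℝ≥0∞ :=
  hm n {o | ‖p (iv o w)‖ ≤ δ}

lemma fev_isom {m : ℕ} (p : En n →L[ℝ] En m) (δ : ℝ) (w w' : En n) (h : ‖w‖ = ‖w'‖) :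
    fev p δ w = fev p δ w' := by
  obtain ⟨L, hL⟩ := exists_isom w w' h
  set g : GO n := Unitary.linearIsometryEquiv.symm L with hg
  have hgw : ∀ z : En n, (g : En n →L[ℝ] En n) z = L z := fun z => rfl
  unfold fev
  rw [← measure_preimage_mul (hm n) g⁻¹ {o | ‖p (iv o w)‖ ≤ δ}]
  congr 1
  ext o
  simp only [mem_preimage, mem_ofPred_eq]
  have h1 : iv (g⁻¹ * o) w = iv o w' := by
    unfold iv
    rw [mul_inv_rev, inv_inv, ← hL, ← hgw]
    rfl
  rw [h1]

lemma fev_le {m : ℕ} (p : En n →L[ℝ] En m) {δ : ℝ} (hδ : 0 ≤ δ) (u z : En n) (hu : ‖u‖ = 1)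
    (hz : ‖z‖ ≤ 1) : fev p δ u ≤ fev p δ z := by
  rw [fev_isom p δ z (‖z‖ • u) (by rw [norm_smul, norm_norm, hu, mul_one])]
  unfold fev
  apply measure_mono
  intro o ho
  rw [mem_ofPred_eq] at ho ⊢
  rw [map_smul, map_smul, norm_smul, norm_norm]
  calc ‖z‖ * ‖p (iv o u)‖ ≤ 1 * ‖p (iv o u)‖ := mul_le_mul_of_nonneg_right hz (norm_nonneg _)
    _ ≤ δ := by rw [one_mul]; exact ho

lemma UB_ball : ∀ᵐ z ∂(UB (En n)), ‖z‖ ≤ 1 := by
  unfold UB
  refine Measure.ae_smul_measure ?_ _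
  filter_upwards [ae_restrict_mem measurableSet_ball] with z hz
  exact (mem_ball_zero_iff.1 hz).le

lemma fev_unit {m : ℕ} (p : En n →L[ℝ] En m) {δ : ℝ} (hδ : 0 ≤ δ) (u : En n) (hu : ‖u‖ = 1) :
    fev p δ u ≤ hm n univ * UB (En n) {z | ‖p z‖ ≤ δ} := by
  have hcl : IsClosed {z : GO n × En n | ‖p (iv z.1 z.2)‖ ≤ δ} := by
    have := iv_cont2 (n := n)
    exact isClosed_le (by fun_prop) continuous_const
  calc fev p δ u = ∫⁻ _, fev p δ u ∂(UB (En n)) := by
        rw [lintegral_const, measure_univ, mul_one]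
    _ ≤ ∫⁻ z, fev p δ z ∂(UB (En n)) := by
        refine lintegral_mono_ae ?_
        filter_upwards [UB_ball (n := n)] with z hz
        exact fev_le p hδ u z hu hz
    _ = ((hm n).prod (UB (En n))) {z : GO n × En n | ‖p (iv z.1 z.2)‖ ≤ δ} := by
        rw [Measure.prod_apply_symm hcl.measurableSet]
        rfl
    _ = ∫⁻ o, UB (En n) {z | ‖p (iv o z)‖ ≤ δ} ∂(hm n) := by
        rw [Measure.prod_apply hcl.measurableSet]
        rfl
    _ = ∫⁻ _, UB (En n) {z | ‖p z‖ ≤ δ} ∂(hm n) := by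
        refine lintegral_congr fun o => ?_
        obtain ⟨L, hL⟩ := iv_isom o
        have hm1 : MeasurableSet {z : En n | ‖p z‖ ≤ δ} :=
          (isClosed_le (by fun_prop) continuous_const).measurableSet
        conv_rhs => rw [← UB_map L, Measure.map_apply L.continuous.measurable hm1]
        congr 1
        ext z
        simp only [mem_preimage, mem_ofPred_eq, hL]
    _ = hm n univ * UB (En n) {z | ‖p z‖ ≤ δ} := by
        rw [lintegral_const, mul_comm]

/-- small ball property for the uniform measure -/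
def SB {m : ℕ} (p : En n →L[ℝ] En m) : Prop := ∃ C : ℝ, 0 < C ∧ ∀ δ : ℝ, 0 < δ →
  UB (En n) {z | ‖p z‖ ≤ δ} ≤ ENNReal.ofReal (C * δ ^ m)

lemma small_ball {m : ℕ} (p : En n →L[ℝ] En m) (hp : SB p) : ∃ C : ℝ, 0 < C ∧
    ∀ w : En n, w ≠ 0 → ∀ δ : ℝ, 0 < δ →
      hm n {o | ‖(p.comp (iv o)) w‖ ≤ δ} ≤ ENNReal.ofReal (C * (δ / ‖w‖) ^ m) := by
  obtain ⟨C, hC, h⟩ := hp
  have hfin : hm n univ ≠ ∞ := (measure_lt_top _ _).ne
  have hpos : 0 < (hm n univ).toReal :=
    ENNReal.toReal_pos ((Measure.measure_univ_ne_zero).2 (NeZero.ne (hm n))) hfin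
  refine ⟨(hm n univ).toReal * C, by positivity, fun w hw δ hδ => ?_⟩
  have hw0 : 0 < ‖w‖ := norm_pos_iff.2 hw
  set u : En n := ‖w‖⁻¹ • w with hu
  have hu1 : ‖u‖ = 1 := by
    rw [hu, norm_smul, norm_inv, norm_norm, inv_mul_cancel₀ hw0.ne']
  have hwu : w = ‖w‖ • u := by
    rw [hu, smul_smul, mul_inv_cancel₀ hw0.ne', one_smul]
  have h1 : {o : GO n | ‖(p.comp (iv o)) w‖ ≤ δ} = {o | ‖p (iv o u)‖ ≤ δ / ‖w‖} := by
    ext o
    simp only [mem_ofPred_eq, ContinuousLinearMap.comp_apply]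
    conv_lhs => rw [hwu]
    rw [map_smul, map_smul, norm_smul, norm_norm, le_div_iff₀ hw0, mul_comm]
  rw [h1]
  refine (fev_unit p (by positivity) u hu1).trans ?_
  refine (mul_le_mul_right (h (δ / ‖w‖) (by positivity)) _).trans ?_
  rw [← ENNReal.ofReal_toReal hfin, ← ENNReal.ofReal_mul ENNReal.toReal_nonneg, mul_assoc]
  rw [ENNReal.ofReal_toReal hfin]

/-- coordinates -/
noncomputable def co {m : ℕ} (ι : Fin m → Fin n) : En n →L[ℝ] En m :=
  LinearMap.toContinuousLinearMap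
    { toFun := fun w => WithLp.toLp 2 fun j => w (ι j)
      map_add' := fun x y => by ext j; simp
      map_smul' := fun c x => by ext j; simp }

lemma co_apply {m : ℕ} (ι : Fin m → Fin n) (w : En n) (j : Fin m) : co ι w j = w (ι j) := rfl

lemma abs_coord_le (w : En n) (i : Fin n) : |w i| ≤ ‖w‖ := by
  have := PiLp.norm_apply_le w i
  rwa [Real.norm_eq_abs] at this

lemma SB_co {m : ℕ} (ι : Fin m → Fin n) (hι : Function.Injective ι) : SB (co ι) := by
  have hV : volume (ball (0 : En n) 1) ≠ 0 := (measure_ball_pos _ _ one_pos).ne'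
  have hVf : volume (ball (0 : En n) 1) ≠ ∞ := measure_ball_lt_top.ne
  set V := (volume (ball (0 : En n) 1)).toReal with hVdef
  have hV0 : 0 < V := ENNReal.toReal_pos hV hVf
  refine ⟨V⁻¹ * 2 ^ n, by positivity, fun δ hδ => ?_⟩
  unfold UB
  have hms : MeasurableSet {z : En n | ‖co ι z‖ ≤ δ} :=
    (isClosed_le (by fun_prop) continuous_const).measurableSet
  rw [Measure.smul_apply, Measure.restrict_apply hms, smul_eq_mul]
  set b : Fin n → ℝ := fun i => if i ∈ range ι then δ else 1 with hb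
  have hsub : {z : En n | ‖co ι z‖ ≤ δ} ∩ ball 0 1 ⊆
      WithLp.ofLp ⁻¹' (univ.pi fun i => Icc (-b i) (b i)) := by
    rintro z ⟨hz1, hz2⟩
    rw [mem_preimage, mem_univ_pi]
    intro i
    rw [mem_Icc, ← abs_le]
    show |z i| ≤ b i
    rw [hb]
    simp only
    split_ifs with hi
    · obtain ⟨j, rfl⟩ := hi
      exact (abs_coord_le (co ι z) j).trans hz1
    · exact (abs_coord_le z i).trans (mem_ball_zero_iff.1 hz2).le
  have hbox : volume (WithLp.ofLp ⁻¹' (univ.pi fun i => Icc (-b i) (b i)) : Set (En n)) =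
      ENNReal.ofReal (2 ^ n * δ ^ m) := by
    have hmp := PiLp.volume_preserving_ofLp (Fin n)
    rw [hmp.measure_preimage (MeasurableSet.univ_pi fun i => measurableSet_Icc).nullMeasurableSet,
      volume_pi_pi]
    have h1 : ∀ i, volume (Icc (-b i) (b i)) = ENNReal.ofReal (2 * b i) := by
      intro i
      rw [Real.volume_Icc]
      congr 1; ring
    simp_rw [h1]
    have hb0 : ∀ i, 0 ≤ b i := by
      intro i; rw [hb]; simp only; split_ifs <;> linarith
    rw [← ENNReal.ofReal_prod_of_nonneg (fun i _ => by have := hb0 i; positivity),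
      Finset.prod_mul_distrib, Finset.prod_const, Finset.card_univ, Fintype.card_fin]
    congr 2
    have h2 : ∀ i, b i = if i ∈ Finset.univ.image ι then δ else 1 := by
      intro i
      rw [hb]
      simp only [mem_range, Finset.mem_image, Finset.mem_univ, true_and]
    rw [Finset.prod_congr rfl fun i _ => h2 i, Finset.prod_ite_mem, Finset.univ_inter,
      Finset.prod_const, Finset.card_image_of_injective _ hι, Finset.card_univ, Fintype.card_fin]
  calc (volume (ball (0 : En n) 1))⁻¹ * volume ({z : En n | ‖co ι z‖ ≤ δ} ∩ ball 0 1) ≤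
        (volume (ball (0 : En n) 1))⁻¹ * ENNReal.ofReal (2 ^ n * δ ^ m) := by
        gcongr
        rw [← hbox]
        exact measure_mono hsub
    _ = ENNReal.ofReal V⁻¹ * ENNReal.ofReal (2 ^ n * δ ^ m) := by
        rw [ENNReal.ofReal_inv_of_pos hV0, hVdef, ENNReal.ofReal_toReal hVf]
    _ = ENNReal.ofReal (V⁻¹ * 2 ^ n * δ ^ m) := by
        rw [← ENNReal.ofReal_mul (by positivity), mul_assoc]

lemma SB_isom {m : ℕ} (p : En n →L[ℝ] En m) (hp : SB p) (L : En n ≃ₗᵢ[ℝ] En n) :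
    SB (p.comp (L : En n →L[ℝ] En n)) := by
  obtain ⟨C, hC, h⟩ := hp
  refine ⟨C, hC, fun δ hδ => ?_⟩
  refine le_trans (le_of_eq ?_) (h δ hδ)
  have hm1 : MeasurableSet {z : En n | ‖p z‖ ≤ δ} :=
    (isClosed_le (by fun_prop) continuous_const).measurableSet
  conv_rhs => rw [← UB_map L, Measure.map_apply L.continuous.measurable hm1]
  rfl

/-- slicing for random isometries -/
theorem slice_iv {m : ℕ} (p : En n →L[ℝ] En m) (hp : SB p) (C' s : ℝ) (ν : Measure (En n))
    (K : Set (En n)) (hν : IsFiniteMeasure ν) (hK : IsCompact K) (hνK : ν Kᶜ = 0)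
    (hs : (m : ℝ) < s) (hC' : 0 < C')
    (hgr : ∀ x, ∀ r : ℝ, 0 < r → ν (closedBall x r) ≤ ENNReal.ofReal (C' * r ^ s)) :
    ∀ᵐ o ∂(hm n), ∀ L : Set (En n), MeasurableSet L → InjOn (p.comp (iv o)) L → ν L = 0 := by
  obtain ⟨C, hC, h⟩ := small_ball p hp
  refine Pool.Agent.W342.AG.slice n m (GO n) inferInstance (hm n) (fun o => p.comp (iv o)) C C' s
    ν K inferInstance ?_ h hν hK hνK hs hC hC' hgr
  have := iv_cont2 (n := n)
  exact Continuous.measurable (p.continuous.comp this)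

end Pool.Agent.H225.Sp
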