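import Pool.Agent.H225.Sp10
import Pool.Agent.H225.Sp11

/-!
Small dimensions and right angles.
-/

set_option autoImplicit false
set_option linter.unusedSectionVars false
set_option linter.unusedVariables false

open MeasureTheory Metric Set Filter Module
open scoped ENNReal NNReal Topology RealInnerProductSpace

namespace Pool.Agent.H225.Sp
open Pool.Agent.W778.AG

variable {n : ℕ}

/-- points with no partner -/
def NP (K : Set (En n)) (S : Set (En n × En n)) : Set (En n) :=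
  {x | x ∈ K ∧ ∀ x' ∈ K, (x, x') ∈ S → x' = x}

lemma measurable_NP {K : Set (En n)} (hK : IsCompact K) {S : Set (En n × En n)}
    (hS : IsClosed S) : MeasurableSet (NP K S) := by
  have h1 : NP K S = K \ ⋃ j : ℕ, Prod.fst '' ((K ×ˢ K) ∩ (S ∩
      {p : En n × En n | 1 / ((j : ℝ) + 1) ≤ ‖p.2 - p.1‖})) := by
    ext x
    simp only [NP, mem_ofPred_eq, Set.mem_sdiff, mem_iUnion, not_exists]
    constructor
    · rintro ⟨hx, h⟩
      refine ⟨hx, fun j hj => ?_⟩
      obtain ⟨⟨x1, x2⟩, ⟨hp1, hp2, hp3⟩, rfl⟩ := hj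
      have := h x2 hp1.2 hp2
      simp only [mem_ofPred_eq] at hp3
      rw [this, sub_self, norm_zero] at hp3
      have : (0 : ℝ) < 1 / ((j : ℝ) + 1) := by positivity
      linarith
    · rintro ⟨hx, h⟩
      refine ⟨hx, fun x' hx' hS' => ?_⟩
      by_contra hne
      have hpos : 0 < ‖x' - x‖ := norm_pos_iff.2 (sub_ne_zero.2 hne)
      obtain ⟨j, hj⟩ := exists_nat_one_div_lt hpos
      exact h j ⟨(x, x'), ⟨⟨hx, hx'⟩, hS', hj.le⟩, rfl⟩
  rw [h1]
  refine MeasurableSet.diff (IsCompact.measurableSet hK) (MeasurableSet.iUnion fun j => ?_)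
  refine IsCompact.measurableSet ?_
  refine (IsCompact.inter_right (hK.prod hK) (hS.inter ?_)).image continuous_fst
  exact isClosed_le continuous_const (by fun_prop)

lemma exists_unit_pair (hn : 2 ≤ n) (α : ℝ) : ∃ e e' : En n, ‖e‖ = 1 ∧ ‖e'‖ = 1 ∧
    ⟪e, e'⟫ = Real.cos α ∧ e = EuclideanSpace.single (⟨n - 1, by omega⟩ : Fin n) (1 : ℝ) := by
  set i1 : Fin n := ⟨n - 1, by omega⟩
  set i0 : Fin n := ⟨0, by omega⟩
  have hne : i0 ≠ i1 := by
    intro h
    have := congrArg Fin.val h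
    simp only [i0, i1] at this
    omega
  set e : En n := EuclideanSpace.single i1 (1 : ℝ) with he
  set f : En n := EuclideanSpace.single i0 (1 : ℝ) with hf
  have he1 : ‖e‖ = 1 := by rw [he]; simp
  have hf1 : ‖f‖ = 1 := by rw [hf]; simp
  have hef : ⟪e, f⟫ = 0 := by
    rw [he, hf, EuclideanSpace.inner_single_left]
    simp [hne.symm]
  refine ⟨e, Real.cos α • e + Real.sin α • f, he1, ?_, ?_, rfl⟩
  · have h1 : ‖Real.cos α • e + Real.sin α • f‖ ^ 2 = 1 := by
      rw [@norm_add_sq_real, inner_smul_left, inner_smul_right, hef, norm_smul, norm_smul, he1,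
        hf1]
      simp
    have h2 : (‖Real.cos α • e + Real.sin α • f‖ - 1) *
      (‖Real.cos α • e + Real.sin α • f‖ + 1) = 0 := by linarith
    rcases mul_eq_zero.1 h2 with h3 | h3
    · linarith
    · have := norm_nonneg (Real.cos α • e + Real.sin α • f); linarith
  · rw [inner_add_right, inner_smul_right, inner_smul_right, hef, real_inner_self_eq_norm_sq,
      he1]
    ring

/-- choice of a good vertex -/
lemma pick (K : Set (En n)) (ν : Measure (En n)) (hν : IsProbabilityMeasure ν)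
    (hK : IsCompact K) (hνK : ν Kᶜ = 0) (S S' : Set (En n × En n)) (hS : ν (NP K S) = 0)
    (hS' : ν (NP K S') = 0) :
    ∃ y ∈ K, ∃ x ∈ K, ∃ z ∈ K, x ≠ y ∧ z ≠ y ∧ (y, x) ∈ S ∧ (y, z) ∈ S' := by
  have h1 : ν (Kᶜ ∪ (NP K S ∪ NP K S')) = 0 :=
    measure_union_null hνK (measure_union_null hS hS')
  have h2 : ∃ y, y ∉ (Kᶜ ∪ (NP K S ∪ NP K S')) := by
    by_contra hno
    push Not at hno
    have : (Kᶜ ∪ (NP K S ∪ NP K S')) = univ := eq_univ_of_forall hno
    rw [this, measure_univ] at h1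
    exact one_ne_zero h1
  obtain ⟨y, hy⟩ := h2
  simp only [mem_union, mem_compl_iff, not_or, not_not] at hy
  obtain ⟨hyK, hy1, hy2⟩ := hy
  refine ⟨y, hyK, ?_⟩
  have h3 : ∃ x ∈ K, x ≠ y ∧ (y, x) ∈ S := by
    by_contra hno
    push Not at hno
    exact hy1 ⟨hyK, fun x' hx' hS => by
      by_contra hne
      exact hno x' hx' hne hS⟩
  have h4 : ∃ x ∈ K, x ≠ y ∧ (y, x) ∈ S' := by
    by_contra hno
    push Not at hno
    exact hy2 ⟨hyK, fun x' hx' hS => by
      by_contra hne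
      exact hno x' hx' hne hS⟩
  obtain ⟨x, hx, hxy, hxS⟩ := h3
  obtain ⟨z, hz, hzy, hzS⟩ := h4
  exact ⟨x, hx, z, hz, hxy, hzy, hxS, hzS⟩

lemma ray {v w : En n} (hv : ‖v‖ = 1) (c : ℝ) (hw : w = c • v) (hw0 : w ≠ 0)
    (hi : 0 ≤ ⟪v, w⟫) : dir w = v := by
  rw [hw, inner_smul_right, real_inner_self_eq_norm_sq, hv, one_pow, mul_one] at hi
  have hc : c ≠ 0 := by
    intro h; rw [hw, h, zero_smul] at hw0; exact hw0 rfl
  have hc0 : 0 < c := lt_of_le_of_ne hi (Ne.symm hc)
  unfold dir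
  rw [hw, norm_smul, hv, mul_one, Real.norm_of_nonneg hi, smul_smul, inv_mul_cancel₀ hc, one_smul]

/-- the set of pairs in the direction `v` seen through `q` -/
def RS {m : ℕ} (q : En n →L[ℝ] En m) (v : En n) : Set (En n × En n) :=
  {p | q p.1 = q p.2 ∧ 0 ≤ ⟪v, p.2 - p.1⟫}

lemma RS_closed {m : ℕ} (q : En n →L[ℝ] En m) (v : En n) : IsClosed (RS q v) := by
  refine IsClosed.inter (s₁ := {p : En n × En n | q p.1 = q p.2})
    (s₂ := {p : En n × En n | 0 ≤ ⟪v, p.2 - p.1⟫}) ?_ ?_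
  · exact isClosed_eq (by fun_prop) (by fun_prop)
  · exact isClosed_le continuous_const (by fun_prop)

lemma RS_null {m : ℕ} (q : En n →L[ℝ] En m) (v : En n) (K : Set (En n)) (hK : IsCompact K)
    (ν : Measure (En n)) (h : ∀ L : Set (En n), MeasurableSet L → InjOn q L → ν L = 0) :
    ν (NP K (RS q v)) = 0 := by
  refine h _ (measurable_NP hK (RS_closed q v)) ?_
  intro x hx x' hx' hq
  rcases le_total 0 ⟪v, x' - x⟫ with h1 | h1
  · exact (hx.2 x' hx'.1 ⟨hq, h1⟩).symm
  · refine hx'.2 x hx.1 ⟨hq.symm, ?_⟩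
    have : x - x' = -(x' - x) := by abel
    simp only
    rw [this, inner_neg_right]
    linarith

/-- small dimension -/
theorem small : S_SMALL := by
  intro n hn K hK hdim α hα0 hα1
  obtain ⟨s, hs0, hs1, hs2⟩ := ENNReal.lt_iff_exists_real_btwn.1 hdim
  have hn1 : (1 : ℝ) ≤ (n : ℝ) - 1 := by
    have : (2 : ℝ) ≤ n := by exact_mod_cast hn
    linarith
  have hs3 : (n : ℝ) - 1 < s := (ENNReal.ofReal_lt_ofReal_iff_of_nonneg (by linarith)).1 hs1
  obtain ⟨ν, hν, hνK, C, hC, hgr⟩ := Frost.frostman K hK s (by linarith) hs2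
  obtain ⟨e, e', he, he', hee', hes⟩ := exists_unit_pair hn α
  set p : En n →L[ℝ] En (n - 1) := co (Fin.castLE (by omega)) with hp
  have hSBp : SB p := SB_co _ (Fin.castLE_injective _)
  obtain ⟨L, hL⟩ := exists_isom e' e (by rw [he, he'])
  set p' : En n →L[ℝ] En (n - 1) := p.comp (L : En n →L[ℝ] En n) with hp'
  have hSBp' : SB p' := SB_isom p hSBp L
  have hm : (((n - 1 : ℕ) : ℝ)) < s := by
    rw [Nat.cast_sub (by omega)]
    simpa using hs3
  have hs := slice_iv p hSBp C s ν K inferInstance hK hνK hm hC hgr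
  have hs' := slice_iv p' hSBp' C s ν K inferInstance hK hνK hm hC hgr
  obtain ⟨o, ho, ho'⟩ := (hs.and hs').exists
  obtain ⟨U, hU⟩ := iv_isom o
  set v := U.symm e with hv
  set v' := U.symm e' with hv'
  have hv1 : ‖v‖ = 1 := by rw [hv, U.symm.norm_map, he]
  have hv1' : ‖v'‖ = 1 := by rw [hv', U.symm.norm_map, he']
  have hvv : ⟪v, v'⟫ = Real.cos α := by rw [hv, hv', U.symm.inner_map_map, hee']
  -- kernels
  have hker : ∀ w : En n, p w = 0 → ∃ c : ℝ, w = c • e := by
    intro w hw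
    refine ⟨w ⟨n - 1, by omega⟩, ?_⟩
    ext i
    rw [hes]
    simp only [PiLp.smul_apply, PiLp.single_apply, smul_eq_mul]
    by_cases hi : i = ⟨n - 1, by omega⟩
    · rw [if_pos hi, mul_one, hi]
    · rw [if_neg hi, mul_zero]
      have hi' : (i : ℕ) < n - 1 := by
        have h1 := i.2
        have h2 : (i : ℕ) ≠ n - 1 := fun h => hi (Fin.ext h)
        omega
      have h3 : p w ⟨i, hi'⟩ = w i := rfl
      rw [← h3, hw]
      rfl
  have hkerq : ∀ w : En n, p (iv o w) = 0 → ∃ c : ℝ, w = c • v := by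
    intro w hw
    obtain ⟨c, hc⟩ := hker _ hw
    refine ⟨c, ?_⟩
    rw [hv, ← map_smul, ← hc, ← hU, U.symm_apply_apply]
  have hkerq' : ∀ w : En n, p' (iv o w) = 0 → ∃ c : ℝ, w = c • v' := by
    intro w hw
    have hw' : p (L (iv o w)) = 0 := hw
    obtain ⟨c, hc⟩ := hker _ hw'
    refine ⟨c, ?_⟩
    rw [← hL, ← map_smul] at hc
    have hc' := L.injective hc
    rw [hv', ← map_smul, ← hc', ← hU, U.symm_apply_apply]
  obtain ⟨y, hyK, x, hxK, z, hzK, hxy, hzy, hxS, hzS⟩ := pick K ν hν hK hνK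
    (RS (p.comp (iv o)) v) (RS (p'.comp (iv o)) v') (RS_null _ v K hK ν ho)
    (RS_null _ v' K hK ν ho')
  have hdx : dir (x - y) = v := by
    obtain ⟨c, hc⟩ := hkerq (x - y) (by
      have h1 : p (iv o y) = p (iv o x) := hxS.1
      rw [map_sub, map_sub, h1, sub_self])
    exact ray hv1 c hc (sub_ne_zero.2 hxy) hxS.2
  have hdz : dir (z - y) = v' := by
    obtain ⟨c, hc⟩ := hkerq' (z - y) (by
      have h1 : p' (iv o y) = p' (iv o z) := hzS.1
      rw [map_sub, map_sub, h1, sub_self])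
    exact ray hv1' c hc (sub_ne_zero.2 hzy) hzS.2
  refine ⟨x, hxK, y, hyK, z, hzK, angle_of_dir hα0 hα1 hxy hzy ?_⟩
  rw [hdx, hdz, hvv]

/-- right angles -/
theorem right : S_RIGHT := by
  intro n hn K hK hdim
  obtain ⟨s, hs0, hs1, hs2⟩ := ENNReal.lt_iff_exists_real_btwn.1 hdim
  have hn2 : (2 : ℝ) ≤ n := by exact_mod_cast hn
  have hs3 : 3 / 4 * (n : ℝ) < s := (ENNReal.ofReal_lt_ofReal_iff_of_nonneg (by positivity)).1 hs1
  obtain ⟨ν, hν, hνK, C, hC, hgr⟩ := Frost.frostman K hK s (by linarith) hs2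
  set m := n / 2 with hm
  have hmn : m ≤ n := by omega
  have hm1 : (m : ℝ) < s := by
    have : (m : ℝ) ≤ n / 2 := Nat.cast_div_le
    linarith
  have hm2 : ((n - m : ℕ) : ℝ) < s := by
    have h2 : 2 * (n - m) ≤ n + 1 := by omega
    have h3 : 2 * ((n - m : ℕ) : ℝ) ≤ n + 1 := by exact_mod_cast h2
    linarith
  set p : En n →L[ℝ] En m := co (Fin.castLE hmn) with hp
  set p' : En n →L[ℝ] En (n - m) := co (fun j => (⟨m + j, by omega⟩ : Fin n)) with hp'
  have hSBp : SB p := SB_co _ (Fin.castLE_injective _)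
  have hSBp' : SB p' := SB_co _ (by
    intro i j hij
    have := congrArg Fin.val hij
    simp only at this
    exact Fin.ext (by omega))
  have hs := slice_iv p hSBp C s ν K inferInstance hK hνK hm1 hC hgr
  have hs' := slice_iv p' hSBp' C s ν K inferInstance hK hνK hm2 hC hgr
  obtain ⟨o, ho, ho'⟩ := (hs.and hs').exists
  obtain ⟨y, hyK, x, hxK, z, hzK, hxy, hzy, hxS, hzS⟩ := pick K ν hν hK hνK
    (RS (p.comp (iv o)) 0) (RS (p'.comp (iv o)) 0) (RS_null _ 0 K hK ν ho)
    (RS_null _ 0 K hK ν ho')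
  have h1 : p (iv o (x - y)) = 0 := by
    have h1 : p (iv o y) = p (iv o x) := hxS.1
    rw [map_sub, map_sub, h1, sub_self]
  have h2 : p' (iv o (z - y)) = 0 := by
    have h1 : p' (iv o y) = p' (iv o z) := hzS.1
    rw [map_sub, map_sub, h1, sub_self]
  have h3 : ⟪x - y, z - y⟫ = 0 := by
    rw [← iv_inner o, PiLp.inner_apply]
    refine Finset.sum_eq_zero fun i _ => ?_
    by_cases hi : (i : ℕ) < m
    · have h4 : iv o (x - y) i = 0 := by
        have h5 : p (iv o (x - y)) ⟨i, hi⟩ = iv o (x - y) i := rfl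
        rw [← h5, h1]
        rfl
      rw [h4]
      simp
    · have hi2 : (i : ℕ) - m < n - m := by omega
      have h4 : iv o (z - y) i = 0 := by
        have h5 : p' (iv o (z - y)) ⟨(i : ℕ) - m, hi2⟩ = iv o (z - y) i := by
          rw [hp', co_apply]
          have h6 : (⟨m + ((⟨(i : ℕ) - m, hi2⟩ : Fin (n - m)) : ℕ), by simp only; omega⟩ : Fin n) = i := by
            apply Fin.ext
            simp only
            omega
          rw [h6]
        rw [← h5, h2]
        rfl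
      rw [h4]
      simp
  refine ⟨x, hxK, y, hyK, z, hzK, angle_of_dir (by positivity) (by linarith [Real.pi_pos]) hxy hzy ?_⟩
  rw [Real.cos_pi_div_two]
  unfold dir
  rw [inner_smul_left, inner_smul_right, h3]
  simp

end Pool.Agent.H225.Sp
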