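import Pool.Agent.H225.Sp1
import Pool.Graph.R_seed8.W778.AG.Lap

/-!
Averages of the Gegenbauer polynomials over small spheres.
-/

set_option autoImplicit false
set_option linter.unusedSectionVars false

open MeasureTheory Metric Set Filter Module
open scoped ENNReal NNReal Topology RealInnerProductSpace

namespace Pool.Agent.H225.Sp
open Pool.Agent.W778.AG

/-- cosine moments -/
noncomputable def Jc (m i : ℕ) : ℝ := ∫ φ in (0 : ℝ)..Real.pi, Real.cos φ ^ i * Real.sin φ ^ m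

lemma Jc_one (m : ℕ) : Jc m 1 = 0 := by
  unfold Jc
  have h : ∀ φ ∈ uIcc (0 : ℝ) Real.pi, HasDerivAt (fun φ => Real.sin φ ^ (m + 1) / (m + 1))
      (Real.cos φ ^ 1 * Real.sin φ ^ m) φ := by
    intro φ _
    have := ((Real.hasDerivAt_sin φ).pow (m + 1)).div_const ((m : ℝ) + 1)
    refine this.congr_deriv ?_
    push_cast
    field_simp
  rw [intervalIntegral.integral_eq_sub_of_hasDerivAt h
    ((by fun_prop : Continuous fun φ : ℝ => Real.cos φ ^ 1 * Real.sin φ ^ m).intervalIntegrable _ _)]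
  simp

lemma Jc_rec (m i : ℕ) : Jc m (i + 2) = ((i : ℝ) + 1) / ((i : ℝ) + (m + 2)) * Jc m i := by
  unfold Jc
  have h : ∀ φ ∈ uIcc (0 : ℝ) Real.pi, HasDerivAt
      (fun φ => Real.cos φ ^ (i + 1) * Real.sin φ ^ (m + 1))
      (((i : ℝ) + (m + 2)) * (Real.cos φ ^ (i + 2) * Real.sin φ ^ m) -
        ((i : ℝ) + 1) * (Real.cos φ ^ i * Real.sin φ ^ m)) φ := by
    intro φ _
    have := ((Real.hasDerivAt_cos φ).pow (i + 1)).mul ((Real.hasDerivAt_sin φ).pow (m + 1))
    refine this.congr_deriv ?_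
    have hs : Real.sin φ ^ 2 = 1 - Real.cos φ ^ 2 := by
      have := Real.sin_sq_add_cos_sq φ; linarith
    simp only [Nat.add_sub_cancel, Pi.pow_apply]
    push_cast
    have e1 : Real.sin φ ^ (m + 1) = Real.sin φ ^ m * Real.sin φ := pow_succ _ _
    have e2 : Real.cos φ ^ (i + 1) = Real.cos φ ^ i * Real.cos φ := pow_succ _ _
    have e3 : Real.cos φ ^ (i + 2) = Real.cos φ ^ i * Real.cos φ ^ 2 := pow_add _ _ _
    rw [e1, e2, e3]
    linear_combination (-(((i : ℝ) + 1) * Real.cos φ ^ i * Real.sin φ ^ m)) * hs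
  have hI := intervalIntegral.integral_eq_sub_of_hasDerivAt h
    ((by fun_prop : Continuous fun φ : ℝ => ((i : ℝ) + (m + 2)) *
      (Real.cos φ ^ (i + 2) * Real.sin φ ^ m) -
        ((i : ℝ) + 1) * (Real.cos φ ^ i * Real.sin φ ^ m)).intervalIntegrable _ _)
  rw [intervalIntegral.integral_sub
    ((by fun_prop : Continuous fun φ : ℝ => ((i : ℝ) + (m + 2)) *
      (Real.cos φ ^ (i + 2) * Real.sin φ ^ m)).intervalIntegrable _ _)
    ((by fun_prop : Continuous fun φ : ℝ => ((i : ℝ) + 1) *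
      (Real.cos φ ^ i * Real.sin φ ^ m)).intervalIntegrable _ _),
    intervalIntegral.integral_const_mul, intervalIntegral.integral_const_mul] at hI
  simp only [Real.sin_pi, Real.sin_zero, ne_eq, Nat.add_eq_zero_iff, one_ne_zero, and_false,
    not_false_eq_true, zero_pow, mul_zero, sub_self] at hI
  have hpos : (0 : ℝ) < (i : ℝ) + (m + 2) := by positivity
  rw [div_mul_eq_mul_div, eq_div_iff hpos.ne']
  linarith

lemma Jc_cm (m i : ℕ) : Jc m i = cm (m + 2) i * Jc m 0 := by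
  induction i using Nat.twoStepInduction with
  | zero => simp [cm]
  | one => rw [Jc_one]; simp [cm]
  | more k ih _ =>
    rw [Jc_rec, ih]
    show _ = ((k : ℝ) + 1) / ((k : ℝ) + ((m + 2 : ℕ) : ℝ)) * cm (m + 2) k * Jc m 0
    push_cast
    ring

/-- the Gegenbauer polynomials in terms of the cosine moments -/
theorem Pg_expand (n k : ℕ) (hn : 3 ≤ n) (θ : ℝ) :
    ((Pg n k (Real.cos θ) : ℝ) : ℂ) = ∑ i ∈ Finset.range (k + 1),
      (k.choose i : ℂ) * (Real.cos θ : ℂ) ^ (k - i) * (Complex.I * (Real.sin θ : ℂ)) ^ i *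
        (cm (n - 1) i : ℂ) := by
  obtain ⟨m, rfl⟩ := Nat.exists_eq_add_of_le hn
  rw [show 3 + m = m + 3 by ring]
  have h := lap (m + 3) k (by omega) θ
  simp only [Nat.add_sub_cancel] at h
  rw [show m + 3 - 1 = m + 2 by omega]
  have hW : (∫ φ in (0 : ℝ)..Real.pi, ((Real.sin φ ^ m : ℝ) : ℂ)) = ((Jc m 0 : ℝ) : ℂ) := by
    rw [intervalIntegral.integral_ofReal]
    unfold Jc
    simp
  have hW0 : ((Jc m 0 : ℝ) : ℂ) ≠ 0 := by
    have : 0 < Jc m 0 := by
      unfold Jc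
      simpa using integral_sin_pow_pos m
    exact_mod_cast this.ne'
  rw [hW] at h
  have hR : ∫ φ in (0 : ℝ)..Real.pi, ((Real.cos θ : ℂ) + Complex.I * (Real.sin θ : ℂ) *
      (Real.cos φ : ℂ)) ^ k * ((Real.sin φ ^ m : ℝ) : ℂ) =
      (∑ i ∈ Finset.range (k + 1), (k.choose i : ℂ) * (Real.cos θ : ℂ) ^ (k - i) *
        (Complex.I * (Real.sin θ : ℂ)) ^ i * (cm (m + 2) i : ℂ)) * ((Jc m 0 : ℝ) : ℂ) := by
    have h1 : ∀ φ : ℝ, ((Real.cos θ : ℂ) + Complex.I * (Real.sin θ : ℂ) *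
      (Real.cos φ : ℂ)) ^ k * ((Real.sin φ ^ m : ℝ) : ℂ) = ∑ i ∈ Finset.range (k + 1),
        ((k.choose i : ℂ) * (Real.cos θ : ℂ) ^ (k - i) * (Complex.I * (Real.sin θ : ℂ)) ^ i) *
          ((Real.cos φ ^ i * Real.sin φ ^ m : ℝ) : ℂ) := by
      intro φ
      rw [add_comm, add_pow, Finset.sum_mul]
      refine Finset.sum_congr rfl fun i _ => ?_
      push_cast
      ring
    simp_rw [h1]
    rw [intervalIntegral.integral_finsetSum]
    · rw [Finset.sum_mul]
      refine Finset.sum_congr rfl fun i _ => ?_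
      rw [intervalIntegral.integral_const_mul, intervalIntegral.integral_ofReal]
      have h2 : (∫ φ in (0 : ℝ)..Real.pi, Real.cos φ ^ i * Real.sin φ ^ m) = Jc m i := rfl
      rw [h2, Jc_cm]
      push_cast
      ring
    · intro i _
      refine Continuous.intervalIntegrable ?_ _ _
      fun_prop
  rw [hR] at h
  exact mul_right_cancel₀ hW0 h

end Pool.Agent.H225.Sp
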