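import Pool.Agent.H225.Sp2

/-!
Averages of the Gegenbauer polynomials over small spheres, continued.
-/

set_option autoImplicit false
set_option linter.unusedSectionVars false

open MeasureTheory Metric Set Filter Module
open scoped ENNReal NNReal Topology RealInnerProductSpace

namespace Pool.Agent.H225.Sp
open Pool.Agent.W778.AG

variable {n : ℕ}

/-- the hyperplane orthogonal to `v` -/
noncomputable abbrev Hp (v : En n) : Submodule ℝ (En n) := (ℝ ∙ v)ᗮ

lemma finrank_Hp (v : En n) (hv : ‖v‖ = 1) : finrank ℝ (Hp v) = n - 1 := by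
  have hv0 : v ≠ 0 := by
    intro h; rw [h, norm_zero] at hv; exact zero_ne_one hv
  have h1 := Submodule.finrank_add_finrank_orthogonal (ℝ ∙ v)
  rw [finrank_span_singleton hv0, finrank_euclideanSpace_fin] at h1
  show finrank ℝ (ℝ ∙ v)ᗮ = n - 1
  omega

lemma nontrivial_Hp (hn : 3 ≤ n) (v : En n) (hv : ‖v‖ = 1) : Nontrivial (Hp v) := by
  apply Module.nontrivial_of_finrank_pos (R := ℝ)
  rw [finrank_Hp v hv]
  omega

/-- the projection of `x` to the hyperplane -/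
noncomputable def pr (v x : En n) (hv : ‖v‖ = 1) : Hp v :=
  ⟨x - ⟪v, x⟫ • v, by
    rw [Submodule.mem_orthogonal_singleton_iff_inner_right, inner_sub_right, inner_smul_right,
      real_inner_self_eq_norm_sq, hv]
    ring⟩

lemma inner_pr (v x : En n) (hv : ‖v‖ = 1) (z : Hp v) : ⟪z, pr v x hv⟫ = ⟪(z : En n), x⟫ := by
  rw [Submodule.coe_inner]
  have hz : ⟪(z : En n), v⟫ = 0 := by
    rw [real_inner_comm]
    exact Submodule.mem_orthogonal_singleton_iff_inner_right.1 z.2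
  show ⟪(z : En n), x - ⟪v, x⟫ • v⟫ = _
  rw [inner_sub_right, inner_smul_right, hz, mul_zero, sub_zero]

lemma inner_pr_pr (v x y : En n) (hv : ‖v‖ = 1) :
    ⟪pr v x hv, pr v y hv⟫ = ⟪x, y⟫ - ⟪v, x⟫ * ⟪v, y⟫ := by
  rw [inner_pr]
  show ⟪x - ⟪v, x⟫ • v, y⟫ = _
  rw [inner_sub_left, inner_smul_left]
  rfl

lemma norm_pr_sq (v x : En n) (hv : ‖v‖ = 1) : ‖pr v x hv‖ ^ 2 = ‖x‖ ^ 2 - ⟪v, x⟫ ^ 2 := by
  rw [← real_inner_self_eq_norm_sq, inner_pr_pr, real_inner_self_eq_norm_sq]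
  ring

/-- the vector form of the Laplace representation -/
theorem vl (hn : 3 ≤ n) (k : ℕ) (x w : En n) (hx : ‖x‖ = 1) (hw : ‖w‖ = 1) :
    ∫ b : Hp x, ((⟪w, x⟫ : ℂ) + Complex.I * (⟪w, (b : En n)⟫ : ℂ)) ^ k ∂(SM (Hp x)) =
      ((Pg n k ⟪w, x⟫ : ℝ) : ℂ) := by
  have := nontrivial_Hp hn x hx
  have hc1 : |⟪w, x⟫| ≤ 1 := by
    have := abs_real_inner_le_norm w x
    rwa [hx, hw, one_mul] at this
  have hcos : Real.cos (Real.arccos ⟪w, x⟫) = ⟪w, x⟫ :=
    Real.cos_arccos (abs_le.1 hc1).1 (abs_le.1 hc1).2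
  have hsin : Real.sin (Real.arccos ⟪w, x⟫) = ‖pr x w hx‖ := by
    rw [Real.sin_arccos, ← Real.sqrt_sq (norm_nonneg (pr x w hx)), norm_pr_sq, hw,
      real_inner_comm]
    norm_num
  have h := Pg_expand n k hn (Real.arccos ⟪w, x⟫)
  rw [hcos, hsin] at h
  rw [h]
  have h1 : ∀ b : Hp x, ((⟪w, x⟫ : ℂ) + Complex.I * (⟪w, (b : En n)⟫ : ℂ)) ^ k =
      ∑ i ∈ Finset.range (k + 1), ((k.choose i : ℂ) * (⟪w, x⟫ : ℂ) ^ (k - i) * Complex.I ^ i) *
        ((⟪b, pr x w hx⟫ ^ i : ℝ) : ℂ) := by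
    intro b
    rw [inner_pr, real_inner_comm (b : En n) w, add_comm, add_pow]
    refine Finset.sum_congr rfl fun i _ => ?_
    rw [mul_pow]
    push_cast
    ring
  simp_rw [h1]
  rw [integral_finsetSum _ fun i _ => (integrable_of_ae_norm (SM (Hp x)) SM_ae _ (by fun_prop))]
  refine Finset.sum_congr rfl fun i _ => ?_
  rw [integral_const_mul, integral_complex_ofReal]
  have h2 : ∫ b : Hp x, ⟪b, pr x w hx⟫ ^ i ∂(SM (Hp x)) = cm (n - 1) i * ‖pr x w hx‖ ^ i := by
    have := mom_cm i (pr x w hx)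
    rw [finrank_Hp x hx] at this
    exact this
  rw [h2]
  push_cast
  ring

/-- the points at angle `α` from `v` -/
noncomputable def cr (v : En n) (α : ℝ) (z : Hp v) : En n :=
  Real.cos α • v + Real.sin α • (z : En n)

lemma continuous_cr (v : En n) (α : ℝ) : Continuous (cr v α) := by
  unfold cr
  fun_prop

lemma inner_cr (v : En n) (α : ℝ) (z : Hp v) (x : En n) (hv : ‖v‖ = 1) :
    ⟪cr v α z, x⟫ = Real.cos α * ⟪v, x⟫ + Real.sin α * ⟪z, pr v x hv⟫ := by
  unfold cr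
  rw [inner_add_left, inner_smul_left, inner_smul_left, inner_pr]
  rfl

lemma norm_cr (v : En n) (α : ℝ) (z : Hp v) (hv : ‖v‖ = 1) (hz : ‖z‖ = 1) : ‖cr v α z‖ = 1 := by
  have hz0 : ⟪v, (z : En n)⟫ = 0 := Submodule.mem_orthogonal_singleton_iff_inner_right.1 z.2
  have h1 : ‖cr v α z‖ ^ 2 = 1 := by
    unfold cr
    have hz1 : ‖(z : En n)‖ = 1 := hz
    rw [@norm_add_sq_real, inner_smul_left, inner_smul_right, hz0, norm_smul, norm_smul, hv,
      hz1]
    simp
  have h2 : (‖cr v α z‖ - 1) * (‖cr v α z‖ + 1) = 0 := by linarith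
  rcases mul_eq_zero.1 h2 with h3 | h3
  · linarith
  · have := norm_nonneg (cr v α z); linarith

lemma inner_v_cr (v : En n) (α : ℝ) (z : Hp v) (hv : ‖v‖ = 1) : ⟪v, cr v α z⟫ = Real.cos α := by
  have hz0 : ⟪v, (z : En n)⟫ = 0 := Submodule.mem_orthogonal_singleton_iff_inner_right.1 z.2
  unfold cr
  rw [inner_add_right, inner_smul_right, inner_smul_right, hz0, real_inner_self_eq_norm_sq, hv]
  ring

/-- averages of isotropic powers over a small sphere -/
theorem star (hn : 3 ≤ n) (k : ℕ) (α : ℝ) (v x y : En n) (hv : ‖v‖ = 1) (hx : ‖x‖ = 1)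
    (hy : ‖y‖ = 1) (hxy : ⟪x, y⟫ = 0) :
    ∫ z : Hp v, ((⟪cr v α z, x⟫ : ℂ) + Complex.I * (⟪cr v α z, y⟫ : ℂ)) ^ k ∂(SM (Hp v)) =
      ((Pg n k (Real.cos α) : ℝ) : ℂ) * ((⟪v, x⟫ : ℂ) + Complex.I * (⟪v, y⟫ : ℂ)) ^ k := by
  have := nontrivial_Hp hn v hv
  set s : ℂ := (⟪v, x⟫ : ℂ) + Complex.I * (⟪v, y⟫ : ℂ) with hs
  have h1 : ∀ z : Hp v, ((⟪cr v α z, x⟫ : ℂ) + Complex.I * (⟪cr v α z, y⟫ : ℂ)) ^ k =
      ∑ i ∈ Finset.range (k + 1), ((k.choose i : ℂ) * ((Real.cos α : ℂ) * s) ^ (k - i) *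
        (Real.sin α : ℂ) ^ i) *
        ((⟪z, pr v x hv⟫ : ℂ) + Complex.I * (⟪z, pr v y hv⟫ : ℂ)) ^ i := by
    intro z
    rw [inner_cr v α z x hv, inner_cr v α z y hv]
    have h2 : (((Real.cos α * ⟪v, x⟫ + Real.sin α * ⟪z, pr v x hv⟫ : ℝ) : ℂ) +
        Complex.I * ((Real.cos α * ⟪v, y⟫ + Real.sin α * ⟪z, pr v y hv⟫ : ℝ) : ℂ)) =
        (Real.sin α : ℂ) * ((⟪z, pr v x hv⟫ : ℂ) + Complex.I * (⟪z, pr v y hv⟫ : ℂ)) +
          (Real.cos α : ℂ) * s := by
      rw [hs]; push_cast; ring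
    rw [h2, add_pow]
    refine Finset.sum_congr rfl fun i _ => ?_
    rw [mul_pow]
    ring
  simp_rw [h1]
  rw [integral_finsetSum _ fun i _ => (integrable_of_ae_norm (SM (Hp v)) SM_ae _ (by fun_prop))]
  rw [Pg_expand n k hn α, Finset.sum_mul]
  refine Finset.sum_congr rfl fun i hi => ?_
  have hik : i ≤ k := by
    have := Finset.mem_range.1 hi; omega
  rw [integral_const_mul]
  have h3 := mom_complex i (pr v x hv) (pr v y hv) s (by
    rw [norm_pr_sq, norm_pr_sq, inner_pr_pr, hx, hy, hxy, hs]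
    push_cast
    rw [Complex.I_sq]
    linear_combination (⟪v, y⟫ : ℂ) ^ 2 * Complex.I_sq)
  rw [h3, finrank_Hp v hv, mul_pow, mul_pow, mul_pow]
  have h4 : s ^ k = s ^ (k - i) * s ^ i := by
    rw [← pow_add]; congr 1; omega
  rw [h4]
  ring

/-- the average over a small sphere -/
theorem avg_Pg (hn : 3 ≤ n) (k : ℕ) (α : ℝ) (v x : En n) (hv : ‖v‖ = 1) (hx : ‖x‖ = 1) :
    ∫ z : Hp v, Pg n k ⟪cr v α z, x⟫ ∂(SM (Hp v)) = Pg n k (Real.cos α) * Pg n k ⟪v, x⟫ := by
  have := nontrivial_Hp hn v hv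
  have := nontrivial_Hp hn x hx
  have h1 : ((∫ z : Hp v, Pg n k ⟪cr v α z, x⟫ ∂(SM (Hp v)) : ℝ) : ℂ) =
      ((Pg n k (Real.cos α) * Pg n k ⟪v, x⟫ : ℝ) : ℂ) := by
    rw [← integral_complex_ofReal]
    have h2 : ∫ z : Hp v, ((Pg n k ⟪cr v α z, x⟫ : ℝ) : ℂ) ∂(SM (Hp v)) =
        ∫ z : Hp v, ∫ b : Hp x, ((⟪cr v α z, x⟫ : ℂ) +
          Complex.I * (⟪cr v α z, (b : En n)⟫ : ℂ)) ^ k ∂(SM (Hp x)) ∂(SM (Hp v)) := by
      refine integral_congr_ae ?_
      filter_upwards [SM_ae (H := Hp v)] with z hz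
      exact (vl hn k x (cr v α z) hx (norm_cr v α z hv hz)).symm
    rw [h2, integral_integral_swap]
    · have h3 : ∫ b : Hp x, ∫ z : Hp v, ((⟪cr v α z, x⟫ : ℂ) +
          Complex.I * (⟪cr v α z, (b : En n)⟫ : ℂ)) ^ k ∂(SM (Hp v)) ∂(SM (Hp x)) =
          ∫ b : Hp x, ((Pg n k (Real.cos α) : ℝ) : ℂ) *
            ((⟪v, x⟫ : ℂ) + Complex.I * (⟪v, (b : En n)⟫ : ℂ)) ^ k ∂(SM (Hp x)) := by
        refine integral_congr_ae ?_
        filter_upwards [SM_ae (H := Hp x)] with b hb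
        exact star hn k α v x b hv hx hb
          (Submodule.mem_orthogonal_singleton_iff_inner_right.1 b.2)
      rw [h3, integral_const_mul, vl hn k x v hx hv]
      push_cast
      rfl
    · have hcont : Continuous (Function.uncurry fun (z : Hp v) (b : Hp x) =>
          ((⟪cr v α z, x⟫ : ℂ) + Complex.I * (⟪cr v α z, (b : En n)⟫ : ℂ)) ^ k) := by
        have := continuous_cr v α
        unfold Function.uncurry
        fun_prop
      have hae : ∀ᵐ p ∂((SM (Hp v)).prod (SM (Hp x))), ‖p.1‖ = 1 ∧ ‖p.2‖ = 1 := by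
        refine (Measure.ae_prod_iff_ae_ae ?_).2 ?_
        · exact ((isClosed_eq (by fun_prop) (by fun_prop)).inter
            (isClosed_eq (by fun_prop) (by fun_prop))).measurableSet
        · filter_upwards [SM_ae (H := Hp v)] with z hz
          filter_upwards [SM_ae (H := Hp x)] with b hb
          exact ⟨hz, hb⟩
      obtain ⟨C, hC⟩ := ((isCompact_sphere (0 : Hp v) 1).prod
        (isCompact_sphere (0 : Hp x) 1)).exists_bound_of_continuousOn hcont.continuousOn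
      refine Integrable.of_bound hcont.aestronglyMeasurable C ?_
      filter_upwards [hae] with p hp
      exact hC p ⟨by simpa using hp.1, by simpa using hp.2⟩
  exact_mod_cast h1

lemma continuous_Pg (n k : ℕ) : Continuous (Pg n k) := by
  induction k using Nat.twoStepInduction with
  | zero => exact continuous_const
  | one => exact continuous_id
  | more k h1 h2 =>
    show Continuous fun t => ((2 * (k : ℝ) + n) * t * Pg n (k + 1) t - ((k : ℝ) + 1) * Pg n k t) /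
      ((k : ℝ) + n - 1)
    fun_prop

/-- averaging over the points at angle `α` from `v` -/
theorem avg : S_AVG := by
  intro n hn v α hv
  have := nontrivial_Hp hn v hv
  have hcr := continuous_cr v α
  refine ⟨(SM (Hp v)).map (cr v α), ⟨?_, ?_⟩, ?_, ?_⟩
  · exact Measure.isProbabilityMeasure_map hcr.measurable.aemeasurable
  · rw [Measure.map_apply hcr.measurable isClosed_sphere.measurableSet.compl]
    have h := SM_ae (H := Hp v)
    rw [ae_iff] at h
    refine measure_mono_null ?_ h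
    intro z hz hz1
    apply hz
    rw [mem_sphere_zero_iff_norm]
    exact norm_cr v α z hv hz1
  · have hm : MeasurableSet {w : En n | ⟪v, w⟫ ≠ Real.cos α} :=
      (isClosed_eq (by fun_prop) continuous_const).measurableSet.compl
    rw [Measure.map_apply hcr.measurable hm]
    have : cr v α ⁻¹' {w : En n | ⟪v, w⟫ ≠ Real.cos α} = ∅ := by
      ext z
      simp only [mem_preimage, mem_ofPred_eq, mem_empty_iff_false, iff_false, not_not]
      exact inner_v_cr v α z hv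
    rw [this, measure_empty]
  · intro k x hx
    rw [integral_map hcr.measurable.aemeasurable]
    · exact avg_Pg hn k α v x hv hx
    · exact ((continuous_Pg n k).comp (by fun_prop)).aestronglyMeasurable

end Pool.Agent.H225.Sp
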