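import Pool.Agent.H225.Sp3
import Pool.Graph.R_seed8.W376.AG.Sum
import Pool.Graph.R_seed8.W646.AG.Basic

/-!
Concentration, mean value and positive definiteness.
-/

set_option autoImplicit false
set_option linter.unusedSectionVars false

open MeasureTheory Metric Set Filter Module
open scoped ENNReal NNReal Topology RealInnerProductSpace

namespace Pool.Agent.H225.Sp
open Pool.Agent.W778.AG

variable {n : ℕ}

theorem sum : S_SUM := Pool.Agent.W376.AG.sum_of bd

lemma Pg_abs (hn : 3 ≤ n) (k : ℕ) {t : ℝ} (ht : |t| ≤ 1) : |Pg n k t| ≤ 1 := by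
  obtain ⟨m, rfl⟩ := Nat.exists_eq_add_of_le hn
  rw [show 3 + m = m + 3 by ring]
  exact Pool.Agent.W376.AG.Pg_le bd m k ht

lemma Pg_at_one (hn : 3 ≤ n) (k : ℕ) : Pg n k 1 = 1 := by
  have hn' : (3 : ℝ) ≤ n := by exact_mod_cast hn
  induction k using Nat.twoStepInduction with
  | zero => rfl
  | one => rfl
  | more k h1 h2 =>
    show ((2 * (k : ℝ) + n) * 1 * Pg n (k + 1) 1 - ((k : ℝ) + 1) * Pg n k 1) /
      ((k : ℝ) + n - 1) = 1
    rw [h1, h2]
    have : (k : ℝ) + n - 1 ≠ 0 := by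
      have : (0 : ℝ) ≤ k := Nat.cast_nonneg k
      intro h; linarith
    rw [div_eq_one_iff_eq this]
    ring

lemma Pg_at_zero (hn : 3 ≤ n) (k : ℕ) (hk : 1 ≤ k) : |Pg n k 0| < 1 := by
  have hn' : (3 : ℝ) ≤ n := by exact_mod_cast hn
  have h : ∀ k : ℕ, |Pg n (k + 1) 0| < 1 ∧ |Pg n (k + 2) 0| < 1 := by
    intro k
    induction k with
    | zero =>
      constructor
      · show |(0 : ℝ)| < 1
        simp
      · show |((2 * ((0 : ℕ) : ℝ) + n) * 0 * Pg n 1 0 - (((0 : ℕ) : ℝ) + 1) * 1) /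
          (((0 : ℕ) : ℝ) + n - 1)| < 1
        have h0 : (0 : ℝ) < (n : ℝ) - 1 := by linarith
        rw [abs_div]
        simp only [Nat.cast_zero, mul_zero, zero_mul, zero_add, one_mul, zero_sub, abs_neg,
          abs_one]
        rw [abs_of_pos h0, div_lt_one h0]
        linarith
    | succ k ih =>
      refine ⟨ih.2, ?_⟩
      show |((2 * ((k + 1 : ℕ) : ℝ) + n) * 0 * Pg n (k + 1 + 1) 0 -
        (((k + 1 : ℕ) : ℝ) + 1) * Pg n (k + 1) 0) / (((k + 1 : ℕ) : ℝ) + n - 1)| < 1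
      have h0 : (0 : ℝ) < ((k + 1 : ℕ) : ℝ) + n - 1 := by
        push_cast
        have : (0 : ℝ) ≤ k := Nat.cast_nonneg k
        linarith
      rw [abs_div, abs_of_pos h0, div_lt_one h0]
      simp only [mul_zero, zero_mul, zero_sub, abs_neg]
      rw [abs_mul]
      have h1 : |((k + 1 : ℕ) : ℝ) + 1| = ((k + 1 : ℕ) : ℝ) + 1 := abs_of_nonneg (by positivity)
      rw [h1]
      have h2 := ih.1
      have h3 : (0 : ℝ) < ((k + 1 : ℕ) : ℝ) + 1 := by positivity
      nlinarith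
  obtain ⟨j, rfl⟩ := Nat.exists_eq_add_of_le hk
  rw [add_comm]
  exact (h j).1

lemma dk_nonneg (hn : 3 ≤ n) (k : ℕ) : 0 ≤ dk n k := by
  have hn' : (3 : ℝ) ≤ n := by exact_mod_cast hn
  unfold dk
  apply mul_nonneg
  · apply div_nonneg
    · have : (0 : ℝ) ≤ k := Nat.cast_nonneg k
      linarith
    · linarith
  · positivity

lemma dk_zero (hn : 3 ≤ n) : dk n 0 = 1 := by
  have hn' : (3 : ℝ) ≤ n := by exact_mod_cast hn
  unfold dk
  have : (n : ℝ) - 2 ≠ 0 := by intro h; linarith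
  simp [this]

lemma summable_dk (hn : 3 ≤ n) {r : ℝ} (h0 : 0 ≤ r) (h1 : r < 1) :
    Summable fun k : ℕ => r ^ k * dk n k := by
  have h := (sum n hn r h0 h1 1 (by simp)).summable
  simpa [Pg_at_one hn] using h

lemma abs_inner_le_one {u v : En n} (hu : ‖u‖ = 1) (hv : ‖v‖ = 1) : |⟪u, v⟫| ≤ 1 := by
  have := abs_real_inner_le_norm u v
  rwa [hu, hv, one_mul] at this

lemma pk_mono {r : ℝ} (h0 : 0 ≤ r) (h1 : r < 1) {s t : ℝ} (hst : s ≤ t) (ht : t ≤ 1) :
    pk n r s ≤ pk n r t := by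
  unfold pk
  have h2 : 0 < 1 - 2 * r * t + r ^ 2 := by nlinarith [sq_nonneg (1 - r), mul_nonneg h0 (sub_nonneg.2 ht)]
  have h3 : 0 < Real.sqrt (1 - 2 * r * t + r ^ 2) := Real.sqrt_pos.2 h2
  have h4 : 0 ≤ 1 - r ^ 2 := by nlinarith
  apply div_le_div_of_nonneg_left h4 (by positivity)
  apply pow_le_pow_left₀ (Real.sqrt_nonneg _)
  apply Real.sqrt_le_sqrt
  nlinarith

/-- swapping the sum and the integral -/
lemma tsum_int {Y : Type*} [MeasurableSpace Y] (hn : 3 ≤ n) {r : ℝ} (h0 : 0 ≤ r) (h1 : r < 1)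
    (τ : Measure Y) [IsFiniteMeasure τ] (f : Y → ℝ) (hf : Measurable f)
    (hf1 : ∀ᵐ y ∂τ, |f y| ≤ 1) :
    ∑' k : ℕ, r ^ k * dk n k * ∫ y, Pg n k (f y) ∂τ = ∫ y, pk n r (f y) ∂τ := by
  have hb : ∀ k, ∀ᵐ y ∂τ, ‖r ^ k * dk n k * Pg n k (f y)‖ ≤ r ^ k * dk n k := by
    intro k
    filter_upwards [hf1] with y hy
    rw [norm_mul, Real.norm_of_nonneg (mul_nonneg (pow_nonneg h0 k) (dk_nonneg hn k))]
    exact mul_le_of_le_one_right (mul_nonneg (pow_nonneg h0 k) (dk_nonneg hn k)) (Pg_abs hn k hy)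
  have hm : ∀ k, Measurable fun y => r ^ k * dk n k * Pg n k (f y) := fun k =>
    ((continuous_Pg n k).measurable.comp hf).const_mul _
  have hint : ∀ k, Integrable (fun y => r ^ k * dk n k * Pg n k (f y)) τ := fun k =>
    Integrable.of_bound (hm k).aestronglyMeasurable _ (hb k)
  have hsum : Summable fun k => ∫ y, ‖r ^ k * dk n k * Pg n k (f y)‖ ∂τ := by
    refine Summable.of_nonneg_of_le (fun k => integral_nonneg fun y => norm_nonneg _)
      (fun k => ?_) ((summable_dk hn h0 h1).mul_right (τ.real univ))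
    calc ∫ y, ‖r ^ k * dk n k * Pg n k (f y)‖ ∂τ ≤ ∫ _, r ^ k * dk n k ∂τ :=
          integral_mono_ae (hint k).norm (integrable_const _) (hb k)
      _ = r ^ k * dk n k * τ.real univ := by
          rw [integral_const, smul_eq_mul, mul_comm]
  have h2 := integral_tsum_of_summable_integral_norm hint hsum
  have h3 : ∑' k : ℕ, r ^ k * dk n k * ∫ y, Pg n k (f y) ∂τ =
      ∑' k : ℕ, ∫ y, r ^ k * dk n k * Pg n k (f y) ∂τ := by
    congr 1
    funext k
    rw [integral_const_mul]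
  rw [h3, h2]
  refine integral_congr_ae ?_
  filter_upwards [hf1] with y hy
  exact (sum n hn r h0 h1 (f y) hy).tsum_eq

/-- concentration near the angle -/
theorem conc : S_CONC := by
  intro n hn r h0 h1 α θ hα0 hα1 hθ0 hθ1
  obtain ⟨v, hv⟩ : ∃ v : En n, ‖v‖ = 1 := by
    have : Nonempty (Fin n) := ⟨⟨0, by omega⟩⟩
    have : Nontrivial (En n) := inferInstance
    exact exists_norm_eq (En n) zero_le_one
  have := nontrivial_Hp hn v hv
  obtain ⟨z0, hz0⟩ : ∃ z : Hp v, ‖z‖ = 1 := exists_norm_eq (Hp v) zero_le_one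
  set x := cr v θ z0 with hx
  have hx1 : ‖x‖ = 1 := norm_cr v θ z0 hv hz0
  have hvx : ⟪v, x⟫ = Real.cos θ := inner_v_cr v θ z0 hv
  have hae : ∀ᵐ z ∂(SM (Hp v)), |⟪cr v α z, x⟫| ≤ 1 := by
    filter_upwards [SM_ae (H := Hp v)] with z hz
    exact abs_inner_le_one (norm_cr v α z hv hz) hx1
  have hcr := continuous_cr v α
  have h2 := tsum_int hn h0 h1 (SM (Hp v)) (fun z => ⟪cr v α z, x⟫)
    (Continuous.measurable (by fun_prop)) hae
  have h3 : ∀ k : ℕ, r ^ k * dk n k * (Pg n k (Real.cos α) * Pg n k (Real.cos θ)) =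
      r ^ k * dk n k * ∫ z : Hp v, Pg n k ⟪cr v α z, x⟫ ∂(SM (Hp v)) := by
    intro k
    rw [avg_Pg hn k α v x hv hx1, hvx]
  simp_rw [h3]
  rw [h2]
  have h4 : ∀ᵐ z ∂(SM (Hp v)), pk n r ⟪cr v α z, x⟫ ≤ pk n r (Real.cos (θ - α)) := by
    filter_upwards [SM_ae (H := Hp v)] with z hz
    apply pk_mono h0 h1 _ (Real.cos_le_one _)
    rw [inner_cr v α z x hv, hvx, Real.cos_sub]
    have hs : 0 ≤ Real.sin α := Real.sin_nonneg_of_nonneg_of_le_pi hα0 hα1
    have hs' : 0 ≤ Real.sin θ := Real.sin_nonneg_of_nonneg_of_le_pi hθ0 hθ1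
    have h5 : ⟪z, pr v x hv⟫ ≤ Real.sin θ := by
      have h6 := real_inner_le_norm z (pr v x hv)
      have h7 : ‖pr v x hv‖ = Real.sin θ := by
        rw [← Real.sqrt_sq (norm_nonneg (pr v x hv)), norm_pr_sq, hx1, hvx,
          show (1 : ℝ) ^ 2 - Real.cos θ ^ 2 = Real.sin θ ^ 2 by
            have := Real.sin_sq_add_cos_sq θ; linarith, Real.sqrt_sq hs']
      rw [hz, h7, one_mul] at h6
      exact h6
    nlinarith
  have hint : Integrable (fun z => pk n r ⟪cr v α z, x⟫) (SM (Hp v)) := by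
    refine Integrable.of_bound (C := pk n r (Real.cos (θ - α))) ?_ ?_
    · exact ((Pool.Agent.W646.AG.measurable_pk n r).comp
        (Continuous.measurable (by fun_prop))).aestronglyMeasurable
    · filter_upwards [h4] with z hz
      rw [Real.norm_of_nonneg (Pool.Agent.W646.AG.pk_nonneg n h0 h1 _)]
      exact hz
  calc ∫ z, pk n r ⟪cr v α z, x⟫ ∂(SM (Hp v)) ≤
        ∫ _, pk n r (Real.cos (θ - α)) ∂(SM (Hp v)) :=
        integral_mono_ae hint (integrable_const _) h4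
    _ = _ := by
        rw [integral_const, probReal_univ, one_smul]
        rfl

/-- a swap lemma -/
lemma swap {X Y : Type*} [MeasurableSpace X] [MeasurableSpace Y] (μ : Measure X) (τ : Measure Y)
    [IsFiniteMeasure μ] [IsFiniteMeasure τ] (p : X → Prop) (q : Y → Prop)
    (hp : MeasurableSet {x | p x}) (hq : MeasurableSet {y | q y})
    (hμ : ∀ᵐ u ∂μ, p u) (hτ : ∀ᵐ y ∂τ, q y)
    (f : X → Y → ℝ) (hf : Measurable (Function.uncurry f)) (C : ℝ)
    (hC : ∀ u y, p u → q y → |f u y| ≤ C) :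
    ∫ u, ∫ y, f u y ∂τ ∂μ = ∫ y, ∫ u, f u y ∂μ ∂τ := by
  apply integral_integral_swap
  refine Integrable.of_bound hf.aestronglyMeasurable C ?_
  have hae : ∀ᵐ z ∂(μ.prod τ), p z.1 ∧ q z.2 := by
    refine (Measure.ae_prod_iff_ae_ae ?_).2 ?_
    · exact (measurable_fst hp).inter (measurable_snd hq)
    · filter_upwards [hμ] with z hz
      filter_upwards [hτ] with b hb
      exact ⟨hz, hb⟩
  filter_upwards [hae] with z hz
  exact hC z.1 z.2 hz.1 hz.2

lemma meas_norm_one {H : Type*} [NormedAddCommGroup H] [MeasurableSpace H] [BorelSpace H] :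
    MeasurableSet {x : H | ‖x‖ = 1} :=
  (isClosed_eq (by fun_prop) (by fun_prop)).measurableSet

/-- the mean value of the Poisson kernel -/
theorem mean : S_MEAN := by
  intro n hn r h0 h1 v hv g hg hfin
  have : Nonempty (Fin n) := ⟨⟨0, by omega⟩⟩
  have hntH := nontrivial_Hp hn v hv
  set μ : Measure (En n) := volume.withDensity (fun z => g ‖z‖) with hμ
  have hgm : Measurable fun z : En n => g ‖z‖ := hg.comp measurable_norm
  have : IsFiniteMeasure μ := isFiniteMeasure_withDensity hfin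
  have hμuniv : μ univ = ∫⁻ z : En n, g ‖z‖ := by
    rw [hμ, withDensity_apply _ MeasurableSet.univ, Measure.restrict_univ]
  have hdirm := Pool.Agent.W646.AG.measurable_dir (n := n)
  have hdir : ∀ᵐ z ∂μ, ‖dir z‖ = 1 := by
    have h2 : ∀ᵐ z ∂(volume : Measure (En n)), ‖dir z‖ = 1 := by
      have h3 : ∀ᵐ z ∂(volume : Measure (En n)), z ≠ 0 := by
        rw [ae_iff]; simp
      filter_upwards [h3] with z hz
      exact Pool.Agent.W646.AG.norm_dir hz
    exact (withDensity_absolutelyContinuous _ _).ae_le h2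
  have hmap : ∀ L : En n ≃ₗᵢ[ℝ] En n, MeasurePreserving L μ μ := by
    intro L
    refine ⟨L.continuous.measurable, ?_⟩
    ext s hs
    rw [Measure.map_apply L.continuous.measurable hs, hμ,
      withDensity_apply _ (L.continuous.measurable hs), withDensity_apply _ hs]
    have h2 := (L.measurePreserving.restrict_preimage hs).lintegral_comp hgm
    rw [← h2]
    simp only [L.norm_map]
  -- the moments do not depend on the unit vector
  have hinv : ∀ (k : ℕ) (w : En n), ‖w‖ = 1 →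
      ∫ z, Pg n k ⟪w, dir z⟫ ∂μ = ∫ z, Pg n k ⟪v, dir z⟫ ∂μ := by
    intro k w hw
    obtain ⟨L, hL⟩ := exists_isom v w (by rw [hv, hw])
    have h2 := (hmap L).integral_comp (L.toHomeomorph.measurableEmbedding)
      (fun z => Pg n k ⟪w, dir z⟫)
    rw [← h2]
    refine integral_congr_ae (Eventually.of_forall fun z => ?_)
    simp only
    have h3 : dir (L z) = L (dir z) := dr_map L z
    rw [h3, ← hL, L.inner_map_map]
  have hM : ∀ k : ℕ, 1 ≤ k → ∫ z, Pg n k ⟪v, dir z⟫ ∂μ = 0 := by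
    intro k hk
    set M := ∫ z, Pg n k ⟪v, dir z⟫ ∂μ with hMdef
    have h2 : ∫ y : Hp v, ∫ z, Pg n k ⟪cr v (Real.pi / 2) y, dir z⟫ ∂μ ∂(SM (Hp v)) = M := by
      have h3 : ∫ y : Hp v, ∫ z, Pg n k ⟪cr v (Real.pi / 2) y, dir z⟫ ∂μ ∂(SM (Hp v)) =
          ∫ _ : Hp v, M ∂(SM (Hp v)) := by
        refine integral_congr_ae ?_
        filter_upwards [SM_ae (H := Hp v)] with y hy
        exact hinv k _ (norm_cr v _ y hv hy)
      rw [h3, integral_const, probReal_univ, one_smul]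
    have h4 : ∫ y : Hp v, ∫ z, Pg n k ⟪cr v (Real.pi / 2) y, dir z⟫ ∂μ ∂(SM (Hp v)) =
        ∫ z, ∫ y : Hp v, Pg n k ⟪cr v (Real.pi / 2) y, dir z⟫ ∂(SM (Hp v)) ∂μ := by
      refine swap (SM (Hp v)) μ (fun y => ‖y‖ = 1) (fun z => ‖dir z‖ = 1) meas_norm_one
        (hdirm meas_norm_one) SM_ae hdir _ ?_ 1 ?_
      · have hcr := (continuous_cr v (Real.pi / 2)).measurable
        have hPg := (continuous_Pg n k).measurable
        exact hPg.comp (Measurable.inner (hcr.comp measurable_fst) (hdirm.comp measurable_snd))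
      · intro y z hy hz
        exact Pg_abs hn k (abs_inner_le_one (norm_cr v _ y hv hy) hz)
    have h5 : ∫ z, ∫ y : Hp v, Pg n k ⟪cr v (Real.pi / 2) y, dir z⟫ ∂(SM (Hp v)) ∂μ =
        Pg n k 0 * M := by
      rw [hMdef, ← integral_const_mul]
      refine integral_congr_ae ?_
      filter_upwards [hdir] with z hz
      rw [avg_Pg hn k _ v (dir z) hv hz, Real.cos_pi_div_two]
    have h6 : M = Pg n k 0 * M := by rw [← h5, ← h4, h2]
    have h7 := (abs_lt.1 (Pg_at_zero hn k hk)).2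
    have h8 : (1 - Pg n k 0) * M = 0 := by linarith
    rcases mul_eq_zero.1 h8 with h9 | h9
    · linarith
    · exact h9
  have hae : ∀ᵐ z ∂μ, |⟪v, dir z⟫| ≤ 1 := by
    filter_upwards [hdir] with z hz
    exact abs_inner_le_one hv hz
  have hmeas : Measurable fun z : En n => ⟪v, dir z⟫ := Measurable.inner measurable_const hdirm
  have h2 := tsum_int hn h0 h1 μ (fun z => ⟪v, dir z⟫) hmeas hae
  rw [tsum_eq_single 0 (by
    intro k hk
    rw [hM k (by omega), mul_zero])] at h2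
  have h3 : ∫ z, pk n r ⟪v, dir z⟫ ∂μ = μ.real univ := by
    rw [← h2, dk_zero hn]
    simp [Pg]
  have hpk0 : ∀ t, 0 ≤ pk n r t := Pool.Agent.W646.AG.pk_nonneg n h0 h1
  have hpkm : Measurable fun z : En n => pk n r ⟪v, dir z⟫ :=
    (Pool.Agent.W646.AG.measurable_pk n r).comp hmeas
  have h4 : ∫⁻ z, ENNReal.ofReal (pk n r ⟪v, dir z⟫) ∂μ = ENNReal.ofReal (μ.real univ) := by
    rw [← h3, ofReal_integral_eq_lintegral_ofReal]
    · refine Integrable.of_bound (C := pk n r 1) hpkm.aestronglyMeasurable ?_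
      filter_upwards [hae] with z hz
      rw [Real.norm_of_nonneg (hpk0 _)]
      exact pk_mono h0 h1 (abs_le.1 hz).2 le_rfl
    · exact Eventually.of_forall fun z => hpk0 _
  rw [ofReal_measureReal, hμuniv, hμ,
    lintegral_withDensity_eq_lintegral_mul _ hgm hpkm.ennreal_ofReal] at h4
  rw [← h4]
  refine lintegral_congr fun z => ?_
  simp only [Pi.mul_apply]
  rw [mul_comm]

end Pool.Agent.H225.Sp
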