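import Pool.Agent.H225.Sp4

/-!
Positive definiteness.
-/

set_option autoImplicit false
set_option linter.unusedSectionVars false

open MeasureTheory Metric Set Filter Module
open scoped ENNReal NNReal Topology RealInnerProductSpace

namespace Pool.Agent.H225.Sp
open Pool.Agent.W778.AG

variable {n : ℕ}

lemma nontrivial_En (hn : 3 ≤ n) : Nontrivial (En n) := by
  have : Nonempty (Fin n) := ⟨⟨0, by omega⟩⟩
  infer_instance

/-- the reproducing kernel -/
noncomputable def Ker (n k : ℕ) (w v : En n) : ℝ := ∫ y, Pg n k ⟪w, y⟫ * Pg n k ⟪v, y⟫ ∂(SM (En n))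

lemma Ker_map (k : ℕ) (w v : En n) (L : En n ≃ₗᵢ[ℝ] En n) : Ker n k (L w) (L v) = Ker n k w v := by
  unfold Ker
  rw [← integral_SM_map (fun y => Pg n k ⟪L w, y⟫ * Pg n k ⟪L v, y⟫) L]
  simp only [L.inner_map_map]

/-- the constant -/
noncomputable def kap (n k : ℕ) (v : En n) : ℝ := ∫ y, Pg n k ⟪v, y⟫ ^ 2 ∂(SM (En n))

lemma kap_inv (k : ℕ) (v w : En n) (hv : ‖v‖ = 1) (hw : ‖w‖ = 1) : kap n k v = kap n k w := by
  obtain ⟨L, hL⟩ := exists_isom v w (by rw [hv, hw])
  unfold kap
  rw [← integral_SM_map (fun y => Pg n k ⟪w, y⟫ ^ 2) L]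
  simp only [← hL, L.inner_map_map]

lemma kap_pos (hn : 3 ≤ n) (k : ℕ) (v : En n) (hv : ‖v‖ = 1) : 0 < kap n k v := by
  have := nontrivial_En hn
  have hcont : Continuous fun y : En n => Pg n k ⟪v, y⟫ ^ 2 := by
    have := continuous_Pg n k
    fun_prop
  have hint : Integrable (fun y : En n => Pg n k ⟪v, y⟫ ^ 2) (SM (En n)) :=
    integrable_of_ae_norm _ SM_ae _ hcont
  unfold kap
  rw [integral_pos_iff_support_of_nonneg (fun y => sq_nonneg _) hint]
  have hopen : IsOpen (Function.support fun y : En n => Pg n k ⟪v, y⟫ ^ 2) :=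
    hcont.isOpen_support
  unfold SM
  rw [Measure.map_apply measurable_dr hopen.measurableSet]
  unfold UB
  rw [Measure.smul_apply, smul_eq_mul]
  refine ENNReal.mul_pos (ENNReal.inv_ne_zero.2 measure_ball_lt_top.ne) ?_
  rw [Measure.restrict_apply (measurable_dr hopen.measurableSet)]
  -- an open set
  have hcd : ContinuousOn (dr : En n → En n) {0}ᶜ := by
    unfold dr
    refine ContinuousOn.smul (ContinuousOn.inv₀ continuous_norm.continuousOn ?_) continuousOn_id
    intro z hz
    exact norm_ne_zero_iff.2 hz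
  have hU : IsOpen ({0}ᶜ ∩ dr ⁻¹' (Function.support fun y : En n => Pg n k ⟪v, y⟫ ^ 2)) :=
    hcd.isOpen_inter_preimage isOpen_compl_singleton hopen
  have hU2 := hU.inter (isOpen_ball (x := (0 : En n)) (ε := (1 : ℝ)))
  have hne : ((({0}ᶜ : Set (En n)) ∩ dr ⁻¹' (Function.support fun y : En n =>
      Pg n k ⟪v, y⟫ ^ 2)) ∩ ball 0 1).Nonempty := by
    refine ⟨(1 / 2 : ℝ) • v, ⟨?_, ?_⟩, ?_⟩
    · simp only [mem_compl_iff, mem_singleton_iff, smul_eq_zero, not_or]
      constructor
      · norm_num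
      · intro h; rw [h, norm_zero] at hv; exact zero_ne_one hv
    · have hd : dr ((1 / 2 : ℝ) • v) = v := by
        unfold dr
        rw [norm_smul, hv, smul_smul]
        norm_num
      simp only [mem_preimage, hd, Function.mem_support]
      rw [real_inner_self_eq_norm_sq, hv, one_pow, Pg_at_one hn]
      norm_num
    · rw [mem_ball_zero_iff, norm_smul, hv]
      norm_num
  have hpos := hU2.measure_pos volume hne
  refine (lt_of_lt_of_le hpos (measure_mono ?_)).ne'
  intro z hz
  exact ⟨hz.1.2, hz.2⟩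

lemma Ker_eq (hn : 3 ≤ n) (k : ℕ) (w v : En n) (hw : ‖w‖ = 1) (hv : ‖v‖ = 1) :
    Ker n k w v = kap n k v * Pg n k ⟪w, v⟫ := by
  have := nontrivial_En hn
  have hntH := nontrivial_Hp hn v hv
  have hc1 : |⟪v, w⟫| ≤ 1 := abs_inner_le_one hv hw
  set α := Real.arccos ⟪v, w⟫ with hα
  have hcos : Real.cos α = ⟪v, w⟫ :=
    Real.cos_arccos (abs_le.1 hc1).1 (abs_le.1 hc1).2
  have h1 : ∀ z : Hp v, ‖z‖ = 1 → Ker n k (cr v α z) v = Ker n k w v := by
    intro z hz
    have hcz : ‖cr v α z‖ = 1 := norm_cr v α z hv hz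
    set L := (ℝ ∙ (w - cr v α z))ᗮ.reflection with hL
    have hLw : L w = cr v α z := Submodule.reflection_sub (by rw [hw, hcz])
    have hLv : L v = v := by
      rw [hL, Submodule.reflection_eq_self_iff, Submodule.mem_orthogonal_singleton_iff_inner_right,
        inner_sub_left, real_inner_comm v w, real_inner_comm v (cr v α z), inner_v_cr v α z hv, hcos,
        sub_self]
    conv_lhs => rw [← hLw, ← hLv]
    exact Ker_map k w v L
  have h2 : ∫ z : Hp v, Ker n k (cr v α z) v ∂(SM (Hp v)) = Ker n k w v := by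
    have h3 : ∫ z : Hp v, Ker n k (cr v α z) v ∂(SM (Hp v)) =
        ∫ _ : Hp v, Ker n k w v ∂(SM (Hp v)) := by
      refine integral_congr_ae ?_
      filter_upwards [SM_ae (H := Hp v)] with z hz
      exact h1 z hz
    rw [h3, integral_const, probReal_univ, one_smul]
  rw [← h2]
  unfold Ker
  rw [swap (SM (Hp v)) (SM (En n)) (fun z => ‖z‖ = 1) (fun y => ‖y‖ = 1) meas_norm_one
    meas_norm_one SM_ae SM_ae _ ?_ 1 ?_]
  · unfold kap
    rw [mul_comm, ← integral_const_mul]
    refine integral_congr_ae ?_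
    filter_upwards [SM_ae (H := En n)] with y hy
    rw [integral_mul_const, avg_Pg hn k α v y hv hy, hcos, real_inner_comm w v]
    ring
  · have hcr := (continuous_cr v α)
    have hPg := (continuous_Pg n k)
    refine Continuous.measurable ?_
    unfold Function.uncurry
    fun_prop
  · intro z y hz hy
    rw [abs_mul]
    exact mul_le_one₀ (Pg_abs hn k (abs_inner_le_one (norm_cr v _ z hv hz) hy)) (abs_nonneg _)
      (Pg_abs hn k (abs_inner_le_one hv hy))

lemma Sph_ae {μ : Measure (En n)} (h : Sph μ) : ∀ᵐ u ∂μ, ‖u‖ = 1 := by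
  rw [ae_iff]
  refine measure_mono_null ?_ h.2
  intro u hu
  simpa using hu

/-- the potential -/
noncomputable def FF (n k : ℕ) (μ : Measure (En n)) (y : En n) : ℝ := ∫ u, Pg n k ⟪u, y⟫ ∂μ

lemma measurable_FF (k : ℕ) (μ : Measure (En n)) [SFinite μ] : Measurable (FF n k μ) := by
  have h : StronglyMeasurable (Function.uncurry fun (y u : En n) => Pg n k ⟪u, y⟫) := by
    have hPg := (continuous_Pg n k)
    refine Continuous.stronglyMeasurable ?_
    unfold Function.uncurry
    fun_prop
  exact (h.integral_prod_right (ν := μ)).measurable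

lemma FF_le (hn : 3 ≤ n) (k : ℕ) {μ : Measure (En n)} (h : Sph μ) {y : En n} (hy : ‖y‖ = 1) :
    |FF n k μ y| ≤ 1 := by
  have := h.1
  have h2 : ∀ᵐ u ∂μ, ‖Pg n k ⟪u, y⟫‖ ≤ 1 := by
    filter_upwards [Sph_ae h] with u hu
    exact Pg_abs hn k (abs_inner_le_one hu hy)
  have := norm_integral_le_of_norm_le_const h2
  rw [probReal_univ, mul_one] at this
  exact this

lemma fm_eq (hn : 3 ≤ n) (k : ℕ) (e : En n) (he : ‖e‖ = 1) {μ μ' : Measure (En n)} (h : Sph μ)
    (h' : Sph μ') : kap n k e * fm n k μ μ' = ∫ y, FF n k μ y * FF n k μ' y ∂(SM (En n)) := by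
  have := nontrivial_En hn
  have := h.1
  have := h'.1
  have hPg := (continuous_Pg n k)
  unfold fm
  rw [← integral_const_mul]
  have h1 : ∫ u, kap n k e * ∫ v, Pg n k ⟪u, v⟫ ∂μ' ∂μ =
      ∫ u, ∫ y, Pg n k ⟪u, y⟫ * FF n k μ' y ∂(SM (En n)) ∂μ := by
    refine integral_congr_ae ?_
    filter_upwards [Sph_ae h] with u hu
    rw [← integral_const_mul]
    have h2 : ∫ v, kap n k e * Pg n k ⟪u, v⟫ ∂μ' = ∫ v, Ker n k u v ∂μ' := by
      refine integral_congr_ae ?_
      filter_upwards [Sph_ae h'] with v hv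
      rw [Ker_eq hn k u v hu hv, kap_inv k e v he hv]
    rw [h2]
    unfold Ker
    rw [swap μ' (SM (En n)) (fun z => ‖z‖ = 1) (fun y => ‖y‖ = 1) meas_norm_one
      meas_norm_one (Sph_ae h') SM_ae _ ?_ 1 ?_]
    · refine integral_congr_ae (Eventually.of_forall fun y => ?_)
      simp only
      rw [integral_const_mul]
      rfl
    · refine Continuous.measurable ?_
      unfold Function.uncurry
      fun_prop
    · intro v y hv hy
      rw [abs_mul]
      exact mul_le_one₀ (Pg_abs hn k (abs_inner_le_one hu hy)) (abs_nonneg _)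
        (Pg_abs hn k (abs_inner_le_one hv hy))
  rw [h1, swap μ (SM (En n)) (fun z => ‖z‖ = 1) (fun y => ‖y‖ = 1) meas_norm_one
      meas_norm_one (Sph_ae h) SM_ae _ ?_ 1 ?_]
  · refine integral_congr_ae (Eventually.of_forall fun y => ?_)
    simp only
    rw [integral_mul_const]
    rfl
  · have h3 := measurable_FF k μ'
    have h4 : Measurable (Function.uncurry fun (u y : En n) => Pg n k ⟪u, y⟫) := by
      refine Continuous.measurable ?_
      unfold Function.uncurry
      fun_prop
    exact h4.mul (h3.comp measurable_snd)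
  · intro u y hu hy
    rw [abs_mul]
    exact mul_le_one₀ (Pg_abs hn k (abs_inner_le_one hu hy)) (abs_nonneg _) (FF_le hn k h' hy)

/-- positive definiteness -/
theorem psd : S_PSD := by
  intro n k J hn μ a hμ
  have := nontrivial_En hn
  obtain ⟨e, he⟩ := exists_norm_eq (En n) (zero_le_one' ℝ)
  have hk := kap_pos hn k e he
  have hint : ∀ i j, Integrable (fun y => FF n k (μ i) y * FF n k (μ j) y) (SM (En n)) := by
    intro i j
    have := (hμ i).1
    have := (hμ j).1
    refine Integrable.of_bound (C := 1)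
      ((measurable_FF k (μ i)).mul (measurable_FF k (μ j))).aestronglyMeasurable ?_
    filter_upwards [SM_ae (H := En n)] with y hy
    rw [Real.norm_eq_abs, abs_mul]
    exact mul_le_one₀ (FF_le hn k (hμ i) hy) (abs_nonneg _) (FF_le hn k (hμ j) hy)
  have h1 : kap n k e * ∑ i, ∑ j, a i * a j * fm n k (μ i) (μ j) =
      ∫ y, (∑ i, a i * FF n k (μ i) y) ^ 2 ∂(SM (En n)) := by
    have h2 : ∀ y, (∑ i, a i * FF n k (μ i) y) ^ 2 =
        ∑ i, ∑ j, (a i * a j) * (FF n k (μ i) y * FF n k (μ j) y) := by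
      intro y
      rw [sq, Finset.sum_mul_sum]
      refine Finset.sum_congr rfl fun i _ => Finset.sum_congr rfl fun j _ => ?_
      ring
    simp_rw [h2]
    rw [integral_finsetSum _ fun i _ => integrable_finsetSum _ fun j _ => (hint i j).const_mul _,
      Finset.mul_sum]
    refine Finset.sum_congr rfl fun i _ => ?_
    rw [integral_finsetSum _ fun j _ => (hint i j).const_mul _, Finset.mul_sum]
    refine Finset.sum_congr rfl fun j _ => ?_
    rw [integral_const_mul, ← fm_eq hn k e he (hμ i) (hμ j)]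
    ring
  have h3 : 0 ≤ kap n k e * ∑ i, ∑ j, a i * a j * fm n k (μ i) (μ j) := by
    rw [h1]
    exact integral_nonneg fun y => sq_nonneg _
  exact nonneg_of_mul_nonneg_right h3 hk

end Pool.Agent.H225.Sp
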