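import Pool.Agent.H225.Sp5
import Pool.Graph.R_seed8.W646.AG.Const

/-!
The sphere lemma.
-/

set_option autoImplicit false
set_option linter.unusedSectionVars false

open MeasureTheory Metric Set Filter Module
open scoped ENNReal NNReal Topology RealInnerProductSpace

namespace Pool.Agent.H225.Sp
open Pool.Agent.W778.AG

variable {n : ℕ}

lemma sum_split {J : ℕ} (g : Fin J → Fin J → ℝ) :
    ∑ i, ∑ j, g i j = ∑ i, g i i +
      ∑ i, ∑ j ∈ Finset.univ.filter (fun j => i < j), (g i j + g j i) := by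
  have h1 : ∀ i j : Fin J, g i j = (if i = j then g i j else 0) + (if i < j then g i j else 0) +
      (if j < i then g i j else 0) := by
    intro i j
    rcases lt_trichotomy i j with h | h | h
    · simp [h, h.ne, h.not_gt]
    · subst h; simp
    · simp [h, h.ne', h.not_gt]
  have h2 : ∑ i, ∑ j, g i j = ∑ i, ∑ j, ((if i = j then g i j else 0) +
      (if i < j then g i j else 0) + (if j < i then g i j else 0)) :=
    Finset.sum_congr rfl fun i _ => Finset.sum_congr rfl fun j _ => h1 i j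
  rw [h2]
  simp only [Finset.sum_add_distrib, Finset.sum_filter]
  rw [Finset.sum_comm (f := fun i j => if j < i then g i j else 0)]
  simp [add_assoc]

lemma card_pairs (J : ℕ) : ∑ i : Fin J, ∑ _j ∈ Finset.univ.filter (fun j => i < j), (1 : ℝ) =
    (J : ℝ) * (J - 1) / 2 := by
  have h := sum_split (J := J) (fun _ _ => (1 : ℝ))
  have h2 : ∑ i : Fin J, ∑ j ∈ Finset.univ.filter (fun j => i < j), ((1 : ℝ) + 1) =
      2 * ∑ i : Fin J, ∑ j ∈ Finset.univ.filter (fun j => i < j), (1 : ℝ) := by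
    rw [Finset.mul_sum]
    refine Finset.sum_congr rfl fun i _ => ?_
    rw [Finset.mul_sum]
    refine Finset.sum_congr rfl fun j _ => by norm_num
  rw [h2] at h
  simp only [Finset.sum_const, Finset.card_univ, Fintype.card_fin, nsmul_eq_mul, mul_one] at h
  simp only [Finset.sum_const, nsmul_eq_mul, mul_one]
  linarith

lemma fm_prod (hn : 3 ≤ n) (k : ℕ) {μ μ' : Measure (En n)} (h : Sph μ) (h' : Sph μ') :
    fm n k μ μ' = ∫ p : En n × En n, Pg n k ⟪p.1, p.2⟫ ∂(μ.prod μ') := by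
  have := h.1
  have := h'.1
  unfold fm
  rw [integral_prod]
  have hPg := (continuous_Pg n k)
  refine Integrable.of_bound (C := 1) (Continuous.aestronglyMeasurable (by fun_prop)) ?_
  have hae : ∀ᵐ z ∂(μ.prod μ'), ‖z.1‖ = 1 ∧ ‖z.2‖ = 1 := by
    refine (Measure.ae_prod_iff_ae_ae ?_).2 ?_
    · exact (measurable_fst meas_norm_one).inter (measurable_snd meas_norm_one)
    · filter_upwards [Sph_ae h] with z hz
      filter_upwards [Sph_ae h'] with b hb
      exact ⟨hz, hb⟩
  filter_upwards [hae] with z hz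
  exact Pg_abs hn k (abs_inner_le_one hz.1 hz.2)

lemma prod_ae {μ μ' : Measure (En n)} (h : Sph μ) (h' : Sph μ') :
    ∀ᵐ z ∂(μ.prod μ'), ‖z.1‖ = 1 ∧ ‖z.2‖ = 1 := by
  have := h.1
  have := h'.1
  refine (Measure.ae_prod_iff_ae_ae ?_).2 ?_
  · exact (measurable_fst meas_norm_one).inter (measurable_snd meas_norm_one)
  · filter_upwards [Sph_ae h] with z hz
    filter_upwards [Sph_ae h'] with b hb
    exact ⟨hz, hb⟩

lemma fm_abs (hn : 3 ≤ n) (k : ℕ) {μ μ' : Measure (En n)} (h : Sph μ) (h' : Sph μ') :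
    |fm n k μ μ'| ≤ 1 := by
  have := h.1
  have := h'.1
  rw [fm_prod hn k h h']
  have h2 : ∀ᵐ p ∂(μ.prod μ'), ‖Pg n k ⟪p.1, p.2⟫‖ ≤ 1 := by
    filter_upwards [prod_ae h h'] with p hp
    exact Pg_abs hn k (abs_inner_le_one hp.1 hp.2)
  have := norm_integral_le_of_norm_le_const h2
  rw [probReal_univ, mul_one] at this
  exact this

lemma fm_symm (hn : 3 ≤ n) (k : ℕ) {μ μ' : Measure (En n)} (h : Sph μ) (h' : Sph μ') :
    fm n k μ μ' = fm n k μ' μ := by
  have := h.1
  have := h'.1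
  unfold fm
  rw [swap μ μ' (fun z => ‖z‖ = 1) (fun y => ‖y‖ = 1) meas_norm_one
      meas_norm_one (Sph_ae h) (Sph_ae h') _ ?_ 1 ?_]
  · refine integral_congr_ae (Eventually.of_forall fun y => integral_congr_ae
      (Eventually.of_forall fun u => ?_))
    simp only
    rw [real_inner_comm]
  · have hPg := (continuous_Pg n k)
    refine Continuous.measurable ?_
    unfold Function.uncurry
    fun_prop
  · intro u v hu hv
    exact Pg_abs hn k (abs_inner_le_one hu hv)

lemma fm_zero {μ μ' : Measure (En n)} (h : Sph μ) (h' : Sph μ') : fm n 0 μ μ' = 1 := by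
  have := h.1
  have := h'.1
  unfold fm
  simp [Pg]

lemma fm_self (hn : 3 ≤ n) (k : ℕ) {μ : Measure (En n)} (h : Sph μ) : 0 ≤ fm n k μ μ := by
  have := psd n k 1 hn (fun _ => μ) (fun _ => 1) (fun _ => h)
  simpa using this

lemma fm_pair (hn : 3 ≤ n) (k : ℕ) {μ μ' : Measure (En n)} (h : Sph μ) (h' : Sph μ') :
    |fm n k μ μ'| ≤ (fm n k μ μ + fm n k μ' μ') / 2 := by
  have hs : ∀ i, Sph ((![μ, μ'] : Fin 2 → Measure (En n)) i) := by
    intro i; fin_cases i
    · exact h
    · exact h'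
  have h1 := psd n k 2 hn ![μ, μ'] ![1, 1] hs
  have h2 := psd n k 2 hn ![μ, μ'] ![1, -1] hs
  simp only [Fin.sum_univ_two, Matrix.cons_val_zero, Matrix.cons_val_one, 
    one_mul, mul_one, mul_neg, neg_mul, neg_neg] at h1 h2
  rw [fm_symm hn k h' h] at h1 h2
  rw [abs_le]
  constructor <;> linarith

lemma low_bound (hn : 3 ≤ n) (k : ℕ) {J : ℕ} (μ : Fin J → Measure (En n)) (h : ∀ i, Sph (μ i)) :
    -(1 / 2) * ∑ i, fm n k (μ i) (μ i) ≤
      ∑ i, ∑ j ∈ Finset.univ.filter (fun j => i < j), fm n k (μ i) (μ j) := by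
  have h1 := psd n k J hn μ (fun _ => 1) h
  simp only [one_mul] at h1
  rw [sum_split] at h1
  have h2 : ∑ i, ∑ j ∈ Finset.univ.filter (fun j => i < j),
      (fm n k (μ i) (μ j) + fm n k (μ j) (μ i)) =
      2 * ∑ i, ∑ j ∈ Finset.univ.filter (fun j => i < j), fm n k (μ i) (μ j) := by
    rw [Finset.mul_sum]
    refine Finset.sum_congr rfl fun i _ => ?_
    rw [Finset.mul_sum]
    refine Finset.sum_congr rfl fun j _ => ?_
    rw [fm_symm hn k (h j) (h i)]
    ring
  rw [h2] at h1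
  linarith

lemma high_bound (hn : 3 ≤ n) (k : ℕ) {J : ℕ} (μ : Fin J → Measure (En n))
    (h : ∀ i, Sph (μ i)) :
    |∑ i, ∑ j ∈ Finset.univ.filter (fun j => i < j), fm n k (μ i) (μ j)| ≤
      (J : ℝ) / 2 * ∑ i, fm n k (μ i) (μ i) := by
  have h1 : |∑ i, ∑ j ∈ Finset.univ.filter (fun j => i < j), fm n k (μ i) (μ j)| ≤
      ∑ i, ∑ j ∈ Finset.univ.filter (fun j => i < j),
        (fm n k (μ i) (μ i) + fm n k (μ j) (μ j)) / 2 := by
    refine (Finset.abs_sum_le_sum_abs _ _).trans (Finset.sum_le_sum fun i _ => ?_)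
    refine (Finset.abs_sum_le_sum_abs _ _).trans (Finset.sum_le_sum fun j _ => ?_)
    exact fm_pair hn k (h i) (h j)
  refine h1.trans ?_
  have h2 := sum_split (J := J) (fun i _ => fm n k (μ i) (μ i))
  have h3 : ∑ i, ∑ j ∈ Finset.univ.filter (fun j => i < j),
        (fm n k (μ i) (μ i) + fm n k (μ j) (μ j)) / 2 =
      (1 / 2) * ∑ i, ∑ j ∈ Finset.univ.filter (fun j => i < j),
        (fm n k (μ i) (μ i) + fm n k (μ j) (μ j)) := by
    rw [Finset.mul_sum]
    refine Finset.sum_congr rfl fun i _ => ?_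
    rw [Finset.mul_sum]
    refine Finset.sum_congr rfl fun j _ => ?_
    ring
  rw [h3]
  have h4 : ∑ i : Fin J, ∑ _j : Fin J, fm n k (μ i) (μ i) =
      J * ∑ i, fm n k (μ i) (μ i) := by
    rw [Finset.mul_sum]
    refine Finset.sum_congr rfl fun i _ => ?_
    rw [Finset.sum_const, Finset.card_univ, Fintype.card_fin, nsmul_eq_mul]
  have h5 : 0 ≤ ∑ i, fm n k (μ i) (μ i) := Finset.sum_nonneg fun i _ => fm_self hn k (h i)
  linarith

lemma summable_fm (hn : 3 ≤ n) {r : ℝ} (h0 : 0 ≤ r) (h1 : r < 1) (c : ℕ → ℝ)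
    (hc : ∀ k, |c k| ≤ 1) {μ μ' : Measure (En n)} (h : Sph μ) (h' : Sph μ') :
    Summable fun k => r ^ k * dk n k * (c k * fm n k μ μ') := by
  refine Summable.of_norm_bounded (summable_dk hn h0 h1) fun k => ?_
  rw [norm_mul, Real.norm_of_nonneg (mul_nonneg (pow_nonneg h0 k) (dk_nonneg hn k))]
  refine mul_le_of_le_one_right (mul_nonneg (pow_nonneg h0 k) (dk_nonneg hn k)) ?_
  rw [norm_mul]
  exact mul_le_one₀ (hc k) (norm_nonneg _) (fm_abs hn k h h')

/-- swapping the sum and the integral, with coefficients -/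
lemma tsum_int2 (hn : 3 ≤ n) {r : ℝ} (h0 : 0 ≤ r) (h1 : r < 1) (c : ℕ → ℝ)
    (hc : ∀ k, |c k| ≤ 1) {μ μ' : Measure (En n)} (h : Sph μ) (h' : Sph μ') :
    ∑' k : ℕ, r ^ k * dk n k * (c k * fm n k μ μ') =
      ∫ p : En n × En n, ∑' k : ℕ, r ^ k * dk n k * (c k * Pg n k ⟪p.1, p.2⟫) ∂(μ.prod μ') := by
  have := h.1
  have := h'.1
  have hb : ∀ k, ∀ᵐ p ∂(μ.prod μ'), ‖r ^ k * dk n k * (c k * Pg n k ⟪p.1, p.2⟫)‖ ≤
      r ^ k * dk n k := by
    intro k
    filter_upwards [prod_ae h h'] with p hp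
    rw [norm_mul, Real.norm_of_nonneg (mul_nonneg (pow_nonneg h0 k) (dk_nonneg hn k))]
    refine mul_le_of_le_one_right (mul_nonneg (pow_nonneg h0 k) (dk_nonneg hn k)) ?_
    rw [norm_mul]
    exact mul_le_one₀ (hc k) (norm_nonneg _) (Pg_abs hn k (abs_inner_le_one hp.1 hp.2))
  have hm : ∀ k, Measurable fun p : En n × En n => r ^ k * dk n k * (c k * Pg n k ⟪p.1, p.2⟫) := by
    intro k
    have hPg := (continuous_Pg n k)
    refine Continuous.measurable ?_
    fun_prop
  have hint : ∀ k, Integrable (fun p : En n × En n => r ^ k * dk n k *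
      (c k * Pg n k ⟪p.1, p.2⟫)) (μ.prod μ') := fun k =>
    Integrable.of_bound (hm k).aestronglyMeasurable _ (hb k)
  have hsum : Summable fun k => ∫ p : En n × En n, ‖r ^ k * dk n k *
      (c k * Pg n k ⟪p.1, p.2⟫)‖ ∂(μ.prod μ') := by
    refine Summable.of_nonneg_of_le (fun k => integral_nonneg fun y => norm_nonneg _)
      (fun k => ?_) (summable_dk hn h0 h1)
    calc ∫ p : En n × En n, ‖r ^ k * dk n k * (c k * Pg n k ⟪p.1, p.2⟫)‖ ∂(μ.prod μ') ≤
          ∫ _, r ^ k * dk n k ∂(μ.prod μ') :=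
          integral_mono_ae (hint k).norm (integrable_const _) (hb k)
      _ = r ^ k * dk n k := by
          rw [integral_const, probReal_univ, one_smul]
  rw [← integral_tsum_of_summable_integral_norm hint hsum]
  congr 1
  funext k
  rw [integral_const_mul, integral_const_mul, ← fm_prod hn k h h']

/-- pointwise bound for the self interaction -/
lemma self_bound (hn : 3 ≤ n) {r : ℝ} (h0 : 0 < r) (h1 : r < 1) {μ : Measure (En n)} (h : Sph μ)
    (B : ℝ) (hB : ∀ v : En n, ‖v‖ = 1 → ∫ u, pk n r ⟪v, u⟫ ∂μ ≤ B) (S : Finset ℕ) :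
    ∑ k ∈ S, r ^ k * dk n k * fm n k μ μ ≤ B := by
  have := h.1
  have hs := summable_fm hn h0.le h1 (fun _ => 1) (fun _ => by simp) h h
  have ht := tsum_int2 hn h0.le h1 (fun _ => 1) (fun _ => by simp) h h
  simp only [one_mul] at hs ht
  have h2 : ∑ k ∈ S, r ^ k * dk n k * fm n k μ μ ≤ ∑' k : ℕ, r ^ k * dk n k * fm n k μ μ := by
    refine hs.sum_le_tsum S fun k _ => ?_
    exact mul_nonneg (mul_nonneg (pow_nonneg h0.le k) (dk_nonneg hn k)) (fm_self hn k h)
  refine h2.trans ?_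
  rw [ht]
  have hpkm := Pool.Agent.W646.AG.measurable_pk n r
  have h3 : ∫ p : En n × En n, ∑' k : ℕ, r ^ k * dk n k * Pg n k ⟪p.1, p.2⟫ ∂(μ.prod μ) =
      ∫ p : En n × En n, pk n r ⟪p.1, p.2⟫ ∂(μ.prod μ) := by
    refine integral_congr_ae ?_
    filter_upwards [prod_ae h h] with p hp
    exact (sum n hn r h0.le h1 _ (abs_inner_le_one hp.1 hp.2)).tsum_eq
  have hint : Integrable (fun p : En n × En n => pk n r ⟪p.1, p.2⟫) (μ.prod μ) := by
    refine Integrable.of_bound (C := pk n r 1) ?_ ?_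
    · exact (hpkm.comp (Continuous.measurable (by fun_prop))).aestronglyMeasurable
    · filter_upwards [prod_ae h h] with p hp
      rw [Real.norm_of_nonneg (Pool.Agent.W646.AG.pk_nonneg n h0.le h1 _)]
      exact pk_mono h0.le h1 (abs_le.1 (abs_inner_le_one hp.1 hp.2)).2 le_rfl
  rw [h3, integral_prod _ hint]
  calc ∫ x, ∫ y, pk n r ⟪x, y⟫ ∂μ ∂μ ≤ ∫ _, B ∂μ := by
        refine integral_mono_ae ?_ (integrable_const _) ?_
        · exact hint.integral_prod_left
        · filter_upwards [Sph_ae h] with x hx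
          exact hB x hx
    _ = B := by rw [integral_const, probReal_univ, one_smul]

end Pool.Agent.H225.Sp
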