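import Pool.Agent.H225.Sp6

/-!
The sphere lemma, main part.
-/

set_option autoImplicit false
set_option linter.unusedSectionVars false

open MeasureTheory Metric Set Filter Module
open scoped ENNReal NNReal Topology RealInnerProductSpace

namespace Pool.Agent.H225.Sp
open Pool.Agent.W778.AG

variable {n : ℕ}

lemma wf_cont (α : ℝ) : Continuous (wf α) := by
  unfold wf
  fun_prop

lemma wf_mem {α φ : ℝ} (h0 : 0 < α) (h1 : α < Real.pi) (hc : Real.cos α ≠ 0)
    (hφ : φ ∈ Ioo (0 : ℝ) Real.pi) : wf α φ ∈ Ioo (0 : ℝ) 1 := by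
  have hs : 0 < Real.sin α := Real.sin_pos_of_pos_of_lt_pi h0 h1
  have hs1 : Real.sin α ^ 2 < 1 := by
    have h2 := Real.sin_sq_add_cos_sq α
    have h3 : 0 < Real.cos α ^ 2 := by positivity
    linarith
  have ht : 0 < Real.sin φ := Real.sin_pos_of_pos_of_lt_pi hφ.1 hφ.2
  have ht1 : Real.sin φ ^ 2 ≤ 1 := Real.sin_sq_le_one φ
  have h4 : 0 < (Real.sin α * Real.sin φ) ^ 2 := by positivity
  have h5 : (Real.sin α * Real.sin φ) ^ 2 < 1 := by
    rw [mul_pow]
    have : 0 < Real.sin α ^ 2 := by positivity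
    nlinarith
  unfold wf
  constructor
  · apply Real.sqrt_pos.2; linarith
  · rw [Real.sqrt_lt' one_pos]
    linarith

/-- Laplace type bound for the self interaction -/
lemma LE_bound (hn : 3 ≤ n) {μ : Measure (En n)} (h : Sph μ) (D : ℝ) (Γ : ℝ → ℝ)
    (hB : ∀ r ∈ Ioo (0 : ℝ) 1, ∀ v : En n, ‖v‖ = 1 → ∫ u, pk n r ⟪v, u⟫ ∂μ ≤ D * Γ r)
    (c w : ℝ → ℝ) (hc : Continuous c) (hw : Continuous w) (hc0 : ∀ φ, 0 ≤ c φ)
    (hw1 : ∀ φ ∈ Ioo (0 : ℝ) Real.pi, w φ ∈ Ioo (0 : ℝ) 1)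
    (hint : IntervalIntegrable (fun φ => c φ * Γ (w φ) * Real.sin φ ^ (n - 3)) volume 0 Real.pi)
    (S : Finset ℕ) :
    ∑ k ∈ S, dk n k * LE n (fun φ => c φ * w φ ^ k) * fm n k μ μ ≤
      D * LE n (fun φ => c φ * Γ (w φ)) := by
  have hW : 0 < ∫ φ in (0 : ℝ)..Real.pi, Real.sin φ ^ (n - 3) := W_pos (n - 3)
  unfold Pool.Agent.W778.AG.LE
  have h1 : ∑ k ∈ S, dk n k * ((∫ φ in (0 : ℝ)..Real.pi, c φ * w φ ^ k * Real.sin φ ^ (n - 3)) /
      ∫ φ in (0 : ℝ)..Real.pi, Real.sin φ ^ (n - 3)) * fm n k μ μ =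
      (∫ φ in (0 : ℝ)..Real.pi, ∑ k ∈ S, (dk n k * fm n k μ μ) * (c φ * w φ ^ k *
        Real.sin φ ^ (n - 3))) / ∫ φ in (0 : ℝ)..Real.pi, Real.sin φ ^ (n - 3) := by
    rw [intervalIntegral.integral_finsetSum, Finset.sum_div]
    · refine Finset.sum_congr rfl fun k _ => ?_
      rw [intervalIntegral.integral_const_mul]
      ring
    · intro k _
      refine Continuous.intervalIntegrable ?_ _ _
      fun_prop
  rw [h1, ← mul_div_assoc]
  apply div_le_div_of_nonneg_right _ hW.le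
  rw [← intervalIntegral.integral_const_mul]
  refine intervalIntegral.integral_mono_on_of_le_Ioo Real.pi_pos.le ?_ ?_ ?_
  · refine Continuous.intervalIntegrable ?_ _ _
    fun_prop
  · exact hint.const_mul D
  · intro φ hφ
    have h2 := self_bound hn (hw1 φ hφ).1 (hw1 φ hφ).2 h (D * Γ (w φ)) (hB _ (hw1 φ hφ)) S
    have h3 : 0 ≤ Real.sin φ ^ (n - 3) :=
      pow_nonneg (Real.sin_nonneg_of_nonneg_of_le_pi hφ.1.le hφ.2.le) _
    calc ∑ k ∈ S, (dk n k * fm n k μ μ) * (c φ * w φ ^ k * Real.sin φ ^ (n - 3)) =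
          (∑ k ∈ S, w φ ^ k * dk n k * fm n k μ μ) * (c φ * Real.sin φ ^ (n - 3)) := by
          rw [Finset.sum_mul]
          refine Finset.sum_congr rfl fun k _ => by ring
      _ ≤ (D * Γ (w φ)) * (c φ * Real.sin φ ^ (n - 3)) :=
          mul_le_mul_of_nonneg_right h2 (mul_nonneg (hc0 φ) h3)
      _ = _ := by ring

/-- the sum over pairs -/
noncomputable def Sk (n k : ℕ) {J : ℕ} (μ : Fin J → Measure (En n)) : ℝ :=
  ∑ i, ∑ j ∈ Finset.univ.filter (fun j => i < j), fm n k (μ i) (μ j)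

/-- the full sum -/
noncomputable def Tr (n : ℕ) (α : ℝ) {J : ℕ} (μ : Fin J → Measure (En n)) (r : ℝ) : ℝ :=
  ∑' k : ℕ, r ^ k * dk n k * (Pg n k (Real.cos α) * Sk n k μ)

/-- the odd part of low degree -/
noncomputable def Or (n q : ℕ) (α : ℝ) {J : ℕ} (μ : Fin J → Measure (En n)) (r : ℝ) : ℝ :=
  ∑ k ∈ (Finset.range (2 * q)).filter (fun k => Odd k),
    r ^ k * dk n k * (Pg n k (Real.cos α) * Sk n k μ)

lemma Or_one (q : ℕ) (α : ℝ) {J : ℕ} (μ : Fin J → Measure (En n)) :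
    Or n q α μ 1 = ∑ i, ∑ j ∈ Finset.univ.filter (fun j => i < j), Of n q α (μ i) (μ j) := by
  unfold Or Of Sk
  simp only [one_pow, one_mul, Finset.mul_sum]
  rw [Finset.sum_comm]
  refine Finset.sum_congr rfl fun i _ => ?_
  rw [Finset.sum_comm]
  refine Finset.sum_congr rfl fun j _ => ?_
  refine Finset.sum_congr rfl fun k _ => ?_
  ring

lemma Or_cont (q : ℕ) (α : ℝ) {J : ℕ} (μ : Fin J → Measure (En n)) :
    Continuous (Or n q α μ) := by
  unfold Or
  fun_prop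

lemma summable_Tr (hn : 3 ≤ n) (α : ℝ) {J : ℕ} (μ : Fin J → Measure (En n))
    (h : ∀ i, Sph (μ i)) {r : ℝ} (h0 : 0 ≤ r) (h1 : r < 1) :
    Summable fun k => r ^ k * dk n k * (Pg n k (Real.cos α) * Sk n k μ) := by
  have h2 : ∀ k, r ^ k * dk n k * (Pg n k (Real.cos α) * Sk n k μ) =
      ∑ i, ∑ j ∈ Finset.univ.filter (fun j => i < j),
        r ^ k * dk n k * (Pg n k (Real.cos α) * fm n k (μ i) (μ j)) := by
    intro k
    unfold Sk
    simp only [Finset.mul_sum]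
  simp_rw [h2]
  refine summable_sum fun i _ => summable_sum fun j _ => ?_
  exact summable_fm hn h0 h1 _ (fun k => Pg_abs hn k (Real.abs_cos_le_one α)) (h i) (h j)

lemma Tr_eq (hn : 3 ≤ n) (α : ℝ) {J : ℕ} (μ : Fin J → Measure (En n))
    (h : ∀ i, Sph (μ i)) {r : ℝ} (h0 : 0 ≤ r) (h1 : r < 1) :
    Tr n α μ r = ∑ i, ∑ j ∈ Finset.univ.filter (fun j => i < j),
        ∑' k : ℕ, r ^ k * dk n k * (Pg n k (Real.cos α) * fm n k (μ i) (μ j)) := by
  have h2 : ∀ k, r ^ k * dk n k * (Pg n k (Real.cos α) * Sk n k μ) =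
      ∑ i, ∑ j ∈ Finset.univ.filter (fun j => i < j),
        r ^ k * dk n k * (Pg n k (Real.cos α) * fm n k (μ i) (μ j)) := by
    intro k
    unfold Sk
    simp only [Finset.mul_sum]
  have hs : ∀ i j, Summable fun k => r ^ k * dk n k * (Pg n k (Real.cos α) *
      fm n k (μ i) (μ j)) := fun i j =>
    summable_fm hn h0 h1 _ (fun k => Pg_abs hn k (Real.abs_cos_le_one α)) (h i) (h j)
  unfold Tr
  simp_rw [h2]
  rw [Summable.tsum_finsetSum fun i _ => summable_sum fun j _ => hs i j]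
  refine Finset.sum_congr rfl fun i _ => ?_
  rw [Summable.tsum_finsetSum fun j _ => hs i j]

/-- lower bound -/
lemma Tr_lower (hn : 3 ≤ n) (q J : ℕ) (α : ℝ) (Γ : ℝ → ℝ) (η' η : ℝ)
    (μ : Fin J → Measure (En n)) (D : Fin J → ℝ) (hα0 : 0 < α) (hα1 : α < Real.pi)
    (hcos : Real.cos α ≠ 0)
    (heven : ∀ k < 2 * q, Even k → 0 ≤ Pg n k (Real.cos α))
    (hint1 : IntervalIntegrable (fun φ => Γ (wf α φ) * Real.sin φ ^ (n - 3)) volume 0 Real.pi)
    (hint2 : IntervalIntegrable (fun φ => wf α φ ^ q * Γ (Real.sqrt (wf α φ)) *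
      Real.sin φ ^ (n - 3)) volume 0 Real.pi)
    (hη' : LE n (fun φ => Γ (wf α φ)) ≤ η')
    (hη : LE n (fun φ => wf α φ ^ q * Γ (Real.sqrt (wf α φ))) ≤ η)
    (h : ∀ i, Sph (μ i)) (hD : ∀ i, 0 ≤ D i)
    (hB : ∀ i, ∀ r ∈ Ioo (0 : ℝ) 1, ∀ v : En n, ‖v‖ = 1 →
      ∫ u, pk n r ⟪v, u⟫ ∂(μ i) ≤ D i * Γ r)
    {r : ℝ} (h0 : 0 ≤ r) (h1 : r < 1) :
    (J : ℝ) * (J - 1) / 2 + Or n q α μ r - (η' + J * η) / 2 * ∑ i, D i ≤ Tr n α μ r := by
  have hsum := summable_Tr hn α μ h h0 h1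
  have htend := hsum.hasSum.tendsto_sum_nat
  refine ge_of_tendsto htend ?_
  filter_upwards [eventually_ge_atTop (2 * q + 1)] with N hN
  -- the bounding terms
  set g : ℕ → ℝ := fun k => if k = 0 then (J : ℝ) * (J - 1) / 2 else
    if Odd k ∧ k < 2 * q then r ^ k * dk n k * (Pg n k (Real.cos α) * Sk n k μ) else
    if k < 2 * q then -(1 / 2) * ∑ i, dk n k * LE n (fun φ => 1 * wf α φ ^ k) *
      fm n k (μ i) (μ i) else
      -((J : ℝ) / 2) * ∑ i, dk n k * LE n (fun φ => wf α φ ^ q * (Real.sqrt (wf α φ)) ^ k) *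
      fm n k (μ i) (μ i) with hg
  have hLE1 : ∀ k, |Pg n k (Real.cos α)| ≤ LE n (fun φ => 1 * wf α φ ^ k) := by
    intro k
    simp only [one_mul]
    exact bd n k hn α
  have hLE2 : ∀ k, 2 * q ≤ k → LE n (fun φ => 1 * wf α φ ^ k) ≤
      LE n (fun φ => wf α φ ^ q * (Real.sqrt (wf α φ)) ^ k) := by
    intro k hk
    unfold Pool.Agent.W778.AG.LE
    have hW : 0 < ∫ φ in (0 : ℝ)..Real.pi, Real.sin φ ^ (n - 3) := W_pos (n - 3)
    apply div_le_div_of_nonneg_right _ hW.le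
    have hwc := wf_cont α
    refine intervalIntegral.integral_mono_on_of_le_Ioo Real.pi_pos.le ?_ ?_ ?_
    · refine Continuous.intervalIntegrable ?_ _ _
      fun_prop
    · refine Continuous.intervalIntegrable ?_ _ _
      fun_prop
    · intro φ hφ
      have hw := wf_mem hα0 hα1 hcos hφ
      have h3 : 0 ≤ Real.sin φ ^ (n - 3) :=
        pow_nonneg (Real.sin_nonneg_of_nonneg_of_le_pi hφ.1.le hφ.2.le) _
      apply mul_le_mul_of_nonneg_right _ h3
      set s := Real.sqrt (wf α φ) with hs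
      have hs2 : wf α φ = s ^ 2 := (Real.sq_sqrt hw.1.le).symm
      have hs0 : 0 ≤ s := Real.sqrt_nonneg _
      have hs1 : s ≤ 1 := by
        rw [hs]
        exact Real.sqrt_le_one.2 hw.2.le
      have h4 : 1 * (s ^ 2) ^ k ≤ (s ^ 2) ^ q * s ^ k := by
        rw [one_mul, ← pow_mul, ← pow_mul, ← pow_add]
        exact pow_le_pow_of_le_one hs0 hs1 (by omega)
      simp only
      rw [← hs]
      rwa [← hs2] at h4
  have hterm : ∀ k ∈ Finset.range N, g k ≤ r ^ k * dk n k * (Pg n k (Real.cos α) * Sk n k μ) := by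
    intro k _
    rw [hg]
    simp only
    have hr0 : 0 ≤ r ^ k := pow_nonneg h0 k
    have hr1 : r ^ k ≤ 1 := pow_le_one₀ h0 h1.le
    have hdk := dk_nonneg hn k
    have hSS : 0 ≤ ∑ i, fm n k (μ i) (μ i) := Finset.sum_nonneg fun i _ => fm_self hn k (h i)
    have hsumout : ∀ c : ℝ, ∑ i, dk n k * c * fm n k (μ i) (μ i) =
        dk n k * c * ∑ i, fm n k (μ i) (μ i) := fun c => by rw [Finset.mul_sum]
    split_ifs with hk0 hodd hlow
    · subst hk0
      rw [pow_zero, dk_zero hn, Pg_zero]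
      unfold Sk
      have : ∑ i, ∑ j ∈ Finset.univ.filter (fun j => i < j), fm n 0 (μ i) (μ j) =
          (J : ℝ) * (J - 1) / 2 := by
        rw [← card_pairs J]
        refine Finset.sum_congr rfl fun i _ => Finset.sum_congr rfl fun j _ => ?_
        exact fm_zero (h i) (h j)
      rw [this]
      simp
    · exact le_rfl
    · have hev : Even k := by
        rcases Nat.even_or_odd k with h2 | h2
        · exact h2
        · exact absurd ⟨h2, hlow⟩ hodd
      have hP0 := heven k hlow hev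
      have hP1 : Pg n k (Real.cos α) ≤ LE n (fun φ => 1 * wf α φ ^ k) :=
        (le_abs_self _).trans (hLE1 k)
      have hS := low_bound hn k μ h
      rw [hsumout]
      change -(1 / 2) * ∑ i, fm n k (μ i) (μ i) ≤ Sk n k μ at hS
      set L := LE n (fun φ => 1 * wf α φ ^ k)
      set P := Pg n k (Real.cos α)
      set Q := ∑ i, fm n k (μ i) (μ i)
      set X := r ^ k
      set d := dk n k
      have e1 : P * (-(1 / 2) * Q) ≤ P * Sk n k μ := mul_le_mul_of_nonneg_left hS hP0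
      have e2 : X * d * (P * (-(1 / 2) * Q)) ≤ X * d * (P * Sk n k μ) :=
        mul_le_mul_of_nonneg_left e1 (mul_nonneg hr0 hdk)
      refine le_trans ?_ e2
      have e3 : X * d * P * Q ≤ 1 * d * L * Q := by
        apply mul_le_mul_of_nonneg_right _ hSS
        apply mul_le_mul _ hP1 hP0 (mul_nonneg zero_le_one hdk)
        exact mul_le_mul_of_nonneg_right hr1 hdk
      nlinarith
    · have hk2 : 2 * q ≤ k := not_lt.1 hlow
      have hP1 := (hLE1 k).trans (hLE2 k hk2)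
      have hS := high_bound hn k μ h
      rw [hsumout]
      change |Sk n k μ| ≤ (J : ℝ) / 2 * ∑ i, fm n k (μ i) (μ i) at hS
      set L := LE n (fun φ => wf α φ ^ q * (Real.sqrt (wf α φ)) ^ k)
      set P := Pg n k (Real.cos α)
      set Q := ∑ i, fm n k (μ i) (μ i)
      set X := r ^ k
      set d := dk n k
      have e1 : |X * d * (P * Sk n k μ)| ≤ 1 * d * (L * ((J : ℝ) / 2 * Q)) := by
        rw [abs_mul, abs_mul P, abs_of_nonneg (mul_nonneg hr0 hdk)]
        apply mul_le_mul (mul_le_mul_of_nonneg_right hr1 hdk) _ (by positivity)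
          (mul_nonneg zero_le_one hdk)
        exact mul_le_mul hP1 hS (abs_nonneg _) ((abs_nonneg _).trans hP1)
      have e2 := (abs_le.1 e1).1
      linarith
  have hsumle : ∑ k ∈ Finset.range N, g k ≤
      ∑ k ∈ Finset.range N, r ^ k * dk n k * (Pg n k (Real.cos α) * Sk n k μ) :=
    Finset.sum_le_sum hterm
  refine le_trans ?_ hsumle
  -- split the sum of g
  set A := (Finset.range N).filter (fun k => k ≠ 0 ∧ ¬(Odd k ∧ k < 2 * q) ∧ k < 2 * q) with hA
  set B := (Finset.range N).filter (fun k => k ≠ 0 ∧ ¬(Odd k ∧ k < 2 * q) ∧ ¬ k < 2 * q) with hBdef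
  have hsplit : ∑ k ∈ Finset.range N, g k = (J : ℝ) * (J - 1) / 2 + Or n q α μ r +
      ∑ k ∈ A, (-(1 / 2) * ∑ i, dk n k * LE n (fun φ => 1 * wf α φ ^ k) *
        fm n k (μ i) (μ i)) +
      ∑ k ∈ B, (-((J : ℝ) / 2) * ∑ i, dk n k *
        LE n (fun φ => wf α φ ^ q * (Real.sqrt (wf α φ)) ^ k) * fm n k (μ i) (μ i)) := by
    have e1 : ∀ k, g k = (if k = 0 then (J : ℝ) * (J - 1) / 2 else 0) +
        (if Odd k ∧ k < 2 * q then r ^ k * dk n k * (Pg n k (Real.cos α) * Sk n k μ) else 0) +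
        (if k ≠ 0 ∧ ¬(Odd k ∧ k < 2 * q) ∧ k < 2 * q then
          (-(1 / 2) * ∑ i, dk n k * LE n (fun φ => 1 * wf α φ ^ k) *
        fm n k (μ i) (μ i)) else 0) +
        (if k ≠ 0 ∧ ¬(Odd k ∧ k < 2 * q) ∧ ¬ k < 2 * q then
          (-((J : ℝ) / 2) * ∑ i, dk n k *
        LE n (fun φ => wf α φ ^ q * (Real.sqrt (wf α φ)) ^ k) * fm n k (μ i) (μ i)) else 0) := by
      intro k
      rw [hg]
      simp only
      by_cases hk0 : k = 0
      · subst hk0; simp
      · by_cases hodd : Odd k ∧ k < 2 * q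
        · simp [hk0, hodd]
        · by_cases hlow : k < 2 * q
          · rw [if_neg hk0, if_neg hodd, if_pos hlow, if_neg hk0, if_neg hodd,
              if_pos ⟨hk0, hodd, hlow⟩, if_neg (fun h => h.2.2 hlow)]
            ring
          · rw [if_neg hk0, if_neg hodd, if_neg hlow, if_neg hk0, if_neg hodd,
              if_neg (fun h => hlow h.2.2), if_pos ⟨hk0, hodd, hlow⟩]
            ring
    rw [Finset.sum_congr rfl fun k _ => e1 k, Finset.sum_add_distrib, Finset.sum_add_distrib,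
      Finset.sum_add_distrib, hA, hBdef, Finset.sum_filter, Finset.sum_filter]
    congr 1
    congr 1
    congr 1
    · rw [Finset.sum_ite_eq' (Finset.range N) 0]
      rw [if_pos (Finset.mem_range.2 (by omega))]
    · unfold Or
      rw [← Finset.sum_filter]
      refine Finset.sum_congr ?_ fun _ _ => rfl
      ext k
      simp only [Finset.mem_filter, Finset.mem_range]
      constructor
      · rintro ⟨_, h3, h4⟩; exact ⟨h4, h3⟩
      · rintro ⟨h3, h4⟩; exact ⟨by omega, h4, h3⟩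
  rw [hsplit]
  have hA1 : ∑ k ∈ A, (-(1 / 2) * ∑ i, dk n k * LE n (fun φ => 1 * wf α φ ^ k) *
        fm n k (μ i) (μ i)) ≥ -(1 / 2) * (η' * ∑ i, D i) := by
    rw [← Finset.mul_sum, Finset.sum_comm]
    have e2 : ∑ i, ∑ k ∈ A, dk n k * LE n (fun φ => 1 * wf α φ ^ k) * fm n k (μ i) (μ i) ≤
        η' * ∑ i, D i := by
      rw [Finset.mul_sum]
      refine Finset.sum_le_sum fun i _ => ?_
      refine (LE_bound hn (h i) (D i) Γ (hB i) (fun _ => 1) (wf α) continuous_const (wf_cont α)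
        (fun _ => zero_le_one) (fun φ hφ => wf_mem hα0 hα1 hcos hφ) (by simpa using hint1) A).trans ?_
      simp only [one_mul]
      rw [mul_comm]
      exact mul_le_mul_of_nonneg_right hη' (hD i)
    linarith
  have hB1 : ∑ k ∈ B, (-((J : ℝ) / 2) * ∑ i, dk n k *
        LE n (fun φ => wf α φ ^ q * (Real.sqrt (wf α φ)) ^ k) * fm n k (μ i) (μ i)) ≥
        -((J : ℝ) / 2) * (η * ∑ i, D i) := by
    rw [← Finset.mul_sum, Finset.sum_comm]
    have e2 : ∑ i, ∑ k ∈ B, dk n k * LE n (fun φ => wf α φ ^ q * (Real.sqrt (wf α φ)) ^ k) *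
        fm n k (μ i) (μ i) ≤ η * ∑ i, D i := by
      rw [Finset.mul_sum]
      refine Finset.sum_le_sum fun i _ => ?_
      refine (LE_bound hn (h i) (D i) Γ (hB i) (fun φ => wf α φ ^ q)
        (fun φ => Real.sqrt (wf α φ)) ((wf_cont α).pow q) (wf_cont α).sqrt
        (fun φ => pow_nonneg (Real.sqrt_nonneg _) q) (fun φ hφ => ?_) hint2 B).trans ?_
      · have hw := wf_mem hα0 hα1 hcos hφ
        refine ⟨Real.sqrt_pos.2 hw.1, ?_⟩
        rw [Real.sqrt_lt' one_pos]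
        simpa using hw.2
      · rw [mul_comm]
        exact mul_le_mul_of_nonneg_right hη (hD i)
    have e3 : (0 : ℝ) ≤ (J : ℝ) / 2 := by positivity
    nlinarith [mul_le_mul_of_nonneg_left e2 e3]
  linarith

end Pool.Agent.H225.Sp
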