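import Pool.Agent.H225.Sp7

/-!
The sphere lemma, conclusion.
-/

set_option autoImplicit false
set_option linter.unusedSectionVars false

open MeasureTheory Metric Set Filter Module
open scoped ENNReal NNReal Topology RealInnerProductSpace

namespace Pool.Agent.H225.Sp
open Pool.Agent.W778.AG

variable {n : ℕ}

lemma cos_angle_le {α θ δ : ℝ} (hα0 : 0 ≤ α) (hα1 : α ≤ Real.pi) (hθ0 : 0 ≤ θ)
    (hθ1 : θ ≤ Real.pi) (hδ0 : 0 ≤ δ) (h : δ ≤ |θ - α|) : Real.cos (θ - α) ≤ Real.cos δ := by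
  rw [← Real.cos_abs (θ - α)]
  apply Real.cos_le_cos_of_nonneg_of_le_pi hδ0 _ h
  rw [abs_le]
  constructor <;> linarith

lemma pair_upper (hn : 3 ≤ n) (α δ : ℝ) (hα0 : 0 < α) (hα1 : α < Real.pi) (hδ0 : 0 < δ)
    {μ μ' : Measure (En n)} (h : Sph μ) (h' : Sph μ') (F F' : Set (En n))
    (hF : IsCompact F) (hF' : IsCompact F') (hμF : μ Fᶜ = 0) (hμF' : μ' F'ᶜ = 0)
    (hsep : ∀ u ∈ F, ∀ v ∈ F', δ ≤ |Real.arccos ⟪u, v⟫ - α|)
    {r : ℝ} (h0 : 0 ≤ r) (h1 : r < 1) :
    ∑' k : ℕ, r ^ k * dk n k * (Pg n k (Real.cos α) * fm n k μ μ') ≤ pk n r (Real.cos δ) := by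
  have := h.1
  have := h'.1
  have hpk := Pool.Agent.W646.AG.pk_nonneg n h0 h1 (Real.cos δ)
  rw [tsum_int2 hn h0 h1 _ (fun k => Pg_abs hn k (Real.abs_cos_le_one α)) h h']
  by_cases hint : Integrable (fun p : En n × En n => ∑' k : ℕ, r ^ k * dk n k *
      (Pg n k (Real.cos α) * Pg n k ⟪p.1, p.2⟫)) (μ.prod μ')
  · have hae : ∀ᵐ p ∂(μ.prod μ'), p.1 ∈ F ∧ p.2 ∈ F' := by
      refine (Measure.ae_prod_iff_ae_ae ?_).2 ?_
      · exact (measurable_fst hF.measurableSet).inter (measurable_snd hF'.measurableSet)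
      · have e1 : ∀ᵐ u ∂μ, u ∈ F := by rw [ae_iff]; exact hμF
        have e2 : ∀ᵐ u ∂μ', u ∈ F' := by rw [ae_iff]; exact hμF'
        filter_upwards [e1] with z hz
        filter_upwards [e2] with b hb
        exact ⟨hz, hb⟩
    calc ∫ p : En n × En n, ∑' k : ℕ, r ^ k * dk n k *
        (Pg n k (Real.cos α) * Pg n k ⟪p.1, p.2⟫) ∂(μ.prod μ') ≤
        ∫ _, pk n r (Real.cos δ) ∂(μ.prod μ') := by
          refine integral_mono_ae hint (integrable_const _) ?_
          filter_upwards [hae, prod_ae h h'] with p hp hp1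
          have hi := abs_inner_le_one hp1.1 hp1.2
          have hc := Real.cos_arccos (abs_le.1 hi).1 (abs_le.1 hi).2
          have h3 := conc n hn r h0 h1 α (Real.arccos ⟪p.1, p.2⟫) hα0.le hα1.le
            (Real.arccos_nonneg _) (Real.arccos_le_pi _)
          rw [hc] at h3
          refine h3.trans ?_
          exact pk_mono h0 h1 (cos_angle_le hα0.le hα1.le (Real.arccos_nonneg _)
            (Real.arccos_le_pi _) hδ0.le (hsep _ hp.1 _ hp.2)) (Real.cos_le_one _)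
      _ = pk n r (Real.cos δ) := by rw [integral_const, probReal_univ, one_smul]
  · rw [integral_undef hint]
    exact hpk

/-- the sphere lemma -/
theorem sphere_lemma : S_A := by
  intro n q J α Γ η' η μ D F hn hα0 hα1 hcos heven _ hint1 hint2 hη' hη h hD hB hF _ hμF hlt
  by_contra hno
  push Not at hno
  -- separation
  set C : Set (En n × En n) := ⋃ p : {p : Fin J × Fin J // p.1 < p.2}, F p.1.1 ×ˢ F p.1.2 with hC
  have hCc : IsCompact C := isCompact_iUnion fun p => (hF _).prod (hF _)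
  have hcont : Continuous fun p : En n × En n => |Real.arccos ⟪p.1, p.2⟫ - α| := by
    have := Real.continuous_arccos
    fun_prop
  obtain ⟨δ', hδ', hsep⟩ := hCc.exists_forall_le' (a := 0) hcont.continuousOn (by
    intro p hp
    rw [hC, mem_iUnion] at hp
    obtain ⟨⟨⟨i, j⟩, hij⟩, hp1, hp2⟩ := hp
    rw [abs_pos, sub_ne_zero]
    intro heq
    apply hno i j hij _ hp1 _ hp2
    have hle : |⟪p.1, p.2⟫| ≤ 1 := by
      by_contra hgt
      rw [not_le, lt_abs] at hgt
      rcases hgt with hgt | hgt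
      · rw [Real.arccos_of_one_le hgt.le] at heq
        linarith
      · rw [Real.arccos_of_le_neg_one (by linarith)] at heq
        linarith
    rw [← heq, Real.cos_arccos (abs_le.1 hle).1 (abs_le.1 hle).2])
  set δ := min δ' 1 with hδ
  have hδ0 : 0 < δ := lt_min hδ' one_pos
  have hδ1 : δ ≤ 1 := min_le_right _ _
  have hcδ : Real.cos δ < 1 := by
    have h3 : Real.cos δ < Real.cos 0 :=
      Real.cos_lt_cos_of_nonneg_of_le_pi le_rfl (by linarith [Real.pi_gt_three]) hδ0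
    rwa [Real.cos_zero] at h3
  -- upper bound
  have hupper : ∀ r : ℝ, 0 ≤ r → r < 1 → Tr n α μ r ≤
      (J : ℝ) * (J - 1) / 2 * pk n r (Real.cos δ) := by
    intro r h0 h1
    rw [Tr_eq hn α μ h h0 h1, ← card_pairs J, Finset.sum_mul]
    refine Finset.sum_le_sum fun i _ => ?_
    rw [Finset.sum_mul]
    refine Finset.sum_le_sum fun j hj => ?_
    rw [one_mul]
    have hij : i < j := (Finset.mem_filter.1 hj).2
    refine pair_upper hn α δ hα0 hα1 hδ0 (h i) (h j) (F i) (F j) (hF i) (hF j) (hμF i) (hμF j)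
      (fun u hu v hv => ?_) h0 h1
    refine (min_le_left _ _).trans (hsep (u, v) ?_)
    rw [hC, mem_iUnion]
    exact ⟨⟨(i, j), hij⟩, hu, hv⟩
  have hlow : ∀ r : ℝ, 0 ≤ r → r < 1 →
      (J : ℝ) * (J - 1) / 2 + Or n q α μ r - (η' + J * η) / 2 * ∑ i, D i ≤ Tr n α μ r :=
    fun r h0 h1 => Tr_lower hn q J α Γ η' η μ D hα0 hα1 hcos heven hint1 hint2 hη' hη h hD hB
      h0 h1
  have hlim1 : Tendsto (fun r : ℝ => (J : ℝ) * (J - 1) / 2 + Or n q α μ r -
      (η' + J * η) / 2 * ∑ i, D i) (𝓝[<] 1) (𝓝 ((J : ℝ) * (J - 1) / 2 + Or n q α μ 1 -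
      (η' + J * η) / 2 * ∑ i, D i)) := by
    have hO := Or_cont (n := n) q α μ
    exact ((Continuous.tendsto (by fun_prop) 1).mono_left nhdsWithin_le_nhds)
  have hlim2 : Tendsto (fun r : ℝ => (J : ℝ) * (J - 1) / 2 * pk n r (Real.cos δ)) (𝓝[<] 1)
      (𝓝 ((J : ℝ) * (J - 1) / 2 * pk n 1 (Real.cos δ))) := by
    refine Tendsto.mono_left ?_ nhdsWithin_le_nhds
    refine Tendsto.const_mul _ ?_
    unfold pk
    refine Tendsto.div (Continuous.tendsto (by fun_prop) 1)
      (Continuous.tendsto (by fun_prop) 1) ?_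
    apply ne_of_gt
    apply pow_pos
    apply Real.sqrt_pos.2
    linarith
  have hle := le_of_tendsto_of_tendsto hlim1 hlim2 (by
    have hev : ∀ᶠ r : ℝ in 𝓝[<] 1, r ∈ Ioo (0 : ℝ) 1 := Ioo_mem_nhdsLT one_pos
    filter_upwards [hev] with r hr
    exact (hlow r hr.1.le hr.2).trans (hupper r hr.1.le hr.2))
  have hpk1 : pk n 1 (Real.cos δ) = 0 := by
    unfold pk; simp
  rw [hpk1, mul_zero, Or_one] at hle
  linarith

end Pool.Agent.H225.Sp
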