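import Mathlib
import Pool.Agent.H812.Tm.Spec4

/-! # SCh: chains consist of fans (helper225 for helper812) -/

set_option autoImplicit false

open Real Filter Topology Set

namespace Pool.Agent.H225.TmSCh

open Pool.Agent.W811.Stu Pool.Agent.H812.Tm

lemma tanR {p u : P3} (h : Tan p u) : Tan (stepR p) (dR p u) := by
  unfold Tan gA gB gX stepR dR at *
  simp only
  linear_combination h

lemma tanS {p u : P3} (h : Tan p u) : Tan (stepS p) (dS u) := by
  unfold Tan gA gB gX stepS dS at *
  simp only
  linear_combination h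

lemma tan_iter {p u : P3} (h : Tan p u) (k : ℕ) : Tan (stepR^[k] p) (dRk k p u) := by
  induction k with
  | zero => exact h
  | succ k ih =>
    rw [Function.iterate_succ_apply']
    exact tanR ih

lemma tan_orb {p u : P3} (h : Tan p u) (d : ℕ → ℕ) (m : ℕ) : Tan (orb d p m) (dorb d p u m) := by
  induction m with
  | zero => exact h
  | succ m ih => exact tanS (tan_iter ih (d m))

/-- exchange of `x` and `y` -/
def sw (p : P3) : P3 := ⟨p.z, p.x, p.y⟩

lemma onS_sw {δ : ℝ} {p : P3} (h : OnS δ p) : OnS δ (sw p) := by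
  unfold OnS sw at *
  simp only
  linear_combination h

lemma tan_sw {p u : P3} (h : Tan p u) : Tan (sw p) (sw u) := by
  unfold Tan gA gB gX sw at *
  simp only
  linear_combination h

lemma stepR_sw (p : P3) : stepR (sw p) = stepS (stepR p) := by
  unfold stepR sw stepS
  ext <;> simp only
  ring

lemma dR_sw (p u : P3) : dR (sw p) (sw u) = dS (dR p u) := by
  unfold dR sw dS
  ext <;> simp only
  ring

lemma dRk_succ' (k : ℕ) (p u : P3) : dRk (k + 1) p u = dRk k (stepR p) (dR p u) := by
  induction k with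
  | zero => rfl
  | succ k ih =>
    show dR (stepR^[k + 1] p) (dRk (k + 1) p u) = dR (stepR^[k] (stepR p)) (dRk k (stepR p) (dR p u))
    rw [ih, Function.iterate_succ_apply]

lemma dRk_y (k : ℕ) (p u : P3) : (dRk k p u).y = u.y := by
  induction k with
  | zero => rfl
  | succ k ih => exact ih

lemma dRk_x (k : ℕ) (p u : P3) : (dRk k p u).x = (dRk (k + 1) p u).z := rfl

lemma pt_T (d : ℕ → ℕ) (p : P3) (j k : ℕ) :
    (Ch.T j k).pt d p = sw (stepR^[k] (orb d p j)) := by
  unfold Ch.pt sw tf
  simp only
  rw [iter_x, iter_y]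

lemma tg_T (d : ℕ → ℕ) (p u : P3) (j k : ℕ) :
    (Ch.T j k).tg d p u = sw (dRk k (orb d p j) (dorb d p u j)) := by
  unfold Ch.tg sw
  simp only
  rw [dRk_x, dRk_y]

/-- the states which occur -/
def Inv (d : ℕ → ℕ) : Ch → Prop
  | .Y _ => True
  | .T j k => k < d j

lemma inv_seq (d : ℕ → ℕ) (hd : ∀ k, 1 ≤ d k) (bad : ℕ → Bool) (i : ℕ) :
    Inv d (Ch.seq d bad i) := by
  induction i with
  | zero =>
    unfold Ch.seq
    cases hb : bad 0
    · simp [Inv]
    · exact hd 0
  | succ i ih =>
    show Inv d (Ch.nx d bad (Ch.seq d bad i))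
    generalize Ch.seq d bad i = s at ih
    cases s with
    | Y j =>
      cases hb : bad (j + 1)
      · simp [Ch.nx, hb, Inv]
      · have e : Ch.nx d bad (Ch.Y j) = Ch.T (j + 1) 0 := by simp [Ch.nx, hb]
        rw [e]
        exact hd (j + 1)
    | T j k =>
      by_cases hk : k + 1 < d j
      · simp [Ch.nx, hk, Inv]
      · cases hb : bad (j + 2)
        · simp [Ch.nx, hk, hb, Inv]
        · have e : Ch.nx d bad (Ch.T j k) = Ch.T (j + 2) 0 := by simp [Ch.nx, hk, hb]
          rw [e]
          exact hd (j + 2)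

theorem tSCh : SCh := by
  intro δ d hd bad p u hp hu i s s' hs hs'
  have hinv := inv_seq d hd bad i
  rw [← hs] at hinv
  have hnx : s' = Ch.nx d bad s := by rw [hs', hs]; rfl
  rw [hnx]
  clear hnx hs hs' s'
  cases s with
  | Y j =>
    refine ⟨hp.orb d j, tan_orb hu d j, ?_, ?_⟩
    · cases hb : bad (j + 1)
      · simpa [Ch.dg, hb] using hd j
      · simp [Ch.dg, hb]
    · cases hb : bad (j + 1)
      · have e1 : Ch.nx d bad (Ch.Y j) = Ch.Y (j + 1) := by simp [Ch.nx, hb]
        have e2 : Ch.dg d bad (Ch.Y j) = d j := by simp [Ch.dg, hb]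
        rw [e1, e2]
        refine ⟨orb_succ_z d p j, rfl, ?_, rfl⟩
        show (dRk (d j) (orb d p j) (dorb d p u j)).y = _
        rw [dRk_y]
        rfl
      · have e1 : Ch.nx d bad (Ch.Y j) = Ch.T (j + 1) 0 := by simp [Ch.nx, hb]
        have e2 : Ch.dg d bad (Ch.Y j) = d j + 1 := by simp [Ch.dg, hb]
        rw [e1, e2, pt_T, tg_T]
        refine ⟨orb_succ_z d p j, ?_, ?_, rfl⟩
        · show (orb d p (j + 1)).x = _
          rw [orb_succ_x]
          rfl
        · show (dRk (d j) (orb d p j) (dorb d p u j)).y = _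
          rw [dRk_y]
          rfl
  | T j k =>
    have hk : k < d j := hinv
    rw [pt_T, tg_T]
    set q := stepR^[k] (orb d p j) with hq
    set v := dRk k (orb d p j) (dorb d p u j) with hv
    have hq1 : stepR q = stepR^[k + 1] (orb d p j) := by
      rw [hq, Function.iterate_succ_apply']
    have hv1 : dR q v = dRk (k + 1) (orb d p j) (dorb d p u j) := rfl
    refine ⟨onS_sw ((hp.orb d j).iter k), tan_sw (tan_iter (tan_orb hu d j) k), ?_, ?_⟩
    · by_cases h1 : k + 1 < d j
      · simp [Ch.dg, h1]
      · cases hb : bad (j + 2)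
        · simp [Ch.dg, h1, hb]
        · simp [Ch.dg, h1, hb]
    · by_cases h1 : k + 1 < d j
      · have e1 : Ch.nx d bad (Ch.T j k) = Ch.T j (k + 1) := by simp [Ch.nx, h1]
        have e2 : Ch.dg d bad (Ch.T j k) = 2 := by simp [Ch.dg, h1]
        rw [e1, e2, pt_T, tg_T, ← hq1, ← hv1]
        refine ⟨rfl, ?_, rfl, ?_⟩
        · show (stepR q).x = (stepR (stepR (sw q))).z
          rw [stepR_sw]
          rfl
        · show (dR q v).x = (dR (stepR (sw q)) (dR (sw q) (sw v))).z
          rw [dR_sw]
          rfl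
      · have h2 : k + 1 = d j := by omega
        have e3 : stepR (sw q) = orb d p (j + 1) := by
          rw [stepR_sw, hq1, h2]
          rfl
        have e4 : dR (sw q) (sw v) = dorb d p u (j + 1) := by
          rw [dR_sw, hv1, h2]
          rfl
        have e5 : (orb d p (j + 1)).y = (sw q).y := by rw [← e3]; rfl
        have e6 : (dorb d p u (j + 1)).y = (sw v).y := by rw [← e4]; rfl
        cases hb : bad (j + 2)
        · have e1 : Ch.nx d bad (Ch.T j k) = Ch.Y (j + 2) := by simp [Ch.nx, h1, hb]
          have e2 : Ch.dg d bad (Ch.T j k) = d (j + 1) + 1 := by simp [Ch.dg, h1, hb]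
          rw [e1, e2]
          refine ⟨?_, ?_, ?_, ?_⟩
          · rw [← e5]
            exact orb_succ_z d p (j + 1)
          · rw [Function.iterate_succ_apply, e3]
            rfl
          · rw [← e6]
            show (dRk (d (j + 1)) (orb d p (j + 1)) (dorb d p u (j + 1))).y = _
            rw [dRk_y]
          · rw [dRk_succ', e3, e4]
            rfl
        · have e1 : Ch.nx d bad (Ch.T j k) = Ch.T (j + 2) 0 := by simp [Ch.nx, h1, hb]
          have e2 : Ch.dg d bad (Ch.T j k) = d (j + 1) + 2 := by simp [Ch.dg, h1, hb]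
          rw [e1, e2, pt_T, tg_T]
          refine ⟨?_, ?_, ?_, ?_⟩
          · rw [← e5]
            exact orb_succ_z d p (j + 1)
          · rw [Function.iterate_succ_apply, e3]
            show (orb d p (j + 2)).x = _
            rw [orb_succ_x]
            rfl
          · rw [← e6]
            show (dRk (d (j + 1)) (orb d p (j + 1)) (dorb d p u (j + 1))).y = _
            rw [dRk_y]
          · rw [dRk_succ', e3, e4]
            rfl

end Pool.Agent.H225.TmSCh
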