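import Pool.Agent.H724.WE.EqStm

/-! Project WE (helper724), tasks EQ4 and EQ5: inflations give new solutions. -/

set_option autoImplicit false

namespace Pool.Agent.H225.WE

open H724.WE
open scoped Classical

section infl

variable {α : Type} (W : ℕ → α) (u : List α) (K : ℕ) (y : ℕ → ℕ)

theorem infl_zero (p : ℕ) : infl W u K y p 0 = [] := by simp [infl]

theorem infl_one (p : ℕ) :
    infl W u K y p 1 = (List.replicate (K * y p) u).flatten ++ [W p] := by simp [infl]

theorem infl_add (p t t' : ℕ) :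
    infl W u K y p (t + t') = infl W u K y p t ++ infl W u K y (p + t) t' := by
  unfold infl
  rw [List.range_add, List.flatMap_append, List.flatMap_map]
  congr 1
  simp only [add_assoc]

theorem infl_ne (p : ℕ) {t : ℕ} (ht : 1 ≤ t) : infl W u K y p t ≠ [] := by
  obtain ⟨s, rfl⟩ : ∃ s, t = s + 1 := ⟨t - 1, by omega⟩
  rw [infl_add, infl_one]
  simp

theorem infl_hit {p q t : ℕ} (h1 : p ≤ q) (h2 : q < p + t) (hq : y q ≠ 0) :
    (List.replicate K u).flatten <:+: infl W u K y p t := by
  obtain ⟨s, rfl⟩ : ∃ s, q = p + s := ⟨q - p, by omega⟩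
  obtain ⟨r, rfl⟩ : ∃ r, t = s + (1 + r) := ⟨t - s - 1, by omega⟩
  rw [infl_add, infl_add, infl_one]
  obtain ⟨m, hm⟩ : ∃ m, K * y (p + s) = K + m := by
    refine ⟨K * y (p + s) - K, ?_⟩
    have : K ≤ K * y (p + s) := Nat.le_mul_of_pos_right K (Nat.pos_of_ne_zero hq)
    omega
  rw [hm, List.replicate_add, List.flatten_append]
  refine ⟨infl W u K y p s, (List.replicate m u).flatten ++ [W (p + s)] ++
    infl W u K y (p + s + 1) r, ?_⟩
  simp [List.append_assoc]

end infl

section sub

variable {A Ω : Type}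

theorem subst_append (σ : Ω → List A) (U V : List (A ⊕ Ω)) :
    subst σ (U ++ V) = subst σ U ++ subst σ V := by
  unfold subst
  rw [List.flatMap_append]

theorem subst_inl (σ : Ω → List A) (a : A) : subst σ [Sum.inl a] = [a] := by
  simp [subst]

theorem subst_inr (σ : Ω → List A) (X : Ω) : subst σ [Sum.inr X] = σ X := by
  simp [subst]

theorem st_zero (σ : Ω → List A) (U : List (A ⊕ Ω)) : st σ U 0 = 0 := by
  simp [st, subst]

theorem st_len (σ : Ω → List A) (U : List (A ⊕ Ω)) : st σ U U.length = (subst σ U).length := by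
  rw [st, List.take_length]

theorem st_succ (σ : Ω → List A) (U : List (A ⊕ Ω)) {j : ℕ} (hj : j < U.length) :
    st σ U (j + 1) = st σ U j + (subst σ [U[j]]).length := by
  rw [st, ← List.take_concat_get' U j hj, subst_append, List.length_append, st]

theorem subst_take_succ (σ : Ω → List A) (U : List (A ⊕ Ω)) {j : ℕ} (hj : j < U.length) :
    subst σ (U.take (j + 1)) = subst σ (U.take j) ++ subst σ [U[j]] := by
  rw [← List.take_concat_get' U j hj, subst_append]

theorem wd_inl (a0 : A) (σ : Ω → List A) (U : List (A ⊕ Ω)) {j : ℕ} (hj : j < U.length) {a : A}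
    (ha : U[j] = Sum.inl a) : wd a0 σ U (st σ U j) = a := by
  have h1 : subst σ U = subst σ (U.take j) ++ ([a] ++ subst σ (U.drop (j + 1))) := by
    conv_lhs => rw [← List.take_append_drop (j + 1) U, subst_append, subst_take_succ σ U hj, ha,
      subst_inl]
    rw [List.append_assoc]
  unfold wd st
  rw [h1]
  simp [List.getD]

theorem main (a0 : A) (U : List (A ⊕ Ω)) (σ σ' : Ω → List A) (u : List A) (K : ℕ) (y : ℕ → ℕ)
    (hy : ∀ j ≤ U.length, y (st σ U j) = 0)
    (hσ' : ∀ j X, U[j]? = some (Sum.inr X) →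
      σ' X = infl (wd a0 σ U) u K y (st σ U j) (σ X).length) :
    ∀ j ≤ U.length, subst σ' (U.take j) = infl (wd a0 σ U) u K y 0 (st σ U j) := by
  intro j
  induction j with
  | zero =>
    intro _
    rw [st_zero, infl_zero]
    simp [subst]
  | succ j ih =>
    intro hj
    have hj' : j < U.length := by omega
    rw [subst_take_succ σ' U hj', ih (by omega), st_succ σ U hj', infl_add, zero_add]
    congr 1
    rcases hs : U[j] with a | X
    · rw [subst_inl, subst_inl, List.length_singleton, infl_one, hy j (by omega),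
        wd_inl a0 σ U hj' hs]
      simp
    · rw [subst_inr, subst_inr]
      exact hσ' j X (by rw [List.getElem?_eq_getElem hj', hs])

end sub

/-- EQ4 -/
theorem eqInfl : S_eqInfl := by
  intro A Ω a0 U V σ hσ u K y hyU hyV hband
  let σ' : Ω → List A := fun X => if h : ∃ p, IsOcc σ U V X p then
    infl (wd a0 σ U) u K y h.choose (σ X).length else σ X
  have hocc : ∀ X p, IsOcc σ U V X p → σ' X = infl (wd a0 σ U) u K y p (σ X).length := by
    intro X p hp
    have h : ∃ p, IsOcc σ U V X p := ⟨p, hp⟩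
    simp only [σ']
    rw [dif_pos h]
    exact hband X _ _ h.choose_spec hp
  have hwd : wd a0 σ U = wd a0 σ V := by
    unfold wd
    rw [hσ.2]
  refine ⟨σ', ⟨fun X => ?_, ?_⟩, hocc⟩
  · have hlen : 1 ≤ (σ X).length := List.length_pos_iff.2 (hσ.1 X)
    by_cases h : ∃ p, IsOcc σ U V X p
    · rw [hocc X _ h.choose_spec]
      exact infl_ne _ _ _ _ _ hlen
    · simp only [σ']
      rw [dif_neg h]
      exact hσ.1 X
  · have h1 := main a0 U σ σ' u K y hyU (fun j X hj => hocc X _ (Or.inl ⟨j, hj, rfl⟩)) _ le_rfl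
    have h2 := main a0 V σ σ' u K y hyV (fun j X hj => by
      rw [hocc X _ (Or.inr ⟨j, hj, rfl⟩), hwd]) _ le_rfl
    rw [List.take_length, st_len] at h1 h2
    rw [h1, h2, hwd, hσ.2]

theorem exists_step (f : ℕ → ℕ) (n q : ℕ) (h0 : f 0 ≤ q) (hn : q < f n) :
    ∃ j < n, f j ≤ q ∧ q < f (j + 1) := by
  induction n with
  | zero => omega
  | succ n ih =>
    by_cases h : q < f n
    · obtain ⟨j, hj, h1, h2⟩ := ih h
      exact ⟨j, by omega, h1, h2⟩
    · exact ⟨n, by omega, by omega, hn⟩

/-- EQ5 -/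
theorem eqHit : S_eqHit := by
  intro A Ω a0 U V σ hσ u K y hyU q hq hyq
  obtain ⟨j, hj, h1, h2⟩ := exists_step (st σ U) U.length q (by rw [st_zero]; omega)
    (by rw [st_len]; exact hq)
  rw [st_succ σ U hj] at h2
  rcases hs : U[j] with a | X
  · rw [hs, subst_inl, List.length_singleton] at h2
    have : q = st σ U j := by omega
    exact absurd (this ▸ hyU j hj.le) hyq
  · rw [hs, subst_inr] at h2
    refine ⟨X, st σ U j, Or.inl ⟨j, by rw [List.getElem?_eq_getElem hj, hs], rfl⟩, ?_, ?_⟩
    · rw [← hs]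
      exact List.getElem_mem hj
    · exact infl_hit _ _ _ _ h1 h2 hyq

end Pool.Agent.H225.WE
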